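import Pool.Agent.Work.MP_c07f0d_lc.Parity

/-!
# Alternating lists of labels
-/

namespace FregeEF

/-- Labels: a sign and a value. -/
abbrev Lbl := Bool × ℕ

/-- Sorted by value, with alternating signs starting with `s`. -/
def SAlt : Bool → List Lbl → Prop
  | _, [] => True
  | s, x :: l => x.1 = s ∧ (∀ y ∈ l, x.2 < y.2) ∧ SAlt (!s) l

open Classical in
/-- Alternating after sorting. -/
noncomputable def altB (s : Bool) (L : List Lbl) : Bool := decide (∃ L', L'.Perm L ∧ SAlt s L')

theorem altB_iff {s : Bool} {L : List Lbl} : altB s L = true ↔ ∃ L', L'.Perm L ∧ SAlt s L' := by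
  simp [altB]

theorem altB_perm {s : Bool} {L L' : List Lbl} (h : L.Perm L') : altB s L = altB s L' := by
  rw [Bool.eq_iff_iff, altB_iff, altB_iff]
  exact ⟨fun ⟨M, h1, h2⟩ => ⟨M, h1.trans h, h2⟩, fun ⟨M, h1, h2⟩ => ⟨M, h1.trans h.symm, h2⟩⟩

theorem SAlt.pairwise {L : List Lbl} : ∀ {s : Bool}, SAlt s L → L.Pairwise fun x y => x.2 < y.2 := by
  induction L with
  | nil => intro s _; exact List.Pairwise.nil
  | cons x L ih => intro s h; exact List.pairwise_cons.2 ⟨h.2.1, ih h.2.2⟩

theorem SAlt.nodup {L : List Lbl} {s : Bool} (h : SAlt s L) : (L.map Prod.snd).Nodup := by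
  rw [List.Nodup, List.pairwise_map]
  exact h.pairwise.imp (fun h => Nat.ne_of_lt h)

theorem altB_nodup {s : Bool} {L : List Lbl} (h : altB s L = true) : (L.map Prod.snd).Nodup := by
  obtain ⟨L', h1, h2⟩ := altB_iff.1 h
  exact (h1.map Prod.snd).nodup_iff.1 h2.nodup

theorem altB_nil (s : Bool) : altB s [] = true := altB_iff.2 ⟨[], List.Perm.refl _, trivial⟩

theorem altB_cons_min {s : Bool} {x : Lbl} {l : List Lbl} (h : ∀ y ∈ l, x.2 < y.2) :
    altB s (x :: l) = ((x.1 == s) && altB (!s) l) := by
  rw [Bool.eq_iff_iff, Bool.and_eq_true, beq_iff_eq, altB_iff, altB_iff]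
  constructor
  · rintro ⟨L', h1, h2⟩
    cases L' with
    | nil => exact absurd h1.length_eq (by simp)
    | cons y l1 =>
      obtain ⟨h3, h4, h5⟩ := h2
      have hyx : y = x := by
        by_contra hne
        have hx : x ∈ y :: l1 := h1.mem_iff.2 (List.mem_cons_self ..)
        have hy : y ∈ x :: l := h1.mem_iff.1 (List.mem_cons_self ..)
        have hx' : x ∈ l1 := (List.mem_cons.1 hx).resolve_left (fun h => hne h.symm)
        have hy' : y ∈ l := (List.mem_cons.1 hy).resolve_left hne
        exact absurd (h4 x hx') (Nat.lt_asymm (h y hy'))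
      subst hyx
      exact ⟨h3, l1, h1.cons_inv, h5⟩
  · rintro ⟨h1, l1, h2, h3⟩
    exact ⟨x :: l1, h2.cons x, h1, fun y hy => h y (h2.mem_iff.1 hy), h3⟩

/-- The negative of a label. -/
def Lbl.opp (x : Lbl) : Lbl := (!x.1, x.2)

theorem SAlt.opp {L : List Lbl} : ∀ {s : Bool}, SAlt s L → SAlt (!s) (L.map Lbl.opp) := by
  induction L with
  | nil => intro s _; trivial
  | cons x L ih =>
    intro s h
    refine ⟨by simp [Lbl.opp, h.1], ?_, ih h.2.2⟩
    intro y hy
    obtain ⟨z, hz, rfl⟩ := List.mem_map.1 hy
    exact h.2.1 z hz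

theorem opp_opp (x : Lbl) : x.opp.opp = x := by simp [Lbl.opp]

theorem altB_opp (s : Bool) (L : List Lbl) : altB s (L.map Lbl.opp) = altB (!s) L := by
  rw [Bool.eq_iff_iff, altB_iff, altB_iff]
  constructor
  · rintro ⟨M, h1, h2⟩
    refine ⟨M.map Lbl.opp, ?_, h2.opp⟩
    have := h1.map Lbl.opp
    rw [List.map_map] at this
    have e : (Lbl.opp ∘ Lbl.opp) = id := by funext x; exact opp_opp x
    rwa [e, List.map_id] at this
  · rintro ⟨M, h1, h2⟩
    refine ⟨M.map Lbl.opp, h1.map _, ?_⟩
    have := h2.opp
    rwa [Bool.not_not] at this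

theorem altB_short {s : Bool} {L : List Lbl} {q : ℕ} (h : ∀ x ∈ L, x.2 < q) (hL : q < L.length) :
    altB s L = false := by
  by_contra hc
  have h1 := altB_nodup (by simpa using hc)
  have h2 : (L.map Prod.snd).toFinset ⊆ Finset.range q := by
    intro x hx
    rw [List.mem_toFinset] at hx
    obtain ⟨y, hy, rfl⟩ := List.mem_map.1 hx
    exact Finset.mem_range.2 (h y hy)
  have h3 := Finset.card_le_card h2
  rw [List.toFinset_card_of_nodup h1, List.length_map, Finset.card_range] at h3
  omega

/-! ### Sum over erasures -/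

/-- Parity over all lists obtained by erasing one entry. -/
def sumErase {δ : Type} : (List δ → Bool) → List δ → Bool
  | _, [] => false
  | g, x :: l => xor (g l) (sumErase (fun l' => g (x :: l')) l)

theorem sumErase_eq {δ : Type} (L : List δ) : ∀ (g : List δ → Bool),
    xorB ((List.range L.length).map fun i => g (L.eraseIdx i)) = sumErase g L := by
  induction L with
  | nil => intro g; rfl
  | cons x l ih =>
    intro g
    rw [List.length_cons, List.range_succ_eq_map, List.map_cons, xorB_cons, List.map_map, sumErase,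
      ← ih]
    rfl

theorem sumErase_congr {δ : Type} {L : List δ} : ∀ {g g' : List δ → Bool},
    (∀ l, l.Sublist L → g l = g' l) → sumErase g L = sumErase g' L := by
  induction L with
  | nil => intro g g' _; rfl
  | cons x l ih =>
    intro g g' h
    rw [sumErase, sumErase, h l (List.sublist_cons_self x l),
      ih (fun l' hl' => h (x :: l') (hl'.cons_cons x))]

theorem sumErase_perm {δ : Type} {L L' : List δ} (hL : L.Perm L') : ∀ {g : List δ → Bool},
    (∀ l l', l.Perm l' → g l = g l') → sumErase g L = sumErase g L' := by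
  induction hL with
  | nil => intro g _; rfl
  | @cons x l l' h ih =>
    intro g hg
    rw [sumErase, sumErase, hg _ _ h, ih (fun l l' hl => hg _ _ (hl.cons x))]
  | swap x y l =>
    intro g hg
    rw [sumErase, sumErase, sumErase, sumErase]
    have : sumErase (fun l' => g (y :: x :: l')) l = sumErase (fun l' => g (x :: y :: l')) l :=
      sumErase_congr (fun l' _ => hg _ _ (List.Perm.swap x y l'))
    rw [this]
    cases g (x :: l) <;> cases g (y :: l) <;> simp
  | trans _ _ ih1 ih2 => intro g hg; exact (ih1 hg).trans (ih2 hg)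

theorem sumErase_and {δ : Type} (b : Bool) (L : List δ) : ∀ (g : List δ → Bool),
    sumErase (fun l => b && g l) L = (b && sumErase g L) := by
  induction L with
  | nil => intro g; cases b <;> rfl
  | cons x l ih =>
    intro g
    rw [sumErase, sumErase, ih (fun l' => g (x :: l'))]
    cases b <;> simp

theorem sumErase_false {δ : Type} (L : List δ) : ∀ (g : List δ → Bool), (∀ l, g l = false) →
    sumErase g L = false := by
  induction L with
  | nil => intro g _; rfl
  | cons x l ih =>
    intro g h
    rw [sumErase, h, ih _ (fun l => h _)]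
    rfl

theorem local_sorted (L : List Lbl) : L.Pairwise (fun x y => x.2 < y.2) → ∀ s : Bool,
    sumErase (altB s) L = xor (altB true L) (altB false L) := by
  induction L with
  | nil => intro _ s; rw [altB_nil, altB_nil]; rfl
  | cons x l ih =>
    intro h s
    rw [List.pairwise_cons] at h
    obtain ⟨h1, h2⟩ := h
    rw [sumErase, altB_cons_min h1, altB_cons_min h1]
    have e : sumErase (fun l' => altB s (x :: l')) l =
        sumErase (fun l' => ((x.1 == s) && altB (!s) l')) l := by
      refine sumErase_congr fun l' hl' => ?_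
      rw [altB_cons_min (fun y hy => h1 y (hl'.mem hy))]
    rw [e, sumErase_and, ih h2]
    cases x.1 <;> cases s <;> simp <;> cases altB true l <;> cases altB false l <;> rfl

/-- The local parity lemma. -/
theorem local_parity (L : List Lbl) (h : ∀ x ∈ L, ∀ y ∈ L, x.2 = y.2 → x.1 = y.1) :
    xorB ((List.range L.length).map fun i => altB true (L.eraseIdx i)) =
      xor (altB true L) (altB false L) := by
  rw [sumErase_eq]
  by_cases hnd : (L.map Prod.snd).Nodup
  · set L' := L.insertionSort (fun x y => x.2 ≤ y.2) with hL'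
    have hp : L'.Perm L := List.perm_insertionSort _ L
    have hs : L'.Pairwise (fun x y => x.2 ≤ y.2) := by
      have : IsTotal Lbl (fun x y => x.2 ≤ y.2) := ⟨fun x y => le_total _ _⟩
      have : IsTrans Lbl (fun x y => x.2 ≤ y.2) := ⟨fun x y z h1 h2 => le_trans h1 h2⟩
      exact List.pairwise_insertionSort (fun x y : Lbl => x.2 ≤ y.2) L
    have hnd' : (L'.map Prod.snd).Nodup := (hp.map Prod.snd).nodup_iff.2 hnd
    have hs' : L'.Pairwise (fun x y => x.2 < y.2) := by
      rw [List.Nodup, List.pairwise_map] at hnd'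
      exact (hs.and hnd').imp (fun h => lt_of_le_of_ne h.1 h.2)
    rw [← sumErase_perm hp (fun l l' h => altB_perm h), ← altB_perm hp, ← altB_perm hp]
    exact local_sorted L' hs' true
  · -- a repeated label
    have hdup : ∃ x, ∃ l, L.Perm (x :: x :: l) := by
      have h1 : ¬ L.Nodup := by
        intro hn
        exact hnd ((List.nodup_map_iff_inj_on hn).2 (fun x hx y hy hxy =>
          Prod.ext (h x hx y hy hxy) hxy))
      rw [List.nodup_iff_sublist] at h1
      push Not at h1
      obtain ⟨x, hx⟩ := h1
      obtain ⟨l, hl⟩ := hx.exists_perm_append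
      exact ⟨x, l, hl⟩
    obtain ⟨x, l, hp⟩ := hdup
    have hf : ∀ s l', altB s (x :: x :: l') = false := by
      intro s l'
      by_contra hc
      have := altB_nodup (by simpa using hc)
      simp at this
    rw [sumErase_perm hp (fun l l' h => altB_perm h), altB_perm hp, altB_perm hp, hf, hf, sumErase,
      sumErase, sumErase_false l _ (fun l' => hf true l')]
    cases altB true (x :: l) <;> rfl

end FregeEF
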