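import Mathlib.Tactic
import Mathlib.Data.Nat.Log

/-!
# A small calculus of polylogarithmic and quasi-polynomial bounds
-/

namespace FregeEF

variable {ι : Type} {l f g : ι → ℕ}

/-- `f` is polynomial in `l`. -/
def PL (l f : ι → ℕ) : Prop := ∃ c, ∀ i, f i ≤ (l i + 2) ^ c

/-- `f` is exponential in a polynomial in `l`. -/
def QP (l f : ι → ℕ) : Prop := ∃ c, ∀ i, f i ≤ 2 ^ (l i + 2) ^ c

theorem PL.mono (h : PL l g) (hfg : ∀ i, f i ≤ g i) : PL l f := by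
  obtain ⟨c, h⟩ := h
  exact ⟨c, fun i => (hfg i).trans (h i)⟩

theorem QP.mono (h : QP l g) (hfg : ∀ i, f i ≤ g i) : QP l f := by
  obtain ⟨c, h⟩ := h
  exact ⟨c, fun i => (hfg i).trans (h i)⟩

theorem PL.id : PL l l := ⟨1, fun i => by simp⟩

theorem PL.const (a : ℕ) : PL l (fun _ => a) := by
  refine ⟨a, fun i => ?_⟩
  calc a ≤ 2 ^ a := Nat.lt_two_pow_self.le
    _ ≤ (l i + 2) ^ a := Nat.pow_le_pow_left (by omega) _

theorem PL.bounds {l f g : ι → ℕ} (hf : PL l f) (hg : PL l g) :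
    ∃ c, ∀ i, f i ≤ (l i + 2) ^ c ∧ g i ≤ (l i + 2) ^ c := by
  obtain ⟨c, h⟩ := hf
  obtain ⟨c', h'⟩ := hg
  refine ⟨max c c', fun i => ⟨(h i).trans ?_, (h' i).trans ?_⟩⟩
  · exact Nat.pow_le_pow_right (by omega) (le_max_left _ _)
  · exact Nat.pow_le_pow_right (by omega) (le_max_right _ _)

theorem PL.add (hf : PL l f) (hg : PL l g) : PL l (fun i => f i + g i) := by
  obtain ⟨c, h⟩ := hf.bounds hg
  refine ⟨c + 1, fun i => ?_⟩
  obtain ⟨h1, h2⟩ := h i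
  calc f i + g i ≤ (l i + 2) ^ c * 2 := by omega
    _ ≤ (l i + 2) ^ c * (l i + 2) := Nat.mul_le_mul_left _ (by omega)
    _ = (l i + 2) ^ (c + 1) := by ring

theorem PL.mul (hf : PL l f) (hg : PL l g) : PL l (fun i => f i * g i) := by
  obtain ⟨c, h⟩ := hf.bounds hg
  refine ⟨c + c, fun i => ?_⟩
  obtain ⟨h1, h2⟩ := h i
  calc f i * g i ≤ (l i + 2) ^ c * (l i + 2) ^ c := Nat.mul_le_mul h1 h2
    _ = (l i + 2) ^ (c + c) := by ring

theorem PL.pow (hf : PL l f) (a : ℕ) : PL l (fun i => f i ^ a) := by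
  obtain ⟨c, h⟩ := hf
  refine ⟨c * a, fun i => ?_⟩
  calc f i ^ a ≤ ((l i + 2) ^ c) ^ a := Nat.pow_le_pow_left (h i) _
    _ = (l i + 2) ^ (c * a) := by rw [pow_mul]

theorem PL.qp (hf : PL l f) : QP l f := by
  obtain ⟨c, h⟩ := hf
  exact ⟨c, fun i => (h i).trans Nat.lt_two_pow_self.le⟩

theorem PL.two_pow (hf : PL l f) : QP l (fun i => 2 ^ f i) := by
  obtain ⟨c, h⟩ := hf
  exact ⟨c, fun i => Nat.pow_le_pow_right (by omega) (h i)⟩

theorem QP.bounds {l f g : ι → ℕ} (hf : QP l f) (hg : QP l g) :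
    ∃ c, ∀ i, f i ≤ 2 ^ (l i + 2) ^ c ∧ g i ≤ 2 ^ (l i + 2) ^ c := by
  obtain ⟨c, h⟩ := hf
  obtain ⟨c', h'⟩ := hg
  refine ⟨max c c', fun i => ⟨(h i).trans ?_, (h' i).trans ?_⟩⟩
  · exact Nat.pow_le_pow_right (by omega)
      (Nat.pow_le_pow_right (by omega) (le_max_left _ _))
  · exact Nat.pow_le_pow_right (by omega)
      (Nat.pow_le_pow_right (by omega) (le_max_right _ _))

theorem QP.mul (hf : QP l f) (hg : QP l g) : QP l (fun i => f i * g i) := by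
  obtain ⟨c, h⟩ := hf.bounds hg
  refine ⟨c + 1, fun i => ?_⟩
  obtain ⟨h1, h2⟩ := h i
  calc f i * g i ≤ 2 ^ (l i + 2) ^ c * 2 ^ (l i + 2) ^ c := Nat.mul_le_mul h1 h2
    _ = 2 ^ ((l i + 2) ^ c * 2) := by rw [← pow_add]; ring_nf
    _ ≤ 2 ^ ((l i + 2) ^ c * (l i + 2)) :=
        Nat.pow_le_pow_right (by omega) (Nat.mul_le_mul_left _ (by omega))
    _ = 2 ^ (l i + 2) ^ (c + 1) := by rw [pow_succ (l i + 2)]

theorem QP.const (a : ℕ) : QP l (fun _ => a) := (PL.const a).qp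

theorem QP.add (hf : QP l f) (hg : QP l g) : QP l (fun i => f i + g i) := by
  obtain ⟨c, h⟩ := hf.bounds hg
  refine ⟨c + 1, fun i => ?_⟩
  obtain ⟨h1, h2⟩ := h i
  have h3 : 1 ≤ (l i + 2) ^ c := Nat.one_le_pow _ _ (by omega)
  calc f i + g i ≤ 2 ^ (l i + 2) ^ c * 2 := by omega
    _ = 2 ^ ((l i + 2) ^ c + 1) := by rw [pow_succ]
    _ ≤ 2 ^ ((l i + 2) ^ c * (l i + 2)) := Nat.pow_le_pow_right (by omega) (by nlinarith)
    _ = 2 ^ (l i + 2) ^ (c + 1) := by rw [pow_succ (l i + 2)]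

theorem QP.pow (hf : QP l f) (hg : PL l g) : QP l (fun i => f i ^ g i) := by
  obtain ⟨c, h⟩ := hf
  obtain ⟨c', h'⟩ := hg
  refine ⟨c + c', fun i => ?_⟩
  calc f i ^ g i ≤ (2 ^ (l i + 2) ^ c) ^ g i := Nat.pow_le_pow_left (h i) _
    _ ≤ (2 ^ (l i + 2) ^ c) ^ ((l i + 2) ^ c') :=
        Nat.pow_le_pow_right (by positivity) (h' i)
    _ = 2 ^ (l i + 2) ^ (c + c') := by rw [← pow_mul, pow_add]

/-- A quasi-polynomial bound is below a power of two with a polynomial exponent. -/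
theorem QP.exists_lt (hf : QP l f) : ∃ M : ι → ℕ, PL l M ∧ ∀ i, f i < 2 ^ M i := by
  obtain ⟨c, h⟩ := hf.add (QP.const 1)
  exact ⟨fun i => (l i + 2) ^ c, ⟨c, fun i => le_rfl⟩, fun i => Nat.lt_of_succ_le (h i)⟩

end FregeEF
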