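import Pool.Agent.Work.MP_c07f0d_lc.Solve

/-!
# Balancing branch decompositions
-/

namespace FregeEF

/-- The variables of a tree. -/
noncomputable def vs (Q : Finset ℕ) : BTree → Finset ℕ
  | .leaf a => lv Q [a]
  | .node l r => vs Q l ∪ vs Q r

theorem vs_eq (Q : Finset ℕ) (T : BTree) : vs Q T = lv Q T.leaves := by
  induction T with
  | leaf a => rfl
  | node l r ihl ihr => rw [vs, ihl, ihr, BTree.leaves, lv_append]

/-- Width condition in terms of variable sets. -/
def WL (Q : Finset ℕ) (w : ℕ) : BTree → Finset ℕ → Prop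
  | .leaf a, O => (lv Q [a] ∩ O).card ≤ w
  | .node l r, O => ((vs Q l ∪ vs Q r) ∩ O).card ≤ w ∧ WL Q w l (vs Q r ∪ O) ∧
      WL Q w r (vs Q l ∪ O)

theorem widthLE_iff (Q : Finset ℕ) (w : ℕ) (T : BTree) : ∀ out : List (ℕ × Fm ℕ),
    T.WidthLE Q out w ↔ WL Q w T (lv Q out) := by
  induction T with
  | leaf a => intro out; rfl
  | node l r ihl ihr =>
    intro out
    rw [BTree.WidthLE, WL, ihl, ihr, lv_append, lv_append, lv_append, vs_eq, vs_eq]

theorem WL.top {Q : Finset ℕ} {w : ℕ} {T : BTree} {O : Finset ℕ} (h : WL Q w T O) :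
    (vs Q T ∩ O).card ≤ w := by
  cases T with
  | leaf a => exact h
  | node l r => exact h.1

/-- Variables of a list of trees. -/
noncomputable def vsl (Q : Finset ℕ) : List BTree → Finset ℕ
  | [] => ∅
  | s :: L => vs Q s ∪ vsl Q L

theorem vsl_append (Q : Finset ℕ) (L1 L2 : List BTree) :
    vsl Q (L1 ++ L2) = vsl Q L1 ∪ vsl Q L2 := by
  induction L1 with
  | nil => simp [vsl]
  | cons s L ih => simp only [List.cons_append, vsl, ih, Finset.union_assoc]

/-- Width condition for a spine, i.e. a path with trees hanging off it. -/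
def CW (Q : Finset ℕ) (w : ℕ) : List BTree → Finset ℕ → Finset ℕ → Prop
  | [], inn, O => (inn ∩ O).card ≤ w
  | s :: L, inn, O => ((vs Q s ∪ vsl Q L ∪ inn) ∩ O).card ≤ w ∧
      WL Q w s (vsl Q L ∪ inn ∪ O) ∧ CW Q w L inn (vs Q s ∪ O)

theorem CW.top {Q : Finset ℕ} {w : ℕ} {L : List BTree} {inn O : Finset ℕ}
    (h : CW Q w L inn O) : ((vsl Q L ∪ inn) ∩ O).card ≤ w := by
  cases L with
  | nil => simpa [vsl, CW] using h
  | cons s L => exact h.1

theorem CW.bot {Q : Finset ℕ} {w : ℕ} {L : List BTree} {inn : Finset ℕ} :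
    ∀ {O : Finset ℕ}, CW Q w L inn O → (inn ∩ (vsl Q L ∪ O)).card ≤ w := by
  induction L with
  | nil => intro O h; simpa [vsl, CW] using h
  | cons s L ih =>
    intro O h
    have := ih h.2.2
    rw [vsl]
    have e : vs Q s ∪ vsl Q L ∪ O = vsl Q L ∪ (vs Q s ∪ O) := by
      ext x; simp only [Finset.mem_union]; tauto
    rw [e]
    exact this

theorem CW.split {Q : Finset ℕ} {w : ℕ} {L1 L2 : List BTree} {inn : Finset ℕ} :
    ∀ {O : Finset ℕ}, CW Q w (L1 ++ L2) inn O →
      CW Q w L1 (vsl Q L2 ∪ inn) O ∧ CW Q w L2 inn (vsl Q L1 ∪ O) := by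
  induction L1 with
  | nil =>
    intro O h
    refine ⟨h.top, ?_⟩
    simpa [vsl] using h
  | cons s L ih =>
    intro O h
    rw [List.cons_append] at h
    obtain ⟨h1, h2, h3⟩ := h
    obtain ⟨h4, h5⟩ := ih h3
    rw [vsl_append] at h1 h2
    refine ⟨⟨?_, ?_, h4⟩, ?_⟩
    · have e : vs Q s ∪ vsl Q L ∪ (vsl Q L2 ∪ inn) = vs Q s ∪ (vsl Q L ∪ vsl Q L2) ∪ inn := by
        ext x; simp only [Finset.mem_union]; tauto
      rw [e]; exact h1
    · have e : vsl Q L ∪ (vsl Q L2 ∪ inn) ∪ O = vsl Q L ∪ vsl Q L2 ∪ inn ∪ O := by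
        ext x; simp only [Finset.mem_union]; tauto
      rw [e]; exact h2
    · have e : vsl Q (s :: L) ∪ O = vsl Q L ∪ (vs Q s ∪ O) := by
        ext x; simp only [vsl, Finset.mem_union]; tauto
      rw [e]; exact h5

theorem CW.mid {Q : Finset ℕ} {w : ℕ} {L : List BTree} {inn O : Finset ℕ}
    (h : CW Q w L inn O) : (vsl Q L ∩ (inn ∪ O)).card ≤ 2 * w := by
  have h1 := h.top
  have h2 := h.bot
  have h3 : vsl Q L ∩ (inn ∪ O) ⊆ ((vsl Q L ∪ inn) ∩ O) ∪ (inn ∩ (vsl Q L ∪ O)) := by
    intro x
    simp only [Finset.mem_inter, Finset.mem_union]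
    tauto
  have h4 := Finset.card_le_card h3
  have h5 := Finset.card_union_le ((vsl Q L ∪ inn) ∩ O) (inn ∩ (vsl Q L ∪ O))
  omega

/-- Total number of leaves. -/
def lw (L : List BTree) : ℕ := (L.map fun s => s.leaves.length).sum

/-- The leaves of a list of trees. -/
def lleaves (L : List BTree) : List (ℕ × Fm ℕ) := L.flatMap BTree.leaves

theorem exists_split (k : ℕ) : ∀ (L : List BTree), L ≠ [] → lw L ≤ 2 * k + 1 →
    ∃ L1 s L2, L = L1 ++ s :: L2 ∧ lw L1 ≤ k ∧ lw L2 ≤ k := by
  intro L hL hw
  -- take the first position where the prefix exceeds `k`, or the last element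
  have key : ∀ (P R : List BTree), lw P ≤ k → R ≠ [] → P ++ R = L →
      ∃ L1 s L2, L = L1 ++ s :: L2 ∧ lw L1 ≤ k ∧ lw L2 ≤ k := by
    intro P R
    induction R generalizing P with
    | nil => intro _ h; exact absurd rfl h
    | cons s R ih =>
      intro hP _ hPR
      by_cases hs : lw (P ++ [s]) ≤ k
      · by_cases hR : R = []
        · subst hR
          exact ⟨P, s, [], hPR.symm, hP, by simp [lw]⟩
        · exact ih (P ++ [s]) hs hR (by simpa using hPR)
      · refine ⟨P, s, R, hPR.symm, hP, ?_⟩
        have : lw L = lw (P ++ [s]) + lw R := by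
          rw [← hPR]; simp [lw, add_assoc]
        omega
  exact key [] L (by simp [lw]) hL rfl

theorem exists_center (Q : Finset ℕ) (w k : ℕ) (hk : 1 ≤ k) : ∀ (T : BTree) (O : Finset ℕ),
    WL Q w T O → k < T.leaves.length →
    ∃ (L : List BTree) (a b : BTree), (lleaves L ++ (a.leaves ++ b.leaves)).Perm T.leaves ∧
      a.leaves.length ≤ k ∧ b.leaves.length ≤ k ∧ k < a.leaves.length + b.leaves.length ∧
      vs Q T = vsl Q L ∪ (vs Q a ∪ vs Q b) ∧
      CW Q w L (vs Q a ∪ vs Q b) O ∧ WL Q w a (vs Q b ∪ (vsl Q L ∪ O)) ∧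
      WL Q w b (vs Q a ∪ (vsl Q L ∪ O)) := by
  intro T
  induction T with
  | leaf a => intro O _ h; simp [BTree.leaves] at h; omega
  | node l r ihl ihr =>
    intro O hW hlen
    obtain ⟨h1, h2, h3⟩ := hW
    by_cases hl : k < l.leaves.length
    · obtain ⟨L, a, b, p1, p2, p3, p4, p5, p6, p7, p8⟩ := ihl _ h2 hl
      refine ⟨r :: L, a, b, ?_, p2, p3, p4, ?_, ⟨?_, ?_, ?_⟩, ?_, ?_⟩
      · simp only [lleaves, List.flatMap_cons, BTree.leaves] at p1 ⊢
        rw [List.append_assoc]
        exact (List.perm_append_comm).trans (List.Perm.append_right _ p1)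
      · rw [vs, p5, vsl]; ext x; simp only [Finset.mem_union]; tauto
      · have e : vs Q r ∪ vsl Q L ∪ (vs Q a ∪ vs Q b) = vs Q l ∪ vs Q r := by
          rw [p5]; ext x; simp only [Finset.mem_union]; tauto
        rw [e]; exact h1
      · rw [← p5]; exact h3
      · exact p6
      · have e : vs Q b ∪ (vsl Q (r :: L) ∪ O) = vs Q b ∪ (vsl Q L ∪ (vs Q r ∪ O)) := by
          rw [vsl]; ext x; simp only [Finset.mem_union]; tauto
        rw [e]; exact p7
      · have e : vs Q a ∪ (vsl Q (r :: L) ∪ O) = vs Q a ∪ (vsl Q L ∪ (vs Q r ∪ O)) := by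
          rw [vsl]; ext x; simp only [Finset.mem_union]; tauto
        rw [e]; exact p8
    · by_cases hr : k < r.leaves.length
      · obtain ⟨L, a, b, p1, p2, p3, p4, p5, p6, p7, p8⟩ := ihr _ h3 hr
        refine ⟨l :: L, a, b, ?_, p2, p3, p4, ?_, ⟨?_, ?_, ?_⟩, ?_, ?_⟩
        · simp only [lleaves, List.flatMap_cons, BTree.leaves] at p1 ⊢
          rw [List.append_assoc]
          exact List.Perm.append_left _ p1
        · rw [vs, p5, vsl]; ext x; simp only [Finset.mem_union]; tauto
        · have e : vs Q l ∪ vsl Q L ∪ (vs Q a ∪ vs Q b) = vs Q l ∪ vs Q r := by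
            rw [p5]; ext x; simp only [Finset.mem_union]; tauto
          rw [e]; exact h1
        · rw [← p5]; exact h2
        · exact p6
        · have e : vs Q b ∪ (vsl Q (l :: L) ∪ O) = vs Q b ∪ (vsl Q L ∪ (vs Q l ∪ O)) := by
            rw [vsl]; ext x; simp only [Finset.mem_union]; tauto
          rw [e]; exact p7
        · have e : vs Q a ∪ (vsl Q (l :: L) ∪ O) = vs Q a ∪ (vsl Q L ∪ (vs Q l ∪ O)) := by
            rw [vsl]; ext x; simp only [Finset.mem_union]; tauto
          rw [e]; exact p8
      · refine ⟨[], l, r, by simp [lleaves, BTree.leaves], by omega, by omega, ?_, ?_, ?_, ?_, ?_⟩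
        · simpa [BTree.leaves] using hlen
        · simp [vsl, vs]
        · exact h1
        · simpa [vsl] using h2
        · simpa [vsl] using h3

theorem perm_vs {Q : Finset ℕ} {T T' : BTree} (h : T'.leaves.Perm T.leaves) :
    vs Q T' = vs Q T := by
  rw [vs_eq, vs_eq]
  ext x
  simp only [mem_lv, h.mem_iff]

theorem vsl_eq (Q : Finset ℕ) (L : List BTree) : vsl Q L = lv Q (lleaves L) := by
  induction L with
  | nil => simp [vsl, lleaves, lv]
  | cons s L ih => rw [vsl, ih, vs_eq]; simp only [lleaves, List.flatMap_cons, lv_append]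

theorem perm_vsl {Q : Finset ℕ} {T' : BTree} {L : List BTree} (h : T'.leaves.Perm (lleaves L)) :
    vs Q T' = vsl Q L := by
  rw [vs_eq, vsl_eq]
  ext x
  simp only [mem_lv, h.mem_iff]

theorem BTree.leaves_length_pos' (T : BTree) : 1 ≤ T.leaves.length := by
  induction T with
  | leaf a => simp [BTree.leaves]
  | node l r ihl ihr => simp only [BTree.leaves, List.length_append]; omega

theorem WL.mono {Q : Finset ℕ} {w w' : ℕ} (hw : w ≤ w') {T : BTree} :
    ∀ {O : Finset ℕ}, WL Q w T O → WL Q w' T O := by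
  induction T with
  | leaf a => intro O h; exact le_trans h hw
  | node l r ihl ihr => intro O h; exact ⟨h.1.trans hw, ihl h.2.1, ihr h.2.2⟩

/-- The balancing statements for trees and for spines. -/
theorem balance (Q : Finset ℕ) (w : ℕ) (k : ℕ) :
    (∀ (T : BTree) (O : Finset ℕ), WL Q w T O → T.leaves.length ≤ 2 ^ k →
      ∃ T' : BTree, T'.leaves.Perm T.leaves ∧ WL Q (2 * w) T' O ∧ T'.depth ≤ 4 * k) ∧
    (∀ (L : List BTree) (inn O : Finset ℕ), L ≠ [] → CW Q w L inn O → lw L ≤ 2 ^ k →
      ∃ T' : BTree, T'.leaves.Perm (lleaves L) ∧ WL Q (2 * w) T' (inn ∪ O) ∧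
        T'.depth ≤ 4 * k + 2) := by
  induction k with
  | zero =>
    constructor
    · intro T O hW hlen
      cases T with
      | leaf a =>
        exact ⟨.leaf a, List.Perm.refl _, hW.mono (by omega), by simp [BTree.depth]⟩
      | node l r =>
        have h1 := l.leaves_length_pos'
        have h2 := r.leaves_length_pos'
        simp only [BTree.leaves, List.length_append, pow_zero] at hlen
        omega
    · intro L inn O hL hC hlen
      cases L with
      | nil => exact absurd rfl hL
      | cons s L =>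
        cases L with
        | cons s' L =>
          have h1 := s.leaves_length_pos'
          have h2 := s'.leaves_length_pos'
          simp only [lw, List.map_cons, List.sum_cons, pow_zero] at hlen
          omega
        | nil =>
          cases s with
          | node l r =>
            have h1 := l.leaves_length_pos'
            have h2 := r.leaves_length_pos'
            simp only [lw, List.map_cons, List.sum_cons, BTree.leaves, List.length_append,
              pow_zero] at hlen
            omega
          | leaf a =>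
            refine ⟨.leaf a, by simp [lleaves, BTree.leaves], ?_, by simp [BTree.depth]⟩
            have h := hC.2.1
            simp only [vsl, Finset.empty_union] at h
            exact h.mono (by omega)
  | succ k ih =>
    obtain ⟨ihT, ihL⟩ := ih
    have hpow : 2 ^ (k + 1) = 2 ^ k + 2 ^ k := by rw [pow_succ]; ring
    have hpos : 1 ≤ 2 ^ k := Nat.one_le_two_pow
    have hT : ∀ (T : BTree) (O : Finset ℕ), WL Q w T O → T.leaves.length ≤ 2 ^ (k + 1) →
      ∃ T' : BTree, T'.leaves.Perm T.leaves ∧ WL Q (2 * w) T' O ∧ T'.depth ≤ 4 * (k + 1) := by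
      intro T O hW hlen
      by_cases hsmall : T.leaves.length ≤ 2 ^ k
      · obtain ⟨T', h1, h2, h3⟩ := ihT T O hW hsmall
        exact ⟨T', h1, h2, by omega⟩
      obtain ⟨L, a, b, p1, p2, p3, p4, p5, p6, p7, p8⟩ :=
        exists_center Q w (2 ^ k) hpos T O hW (by omega)
      obtain ⟨a', a1, a2, a3⟩ := ihT a _ p7 p2
      obtain ⟨b', b1, b2, b3⟩ := ihT b _ p8 p3
      have ea := perm_vs (Q := Q) a1
      have eb := perm_vs (Q := Q) b1
      have hlenL : lw L + (a.leaves.length + b.leaves.length) = T.leaves.length := by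
        have := p1.length_eq
        simp only [List.length_append, lleaves, List.length_flatMap] at this
        simp only [lw]
        omega
      by_cases hL : L = []
      · subst hL
        refine ⟨.node a' b', ?_, ⟨?_, ?_, ?_⟩, ?_⟩
        · simp only [lleaves, List.flatMap_nil, List.nil_append] at p1
          exact (a1.append b1).trans p1
        · rw [ea, eb]
          have := p6.top
          simp only [vsl, Finset.empty_union] at this
          omega
        · rw [eb]; simpa [vsl] using a2
        · rw [ea]; simpa [vsl] using b2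
        · simp only [BTree.depth]; omega
      · obtain ⟨c', c1, c2, c3⟩ := ihL L _ O hL p6 (by omega)
        have ec := perm_vsl (Q := Q) c1
        refine ⟨.node c' (.node a' b'), ?_, ⟨?_, ?_, ?_, ?_, ?_⟩, ?_⟩
        · exact (c1.append (a1.append b1)).trans p1
        · have := hW.top
          rw [ec, vs, ea, eb, ← p5]
          omega
        · rw [vs, ea, eb]; exact c2
        · rw [ea, eb, ec]
          have := p6.bot
          omega
        · rw [eb, ec]; exact a2
        · rw [ea, ec]; exact b2
        · simp only [BTree.depth]; omega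
    refine ⟨hT, ?_⟩
    intro L inn O hL hC hlen
    obtain ⟨L1, s, L2, rfl, q1, q2⟩ := exists_split (2 ^ k) L hL (by omega)
    have hsw : s.leaves.length ≤ 2 ^ (k + 1) := by
      simp only [lw, List.map_append, List.map_cons, List.sum_append, List.sum_cons] at hlen
      omega
    obtain ⟨c1, c2⟩ := hC.split
    obtain ⟨c3, c4, c5⟩ := c2
    obtain ⟨s', s1, s2, s3⟩ := hT s _ c4 hsw
    have es := perm_vs (Q := Q) s1
    have hcm := hC.mid
    rw [vsl_append, vsl] at hcm
    by_cases hL1 : L1 = []
    · subst hL1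
      by_cases hL2 : L2 = []
      · subst hL2
        refine ⟨s', ?_, ?_, by omega⟩
        · simpa [lleaves] using s1
        · simpa [vsl] using s2
      · obtain ⟨u, u1, u2, u3⟩ := ihL L2 _ _ hL2 c5 q2
        have eu := perm_vsl (Q := Q) u1
        refine ⟨.node s' u, ?_, ⟨?_, ?_, ?_⟩, ?_⟩
        · simp only [lleaves, List.nil_append, List.flatMap_cons, BTree.leaves]
          exact s1.append u1
        · rw [es, eu]; simpa [vsl] using hcm
        · rw [eu]
          have e : vsl Q L2 ∪ (inn ∪ O) = vsl Q L2 ∪ inn ∪ (vsl Q [] ∪ O) := by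
            ext x; simp only [vsl, Finset.mem_union, Finset.notMem_empty]; tauto
          rw [e]; exact s2
        · rw [es]
          have e : vs Q s ∪ (inn ∪ O) = inn ∪ (vs Q s ∪ (vsl Q [] ∪ O)) := by
            ext x; simp only [vsl, Finset.mem_union, Finset.notMem_empty]; tauto
          rw [e]; exact u2
        · simp only [BTree.depth]; omega
    · obtain ⟨p, p1, p2, p3⟩ := ihL L1 _ _ hL1 c1 q1
      have ep := perm_vsl (Q := Q) p1
      by_cases hL2 : L2 = []
      · subst hL2
        refine ⟨.node p s', ?_, ⟨?_, ?_, ?_⟩, ?_⟩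
        · simp only [lleaves, List.flatMap_append, List.flatMap_cons, List.flatMap_nil,
            List.append_nil, BTree.leaves]
          exact p1.append s1
        · rw [ep, es]; simpa [vsl] using hcm
        · rw [es]
          have e : vs Q s ∪ (inn ∪ O) = vsl Q [s] ∪ inn ∪ O := by
            ext x; simp only [vsl, Finset.mem_union, Finset.notMem_empty]; tauto
          rw [e]; exact p2
        · rw [ep]
          have e : vsl Q L1 ∪ (inn ∪ O) = vsl Q [] ∪ inn ∪ (vsl Q L1 ∪ O) := by
            ext x; simp only [vsl, Finset.mem_union, Finset.notMem_empty]; tauto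
          rw [e]; exact s2
        · simp only [BTree.depth]; omega
      · obtain ⟨u, u1, u2, u3⟩ := ihL L2 _ _ hL2 c5 q2
        have eu := perm_vsl (Q := Q) u1
        have hC' : CW Q w ((L1 ++ [s]) ++ L2) inn O := by simpa using hC
        have hcm2 := hC'.split.1.mid
        refine ⟨.node (.node p s') u, ?_, ⟨?_, ⟨?_, ?_, ?_⟩, ?_⟩, ?_⟩
        · simp only [lleaves, List.flatMap_append, List.flatMap_cons, BTree.leaves]
          rw [List.append_assoc]
          exact p1.append (s1.append u1)
        · rw [vs, ep, es, eu]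
          have e : vsl Q L1 ∪ vs Q s ∪ vsl Q L2 = vsl Q L1 ∪ (vs Q s ∪ vsl Q L2) := by
            ext x; simp only [Finset.mem_union]; tauto
          rw [e]; exact hcm
        · rw [ep, es, eu]
          have e : (vsl Q L1 ∪ vs Q s) ∩ (vsl Q L2 ∪ (inn ∪ O)) =
              vsl Q (L1 ++ [s]) ∩ (vsl Q L2 ∪ inn ∪ O) := by
            rw [vsl_append]
            ext x
            simp only [vsl, Finset.mem_union, Finset.mem_inter, Finset.notMem_empty]
            tauto
          rw [e]; exact hcm2
        · rw [es, eu]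
          have e : vs Q s ∪ (vsl Q L2 ∪ (inn ∪ O)) = vsl Q (s :: L2) ∪ inn ∪ O := by
            ext x; simp only [vsl, Finset.mem_union]; tauto
          rw [e]; exact p2
        · rw [ep, eu]
          have e : vsl Q L1 ∪ (vsl Q L2 ∪ (inn ∪ O)) = vsl Q L2 ∪ inn ∪ (vsl Q L1 ∪ O) := by
            ext x; simp only [Finset.mem_union]; tauto
          rw [e]; exact s2
        · rw [vs, ep, es]
          have e : vsl Q L1 ∪ vs Q s ∪ (inn ∪ O) = inn ∪ (vs Q s ∪ (vsl Q L1 ∪ O)) := by
            ext x; simp only [Finset.mem_union]; tauto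
          rw [e]; exact u2
        · simp only [BTree.depth]; omega

end FregeEF
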