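import Mathlib.Data.Finset.Basic
import Mathlib.Data.List.Basic
import Mathlib.Data.Nat.Basic

/-!
# Propositional formulas, Frege systems and extended Frege systems

Formulas are built over the functionally complete basis `⊥, ¬, ∧, ∨, →`.  A Frege system is given by
finitely many schematic rules (axiom schemas are rules without premises) and is sound and
implicationally complete.  The size of a derivation is its total number of symbols.
-/

namespace FregeEF

/-- Propositional formulas over the basis `⊥, ¬, ∧, ∨, →`, with variables from `α`. -/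
inductive Fm (α : Type) : Type
  | var : α → Fm α
  | bot : Fm α
  | neg : Fm α → Fm α
  | and : Fm α → Fm α → Fm α
  | or : Fm α → Fm α → Fm α
  | imp : Fm α → Fm α → Fm α
  deriving DecidableEq

namespace Fm

variable {α β : Type}

/-- The number of symbols of a formula. -/
def size : Fm α → ℕ
  | var _ => 1
  | bot => 1
  | neg φ => φ.size + 1
  | and φ ψ => φ.size + ψ.size + 1
  | or φ ψ => φ.size + ψ.size + 1
  | imp φ ψ => φ.size + ψ.size + 1

/-- The truth value of a formula under a truth assignment. -/
def eval (v : α → Prop) : Fm α → Prop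
  | var x => v x
  | bot => False
  | neg φ => ¬ φ.eval v
  | and φ ψ => φ.eval v ∧ ψ.eval v
  | or φ ψ => φ.eval v ∨ ψ.eval v
  | imp φ ψ => φ.eval v → ψ.eval v

/-- Simultaneous substitution of formulas for variables. -/
def subst (σ : α → Fm β) : Fm α → Fm β
  | var x => σ x
  | bot => bot
  | neg φ => neg (φ.subst σ)
  | and φ ψ => and (φ.subst σ) (ψ.subst σ)
  | or φ ψ => or (φ.subst σ) (ψ.subst σ)
  | imp φ ψ => imp (φ.subst σ) (ψ.subst σ)

/-- The variable `x` occurs in the formula. -/
def Occurs (x : α) : Fm α → Prop
  | var y => y = x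
  | bot => False
  | neg φ => φ.Occurs x
  | and φ ψ => φ.Occurs x ∨ ψ.Occurs x
  | or φ ψ => φ.Occurs x ∨ ψ.Occurs x
  | imp φ ψ => φ.Occurs x ∨ ψ.Occurs x

/-- The biconditional, as an abbreviation: `(φ → ψ) ∧ (ψ → φ)`. -/
def iff (φ ψ : Fm α) : Fm α := and (imp φ ψ) (imp ψ φ)

end Fm

/-- The total number of symbols of a list of formulas. -/
def lsize {α : Type} (L : List (Fm α)) : ℕ := (L.map Fm.size).sum

/-- A schematic inference rule; its variables are metavariables.  An axiom schema is a rule
without premises. -/
structure Rule where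
  /-- the premises -/
  prem : List (Fm ℕ)
  /-- the conclusion -/
  concl : Fm ℕ

/-- `φ` follows from lines in `L` by one application of (an instance of) a rule in `R`. -/
def Infers {α : Type} (R : List Rule) (L : List (Fm α)) (φ : Fm α) : Prop :=
  ∃ r ∈ R, ∃ σ : ℕ → Fm α, (∀ p ∈ r.prem, p.subst σ ∈ L) ∧ r.concl.subst σ = φ

/-- `IsDeriv R Γ L`: the list of lines `L`, read from its last entry to its first entry, is a
derivation from the hypotheses `Γ` with the rules `R`: every line is a hypothesis or follows from
earlier lines by one rule application. -/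
inductive IsDeriv {α : Type} (R : List Rule) (Γ : List (Fm α)) : List (Fm α) → Prop
  | nil : IsDeriv R Γ []
  | hyp {L : List (Fm α)} {φ : Fm α} : IsDeriv R Γ L → φ ∈ Γ → IsDeriv R Γ (φ :: L)
  | step {L : List (Fm α)} {φ : Fm α} : IsDeriv R Γ L → Infers R L φ → IsDeriv R Γ (φ :: L)

/-- A Frege system over the basis `⊥, ¬, ∧, ∨, →`: finitely many schematic rules, each of them
sound, such that every entailment between formulas has a derivation (implicational
completeness). -/
structure FregeSystem where
  /-- the finitely many rules -/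
  rules : List Rule
  sound : ∀ r ∈ rules, ∀ v : ℕ → Prop, (∀ p ∈ r.prem, p.eval v) → r.concl.eval v
  complete : ∀ (Γ : List (Fm ℕ)) (φ : Fm ℕ),
    (∀ v : ℕ → Prop, (∀ p ∈ Γ, p.eval v) → φ.eval v) →
    ∃ L : List (Fm ℕ), IsDeriv rules Γ (φ :: L)

/-- `L` is a Frege proof of `τ`: a derivation without hypotheses whose last line is `τ`
(the last line is the head of the list). -/
def FregeSystem.IsProof {α : Type} (F : FregeSystem) (τ : Fm α) (L : List (Fm α)) : Prop :=
  IsDeriv F.rules [] L ∧ L.head? = some τ

/-- `IsEF R τ L E`: the list of lines `L`, read from its last entry to its first entry, is an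
extended Frege derivation with the rules `R`, meant as a proof of `τ`; every line follows from
earlier lines by one rule application, or is an extension axiom `q ↔ φ` whose variable `q` occurs
neither in `φ`, nor in any earlier line, nor in `τ`.  `E` is the list of all pairs `(q, φ)` of
extension axioms that were introduced, the latest one first. -/
inductive IsEF (R : List Rule) (τ : Fm ℕ) : List (Fm ℕ) → List (ℕ × Fm ℕ) → Prop
  | nil : IsEF R τ [] []
  | step {L : List (Fm ℕ)} {E : List (ℕ × Fm ℕ)} {φ : Fm ℕ} :
      IsEF R τ L E → Infers R L φ → IsEF R τ (φ :: L) E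
  | ext {L : List (Fm ℕ)} {E : List (ℕ × Fm ℕ)} (q : ℕ) (φ : Fm ℕ) :
      IsEF R τ L E → ¬ φ.Occurs q → (∀ ψ ∈ L, ¬ ψ.Occurs q) → ¬ τ.Occurs q →
      IsEF R τ (Fm.iff (.var q) φ :: L) ((q, φ) :: E)

/-- `L` is an extended Frege proof of `τ`, whose list of extension axioms is `E`. -/
def FregeSystem.IsEFProof (F : FregeSystem) (τ : Fm ℕ) (L : List (Fm ℕ))
    (E : List (ℕ × Fm ℕ)) : Prop :=
  IsEF F.rules τ L E ∧ L.head? = some τ

end FregeEF
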