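import Mathlib.Tactic
import Pool.Agent.Work.MP_c07f0d_lc.Defs

namespace FregeEF

variable {α β γ : Type}

namespace Fm

theorem size_pos (φ : Fm α) : 1 ≤ φ.size := by
  cases φ <;> simp [size]

theorem subst_subst (σ : α → Fm β) (ρ : β → Fm γ) (φ : Fm α) :
    (φ.subst σ).subst ρ = φ.subst (fun x => (σ x).subst ρ) := by
  induction φ <;> simp_all [subst]

theorem subst_var (φ : Fm α) : φ.subst (fun x => var x) = φ := by
  induction φ <;> simp_all [subst]

theorem subst_congr {σ ρ : α → Fm β} {φ : Fm α} (h : ∀ x, φ.Occurs x → σ x = ρ x) :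
    φ.subst σ = φ.subst ρ := by
  induction φ with
  | var x => exact h x rfl
  | bot => rfl
  | neg φ ih => simp only [subst]; rw [ih h]
  | and φ ψ ih1 ih2 =>
    simp only [subst]; rw [ih1 (fun x hx => h x (Or.inl hx)), ih2 (fun x hx => h x (Or.inr hx))]
  | or φ ψ ih1 ih2 =>
    simp only [subst]; rw [ih1 (fun x hx => h x (Or.inl hx)), ih2 (fun x hx => h x (Or.inr hx))]
  | imp φ ψ ih1 ih2 =>
    simp only [subst]; rw [ih1 (fun x hx => h x (Or.inl hx)), ih2 (fun x hx => h x (Or.inr hx))]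

theorem eval_subst (σ : α → Fm β) (v : β → Prop) (φ : Fm α) :
    (φ.subst σ).eval v ↔ φ.eval (fun x => (σ x).eval v) := by
  induction φ <;> simp_all [subst, eval]

theorem size_subst_le (σ : α → Fm β) (M : ℕ) (hM : 1 ≤ M) (φ : Fm α)
    (h : ∀ x, φ.Occurs x → (σ x).size ≤ M) : (φ.subst σ).size ≤ φ.size * M := by
  induction φ with
  | var x => simpa [subst, size] using h x rfl
  | bot => simpa [subst, size] using hM
  | neg φ ih =>
    have := ih h
    simp only [subst, size]; nlinarith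
  | and φ ψ ih1 ih2 =>
    have h1 := ih1 (fun x hx => h x (Or.inl hx))
    have h2 := ih2 (fun x hx => h x (Or.inr hx))
    simp only [subst, size]; nlinarith
  | or φ ψ ih1 ih2 =>
    have h1 := ih1 (fun x hx => h x (Or.inl hx))
    have h2 := ih2 (fun x hx => h x (Or.inr hx))
    simp only [subst, size]; nlinarith
  | imp φ ψ ih1 ih2 =>
    have h1 := ih1 (fun x hx => h x (Or.inl hx))
    have h2 := ih2 (fun x hx => h x (Or.inr hx))
    simp only [subst, size]; nlinarith

end Fm

theorem lsize_nil : lsize ([] : List (Fm α)) = 0 := rfl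

theorem lsize_cons (φ : Fm α) (L : List (Fm α)) : lsize (φ :: L) = φ.size + lsize L := by
  simp [lsize]

theorem lsize_append (L1 L2 : List (Fm α)) : lsize (L1 ++ L2) = lsize L1 + lsize L2 := by
  simp [lsize]

theorem size_le_lsize {φ : Fm α} {L : List (Fm α)} (h : φ ∈ L) : φ.size ≤ lsize L := by
  induction L with
  | nil => simp at h
  | cons ψ L ih =>
    rw [lsize_cons]
    rcases List.mem_cons.1 h with h | h
    · subst h; omega
    · have := ih h; omega

theorem length_le_lsize (L : List (Fm α)) : L.length ≤ lsize L := by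
  induction L with
  | nil => simp [lsize]
  | cons ψ L ih =>
    rw [lsize_cons, List.length_cons]
    have := ψ.size_pos
    omega

theorem lsize_map_subst_le (σ : α → Fm β) (M : ℕ) (hM : 1 ≤ M) (L : List (Fm α))
    (h : ∀ x, (σ x).size ≤ M) : lsize (L.map (Fm.subst σ)) ≤ lsize L * M := by
  induction L with
  | nil => simp [lsize]
  | cons ψ L ih =>
    rw [List.map_cons, lsize_cons, lsize_cons]
    have := Fm.size_subst_le σ M hM ψ (fun x _ => h x)
    nlinarith

/-! ### Derivations -/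

theorem Infers.mono {R : List Rule} {L L' : List (Fm α)} {φ : Fm α} (h : Infers R L φ)
    (hL : ∀ x ∈ L, x ∈ L') : Infers R L' φ := by
  obtain ⟨r, hr, σ, h1, h2⟩ := h
  exact ⟨r, hr, σ, fun p hp => hL _ (h1 p hp), h2⟩

theorem Infers.subst {R : List Rule} {L : List (Fm α)} {φ : Fm α} (h : Infers R L φ)
    (σ : α → Fm β) : Infers R (L.map (Fm.subst σ)) (φ.subst σ) := by
  obtain ⟨r, hr, ρ, h1, h2⟩ := h
  refine ⟨r, hr, fun x => (ρ x).subst σ, fun p hp => ?_, ?_⟩
  · rw [← Fm.subst_subst]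
    exact List.mem_map_of_mem (h1 p hp)
  · rw [← Fm.subst_subst, h2]

/-- Combination of a derivation from hypotheses with derivations of (instances of) these. -/
theorem IsDeriv.cut {R : List Rule} {Γ : List (Fm α)} {L : List (Fm α)} (h : IsDeriv R Γ L)
    (σ : α → Fm β) {L0 : List (Fm β)} (h0 : IsDeriv R [] L0)
    (hΓ : ∀ p ∈ Γ, p.subst σ ∈ L0) :
    ∃ L' : List (Fm β), IsDeriv R [] L' ∧ (∀ p ∈ L, p.subst σ ∈ L') ∧ (∀ p ∈ L0, p ∈ L') ∧
      lsize L' ≤ lsize (L.map (Fm.subst σ)) + lsize L0 := by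
  induction h with
  | nil => exact ⟨L0, h0, by simp, fun p hp => hp, by simp [lsize]⟩
  | @hyp L φ _ hφ ih =>
    obtain ⟨L', h1, h2, h3, h4⟩ := ih
    refine ⟨L', h1, ?_, h3, ?_⟩
    · intro p hp
      rcases List.mem_cons.1 hp with hp | hp
      · subst hp; exact h3 _ (hΓ _ hφ)
      · exact h2 _ hp
    · rw [List.map_cons, lsize_cons]; omega
  | @step L φ _ hi ih =>
    obtain ⟨L', h1, h2, h3, h4⟩ := ih
    refine ⟨φ.subst σ :: L', h1.step ?_, ?_, ?_, ?_⟩
    · exact (hi.subst σ).mono (by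
        intro x hx
        obtain ⟨p, hp, rfl⟩ := List.mem_map.1 hx
        exact h2 p hp)
    · intro p hp
      rcases List.mem_cons.1 hp with hp | hp
      · subst hp; exact List.mem_cons_self ..
      · exact List.mem_cons_of_mem _ (h2 _ hp)
    · intro p hp; exact List.mem_cons_of_mem _ (h3 _ hp)
    · rw [List.map_cons, lsize_cons, lsize_cons]; omega

theorem IsDeriv.append {R : List Rule} {L1 L2 : List (Fm α)} (h1 : IsDeriv R [] L1)
    (h2 : IsDeriv R [] L2) : IsDeriv R [] (L1 ++ L2) := by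
  induction h1 with
  | nil => simpa using h2
  | hyp _ hφ _ => simp at hφ
  | step _ hi ih => exact ih.step (hi.mono (by intro x hx; simp [hx]))

theorem IsDeriv.suffix {R : List Rule} {Γ : List (Fm α)} {L : List (Fm α)} (h : IsDeriv R Γ L)
    {φ : Fm α} (hφ : φ ∈ L) : ∃ L', IsDeriv R Γ (φ :: L') ∧ lsize (φ :: L') ≤ lsize L := by
  induction h with
  | nil => simp at hφ
  | @hyp L ψ hL hψ ih =>
    rcases List.mem_cons.1 hφ with h | h
    · subst h; exact ⟨L, hL.hyp hψ, le_rfl⟩
    · obtain ⟨L', h1, h2⟩ := ih h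
      exact ⟨L', h1, by rw [lsize_cons ψ]; omega⟩
  | @step L ψ hL hi ih =>
    rcases List.mem_cons.1 hφ with h | h
    · subst h; exact ⟨L, hL.step hi, le_rfl⟩
    · obtain ⟨L', h1, h2⟩ := ih h
      exact ⟨L', h1, by rw [lsize_cons ψ]; omega⟩

/-- `φ` has a proof of size at most `s`. -/
def FregeSystem.PB (F : FregeSystem) (φ : Fm α) (s : ℕ) : Prop :=
  ∃ L, IsDeriv F.rules [] L ∧ φ ∈ L ∧ lsize L ≤ s

theorem FregeSystem.PB.mono {F : FregeSystem} {φ : Fm α} {s s' : ℕ} (h : F.PB φ s)
    (hs : s ≤ s') : F.PB φ s' := by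
  obtain ⟨L, h1, h2, h3⟩ := h
  exact ⟨L, h1, h2, h3.trans hs⟩

theorem FregeSystem.PB.isProof {F : FregeSystem} {φ : Fm α} {s : ℕ} (h : F.PB φ s) :
    ∃ L, F.IsProof φ L ∧ lsize L ≤ s := by
  obtain ⟨L, h1, h2, h3⟩ := h
  obtain ⟨L', h4, h5⟩ := h1.suffix h2
  exact ⟨φ :: L', ⟨h4, rfl⟩, h5.trans h3⟩

theorem FregeSystem.IsProof.pb {F : FregeSystem} {φ : Fm α} {L : List (Fm α)}
    (h : F.IsProof φ L) : F.PB φ (lsize L) := by
  obtain ⟨h1, h2⟩ := h
  refine ⟨L, h1, ?_, le_rfl⟩
  cases L with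
  | nil => simp at h2
  | cons a L => simp at h2; simp [h2]

/-! ### Finitely many small formulas -/

/-- All formulas of nesting depth at most `d` over the variables `< m`. -/
def allFm (m : ℕ) : ℕ → Finset (Fm ℕ)
  | 0 => ∅
  | d + 1 => (Finset.range m).image Fm.var ∪ {Fm.bot} ∪ (allFm m d).image Fm.neg ∪
      ((allFm m d ×ˢ allFm m d).image fun p => Fm.and p.1 p.2) ∪
      ((allFm m d ×ˢ allFm m d).image fun p => Fm.or p.1 p.2) ∪
      ((allFm m d ×ˢ allFm m d).image fun p => Fm.imp p.1 p.2)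

theorem mem_allFm {m : ℕ} (φ : Fm ℕ) (h : ∀ x, φ.Occurs x → x < m) :
    ∀ d, φ.size ≤ d → φ ∈ allFm m d := by
  induction φ with
  | var x =>
    intro d hd
    cases d with
    | zero => simp [Fm.size] at hd
    | succ d => simp [allFm, h x rfl]
  | bot =>
    intro d hd
    cases d with
    | zero => simp [Fm.size] at hd
    | succ d => simp [allFm]
  | neg φ ih =>
    intro d hd
    cases d with
    | zero => simp [Fm.size] at hd
    | succ d =>
      have := ih h d (by simp only [Fm.size] at hd; omega)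
      simp [allFm, this]
  | and φ ψ ih1 ih2 =>
    intro d hd
    cases d with
    | zero => simp [Fm.size] at hd
    | succ d =>
      have h1 := ih1 (fun x hx => h x (Or.inl hx)) d (by simp only [Fm.size] at hd; omega)
      have h2 := ih2 (fun x hx => h x (Or.inr hx)) d (by simp only [Fm.size] at hd; omega)
      simp [allFm, h1, h2]
  | or φ ψ ih1 ih2 =>
    intro d hd
    cases d with
    | zero => simp [Fm.size] at hd
    | succ d =>
      have h1 := ih1 (fun x hx => h x (Or.inl hx)) d (by simp only [Fm.size] at hd; omega)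
      have h2 := ih2 (fun x hx => h x (Or.inr hx)) d (by simp only [Fm.size] at hd; omega)
      simp [allFm, h1, h2]
  | imp φ ψ ih1 ih2 =>
    intro d hd
    cases d with
    | zero => simp [Fm.size] at hd
    | succ d =>
      have h1 := ih1 (fun x hx => h x (Or.inl hx)) d (by simp only [Fm.size] at hd; omega)
      have h2 := ih2 (fun x hx => h x (Or.inr hx)) d (by simp only [Fm.size] at hd; omega)
      simp [allFm, h1, h2]

/-- All lists of length at most `n` with entries in `S`. -/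
def allLists {δ : Type} [DecidableEq δ] (S : Finset δ) : ℕ → Finset (List δ)
  | 0 => {[]}
  | n + 1 => {[]} ∪ (S ×ˢ allLists S n).image fun p => p.1 :: p.2

theorem mem_allLists {δ : Type} [DecidableEq δ] {S : Finset δ} (l : List δ)
    (h : ∀ x ∈ l, x ∈ S) : ∀ n, l.length ≤ n → l ∈ allLists S n := by
  induction l with
  | nil => intro n _; cases n <;> simp [allLists]
  | cons a l ih =>
    intro n hn
    cases n with
    | zero => simp at hn
    | succ n =>
      have h1 : a ∈ S := h a (by simp)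
      have h2 := ih (fun x hx => h x (by simp [hx])) n (by simpa using hn)
      simp [allLists, h1, h2]

/-- Smallness of a formula used as a schematic skeleton. -/
def SmallFm (φ : Fm ℕ) : Prop := φ.size ≤ 40 ∧ ∀ x, φ.Occurs x → x < 10

/-- Boolean test for smallness. -/
def boundVars (m : ℕ) : Fm ℕ → Bool
  | .var x => decide (x < m)
  | .bot => true
  | .neg φ => boundVars m φ
  | .and φ ψ => boundVars m φ && boundVars m ψ
  | .or φ ψ => boundVars m φ && boundVars m ψ
  | .imp φ ψ => boundVars m φ && boundVars m ψ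

theorem boundVars_iff (m : ℕ) (φ : Fm ℕ) :
    boundVars m φ = true ↔ ∀ x, φ.Occurs x → x < m := by
  induction φ with
  | var x => simp [boundVars, Fm.Occurs]
  | bot => simp [boundVars, Fm.Occurs]
  | neg φ ih => simpa [boundVars, Fm.Occurs] using ih
  | and φ ψ ih1 ih2 =>
    simp only [boundVars, Bool.and_eq_true, ih1, ih2, Fm.Occurs]
    exact ⟨fun h x hx => hx.elim (h.1 x) (h.2 x), fun h => ⟨fun x hx => h x (Or.inl hx),
      fun x hx => h x (Or.inr hx)⟩⟩
  | or φ ψ ih1 ih2 =>
    simp only [boundVars, Bool.and_eq_true, ih1, ih2, Fm.Occurs]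
    exact ⟨fun h x hx => hx.elim (h.1 x) (h.2 x), fun h => ⟨fun x hx => h x (Or.inl hx),
      fun x hx => h x (Or.inr hx)⟩⟩
  | imp φ ψ ih1 ih2 =>
    simp only [boundVars, Bool.and_eq_true, ih1, ih2, Fm.Occurs]
    exact ⟨fun h x hx => hx.elim (h.1 x) (h.2 x), fun h => ⟨fun x hx => h x (Or.inl hx),
      fun x hx => h x (Or.inr hx)⟩⟩

/-- Boolean test for smallness of a schematic entailment. -/
def smallTest (prem : List (Fm ℕ)) (concl : Fm ℕ) : Bool :=
  decide (prem.length ≤ 8) && (concl :: prem).all fun φ =>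
    decide (φ.size ≤ 40) && boundVars 10 φ

theorem exists_finset_small_aux (m d n : ℕ) : ∃ T : Finset (List (Fm ℕ)),
    ∀ l : List (Fm ℕ), l.length ≤ n →
      (∀ φ ∈ l, φ.size ≤ d ∧ ∀ x, φ.Occurs x → x < m) → l ∈ T :=
  ⟨allLists (allFm m d) n, fun _ h1 h2 =>
    mem_allLists _ (fun φ hφ => mem_allFm φ (h2 φ hφ).2 d (h2 φ hφ).1) n h1⟩

theorem exists_finset_small : ∃ T : Finset (List (Fm ℕ)), ∀ (prem : List (Fm ℕ)) (concl : Fm ℕ),
    smallTest prem concl = true → (concl :: prem) ∈ T := by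
  obtain ⟨T, hT⟩ := exists_finset_small_aux 10 40 9
  refine ⟨T, fun prem concl hs => ?_⟩
  simp only [smallTest, Bool.and_eq_true, decide_eq_true_eq, List.all_eq_true] at hs
  obtain ⟨h1, h2⟩ := hs
  refine hT _ ?_ ?_
  · rw [List.length_cons]; omega
  · intro φ hφ
    have := h2 φ hφ
    exact ⟨this.1, (boundVars_iff 10 φ).1 this.2⟩

/-- There is a constant `K` such that every valid small schematic entailment has a derivation of
size at most `K`. -/
theorem FregeSystem.exists_K (F : FregeSystem) : ∃ K : ℕ, ∀ (prem : List (Fm ℕ)) (concl : Fm ℕ),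
    smallTest prem concl = true →
    (∀ v : ℕ → Prop, (∀ p ∈ prem, p.eval v) → concl.eval v) →
    ∃ L, IsDeriv F.rules prem L ∧ concl ∈ L ∧ lsize L ≤ K := by
  classical
  obtain ⟨T, hT⟩ := exists_finset_small
  have key : ∀ U : Finset (List (Fm ℕ)), ∃ K : ℕ, ∀ l ∈ U,
      (∃ s, ∃ L, IsDeriv F.rules l.tail L ∧ l.headD .bot ∈ L ∧ lsize L ≤ s) →
      ∃ L, IsDeriv F.rules l.tail L ∧ l.headD .bot ∈ L ∧ lsize L ≤ K := by
    intro U
    induction U using Finset.induction_on with
    | empty => exact ⟨0, by simp⟩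
    | insert a U ha ih =>
      obtain ⟨K, hK⟩ := ih
      by_cases h : ∃ s, ∃ L, IsDeriv F.rules a.tail L ∧ a.headD .bot ∈ L ∧ lsize L ≤ s
      · obtain ⟨s, hs⟩ := h
        refine ⟨max K s, fun l hl hex => ?_⟩
        rcases Finset.mem_insert.1 hl with h | h
        · subst h
          obtain ⟨L, h1, h2, h3⟩ := hs
          exact ⟨L, h1, h2, h3.trans (le_max_right _ _)⟩
        · obtain ⟨L, h1, h2, h3⟩ := hK l h hex
          exact ⟨L, h1, h2, h3.trans (le_max_left _ _)⟩
      · refine ⟨K, fun l hl hex => ?_⟩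
        rcases Finset.mem_insert.1 hl with h' | h'
        · subst h'; exact absurd hex h
        · exact hK l h' hex
  obtain ⟨K, hK⟩ := key T
  refine ⟨K, fun prem concl hs hval => ?_⟩
  obtain ⟨L, hL⟩ := F.complete prem concl hval
  obtain ⟨L', h3, h4, h5⟩ := hK _ (hT prem concl hs)
    ⟨lsize (concl :: L), concl :: L, hL, by simp, le_rfl⟩
  exact ⟨L', h3, h4, h5⟩

/-- The constant of a Frege system. -/
noncomputable def FregeSystem.K (F : FregeSystem) : ℕ := (F.exists_K).choose + 1

theorem FregeSystem.K_pos (F : FregeSystem) : 1 ≤ F.K := Nat.le_add_left _ _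

theorem FregeSystem.K_spec (F : FregeSystem) (prem : List (Fm ℕ)) (concl : Fm ℕ)
    (h : smallTest prem concl = true)
    (hv : ∀ v : ℕ → Prop, (∀ p ∈ prem, p.eval v) → concl.eval v) :
    ∃ L, IsDeriv F.rules prem L ∧ concl ∈ L ∧ lsize L ≤ F.K := by
  obtain ⟨L, h1, h2, h3⟩ := (F.exists_K).choose_spec prem concl h hv
  exact ⟨L, h1, h2, h3.trans (Nat.le_succ _)⟩

/-- Several closed proofs can be put together. -/
theorem FregeSystem.combine (F : FregeSystem) (l : List (Fm α × ℕ))
    (h : ∀ p ∈ l, F.PB p.1 p.2) :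
    ∃ L, IsDeriv F.rules [] L ∧ (∀ p ∈ l, p.1 ∈ L) ∧ lsize L ≤ (l.map Prod.snd).sum := by
  induction l with
  | nil => exact ⟨[], .nil, by simp, by simp [lsize]⟩
  | cons p l ih =>
    obtain ⟨L, h1, h2, h3⟩ := ih (fun q hq => h q (List.mem_cons_of_mem _ hq))
    obtain ⟨L', h4, h5, h6⟩ := h p (List.mem_cons_self ..)
    refine ⟨L' ++ L, h4.append h1, ?_, ?_⟩
    · intro q hq
      rcases List.mem_cons.1 hq with hq | hq
      · subst hq; simp [h5]
      · simp [h2 q hq]
    · rw [lsize_append, List.map_cons, List.sum_cons]; omega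

/-- A substitution given by a list of formulas; the remaining variables go to `⊥`. -/
def sub (θ : List (Fm α)) : ℕ → Fm α := fun i => θ.getD i .bot

/-- Inference by a small valid schematic entailment. -/
theorem FregeSystem.infer (F : FregeSystem) (prem : List (Fm ℕ)) (concl : Fm ℕ)
    (θ : List (Fm α)) (ss : List ℕ) (M : ℕ)
    (ht : smallTest prem concl = true)
    (hv : ∀ v : ℕ → Prop, (∀ p ∈ prem, p.eval v) → concl.eval v)
    (hM : 1 ≤ M) (hθ : ∀ x ∈ θ, x.size ≤ M)
    (hp : List.Forall₂ (fun p s => F.PB (p.subst (sub θ)) s) prem ss) :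
    F.PB (concl.subst (sub θ)) (ss.sum + F.K * M) := by
  obtain ⟨L, h1, h2, h3⟩ := F.K_spec prem concl ht hv
  have hlen := hp.length_eq
  obtain ⟨L0, h4, h5, h6⟩ := F.combine ((prem.map (Fm.subst (sub θ))).zip ss) (by
    intro p hp'
    rw [List.forall₂_iff_zip] at hp
    rw [List.zip_map_left] at hp'
    obtain ⟨q, hq, rfl⟩ := List.mem_map.1 hp'
    exact hp.2 hq)
  have hsum : (((prem.map (Fm.subst (sub θ))).zip ss).map Prod.snd).sum = ss.sum := by
    rw [List.map_snd_zip (by simp [hlen])]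
  have hmem : ∀ p ∈ prem, p.subst (sub θ) ∈ L0 := by
    intro p hp'
    obtain ⟨i, hi, rfl⟩ := List.getElem_of_mem hp'
    refine h5 ((prem[i]).subst (sub θ), ss[i]'(hlen ▸ hi)) ?_
    rw [List.mem_iff_getElem]
    refine ⟨i, by simp [hi, hlen ▸ hi], by simp⟩
  obtain ⟨L', h7, h8, h9, h10⟩ := h1.cut (sub θ) h4 hmem
  refine ⟨L', h7, h8 _ h2, ?_⟩
  have hb : ∀ x, (sub θ x).size ≤ M := by
    intro x
    unfold sub
    by_cases hx : x < θ.length
    · rw [List.getD_eq_getElem?_getD, List.getElem?_eq_getElem hx]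
      exact hθ _ (List.getElem_mem hx)
    · rw [List.getD_eq_getElem?_getD, List.getElem?_eq_none (by omega)]
      simpa [Fm.size] using hM
  have := lsize_map_subst_le (sub θ) M hM L hb
  calc lsize L' ≤ lsize (L.map (Fm.subst (sub θ))) + lsize L0 := h10
    _ ≤ F.K * M + ss.sum := by
      rw [hsum] at h6
      have : lsize (L.map (Fm.subst (sub θ))) ≤ F.K * M :=
        this.trans (Nat.mul_le_mul_right _ h3)
      omega
    _ = _ := by omega

end FregeEF
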