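import Mathlib.Data.Finset.Card
import Mathlib.Data.Finset.Dedup
import Pool.Agent.Work.MP_c07f0d_lc.Defs

/-!
# Branchwidth of the system of extension axioms of an extended Frege proof
-/

namespace FregeEF

open Classical in
/-- The variables from `Q` that occur in some of the extension axioms `q ↔ φ` in the list. -/
noncomputable def lv (Q : Finset ℕ) (l : List (ℕ × Fm ℕ)) : Finset ℕ :=
  Q.filter fun x => ∃ a ∈ l, a.1 = x ∨ a.2.Occurs x

/-- Binary trees whose leaves carry extension axioms. -/
inductive BTree : Type
  | leaf : ℕ × Fm ℕ → BTree
  | node : BTree → BTree → BTree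

namespace BTree

/-- The list of leaves of a tree. -/
def leaves : BTree → List (ℕ × Fm ℕ)
  | leaf a => [a]
  | node l r => l.leaves ++ r.leaves

/-- `T.WidthLE Q out w`: for every subtree `T'` of `T` there are at most `w` variables from `Q` that
occur both in an axiom at a leaf of `T'` and in an axiom outside `T'`; the axioms outside `T'` are
those at the other leaves of `T` and those in the list `out`. -/
def WidthLE (Q : Finset ℕ) : BTree → List (ℕ × Fm ℕ) → ℕ → Prop
  | leaf a, out, w => (lv Q [a] ∩ lv Q out).card ≤ w
  | node l r, out, w => (lv Q (l.leaves ++ r.leaves) ∩ lv Q out).card ≤ w ∧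
      WidthLE Q l (r.leaves ++ out) w ∧ WidthLE Q r (l.leaves ++ out) w

end BTree

/-- The extension axioms in `E` (pairs `(q, φ)` standing for `q ↔ φ`) have branchwidth at most `w`:
they can be put on the leaves of a binary tree such that each edge of the tree is crossed by at most
`w` extension variables, i.e. at most `w` extension variables occur in axioms on both sides of the
edge.  (Only the extension variables count, the variables of the proved formula do not.) -/
def BranchWidthLE (E : List (ℕ × Fm ℕ)) (w : ℕ) : Prop :=
  E = [] ∨ ∃ T : BTree, T.leaves.Perm E ∧ T.WidthLE (E.map Prod.fst).toFinset [] w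

end FregeEF
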