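import Pool.Agent.Work.MP_c07f0d_lc.Alt

/-!
# Chains of signed sets, given by words over signed coordinates
-/

namespace FregeEF

variable {α : Type} {F : FregeSystem} {t S : ℕ}

theorem ite_eq_of_iff {δ : Type} {p q : Prop} {dp : Decidable p} {dq : Decidable q} {x y z : δ}
    (h : p ↔ q) (hxy : x = y) : (@ite δ p dp x z) = (@ite δ q dq y z) := by
  subst hxy
  by_cases hp : p
  · rw [if_pos hp, if_pos (h.1 hp)]
  · rw [if_neg hp, if_neg (fun hq => hp (h.2 hq))]

/-- Letters: a coordinate and a sign. -/
abbrev Ltr := ℕ × Bool

/-- The alphabet. -/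
def alph (r : ℕ) : List Ltr := (List.range r).flatMap fun c => [(c, true), (c, false)]

theorem length_alph (r : ℕ) : (alph r).length = 2 * r := by
  induction r with
  | zero => rfl
  | succ r ih =>
    rw [alph, List.range_succ, List.flatMap_append, List.length_append]
    rw [alph] at ih
    rw [ih]
    simp; ring

theorem mem_alph {r : ℕ} {a : Ltr} : a ∈ alph r ↔ a.1 < r := by
  simp only [alph, List.mem_flatMap, List.mem_range, List.mem_cons, List.not_mem_nil, or_false]
  constructor
  · rintro ⟨c, hc, rfl | rfl⟩ <;> exact hc
  · intro h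
    refine ⟨a.1, h, ?_⟩
    rcases a with ⟨c, _ | _⟩ <;> simp

/-- Sign change of a letter. -/
def Ltr.neg (a : Ltr) : Ltr := (a.1, !a.2)

theorem Ltr.neg_neg (a : Ltr) : a.neg.neg = a := by simp [Ltr.neg]

theorem alph_neg_perm (r : ℕ) : ((alph r).map Ltr.neg).Perm (alph r) := by
  induction r with
  | zero => exact List.Perm.refl _
  | succ r ih =>
    rw [alph, List.range_succ, List.flatMap_append, List.map_append]
    exact ih.append (by simpa [Ltr.neg] using List.Perm.swap _ _ _)

/-- The chain of a word: the sets of the nonempty prefixes. -/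
def chain (w : List Ltr) : List (Finset Ltr) :=
  (List.range w.length).map fun j => (w.take (j + 1)).toFinset

theorem length_chain (w : List Ltr) : (chain w).length = w.length := by simp [chain]

theorem chain_append_singleton (u : List Ltr) (a : Ltr) :
    chain (u ++ [a]) = chain u ++ [(u ++ [a]).toFinset] := by
  unfold chain
  rw [List.length_append, List.length_singleton, List.range_succ, List.map_append]
  congr 1
  · refine List.map_congr_left fun j hj => ?_
    rw [List.mem_range] at hj
    rw [List.take_append_of_le_length (by omega)]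
  · simp only [List.map_cons, List.map_nil]
    rw [List.take_of_length_le (by rw [List.length_append, List.length_singleton])]

/-- The word uses each coordinate below its length exactly once. -/
def valid (w : List Ltr) : Prop := (w.map Prod.fst).Nodup ∧ ∀ a ∈ w, a.1 < w.length

theorem valid_perm {w w' : List Ltr} (h : w.Perm w') : valid w ↔ valid w' := by
  unfold valid
  rw [(h.map Prod.fst).nodup_iff, h.length_eq]
  simp only [h.mem_iff]

theorem valid_neg {w : List Ltr} : valid (w.map Ltr.neg) ↔ valid w := by
  unfold valid
  rw [List.map_map]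
  have : (Prod.fst ∘ Ltr.neg) = (Prod.fst : Ltr → ℕ) := rfl
  rw [this]
  simp only [List.mem_map, forall_exists_index, and_imp, forall_apply_eq_imp_iff₂,
    List.length_map, Ltr.neg]

/-- A valid word contains each coordinate. -/
theorem valid.exists_coord {w : List Ltr} (h : valid w) {c : ℕ} (hc : c < w.length) :
    ∃ s, (c, s) ∈ w := by
  have h1 : (w.map Prod.fst).toFinset ⊆ Finset.range w.length := by
    intro x hx
    rw [List.mem_toFinset] at hx
    obtain ⟨a, ha, rfl⟩ := List.mem_map.1 hx
    exact Finset.mem_range.2 (h.2 a ha)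
  have h2 : (w.map Prod.fst).toFinset = Finset.range w.length :=
    Finset.eq_of_subset_of_card_le h1 (by
      rw [Finset.card_range, List.toFinset_card_of_nodup h.1, List.length_map])
  have h3 : c ∈ (w.map Prod.fst).toFinset := by rw [h2]; exact Finset.mem_range.2 hc
  rw [List.mem_toFinset] at h3
  obtain ⟨a, ha, rfl⟩ := List.mem_map.1 h3
  exact ⟨a.2, ha⟩

theorem eq_of_coord {w : List Ltr} (h : (w.map Prod.fst).Nodup) {c : ℕ} {s s' : Bool}
    (h1 : (c, s) ∈ w) (h2 : (c, s') ∈ w) : s = s' := by
  have := List.inj_on_of_nodup_map h h1 h2 rfl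
  exact (Prod.ext_iff.1 this).2

variable (lab : Finset Ltr → Lbl → Fm α) (q : ℕ)

/-- All labels with value below `q`. -/
def lblList (q : ℕ) : List Lbl := (List.range q).flatMap fun v => [(true, v), (false, v)]

theorem length_lblList (q : ℕ) : (lblList q).length = 2 * q := by
  induction q with
  | zero => rfl
  | succ q ih =>
    rw [lblList, List.range_succ, List.flatMap_append, List.length_append]
    rw [lblList] at ih
    rw [ih]
    simp; ring

theorem mem_lblList {q : ℕ} {x : Lbl} : x ∈ lblList q ↔ x.2 < q := by
  simp only [lblList, List.mem_flatMap, List.mem_range, List.mem_cons, List.not_mem_nil, or_false]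
  constructor
  · rintro ⟨c, hc, rfl | rfl⟩ <;> exact hc
  · intro h
    refine ⟨x.2, h, ?_⟩
    rcases x with ⟨_ | _, c⟩ <;> simp

/-- The formula saying that the labels of the sets in the list have property `P`. -/
def byLab : (List Lbl → Bool) → List (Finset Ltr) → Fm α
  | P, [] => cst (P [])
  | P, A :: As => bigOr ((lblList q).map fun l => .and (lab A l) (byLab (fun t => P (l :: t)) As))

theorem size_byLab_le (s : ℕ) (hs : ∀ A l, (lab A l).size ≤ s) (As : List (Finset Ltr)) :
    ∀ P, (byLab lab q P As).size ≤ ((2 * q + 1) * (s + 3)) ^ As.length * 2 := by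
  induction As with
  | nil => intro P; simpa [byLab] using size_cst_le (P [])
  | cons A As ih =>
    intro P
    set X := ((2 * q + 1) * (s + 3)) ^ As.length * 2 with hX
    have hX1 : 1 ≤ X := by
      have : 0 < ((2 * q + 1) * (s + 3)) ^ As.length := by positivity
      omega
    have h1 := size_bigOr_le (s + X + 1)
      ((lblList q).map fun l => Fm.and (lab A l) (byLab lab q (fun t => P (l :: t)) As)) (by
      intro x hx
      obtain ⟨l, _, rfl⟩ := List.mem_map.1 hx
      have h2 := hs A l
      have h3 := ih (fun t => P (l :: t))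
      simp only [Fm.size]
      omega)
    rw [List.length_map, length_lblList] at h1
    rw [byLab, List.length_cons, pow_succ]
    have e : ((2 * q + 1) * (s + 3)) ^ As.length * ((2 * q + 1) * (s + 3)) * 2 =
        (2 * q + 1) * ((s + 3) * X) := by rw [hX]; ring
    rw [e]
    have h4 : s + X + 1 + 1 ≤ (s + 3) * X := by nlinarith
    calc _ ≤ 2 * q * (s + X + 1 + 1) + 1 := h1
      _ ≤ 2 * q * ((s + 3) * X) + 1 := by
        have := Nat.mul_le_mul_left (2 * q) h4
        omega
      _ ≤ _ := by nlinarith

open Classical in
/-- Alternation of the labels of the chain of a valid word. -/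
noncomputable def fQ (w : List Ltr) : Fm α :=
  if valid w then byLab lab q (altB true) (chain w) else .bot

open Classical in
/-- The same, for words in which the last coordinate has sign `s`. -/
noncomputable def fP (s : Bool) (w : List Ltr) : Fm α :=
  if valid w ∧ (w.length - 1, s) ∈ w then byLab lab q (altB true) (chain w) else .bot

open Classical in
/-- Alternation of the labels of the `i`-th facet. -/
noncomputable def fG (i : ℕ) (w : List Ltr) : Fm α :=
  if valid w ∧ (w.length - 1, true) ∈ w then byLab lab q (altB true) ((chain w).eraseIdx i) else .bot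

theorem fG_swap (i : ℕ) (u : List Ltr) (a b : Ltr) (v : List Ltr) (hu : u.length = i) :
    fG lab q i (u ++ a :: b :: v) = fG lab q i (u ++ b :: a :: v) := by
  have hp : (u ++ a :: b :: v).Perm (u ++ b :: a :: v) :=
    List.Perm.append_left u (List.Perm.swap b a v)
  have hlen := hp.length_eq
  have hc : (chain (u ++ a :: b :: v)).eraseIdx i = (chain (u ++ b :: a :: v)).eraseIdx i := by
    unfold chain
    rw [List.eraseIdx_map, List.eraseIdx_map, hlen]
    refine List.map_congr_left fun j hj => ?_
    rw [List.mem_eraseIdx_iff_getElem] at hj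
    obtain ⟨j', hj', hne, rfl⟩ := hj
    rw [List.getElem_range]
    rw [List.length_range] at hj'
    rcases lt_or_gt_of_ne hne with h | h
    · rw [List.take_append_of_le_length (by omega), List.take_append_of_le_length (by omega)]
    · refine List.toFinset_eq_of_perm _ _ ?_
      obtain ⟨k, rfl⟩ : ∃ k, j' = i + 1 + k := ⟨j' - (i + 1), by omega⟩
      rw [List.take_append, List.take_append, hu]
      refine List.Perm.append_left _ ?_
      have : i + 1 + k + 1 - i = k + 2 := by omega
      rw [this]
      simpa using List.Perm.swap b a (v.take k)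
  unfold fG
  refine ite_eq_of_iff ?_ (by rw [hc])
  rw [valid_perm hp, hlen, hp.mem_iff]

theorem fG_diag (i : ℕ) (u : List Ltr) (a : Ltr) (v : List Ltr) :
    fG lab q i (u ++ a :: a :: v) = .bot := by
  unfold fG
  rw [if_neg]
  rintro ⟨⟨h, _⟩, _⟩
  simp [List.nodup_append] at h

theorem fG_flip (d : ℕ) (u : List Ltr) (hu : u.length = d) (c : ℕ) (hc : c ≠ d) :
    fG lab q d (u ++ [(c, true)]) = fG lab q d (u ++ [(c, false)]) := by
  have h1 : ∀ s, (chain (u ++ [(c, s)])).eraseIdx d = chain u := by
    intro s
    rw [chain_append_singleton, List.eraseIdx_append_of_length_le (by rw [length_chain, hu]),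
      length_chain, hu]
    simp
  have h2 : ∀ s, (valid (u ++ [(c, s)]) ∧ ((u ++ [(c, s)]).length - 1, true) ∈ u ++ [(c, s)]) ↔
      ((u.map Prod.fst ++ [c]).Nodup ∧ (∀ a ∈ u, a.1 < d + 1) ∧ c < d + 1) ∧ (d, true) ∈ u := by
    intro s
    unfold valid
    simp only [List.map_append, List.map_cons, List.map_nil, List.length_append, hu,
      List.length_singleton, List.mem_append, List.mem_cons, List.not_mem_nil, or_false,
      Prod.mk.injEq, Nat.add_sub_cancel]
    constructor
    · rintro ⟨⟨h3, h4⟩, h5⟩
      refine ⟨⟨h3, fun a ha => h4 a (Or.inl ha), h4 (c, s) (Or.inr rfl)⟩, ?_⟩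
      exact h5.resolve_right (fun h => hc h.1.symm)
    · rintro ⟨⟨h3, h4, h5⟩, h6⟩
      refine ⟨⟨h3, ?_⟩, Or.inl h6⟩
      rintro a (ha | rfl)
      · exact h4 a ha
      · exact h5
  unfold fG
  refine ite_eq_of_iff ?_ (by rw [h1, h1])
  rw [h2, h2]

theorem fG_last_false (d : ℕ) (u : List Ltr) (hu : u.length = d) :
    fG lab q d (u ++ [(d, false)]) = .bot := by
  unfold fG
  rw [if_neg]
  rintro ⟨⟨h1, _⟩, h2⟩
  have h3 : (d, false) ∈ u ++ [(d, false)] := by simp
  have h4 : (d, true) ∈ u ++ [(d, false)] := by
    simpa [List.length_append, hu] using h2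
  exact absurd (eq_of_coord h1 h3 h4) (by simp)

theorem fG_last_true (d : ℕ) (u : List Ltr) (hu : u.length = d) :
    fG lab q d (u ++ [(d, true)]) = fQ lab q u := by
  have h1 : (chain (u ++ [(d, true)])).eraseIdx d = chain u := by
    rw [chain_append_singleton, List.eraseIdx_append_of_length_le (by rw [length_chain, hu]),
      length_chain, hu]
    simp
  have h2 : (valid (u ++ [(d, true)]) ∧ ((u ++ [(d, true)]).length - 1, true) ∈
      u ++ [(d, true)]) ↔ valid u := by
    unfold valid
    simp only [List.map_append, List.map_cons, List.map_nil, List.length_append, hu,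
      List.length_singleton, List.mem_append, List.mem_cons, List.not_mem_nil, or_false,
      Nat.add_sub_cancel, or_true, and_true]
    constructor
    · rintro ⟨h3, h4⟩
      rw [List.nodup_append] at h3
      refine ⟨h3.1, fun a ha => ?_⟩
      have h5 := h4 a (Or.inl ha)
      have h6 := h3.2.2 a.1 (List.mem_map_of_mem ha) d (by simp)
      omega
    · rintro ⟨h3, h4⟩
      refine ⟨?_, ?_⟩
      · rw [List.nodup_append]
        refine ⟨h3, by simp, ?_⟩
        intro x hx y hy
        obtain ⟨a, ha, rfl⟩ := List.mem_map.1 hx
        simp only [List.mem_cons, List.not_mem_nil, or_false] at hy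
        subst hy
        have := h4 a ha
        omega
      · rintro a (ha | rfl)
        · have := h4 a ha; omega
        · simp
  unfold fG fQ
  exact ite_eq_of_iff h2 (by rw [h1])

/-- The three parts. -/
theorem fP_cases (w : List Ltr) (hw : 0 < w.length) :
    (fP lab q true w = fQ lab q w ∧ fP lab q false w = .bot) ∨
    (fP lab q true w = .bot ∧ fP lab q false w = fQ lab q w) := by
  by_cases hv : valid w
  · obtain ⟨s, hs⟩ := hv.exists_coord (c := w.length - 1) (by omega)
    cases s
    · right
      have h1 : (w.length - 1, true) ∉ w := fun h => absurd (eq_of_coord hv.1 hs h) (by simp)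
      simp [fP, fQ, hv, h1, hs]
    · left
      have h1 : (w.length - 1, false) ∉ w := fun h => absurd (eq_of_coord hv.1 hs h) (by simp)
      simp [fP, fQ, hv, h1, hs]
  · left
    simp [fP, fQ, hv]

end FregeEF
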