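import Pool.Agent.Work.MP_c07f0d_lc.Gadgets

/-!
# Counting and the pigeonhole principle in the game
-/

namespace FregeEF

variable {α : Type} {F : FregeSystem} {t S : ℕ}
variable {Q : Set (Fm α) → Prop} {Γ : Set (Fm α)}

/-- Exactly `s` of `g o, …, g (o + 2 ^ m - 1)` are true. -/
def cnt : ℕ → (ℕ → Fm α) → ℕ → ℕ → Fm α
  | 0, g, o, s => if s = 0 then .neg (g o) else if s = 1 then g o else .bot
  | m + 1, g, o, s =>
    bigOr ((List.range (s + 1)).map fun a => .and (cnt m g o a) (cnt m g (o + 2 ^ m) (s - a)))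

theorem size_cnt_le (g : ℕ → Fm α) (B : ℕ) (hg : ∀ j, (g j).size ≤ B) (m : ℕ) :
    ∀ (o s M : ℕ), s ≤ M → (cnt m g o s).size ≤ (5 * (M + 1)) ^ m * (B + 1) := by
  induction m with
  | zero =>
    intro o s M _
    have := hg o
    rw [pow_zero, one_mul, cnt]
    split_ifs
    · simp only [Fm.size]; omega
    · omega
    · simp only [Fm.size]; omega
  | succ m ih =>
    intro o s M hs
    have h1 := size_bigOr_le (2 * ((5 * (M + 1)) ^ m * (B + 1)) + 1)
      ((List.range (s + 1)).map fun a =>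
        Fm.and (cnt m g o a) (cnt m g (o + 2 ^ m) (s - a))) (by
      intro x hx
      obtain ⟨a, ha, rfl⟩ := List.mem_map.1 hx
      rw [List.mem_range] at ha
      have h2 := ih o a M (by omega)
      have h3 := ih (o + 2 ^ m) (s - a) M (by omega)
      simp only [Fm.size]
      omega)
    rw [List.length_map, List.length_range] at h1
    rw [cnt]
    set X := (5 * (M + 1)) ^ m * (B + 1) with hX
    have hX1 : 1 ≤ X := Nat.mul_pos (Nat.pow_pos (by omega)) (by omega)
    have e : (5 * (M + 1)) ^ (m + 1) * (B + 1) = 5 * (M + 1) * X := by rw [hX, pow_succ]; ring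
    rw [e]
    have h4 : (s + 1) * (2 * X + 1 + 1) ≤ (M + 1) * (2 * X + 1 + 1) :=
      Nat.mul_le_mul_right _ (by omega)
    nlinarith

theorem Can.cnt_split (hS : F.K * (t + 1) ≤ S) {m : ℕ} {g : ℕ → Fm α} {o s M : ℕ}
    (hs : s < 2 ^ M) (h : cnt (m + 1) g o s ∈ Γ) :
    Can F t S (M + 2 + 2) Γ (fun Δ => ∃ a ≤ s, cnt m g o a ∈ Δ ∧
      cnt m g (o + 2 ^ m) (s - a) ∈ Δ) := by
  refine (Can.find' hS M (by simpa using hs) h).bind ?_
  rintro Δ hΔ ⟨a, ha, h1⟩
  rw [List.mem_range] at ha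
  refine (Can.and_elim hS _ _ h1).mono le_rfl ?_
  rintro Δ' _ ⟨h2, h3⟩
  exact ⟨a, by omega, h2, h3⟩

/-- If one count is larger than another, there is a position where only the first is true. -/
theorem Can.cnt_gt (hS : F.K * (t + 1) ≤ S) {g g' : ℕ → Fm α} {M : ℕ} (m : ℕ) :
    ∀ (o s s' : ℕ) (Γ : Set (Fm α)), s' < s → s < 2 ^ M → cnt m g o s ∈ Γ → cnt m g' o s' ∈ Γ →
      Can F t S (m * (2 * (M + 4))) Γ (fun Δ => ∃ j, o ≤ j ∧ j < o + 2 ^ m ∧ g j ∈ Δ ∧
        Fm.neg (g' j) ∈ Δ) := by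
  induction m with
  | zero =>
    intro o s s' Γ hss _ h1 h2
    rw [cnt] at h1 h2
    by_cases hs1 : s = 1
    · subst hs1
      have : s' = 0 := by omega
      subst this
      simp only [one_ne_zero, if_false, if_true] at h1 h2
      exact (Can.ret ⟨o, le_rfl, by simp, h1, h2⟩).weaken (by omega)
    · have hs0 : s ≠ 0 := by omega
      simp only [hs1, hs0, if_false] at h1
      exact (Can.close_bot hS h1).weaken (by omega)
  | succ m ih =>
    intro o s s' Γ hss hsM h1 h2
    have e : (m + 1) * (2 * (M + 4)) = (M + 2 + 2) + ((M + 2 + 2) + m * (2 * (M + 4))) := by ring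
    rw [e]
    refine (Can.cnt_split hS hsM h1).bind ?_
    rintro Δ hΔ ⟨a, ha, h3, h4⟩
    refine (Can.cnt_split hS (by omega) (hΔ h2)).bind ?_
    rintro Δ' hΔ' ⟨a', ha', h5, h6⟩
    by_cases haa : a' < a
    · refine (ih o a a' Δ' haa (by omega) (hΔ' h3) h5).mono le_rfl ?_
      rintro Δ'' _ ⟨j, hj1, hj2, h7, h8⟩
      exact ⟨j, hj1, by rw [pow_succ]; omega, h7, h8⟩
    · refine (ih (o + 2 ^ m) (s - a) (s' - a') Δ' (by omega) (by omega) (hΔ' h4) h6).mono
        le_rfl ?_
      rintro Δ'' _ ⟨j, hj1, hj2, h7, h8⟩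
      exact ⟨j, by omega, by rw [pow_succ]; omega, h7, h8⟩

/-- If the counts do not differ as they should, there is a second position where the families
differ. -/
theorem Can.cnt_two (hS : F.K * (t + 1) ≤ S) {g g' : ℕ → Fm α} {M : ℕ} (m : ℕ) :
    ∀ (o s s' j : ℕ) (Γ : Set (Fm α)), s' ≠ s + 1 → s < 2 ^ M → s' < 2 ^ M → cnt m g o s ∈ Γ →
      cnt m g' o s' ∈ Γ → o ≤ j → j < o + 2 ^ m → Fm.neg (g j) ∈ Γ → g' j ∈ Γ →
      Can F t S (m * (2 * (M + 4))) Γ (fun Δ => ∃ j', j' ≠ j ∧ o ≤ j' ∧ j' < o + 2 ^ m ∧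
        ((g j' ∈ Δ ∧ Fm.neg (g' j') ∈ Δ) ∨ (g' j' ∈ Δ ∧ Fm.neg (g j') ∈ Δ))) := by
  induction m with
  | zero =>
    intro o s s' j Γ hss _ _ h1 h2 hj1 hj2 h3 h4
    have hjo : j = o := by simp at hj2; omega
    subst hjo
    rw [cnt] at h1 h2
    by_cases hs0 : s = 0
    · subst hs0
      by_cases hs0' : s' = 0
      · subst hs0'
        simp only [if_true] at h2
        exact (Can.close_neg hS _ h4 h2).weaken (by omega)
      · have hs1' : s' ≠ 1 := by omega
        simp only [hs0', hs1', if_false] at h2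
        exact (Can.close_bot hS h2).weaken (by omega)
    · by_cases hs1 : s = 1
      · subst hs1
        simp only [one_ne_zero, if_false, if_true] at h1
        exact (Can.close_neg hS _ h1 h3).weaken (by omega)
      · simp only [hs0, hs1, if_false] at h1
        exact (Can.close_bot hS h1).weaken (by omega)
  | succ m ih =>
    intro o s s' j Γ hss hsM hsM' h1 h2 hj1 hj2 h3 h4
    have e : (m + 1) * (2 * (M + 4)) = (M + 2 + 2) + ((M + 2 + 2) + m * (2 * (M + 4))) := by ring
    rw [e]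
    refine (Can.cnt_split hS hsM h1).bind ?_
    rintro Δ hΔ ⟨a, ha, h5, h6⟩
    refine (Can.cnt_split hS hsM' (hΔ h2)).bind ?_
    rintro Δ' hΔ' ⟨a', ha', h7, h8⟩
    have hΓ : Γ ⊆ Δ' := hΔ.trans hΔ'
    rw [pow_succ] at hj2
    by_cases hjl : j < o + 2 ^ m
    · -- `j` in the left half
      by_cases hr : s - a = s' - a'
      · refine (ih o a a' j Δ' (by omega) (by omega) (by omega) (hΔ' h5) h7 hj1 hjl (hΓ h3)
          (hΓ h4)).mono le_rfl ?_
        rintro Δ'' _ ⟨j', hj0, hj1, hj2, h9⟩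
        exact ⟨j', hj0, hj1, by rw [pow_succ]; omega, h9⟩
      · rcases lt_or_gt_of_ne hr with hr | hr
        · refine (Can.cnt_gt hS m (o + 2 ^ m) (s' - a') (s - a) Δ' hr (by omega) h8
            (hΔ' h6)).mono le_rfl ?_
          rintro Δ'' _ ⟨j', hj1, hj2, h9, h10⟩
          exact ⟨j', by omega, by omega, by rw [pow_succ]; omega, Or.inr ⟨h9, h10⟩⟩
        · refine (Can.cnt_gt hS m (o + 2 ^ m) (s - a) (s' - a') Δ' hr (by omega) (hΔ' h6)
            h8).mono le_rfl ?_
          rintro Δ'' _ ⟨j', hj1, hj2, h9, h10⟩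
          exact ⟨j', by omega, by omega, by rw [pow_succ]; omega, Or.inl ⟨h9, h10⟩⟩
    · by_cases hr : a = a'
      · refine (ih (o + 2 ^ m) (s - a) (s' - a') j Δ' (by omega) (by omega) (by omega) (hΔ' h6) h8
          (by omega) (by omega) (hΓ h3) (hΓ h4)).mono le_rfl ?_
        rintro Δ'' _ ⟨j', hj0, hj1, hj2, h9⟩
        exact ⟨j', hj0, by omega, by rw [pow_succ]; omega, h9⟩
      · rcases lt_or_gt_of_ne hr with hr | hr
        · refine (Can.cnt_gt hS m o a' a Δ' hr (by omega) h7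
            (hΔ' h5)).mono le_rfl ?_
          rintro Δ'' _ ⟨j', hj1, hj2, h9, h10⟩
          exact ⟨j', by omega, by omega, by rw [pow_succ]; omega, Or.inr ⟨h9, h10⟩⟩
        · refine (Can.cnt_gt hS m o a a' Δ' hr (by omega) (hΔ' h5) h7).mono le_rfl ?_
          rintro Δ'' _ ⟨j', hj1, hj2, h9, h10⟩
          exact ⟨j', by omega, by omega, by rw [pow_succ]; omega, Or.inl ⟨h9, h10⟩⟩

/-- A count cannot exceed the number of positions below `b`, if all later ones are `⊥`. -/
theorem Can.cnt_cap (hS : F.K * (t + 1) ≤ S) {g : ℕ → Fm α} {M b : ℕ}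
    (hg : ∀ j, b ≤ j → g j = .bot) (m : ℕ) :
    ∀ (o s : ℕ) (Γ : Set (Fm α)), min (b - o) (2 ^ m) < s → s < 2 ^ M → cnt m g o s ∈ Γ →
      Can F t S (m * (M + 4)) Γ (fun _ => False) := by
  induction m with
  | zero =>
    intro o s Γ hb _ h
    rw [cnt] at h
    have hs0 : s ≠ 0 := by omega
    by_cases hs1 : s = 1
    · subst hs1
      simp only [one_ne_zero, if_false, if_true] at h
      rw [hg o (by simp only [pow_zero] at hb; omega)] at h
      exact (Can.close_bot hS h).weaken (by omega)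
    · simp only [hs0, hs1, if_false] at h
      exact (Can.close_bot hS h).weaken (by omega)
  | succ m ih =>
    intro o s Γ hb hsM h
    have e : (m + 1) * (M + 4) = (M + 2 + 2) + m * (M + 4) := by ring
    rw [e]
    refine (Can.cnt_split hS hsM h).bind ?_
    rintro Δ hΔ ⟨a, ha, h1, h2⟩
    rw [pow_succ] at hb
    by_cases hl : min (b - o) (2 ^ m) < a
    · exact ih o a Δ hl (by omega) h1
    · exact ih (o + 2 ^ m) (s - a) Δ (by omega) (by omega) h2

/-- Refuting that there is no count. -/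
theorem Can.cnt_exists_aux (hS : F.K * (t + 1) ≤ S) {g : ℕ → Fm α} {M : ℕ} (m : ℕ) (hmM : m < M)
    (hsz : ∀ m' ≤ m, ∀ o, (bigOr ((List.range (2 ^ m' + 1)).map (cnt m' g o))).size ≤ t) :
    ∀ (o : ℕ) (Γ : Set (Fm α)), Fm.neg (bigOr ((List.range (2 ^ m + 1)).map (cnt m g o))) ∈ Γ →
      Can F t S (m * (2 * (1 + (M + 2))) + (2 * M + 8)) Γ (fun _ => False) := by
  have hlen : ∀ m' ≤ m, (List.range (2 ^ m' + 1)).length ≤ 2 ^ M := by
    intro m' hm'
    rw [List.length_range]
    have : 2 ^ m' < 2 ^ M := Nat.pow_lt_pow_right (by omega) (by omega)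
    omega
  induction m with
  | zero =>
    intro o Γ h
    have hg : (g o).size ≤ t := by
      have h1 := hsz 0 le_rfl o
      have h2 := size_mem_bigOr (l := (List.range (2 ^ 0 + 1)).map (cnt 0 g o)) (φ := g o) (by
        refine List.mem_map.2 ⟨1, by simp, by simp [cnt]⟩)
      omega
    refine Can.weaken (c := 1 + (M + 1)) ?_ (by omega)
    refine (Can.query (g o) hg).bind ?_
    rintro Δ hΔ (h1 | h1)
    · exact Can.refute' hS M (hlen 0 le_rfl) (hΔ h) (a := 1) (by simp) (by simpa [cnt] using h1)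
    · exact Can.refute' hS M (hlen 0 le_rfl) (hΔ h) (a := 0) (by simp) (by simpa [cnt] using h1)
  | succ m ih =>
    intro o Γ h
    have hl : ∀ o, (bigOr ((List.range (2 ^ m + 1)).map (cnt m g o))).size ≤ t :=
      fun o => hsz m (by omega) o
    have e : (m + 1) * (2 * (1 + (M + 2))) + (2 * M + 8) = (1 + (M + 2)) + ((1 + (M + 2)) +
        (m * (2 * (1 + (M + 2))) + (2 * M + 8))) := by ring
    rw [e]
    have ih' := ih (by omega) (fun m' hm' => hsz m' (by omega)) (fun m' hm' => hlen m' (by omega))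
    refine (Can.queryFind hS (l := List.range (2 ^ m + 1)) (f := cnt m g o) M
      (hlen m (by omega)) (hl o)).bind ?_
    rintro Δ hΔ (⟨a, ha, h1⟩ | h1)
    · refine (Can.queryFind hS (l := List.range (2 ^ m + 1)) (f := cnt m g (o + 2 ^ m)) M
        (hlen m (by omega)) (hl _)).bind ?_
      rintro Δ' hΔ' (⟨b, hb, h2⟩ | h2)
      · rw [List.mem_range] at ha hb
        have hab : a + b ∈ List.range (2 ^ (m + 1) + 1) := by
          rw [List.mem_range, pow_succ]; omega
        -- the conjunction for `a + b`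
        have hmem : cnt (m + 1) g o (a + b) ∈ (List.range (2 ^ (m + 1) + 1)).map
            (cnt (m + 1) g o) := List.mem_map_of_mem hab
        have hsz1 := size_mem_bigOr hmem
        have hmem2 : Fm.and (cnt m g o a) (cnt m g (o + 2 ^ m) (a + b - a)) ∈
            (List.range (a + b + 1)).map
              (fun a' => Fm.and (cnt m g o a') (cnt m g (o + 2 ^ m) (a + b - a'))) :=
          List.mem_map.2 ⟨a, by rw [List.mem_range]; omega, rfl⟩
        have hsz2 := size_mem_bigOr hmem2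
        have hsz3 := hsz (m + 1) le_rfl o
        rw [show a + b - a = b by omega] at hmem2 hsz2
        have hdef : cnt (m + 1) g o (a + b) = bigOr ((List.range (a + b + 1)).map
              (fun a' => Fm.and (cnt m g o a') (cnt m g (o + 2 ^ m) (a + b - a')))) := rfl
        rw [← hdef] at hsz2
        refine Can.weaken (c := 1 + (1 + (M + 2))) ?_ (by omega)
        refine (Can.query (cnt (m + 1) g o (a + b)) (by omega)).bind ?_
        rintro Δ2 hΔ2 (h3 | h3)
        · exact (Can.refute' hS M (hlen (m + 1) le_rfl) (hΔ2 (hΔ' (hΔ h))) hab h3).weaken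
            (by omega)
        · refine (Can.query _ (le_trans (Nat.le_of_lt hsz2) (by omega))).bind ?_
          rintro Δ3 hΔ3 (h4 | h4)
          · refine (Can.refuteOr hS M ?_ (by rw [← hdef]; exact hΔ3 h3) _ hmem2 h4).weaken
              (by omega)
            rw [List.length_map, List.length_range]
            have := hlen (m + 1) le_rfl
            rw [List.length_range] at this
            rw [pow_succ] at this
            omega
          · exact (Can.close_nand hS _ _ h4 (hΔ3 (hΔ2 (hΔ' h1))) (hΔ3 (hΔ2 h2))).weaken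
              (by omega)
      · exact ih' _ Δ' h2
    · exact (ih' _ Δ h1).weaken (by omega)

theorem Can.cnt_exists (hS : F.K * (t + 1) ≤ S) {g : ℕ → Fm α} {M : ℕ} (m : ℕ) (hmM : m < M)
    (hsz : ∀ m' ≤ m, ∀ o, (bigOr ((List.range (2 ^ m' + 1)).map (cnt m' g o))).size ≤ t)
    (o : ℕ) : Can F t S (1 + (m * (2 * (1 + (M + 2))) + (2 * M + 8))) Γ
      (fun Δ => ∃ s, s ≤ 2 ^ m ∧ cnt m g o s ∈ Δ) := by
  refine (Can.query _ (hsz m le_rfl o)).bind ?_
  rintro Δ hΔ (h | h)
  · refine (Can.find' hS M ?_ h).mono (by omega) ?_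
    · rw [List.length_range]
      have : 2 ^ m < 2 ^ M := Nat.pow_lt_pow_right (by omega) (by omega)
      omega
    · rintro Δ' _ ⟨a, ha, h1⟩
      rw [List.mem_range] at ha
      exact ⟨a, by omega, h1⟩
  · exact (Can.cnt_exists_aux hS m hmM hsz o Δ h).false_elim

/-! ### Pigeonhole -/

/-- The formulas `r x 0, …, r x (b - 1)`. -/
def phL (r : ℕ → ℕ → Fm α) (b x : ℕ) : List (Fm α) := (List.range b).map (r x)

/-- Some `x < i` has `y` as its last image. -/
def phPsi (r : ℕ → ℕ → Fm α) (b i y : ℕ) : Fm α :=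
  if y < b then bigOr ((List.range i).map fun x => lastF (phL r b x) y) else .bot

theorem length_phL (r : ℕ → ℕ → Fm α) (b x : ℕ) : (phL r b x).length = b := by simp [phL]

theorem getD_phL (r : ℕ → ℕ → Fm α) {b x y : ℕ} (hy : y < b) :
    (phL r b x).getD y .bot = r x y := by
  rw [List.getD_eq_getElem?_getD, List.getElem?_eq_getElem (by rw [length_phL]; exact hy)]
  simp [phL]

theorem size_phL_le (r : ℕ → ℕ → Fm α) (B b x : ℕ) (hr : ∀ x y, (r x y).size ≤ B) :
    (bigOr (phL r b x)).size ≤ b * (B + 1) + 1 := by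
  have := size_bigOr_le B (phL r b x) (by
    intro y hy
    obtain ⟨z, _, rfl⟩ := List.mem_map.1 hy
    exact hr x z)
  rwa [length_phL] at this

theorem size_phPsi_le (r : ℕ → ℕ → Fm α) (B b a i y : ℕ) (hr : ∀ x y, (r x y).size ≤ B)
    (hi : i ≤ a) : (phPsi r b i y).size ≤ a * (2 * (b * (B + 1) + 1) + 3) + 1 := by
  unfold phPsi
  split_ifs
  · have := size_bigOr_le (2 * (b * (B + 1) + 1) + 2)
      ((List.range i).map fun x => lastF (phL r b x) y) (by
      intro z hz
      obtain ⟨x, _, rfl⟩ := List.mem_map.1 hz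
      refine (size_lastF_le _ _).trans ?_
      have := size_phL_le r B b x hr
      omega)
    rw [List.length_map, List.length_range] at this
    refine this.trans (Nat.add_le_add_right (Nat.mul_le_mul_right _ hi) 1)
  · simp [Fm.size]

/-- The bound on the sizes used in the pigeonhole game. -/
def phSize (a b B M : ℕ) : ℕ :=
  (2 ^ M + 1) * ((5 * (2 ^ M + 1)) ^ M * (a * (2 * (b * (B + 1) + 1) + 3) + 1 + 1) + 1) + 1

/-- The pigeonhole principle: if `b < a` and `r` is a relation between numbers below `a` and numbers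
below `b`, then one finds a number without image or a collision. -/
theorem Can.php (hS : F.K * (t + 1) ≤ S) (r : ℕ → ℕ → Fm α) {a b B M : ℕ} (hab : b < a)
    (haM : a < 2 ^ M) (hr : ∀ x y, (r x y).size ≤ B) (ht : phSize a b B M ≤ t) :
    Can F t S (40 * (M + 4) ^ 2) Γ (fun Δ =>
      (∃ x, x < a ∧ Fm.neg (bigOr ((List.range b).map (r x))) ∈ Δ) ∨
      (∃ x x' y, x < x' ∧ x' < a ∧ y < b ∧ r x y ∈ Δ ∧ r x' y ∈ Δ)) := by
  set X := a * (2 * (b * (B + 1) + 1) + 3) + 1 with hX
  set P := (5 * (2 ^ M + 1)) ^ M * (X + 1) with hP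
  have h0 : 0 < (5 * (2 ^ M + 1)) ^ M := Nat.pow_pos (by omega)
  have hXP : X + 1 ≤ P := Nat.le_mul_of_pos_left _ h0
  have hPt : (2 ^ M + 1) * (P + 1) + 1 ≤ t := ht
  have hPt' : P ≤ t := by
    have : P + 1 ≤ (2 ^ M + 1) * (P + 1) := Nat.le_mul_of_pos_left _ (by omega)
    omega
  have hXt : X ≤ t := by omega
  have hpsi : ∀ i ≤ a, ∀ y, (phPsi r b i y).size ≤ X := fun i hi y =>
    size_phPsi_le r B b a i y hr hi
  have hcnt : ∀ i ≤ a, ∀ m ≤ M, ∀ o s, s ≤ 2 ^ M → (cnt m (phPsi r b i) o s).size ≤ P := by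
    intro i hi m hm o s hs
    refine (size_cnt_le _ X (hpsi i hi) m o s (2 ^ M) hs).trans ?_
    exact Nat.mul_le_mul_right _ (Nat.pow_le_pow_right (by omega) hm)
  have hsz : ∀ i ≤ a, ∀ m' ≤ M, ∀ o,
      (bigOr ((List.range (2 ^ m' + 1)).map (cnt m' (phPsi r b i) o))).size ≤ t := by
    intro i hi m' hm' o
    have hpow : 2 ^ m' ≤ 2 ^ M := Nat.pow_le_pow_right (by omega) hm'
    have := size_bigOr_le P ((List.range (2 ^ m' + 1)).map (cnt m' (phPsi r b i) o)) (by
      intro x hx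
      obtain ⟨s, hs, rfl⟩ := List.mem_map.1 hx
      rw [List.mem_range] at hs
      exact hcnt i hi m' hm' o s (by omega))
    rw [List.length_map, List.length_range] at this
    have h2 : (2 ^ m' + 1) * (P + 1) ≤ (2 ^ M + 1) * (P + 1) := Nat.mul_le_mul_right _ (by omega)
    omega
  have hE : ∀ i ≤ a, (cnt M (phPsi r b i) 0 i).size ≤ t := fun i hi =>
    (hcnt i hi M le_rfl 0 i (by omega)).trans hPt'
  have hM1 : a < 2 ^ (M + 1) := by rw [pow_succ]; omega
  have hbM : b ≤ 2 ^ M := by omega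
  have hphL : ∀ x, (bigOr (phL r b x)).size ≤ b * (B + 1) + 1 := fun x => size_phL_le r B b x hr
  have hlast : ∀ x, 2 * (bigOr (phL r b x)).size + 2 ≤ t := by
    intro x
    have h1 := hphL x
    have h2 : 1 * (2 * (b * (B + 1) + 1) + 3) ≤ a * (2 * (b * (B + 1) + 1) + 3) :=
      Nat.mul_le_mul_right _ (by omega)
    omega
  refine Can.weaken (c := (1 + (1 + (M * (2 * (1 + (M + 1 + 2))) + (2 * (M + 1) + 8))) +
    M * (M + 1 + 4)) + ((1 + M * (M + 1 + 4)) + (1 * M + ((1 + (M * (2 * (1 + (M + 1 + 2))) +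
    (2 * (M + 1) + 8))) + (1 + ((M + 3) + ((1 + (M + 2 + 2)) + ((1 + (M + 1)) +
    (M * (2 * (M + 1 + 4)) + ((M + 2) + (M + 5))))))))))) ?_ (by nlinarith)
  -- step 1: the count for `0`
  refine Can.bind (Q1 := fun Δ => cnt M (phPsi r b 0) 0 0 ∈ Δ) ?_ ?_
  · refine Can.weaken (c := 1 + ((1 + (M * (2 * (1 + (M + 1 + 2))) + (2 * (M + 1) + 8))) +
      M * (M + 1 + 4))) ?_ (by omega)
    refine (Can.query _ (hE 0 (by omega))).bind ?_
    rintro Δ _ (h | h)
    · exact (Can.ret h).weaken (by omega)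
    · refine (Can.cnt_exists hS (M := M + 1) M (by omega) (hsz 0 (by omega)) 0).bind ?_
      rintro Δ' hΔ' ⟨s, hs, h1⟩
      by_cases hs0 : s = 0
      · subst hs0
        exact (Can.close_neg hS _ h1 (hΔ' h)).weaken (by omega)
      · refine (Can.cnt_cap hS (M := M + 1) (b := 0) ?_ M 0 s Δ' (by simp; omega)
          (by rw [pow_succ]; have := Nat.two_pow_pos M; omega) h1).false_elim
        intro j _
        unfold phPsi
        split_ifs <;> simp [bigOr]
  intro Δ1 hΔ1 hE0
  -- step 2: the count for `a`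
  refine Can.bind (Q1 := fun Δ => Fm.neg (cnt M (phPsi r b a) 0 a) ∈ Δ) ?_ ?_
  · refine (Can.query _ (hE a le_rfl)).bind ?_
    rintro Δ _ (h | h)
    · refine (Can.cnt_cap hS (M := M + 1) (b := b) ?_ M 0 a Δ ?_ hM1 h).false_elim
      · intro j hj
        unfold phPsi
        rw [if_neg (by omega)]
      · omega
    · exact (Can.ret h).weaken (by omega)
  intro Δ2 hΔ2 hEa
  -- step 3: binary search
  refine Can.bind (Can.bsearch (A := fun s Δ => cnt M (phPsi r b s) 0 s ∈ Δ)
    (B := fun s Δ => Fm.neg (cnt M (phPsi r b s) 0 s) ∈ Δ) (fun _ _ _ h1 h2 => h1 h2)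
    (fun _ _ _ h1 h2 => h1 h2) M Δ2 0 a ?_ (by omega) (by omega) (hΔ2 hE0) hEa) ?_
  · intro s _ hs Δ' _
    exact Can.query _ (hE s (by omega))
  rintro Δ3 hΔ3 ⟨i, _, hia, hi1, hi2⟩
  -- step 4: the count for `i + 1`
  refine (Can.cnt_exists hS (M := M + 1) M (by omega) (hsz (i + 1) (by omega)) 0).bind ?_
  rintro Δ4 hΔ4 ⟨s', hs', h1⟩
  by_cases hsi : s' = i + 1
  · subst hsi
    exact (Can.close_neg hS _ h1 (hΔ4 hi2)).weaken (by omega)
  -- step 5: the last image of `i`
  refine (Can.query (bigOr (phL r b i)) (by have := hlast i; omega)).bind ?_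
  rintro Δ5 hΔ5 (h2 | h2)
  swap
  · exact (Can.ret (Or.inl ⟨i, hia, h2⟩)).weaken (by omega)
  refine (Can.last_exists hS M (by rw [length_phL]; exact hbM) (hlast i) h2).bind ?_
  rintro Δ6 hΔ6 ⟨y0, hy0, h3, h4⟩
  rw [length_phL] at hy0
  rw [getD_phL r hy0] at h4
  -- step 6
  refine Can.bind (Q1 := fun Δ => Fm.neg (phPsi r b i y0) ∈ Δ ∨
    ((∃ x, x < a ∧ Fm.neg (bigOr ((List.range b).map (r x))) ∈ Δ) ∨
      (∃ x x' y, x < x' ∧ x' < a ∧ y < b ∧ r x y ∈ Δ ∧ r x' y ∈ Δ))) ?_ ?_
  · refine Can.weaken (c := 1 + ((M + 2) + 2)) ?_ (by omega)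
    refine (Can.query _ ((hpsi i (by omega) y0).trans hXt)).bind ?_
    rintro Δ hΔ (h | h)
    · unfold phPsi at h
      rw [if_pos hy0] at h
      refine (Can.find' hS M (by rw [List.length_range]; omega) h).bind ?_
      rintro Δ' hΔ' ⟨x, hx, h5⟩
      rw [List.mem_range] at hx
      refine (Can.last_elim hS h5).mono le_rfl ?_
      rintro Δ'' hΔ'' ⟨h6, _⟩
      rw [getD_phL r hy0] at h6
      exact Or.inr (Or.inr ⟨x, i, y0, hx, hia, hy0, h6, hΔ'' (hΔ' (hΔ h4))⟩)
    · exact (Can.ret (Or.inl h)).weaken (by omega)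
  rintro Δ7 hΔ7 (h5 | h5)
  swap
  · exact (Can.ret h5).weaken (by omega)
  -- step 7
  refine Can.bind (Q1 := fun Δ => phPsi r b (i + 1) y0 ∈ Δ) ?_ ?_
  · refine (Can.query _ ((hpsi (i + 1) (by omega) y0).trans hXt)).bind ?_
    rintro Δ hΔ (h | h)
    · exact (Can.ret h).weaken (by omega)
    · unfold phPsi at h
      rw [if_pos hy0] at h
      exact Can.refute' hS M (by rw [List.length_range]; omega) h (a := i) (by simp)
        (hΔ (hΔ7 h3))
  intro Δ8 hΔ8 h6
  -- step 8
  have hsub : Δ4 ⊆ Δ8 := hΔ5.trans (hΔ6.trans (hΔ7.trans hΔ8))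
  refine (Can.cnt_two hS (M := M + 1) M 0 i s' y0 Δ8 hsi (by omega)
    (by rw [pow_succ]; have := Nat.two_pow_pos M; omega) (hsub (hΔ4 hi1)) (hsub h1) (by omega)
    (by omega) (hΔ8 h5) h6).bind ?_
  rintro Δ9 hΔ9 ⟨y1, hy10, _, _, h7⟩
  rcases h7 with ⟨h7, h8⟩ | ⟨h7, h8⟩
  · by_cases hy1 : y1 < b
    · unfold phPsi at h7 h8
      rw [if_pos hy1] at h7 h8
      refine (Can.find' hS M (by rw [List.length_range]; omega) h7).bind ?_
      rintro Δ hΔ ⟨x, hx, h9⟩
      rw [List.mem_range] at hx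
      exact (Can.refute' hS M (by rw [List.length_range]; omega) (hΔ h8) (a := x)
        (by rw [List.mem_range]; omega) h9).weaken (by omega)
    · unfold phPsi at h7
      rw [if_neg hy1] at h7
      exact (Can.close_bot hS h7).weaken (by omega)
  · by_cases hy1 : y1 < b
    · unfold phPsi at h7 h8
      rw [if_pos hy1] at h7 h8
      refine (Can.find' hS M (by rw [List.length_range]; omega) h7).bind ?_
      rintro Δ hΔ ⟨x, hx, h9⟩
      rw [List.mem_range] at hx
      by_cases hxi : x < i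
      · exact (Can.refute' hS M (by rw [List.length_range]; omega) (hΔ h8) (a := x)
          (by rw [List.mem_range]; omega) h9).weaken (by omega)
      · have : x = i := by omega
        subst this
        exact Can.last_unique hS M (by rw [length_phL]; exact hbM)
          (hΔ (hΔ9 (hΔ8 (hΔ7 h3)))) h9 (Ne.symm hy10) (by rw [length_phL]; exact hy0)
          (by rw [length_phL]; exact hy1)
    · unfold phPsi at h7
      rw [if_neg hy1] at h7
      exact (Can.close_bot hS h7).weaken (by omega)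

end FregeEF
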