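import Pool.Agent.Work.MP_c07f0d_lc.Sizes
import Pool.Agent.Work.MP_c07f0d_lc.Balance

/-!
# Extended Frege proofs of small branchwidth: assembly
-/

namespace FregeEF

variable {F : FregeSystem}

theorem IntLE.of_width {E : List (ℕ × Fm ℕ)} {w : ℕ} :
    ∀ (T : BTree) (out : List (ℕ × Fm ℕ)), (∀ b ∈ E, b ∈ T.leaves ∨ b ∈ out) →
      T.WidthLE (E.map Prod.fst).toFinset out w →
      IntLE (E.map Prod.fst).toFinset (w + 1) T out ∧
        ∀ a ∈ T.leaves, (lv (E.map Prod.fst).toFinset [a]).card ≤ w + 1 := by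
  set Q := (E.map Prod.fst).toFinset with hQ
  intro T
  induction T with
  | leaf a =>
    intro out hcov hW
    have h1 : (lv Q [a]).card ≤ w + 1 := by
      have hsub : lv Q [a] ⊆ insert a.1 (lv Q [a] ∩ lv Q out) := by
        intro x hx
        have hx' := mem_lv.1 hx
        rw [hQ] at hx'
        obtain ⟨b, hb, hbx⟩ := List.mem_map.1 (List.mem_toFinset.1 hx'.1)
        rcases hcov b hb with h | h
        · simp only [BTree.leaves, List.mem_cons, List.not_mem_nil, or_false] at h
          subst h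
          exact Finset.mem_insert.2 (Or.inl hbx.symm)
        · refine Finset.mem_insert.2 (Or.inr (Finset.mem_inter.2 ⟨hx, ?_⟩))
          exact mem_lv.2 ⟨(mem_lv.1 hx).1, b, h, Or.inl hbx⟩
      have h2 := Finset.card_le_card hsub
      have h3 := Finset.card_insert_le a.1 (lv Q [a] ∩ lv Q out)
      have h4 : (lv Q [a] ∩ lv Q out).card ≤ w := hW
      omega
    refine ⟨?_, ?_⟩
    · change (inLeaf Q a out).length ≤ w + 1
      rw [inLeaf, Finset.length_toList]
      exact (Finset.card_le_card Finset.sdiff_subset).trans h1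
    · intro b hb
      simp only [BTree.leaves, List.mem_cons, List.not_mem_nil, or_false] at hb
      subst hb
      exact h1
  | node l r ihl ihr =>
    intro out hcov hW
    obtain ⟨h1, h2, h3⟩ := hW
    have hcl : ∀ b ∈ E, b ∈ l.leaves ∨ b ∈ r.leaves ++ out := by
      intro b hb
      have := hcov b hb
      simp only [BTree.leaves, List.mem_append] at this ⊢
      tauto
    have hcr : ∀ b ∈ E, b ∈ r.leaves ∨ b ∈ l.leaves ++ out := by
      intro b hb
      have := hcov b hb
      simp only [BTree.leaves, List.mem_append] at this ⊢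
      tauto
    obtain ⟨i1, i2⟩ := ihl _ hcl h2
    obtain ⟨i3, i4⟩ := ihr _ hcr h3
    refine ⟨⟨?_, i1, i3⟩, ?_⟩
    · rw [inNode, Finset.length_toList]
      have h4 := ((widthLE_iff Q w l _).1 h2).top
      rw [vs_eq] at h4
      have h5 : (lv Q l.leaves ∩ lv Q r.leaves) \ lv Q out ⊆
          lv Q l.leaves ∩ lv Q (r.leaves ++ out) := by
        intro x
        rw [lv_append]
        simp only [Finset.mem_sdiff, Finset.mem_inter, Finset.mem_union]
        tauto
      have := Finset.card_le_card h5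
      omega
    · intro a ha
      simp only [BTree.leaves, List.mem_append] at ha
      rcases ha with ha | ha
      · exact i2 a ha
      · exact i4 a ha

theorem occurs_iff_iff {q x : ℕ} {φ : Fm ℕ} :
    (Fm.iff (.var q) φ).Occurs x ↔ q = x ∨ φ.Occurs x := by
  simp only [Fm.iff, Fm.Occurs]; tauto

theorem IsEF.acyc {R : List Rule} {τ : Fm ℕ} {L : List (Fm ℕ)} {E : List (ℕ × Fm ℕ)}
    (h : IsEF R τ L E) : Acyc E ∧ (∀ a ∈ E, Fm.iff (.var a.1) a.2 ∈ L) ∧
      (∀ a ∈ E, ¬ τ.Occurs a.1) := by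
  induction h with
  | nil => exact ⟨⟨List.Pairwise.nil, by simp⟩, by simp, by simp⟩
  | step _ _ ih =>
    obtain ⟨h1, h2, h3⟩ := ih
    exact ⟨h1, fun a ha => List.mem_cons_of_mem _ (h2 a ha), h3⟩
  | @ext L E q φ _ hφ hL hτ ih =>
    obtain ⟨h1, h2, h3⟩ := ih
    refine ⟨⟨List.pairwise_cons.2 ⟨?_, h1.1⟩, ?_⟩, ?_, ?_⟩
    · intro b hb
      have := hL _ (h2 b hb)
      rw [occurs_iff_iff] at this
      exact ⟨fun h => this (Or.inl h), fun h => this (Or.inr h)⟩
    · intro a ha
      rcases List.mem_cons.1 ha with rfl | ha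
      · exact hφ
      · exact h1.2 a ha
    · intro a ha
      rcases List.mem_cons.1 ha with rfl | ha
      · exact List.mem_cons_self ..
      · exact List.mem_cons_of_mem _ (h2 a ha)
    · intro a ha
      rcases List.mem_cons.1 ha with rfl | ha
      · exact hτ
      · exact h3 a ha

theorem IsEF.deriv {R : List Rule} {τ : Fm ℕ} {L : List (Fm ℕ)} {E : List (ℕ × Fm ℕ)}
    (h : IsEF R τ L E) (σ : ℕ → Fm ℕ) (Γ : List (Fm ℕ))
    (hΓ : ∀ a ∈ E, (Fm.iff (.var a.1) a.2).subst σ ∈ Γ) :
    IsDeriv R Γ (L.map (Fm.subst σ)) := by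
  induction h with
  | nil => exact .nil
  | step _ hi ih => exact (ih hΓ).step (hi.subst σ)
  | @ext L E q φ _ _ _ _ ih =>
    exact (ih fun a ha => hΓ a (List.mem_cons_of_mem _ ha)).hyp (hΓ (q, φ) (List.mem_cons_self ..))

theorem IsEF.length_E {R : List Rule} {τ : Fm ℕ} {L : List (Fm ℕ)} {E : List (ℕ × Fm ℕ)}
    (h : IsEF R τ L E) : E.length ≤ L.length := by
  induction h with
  | nil => simp
  | step _ _ ih => rw [List.length_cons]; omega
  | ext _ _ _ _ _ _ ih => rw [List.length_cons, List.length_cons]; omega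

theorem lsize_map_subst_var (L : List (Fm ℕ)) :
    L.map (Fm.subst (fun x => .var x)) = L := by
  induction L with
  | nil => rfl
  | cons a L ih => rw [List.map_cons, ih, Fm.subst_var]

/-- Replacing the extension variables by formulas. -/
theorem IsEF.pb {τ : Fm ℕ} {L : List (Fm ℕ)} {E : List (ℕ × Fm ℕ)}
    (h : F.IsEFProof τ L E) (σ : ℕ → Fm ℕ) (M s : ℕ) (hM : ∀ x, (σ x).size ≤ M)
    (hσ : ∀ x, τ.Occurs x → σ x = .var x)
    (hax : ∀ a ∈ E, F.PB (.iff (σ a.1) (a.2.subst σ)) s) :
    F.PB τ (lsize L * M + lsize L * s) := by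
  obtain ⟨hEF, hhead⟩ := h
  obtain ⟨L0, h1, h2, h3⟩ := F.combine (E.map fun a => (Fm.iff (σ a.1) (a.2.subst σ), s)) (by
    intro p hp
    obtain ⟨a, ha, rfl⟩ := List.mem_map.1 hp
    exact hax a ha)
  have hd := hEF.deriv σ (E.map fun a => (Fm.iff (σ a.1) (a.2.subst σ)))
    (fun a ha => List.mem_map_of_mem (f := fun a => (Fm.iff (σ a.1) (a.2.subst σ))) ha)
  have hM1 : 1 ≤ M := (σ 0).size_pos.trans (hM 0)
  obtain ⟨L', h4, h5, h6, h7⟩ := hd.cut (fun x => .var x) h1 (by
    intro p hp
    obtain ⟨a, ha, rfl⟩ := List.mem_map.1 hp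
    rw [Fm.subst_var]
    exact h2 _ (List.mem_map_of_mem (f := fun a => (Fm.iff (σ a.1) (a.2.subst σ), s)) ha))
  refine ⟨L', h4, ?_, ?_⟩
  · have hτ : τ ∈ L := by
      cases L with
      | nil => simp at hhead
      | cons a L => simp at hhead; simp [hhead]
    have := h5 (τ.subst σ) (List.mem_map_of_mem hτ)
    rw [Fm.subst_var] at this
    have e : τ.subst σ = τ := by
      rw [Fm.subst_congr (σ := σ) (ρ := fun x => .var x) hσ, Fm.subst_var]
    rwa [e] at this
  · rw [lsize_map_subst_var] at h7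
    have h8 := lsize_map_subst_le σ M hM1 L hM
    have h9 : (List.map Prod.snd (List.map (fun a => (Fm.iff (σ a.1) (a.2.subst σ), s)) E)).sum =
        E.length * s := by
      simp [Function.comp_def]
    rw [h9] at h3
    have h10 : E.length * s ≤ lsize L * s :=
      Nat.mul_le_mul_right _ (hEF.length_E.trans (length_le_lsize L))
    omega

/-! ### A small calculus of bounds -/

/-- `x ≤ b ^ (c * (w + 1))`. -/
def Bd (b w x c : ℕ) : Prop := x ≤ b ^ (c * (w + 1))

theorem Bd.mul {b w x y c c' : ℕ} (h : Bd b w x c) (h' : Bd b w y c') :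
    Bd b w (x * y) (c + c') := by
  unfold Bd at *
  rw [add_mul, pow_add]
  exact Nat.mul_le_mul h h'

theorem Bd.up {b w x c c' : ℕ} (hb : 2 ≤ b) (h : Bd b w x c) (hc : c ≤ c') : Bd b w x c' :=
  le_trans h (Nat.pow_le_pow_right (by omega) (Nat.mul_le_mul_right _ hc))

theorem Bd.add {b w x y c c' : ℕ} (hb : 2 ≤ b) (h : Bd b w x c) (h' : Bd b w y c') :
    Bd b w (x + y) (c + c' + 1) := by
  have h1 := h.up hb (c' := c + c') (by omega)
  have h2 := h'.up hb (c' := c + c') (by omega)
  unfold Bd at *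
  calc x + y ≤ b ^ ((c + c') * (w + 1)) * 2 := by omega
    _ ≤ b ^ ((c + c') * (w + 1)) * b ^ (w + 1) := by
      refine Nat.mul_le_mul_left _ (le_trans hb ?_)
      calc b = b ^ 1 := (pow_one b).symm
        _ ≤ b ^ (w + 1) := Nat.pow_le_pow_right (by omega) (by omega)
    _ = _ := by rw [← pow_add]; ring_nf

theorem Bd.const {b w : ℕ} (hb : 2 ≤ b) (n : ℕ) : Bd b w n n := by
  unfold Bd
  calc n ≤ 2 ^ n := (Nat.lt_two_pow_self).le
    _ ≤ b ^ n := Nat.pow_le_pow_left hb _
    _ ≤ _ := Nat.pow_le_pow_right (by omega) (Nat.le_mul_of_pos_right _ (by omega))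

theorem Bd.w {b w : ℕ} (hb : 2 ≤ b) : Bd b w w 1 := by
  unfold Bd
  calc w ≤ 2 ^ w := (Nat.lt_two_pow_self).le
    _ ≤ b ^ w := Nat.pow_le_pow_left hb _
    _ ≤ _ := Nat.pow_le_pow_right (by omega) (by omega)

theorem Bd.le {b w x y c : ℕ} (h : Bd b w x c) (hxy : y ≤ x) : Bd b w y c := le_trans hxy h

/-- The main theorem: extended Frege proofs whose extension axioms have branchwidth `w` turn into
Frege proofs of size `(N + 2) ^ O(w + 1)`. -/
theorem lowBranchwidth (F : FregeSystem) : ∃ C : ℕ, ∀ (τ : Fm ℕ) (L : List (Fm ℕ))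
    (E : List (ℕ × Fm ℕ)) (w : ℕ), F.IsEFProof τ L E → BranchWidthLE E w →
    ∃ L' : List (Fm ℕ), F.IsProof τ L' ∧ lsize L' ≤ (lsize L + 2) ^ (C * (w + 1)) := by
  refine ⟨3 * F.K + 1500, fun τ L E w hP hW => ?_⟩
  -- notation
  set N := lsize L with hN
  set b := N + 2 with hb
  have hb2 : 2 ≤ b := by omega
  obtain ⟨hacyc, hmem, hτE⟩ := hP.1.acyc
  have hEN : E.length ≤ N := hP.1.length_E.trans (length_le_lsize L)
  have hsize : ∀ a ∈ E, a.2.size ≤ N := by
    intro a ha
    have := size_le_lsize (hmem a ha)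
    simp only [Fm.iff, Fm.size] at this
    omega
  set W := 2 * w + 1 with hWdef
  set k := Nat.clog 2 E.length with hk
  -- the numerical parameters
  set U := 4 ^ ((W + 1) * (4 * k + 1)) * (N * (2 * N + 16)) + 1 with hU
  set t := 2 * (U + N * U) + 3 with ht
  set S := (N + 3) * ((W + 5) * (F.K * ((W + 2) * (t + 2) + 2))) with hS
  set d := nq (4 * k) W k with hd
  set s := 2 ^ (d + 1) * ((S + 3) * ((d + 3) * (F.K * ((d + 2) * (t + 2) + S + 2)))) with hs
  have hEk : E.length ≤ 2 ^ k := Nat.le_pow_clog (by omega) _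
  -- first: there is a proof of size `N * U + N * s`
  have main : F.PB τ (N * U + N * s) := by
    rcases hW with hE | ⟨T0, hT0, hTw⟩
    · subst hE
      refine FregeSystem.PB.mono (IsEF.pb hP (fun x => .var x) 1 0 (fun x => by simp [Fm.size])
        (fun x _ => rfl) (by simp)) ?_
      have hU1 : 1 ≤ U := by omega
      have : N * 1 ≤ N * U := Nat.mul_le_mul_left _ hU1
      omega
    · have hlen0 : T0.leaves.length ≤ 2 ^ k := by rw [hT0.length_eq]; exact hEk
      obtain ⟨T, hT1, hT2, hT3⟩ := (balance (E.map Prod.fst).toFinset w k).1 T0 _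
        ((widthLE_iff _ _ _ _).1 hTw) hlen0
      have hTE : T.leaves.Perm E := hT1.trans hT0
      have hTw' : T.WidthLE (E.map Prod.fst).toFinset [] (2 * w) := (widthLE_iff _ _ _ _).2 hT2
      obtain ⟨hI, hlv⟩ := IntLE.of_width T [] (fun b hb => Or.inl (hTE.mem_iff.2 hb)) hTw'
      rw [← hWdef] at hI
      set Q := (E.map Prod.fst).toFinset with hQdef
      have hQ : ∀ a ∈ E, a.1 ∈ Q := fun a ha =>
        List.mem_toFinset.2 (List.mem_map_of_mem ha)
      have hTN : ∀ a ∈ T.leaves, a.2.size ≤ N := fun a ha => hsize a (hTE.mem_iff.1 ha)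
      have hTlen : T.leaves.length ≤ N := by rw [hTE.length_eq]; exact hEN
      have hexp : (W + 1) * (T.depth + 1) ≤ (W + 1) * (4 * k + 1) :=
        Nat.mul_le_mul_left _ (by omega)
      have hval : ∀ x, (solve Q E T x).size ≤ U := by
        intro x
        unfold solve
        split_ifs
        · have h1 := size_val_le (A := E) x T [] (fun _ => false) hI hTN
          have h2 : 4 ^ ((W + 1) * (T.depth + 1)) * (T.leaves.length * (2 * N + 16)) ≤
              4 ^ ((W + 1) * (4 * k + 1)) * (N * (2 * N + 16)) :=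
            Nat.mul_le_mul (Nat.pow_le_pow_right (by omega) hexp) (Nat.mul_le_mul_right _ hTlen)
          omega
        · simp only [Fm.size]; omega
      have hSat : ∀ A, (Sat Q A T [] (fun _ => false)).size ≤ U := by
        intro A
        have h1 := size_Sat_le (A := A) T [] (fun _ => false) hI hTN
        have h2 : 2 ^ (W * (T.depth + 1)) * (T.leaves.length * (2 * N + 8)) ≤
              4 ^ ((W + 1) * (4 * k + 1)) * (N * (2 * N + 16)) := by
          refine Nat.mul_le_mul ?_ (Nat.mul_le_mul hTlen (by omega))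
          calc 2 ^ (W * (T.depth + 1)) ≤ 2 ^ ((W + 1) * (4 * k + 1)) :=
                Nat.pow_le_pow_right (by omega) (le_trans (Nat.mul_le_mul_right _ (by omega)) hexp)
            _ ≤ _ := Nat.pow_le_pow_left (by omega) _
        omega
      have hUt : U ≤ t := by omega
      have hNU : N ≤ N * U := Nat.le_mul_of_pos_right _ (by omega)
      have hNt : N * 2 ≤ t := by omega
      have hKpos := F.K_pos
      have hSt : F.K * (t + 1) ≤ S := by
        have e1 : F.K * (t + 1) ≤ F.K * ((W + 2) * (t + 2) + 2) :=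
          Nat.mul_le_mul_left _ (by nlinarith)
        have e2 : F.K * ((W + 2) * (t + 2) + 2) ≤
            (W + 5) * (F.K * ((W + 2) * (t + 2) + 2)) := Nat.le_mul_of_pos_left _ (by omega)
        have e3 : (W + 5) * (F.K * ((W + 2) * (t + 2) + 2)) ≤ S := by
          rw [hS]; exact Nat.le_mul_of_pos_left _ (by omega)
        omega
      refine IsEF.pb hP (solve Q E T) U s hval ?_ ?_
      · intro x hx
        unfold solve
        rw [if_neg]
        intro hxQ
        obtain ⟨a, ha, rfl⟩ := List.mem_map.1 (List.mem_toFinset.1 hxQ)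
        exact hτE a ha hx
      · intro a ha
        have hsub : (a.2.subst (solve Q E T)).size ≤ N * U := by
          refine (Fm.size_subst_le _ U (by omega) _ (fun x _ => hval x)).trans ?_
          exact Nat.mul_le_mul_right _ (hsize a ha)
        have href := Can.refuteAxiom (S := S) hSt hacyc hEk hQ hTE hI
          (fun k => (hSat _).trans hUt)
          (fun a ha v => (size_inst_le _ _ _).trans (by have := hsize a ha; omega))
          ha (fun x _ => (hval x).trans hUt) (by
            have := hlv a (hTE.mem_iff.2 ha); omega) (hsize a ha) le_rfl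
        have hnq : nq T.depth W k ≤ d := by
          rw [hd]
          unfold nq
          have e1 : (T.depth + 1) * (W + 4) ≤ (4 * k + 1) * (W + 4) :=
            Nat.mul_le_mul_right _ (by omega)
          have e2 : (T.depth + 1) * (2 * W + 4) ≤ (4 * k + 1) * (2 * W + 4) :=
            Nat.mul_le_mul_right _ (by omega)
          omega
        refine Ref.pb ?_ (href.mono hnq (fun _ hx => hx))
        have h1 := hval a.1
        simp only [Fm.iff, Fm.size]
        omega
  obtain ⟨L', hL1, hL2⟩ := main.isProof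
  refine ⟨L', hL1, hL2.trans ?_⟩
  -- now the arithmetic
  have bN : Bd b w N 1 := by
    unfold Bd
    calc N ≤ b ^ 1 := by rw [pow_one]; omega
      _ ≤ _ := Nat.pow_le_pow_right (by omega) (by omega)
  have bK : Bd b w F.K F.K := Bd.const hb2 _
  have bw : Bd b w w 1 := Bd.w hb2
  have bc : ∀ n, Bd b w n n := fun n => Bd.const hb2 n
  have h2k : 2 ^ k ≤ b ^ 2 := by
    by_cases hE0 : E.length = 0
    · have : k = 0 := by rw [hk, hE0]; simp
      rw [this]
      exact Nat.one_le_pow _ _ (by omega)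
    · have h1 : 2 ^ k ≤ 2 * E.length := by
        rw [hk]
        by_cases h1 : E.length = 1
        · rw [h1]; simp
        · have : Nat.clog 2 E.length = Nat.clog 2 E.length - 1 + 1 := by
            have := Nat.clog_pos (b := 2) (n := E.length) (by omega) (by omega)
            omega
          rw [this, pow_succ]
          have := Nat.pow_pred_clog_lt_self (b := 2) (x := E.length) (by omega) (by omega)
          rw [Nat.pred_eq_sub_one] at this
          omega
      calc 2 ^ k ≤ 2 * E.length := h1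
        _ ≤ 2 * N := by omega
        _ ≤ b ^ 2 := by rw [hb]; nlinarith
  have b4 : Bd b w (4 ^ ((W + 1) * (4 * k + 1))) 36 := by
    unfold Bd
    calc 4 ^ ((W + 1) * (4 * k + 1)) = (2 ^ k) ^ (16 * (w + 1)) * 2 ^ (4 * (w + 1)) := by
          rw [hWdef, show (4 : ℕ) = 2 ^ 2 by norm_num, ← pow_mul, ← pow_mul, ← pow_add]
          congr 1
          ring
      _ ≤ (b ^ 2) ^ (16 * (w + 1)) * b ^ (4 * (w + 1)) :=
          Nat.mul_le_mul (Nat.pow_le_pow_left h2k _) (Nat.pow_le_pow_left hb2 _)
      _ = _ := by rw [← pow_mul, ← pow_add]; congr 1; ring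
  have bd1 : Bd b w (2 ^ (d + 1)) 300 := by
    unfold Bd
    have hd1 : d + 1 ≤ (k + 1) * (100 * (w + 1)) := by
      rw [hd, hWdef]
      unfold nq
      have := Nat.zero_le (k * w)
      nlinarith
    calc 2 ^ (d + 1) ≤ 2 ^ ((k + 1) * (100 * (w + 1))) := Nat.pow_le_pow_right (by omega) hd1
      _ = (2 ^ k * 2) ^ (100 * (w + 1)) := by rw [pow_mul, pow_succ]
      _ ≤ (b ^ 2 * b) ^ (100 * (w + 1)) :=
          Nat.pow_le_pow_left (Nat.mul_le_mul h2k hb2) _
      _ = _ := by rw [← pow_succ, ← pow_mul]; congr 1; ring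
  have bd : Bd b w d 300 := bd1.le (by have := (Nat.lt_two_pow_self (n := d + 1)).le; omega)
  have bW : Bd b w W _ := ((bc 2).mul bw).add hb2 (bc 1)
  have bU : Bd b w U _ := (b4.mul (bN.mul (((bc 2).mul bN).add hb2 (bc 16)))).add hb2 (bc 1)
  have bt : Bd b w t _ := ((bc 2).mul (bU.add hb2 (bN.mul bU))).add hb2 (bc 3)
  have bS : Bd b w S _ := (bN.add hb2 (bc 3)).mul ((bW.add hb2 (bc 5)).mul (bK.mul
    (((bW.add hb2 (bc 2)).mul (bt.add hb2 (bc 2))).add hb2 (bc 2))))
  have bs : Bd b w s _ := bd1.mul ((bS.add hb2 (bc 3)).mul ((bd.add hb2 (bc 3)).mul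
    (bK.mul ((((bd.add hb2 (bc 2)).mul (bt.add hb2 (bc 2))).add hb2 bS).add hb2 (bc 2)))))
  have bfin : Bd b w (N * U + N * s) _ := (bN.mul bU).add hb2 (bN.mul bs)
  exact bfin.up hb2 (c' := 3 * F.K + 1500) (by omega)

end FregeEF
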