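import Pool.Agent.Work.MP_c07f0d_lc.Sel

/-!
# More strategies: lists, last true index, enumeration
-/

namespace FregeEF

variable {α : Type} {F : FregeSystem} {t S : ℕ}
variable {Q : Set (Fm α) → Prop} {Γ : Set (Fm α)}

theorem Can.find' (hS : F.K * (t + 1) ≤ S) {ι : Type} {l : List ι} {f : ι → Fm α} (m : ℕ)
    (hl : l.length ≤ 2 ^ m) (h : bigOr (l.map f) ∈ Γ) :
    Can F t S (m + 2) Γ (fun Δ => ∃ a ∈ l, f a ∈ Δ) := by
  refine (Can.find hS m (l := l.map f) (by simpa using hl) h).mono le_rfl ?_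
  rintro Δ _ ⟨i, hi, h2, _⟩
  rw [List.length_map] at hi
  exact ⟨l[i], List.getElem_mem hi, by simpa using h2⟩

theorem Can.refute' (hS : F.K * (t + 1) ≤ S) {ι : Type} {l : List ι} {f : ι → Fm α} (m : ℕ)
    (hl : l.length ≤ 2 ^ m) (h : Fm.neg (bigOr (l.map f)) ∈ Γ) {a : ι} (ha : a ∈ l)
    (hf : f a ∈ Γ) : Can F t S (m + 1) Γ Q :=
  Can.refuteOr hS m (by simpa using hl) h (f a) (List.mem_map_of_mem ha) hf

theorem Can.queryFind (hS : F.K * (t + 1) ≤ S) {ι : Type} {l : List ι} {f : ι → Fm α} (m : ℕ)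
    (hl : l.length ≤ 2 ^ m) (hsz : (bigOr (l.map f)).size ≤ t) :
    Can F t S (1 + (m + 2)) Γ (fun Δ => (∃ a ∈ l, f a ∈ Δ) ∨ Fm.neg (bigOr (l.map f)) ∈ Δ) := by
  refine (Can.query _ hsz).bind ?_
  rintro Δ _ (h | h)
  · exact (Can.find' hS m hl h).mono le_rfl (fun _ _ h => Or.inl h)
  · exact (Can.ret (Or.inr h)).weaken (by omega)

theorem size_conj_drop_le (l : List (Fm α)) (i : ℕ) (hi : i ≤ l.length) :
    (conj (l.drop i)).size ≤ (conj l).size := by
  induction l generalizing i with
  | nil => simp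
  | cons a l ih =>
    cases i with
    | zero => simp
    | succ i =>
      have := ih i (by simpa using hi)
      simp only [List.drop_succ_cons, conj, Fm.size]
      omega

theorem size_mem_conj {φ : Fm α} {l : List (Fm α)} (h : φ ∈ l) :
    φ.size + 1 ≤ (conj l).size := by
  induction l with
  | nil => simp at h
  | cons a l ih =>
    simp only [conj, Fm.size]
    rcases List.mem_cons.1 h with h | h
    · subst h; have := (conj l).size_pos; omega
    · have := ih h; omega

/-- From a true conjunction get a member. -/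
theorem Can.conj_elim (hS : F.K * (t + 1) ≤ S) {l : List (Fm α)} (m : ℕ)
    (hl : l.length ≤ 2 ^ m) (h : conj l ∈ Γ) (φ : Fm α) (hφ : φ ∈ l) :
    Can F t S (m + 2) Γ (fun Δ => φ ∈ Δ) := by
  obtain ⟨i, hi, rfl⟩ := List.getElem_of_mem hφ
  have e : l.drop i = l[i] :: l.drop (i + 1) := List.drop_eq_getElem_cons hi
  have e2 : m + 2 = 1 + (1 * m + 1) := by ring
  rw [e2]
  -- finish from a true suffix
  have fin : ∀ Δ, Γ ⊆ Δ → conj (l.drop i) ∈ Δ → Can F t S 1 Δ (fun Δ => l[i] ∈ Δ) := by
    intro Δ hΔ h1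
    rw [e] at h1
    refine (Can.querySub l[i] _ h1 ?_).bind ?_ |>.weaken (c := 1 + 0) (by omega)
    · simp only [conj, Fm.size]; have := (conj (l.drop (i + 1))).size_pos; omega
    · rintro Δ' hΔ' (h2 | h2)
      · exact Can.ret h2
      · exact Can.close_and_left hS _ _ (hΔ' h1) h2
  by_cases hi0 : i = 0
  · subst hi0
    exact (fin Γ (fun _ h => h) (by simpa using h)).weaken (by omega)
  have hsz : ∀ s, 0 < s → s ≤ l.length → (conj (l.drop s)).size + 1 ≤ (conj l).size := by
    intro s hs0 hs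
    obtain ⟨k, rfl⟩ : ∃ k, s = k + 1 := ⟨s - 1, by omega⟩
    cases l with
    | nil => simp at hi
    | cons a l =>
      have := size_conj_drop_le l k (by simpa using hs)
      simp only [List.drop_succ_cons, conj, Fm.size]
      omega
  refine (Can.querySub (conj (l.drop i)) _ h (hsz i (by omega) (by omega))).bind ?_
  rintro Δ hΔ (h2 | h2)
  · exact (fin Δ hΔ h2).weaken (by omega)
  · refine Can.bind (Can.bsearch (A := fun s Δ => conj (l.drop s) ∈ Δ)
      (B := fun s Δ => Fm.neg (conj (l.drop s)) ∈ Δ) (fun _ _ _ h1 h2 => h1 h2)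
      (fun _ _ _ h1 h2 => h1 h2) m Δ 0 i ?_ (by omega) (by omega) (by simpa using hΔ h)
      h2) ?_
    · intro s hs1 hs2 Δ' hΔ'
      exact Can.querySub (conj (l.drop s)) _ (hΔ' (hΔ h)) (hsz s hs1 (by omega))
    · rintro Δ' hΔ' ⟨s, _, hs, h3, h4⟩
      have hs' : s < l.length := by omega
      have e' : l.drop s = l[s] :: l.drop (s + 1) := List.drop_eq_getElem_cons hs'
      have h3' : Fm.and l[s] (conj (l.drop (s + 1))) ∈ Δ' := by
        have : conj (l.drop s) ∈ Δ' := h3
        rw [e'] at this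
        exact this
      exact (Can.close_and_right hS _ _ h3' h4).weaken (by omega)

/-- Introducing a conjunction all whose members hold. -/
theorem Can.conj_intro (hS : F.K * (t + 1) ≤ S) {l : List (Fm α)}
    (h : ∀ φ ∈ l, φ ∈ Γ) (h1 : Fm.neg (conj l) ∈ Γ) :
    Can F t S (l.length + 1) Γ Q := by
  induction l generalizing Γ with
  | nil =>
    refine Can.bind (c1 := 1) (c2 := 0) (Can.querySub (.bot : Fm α) _ h1 (by
      simp [conj, Fm.size])) ?_
    rintro Δ hΔ (h2 | h2)
    · exact Can.close_bot hS h2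
    · exact Can.close_neg hS (.neg .bot) h2 (hΔ h1)
  | cons a l ih =>
    refine Can.weaken (c := 1 + (l.length + 1)) ?_ (by rw [List.length_cons]; omega)
    refine (Can.querySub (conj l) _ h1 (by
      simp only [conj, Fm.size]; have := a.size_pos; omega)).bind ?_
    rintro Δ hΔ (h2 | h2)
    · exact (Can.close_nand hS _ _ (hΔ h1) (hΔ (h a (by simp))) h2).weaken (by omega)
    · exact ih (fun φ hφ => hΔ (h φ (by simp [hφ]))) h2

theorem Can.imp_false (hS : F.K * (t + 1) ≤ S) (φ ψ : Fm α) (h : Fm.neg (.imp φ ψ) ∈ Γ) :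
    Can F t S 2 Γ (fun Δ => φ ∈ Δ ∧ Fm.neg ψ ∈ Δ) := by
  refine Can.bind (c1 := 1) (c2 := 1) (Can.querySub φ _ h (by
    simp only [Fm.size]; have := ψ.size_pos; omega)) ?_
  rintro Δ hΔ (h1 | h1)
  · refine Can.bind (c1 := 1) (c2 := 0) (Can.querySub ψ _ (hΔ h) (by
      simp only [Fm.size]; have := φ.size_pos; omega)) ?_
    rintro Δ' hΔ' (h2 | h2)
    · exact Can.close [.neg (.imp (.var 0) (.var 1)), .var 1] [φ, ψ] hS (by decide)
        (by intro v h; exact h.1 (fun _ => h.2.1))
        (by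
          intro p hp
          simp only [List.mem_cons, List.not_mem_nil, or_false] at hp
          rcases hp with rfl | rfl
          · exact hΔ' (hΔ h)
          · exact h2)
        (by
          intro h x hx
          have := h (.neg (.imp (.var 0) (.var 1))) (by simp)
          have e : (Fm.neg (Fm.imp (.var 0) (.var 1))).subst (sub [φ, ψ]) = .neg (.imp φ ψ) := rfl
          rw [e] at this
          simp only [Fm.size] at this
          simp only [List.mem_cons, List.not_mem_nil, or_false] at hx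
          rcases hx with rfl | rfl <;> omega)
    · exact Can.ret ⟨hΔ' h1, h2⟩
  · refine Can.weaken (c := 0) ?_ (by omega)
    exact Can.close [.neg (.imp (.var 0) (.var 1)), .neg (.var 0)] [φ, ψ] hS (by decide)
        (by intro v h; exact h.1 (fun h' => (h.2.1 h').elim))
        (by
          intro p hp
          simp only [List.mem_cons, List.not_mem_nil, or_false] at hp
          rcases hp with rfl | rfl
          · exact hΔ h
          · exact h1)
        (by
          intro h x hx
          have := h (.neg (.imp (.var 0) (.var 1))) (by simp)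
          have e : (Fm.neg (Fm.imp (.var 0) (.var 1))).subst (sub [φ, ψ]) = .neg (.imp φ ψ) := rfl
          rw [e] at this
          simp only [Fm.size] at this
          simp only [List.mem_cons, List.not_mem_nil, or_false] at hx
          rcases hx with rfl | rfl <;> omega)

/-- `or` elimination. -/
theorem Can.or_elim (hS : F.K * (t + 1) ≤ S) (φ ψ : Fm α) (h : Fm.or φ ψ ∈ Γ) :
    Can F t S 2 Γ (fun Δ => φ ∈ Δ ∨ ψ ∈ Δ) := by
  refine Can.bind (c1 := 1) (c2 := 1)
    (Can.querySub φ _ h (by simp only [Fm.size]; have := ψ.size_pos; omega)) ?_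
  rintro Δ hΔ (h1 | h1)
  · exact (Can.ret (Or.inl h1)).weaken (by omega)
  · refine Can.bind (c1 := 1) (c2 := 0)
      (Can.querySub ψ _ (hΔ h) (by simp only [Fm.size]; have := φ.size_pos; omega)) ?_
    rintro Δ' hΔ' (h2 | h2)
    · exact Can.ret (Or.inr h2)
    · exact Can.close_or hS φ ψ (hΔ' (hΔ h)) (hΔ' h1) h2

/-- `i` is the last index at which the list is true. -/
def lastF (l : List (Fm α)) (i : ℕ) : Fm α := .and (l.getD i .bot) (.neg (bigOr (l.drop (i + 1))))

theorem size_getD_le (l : List (Fm α)) (i : ℕ) : (l.getD i .bot).size ≤ (bigOr l).size := by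
  by_cases hi : i < l.length
  · rw [List.getD_eq_getElem?_getD, List.getElem?_eq_getElem hi]
    have := size_mem_bigOr (List.getElem_mem hi)
    simp only [Option.getD_some]
    omega
  · rw [List.getD_eq_getElem?_getD, List.getElem?_eq_none (by omega)]
    simp only [Option.getD_none, Fm.size]
    exact (bigOr l).size_pos

theorem size_lastF_le (l : List (Fm α)) (i : ℕ) : (lastF l i).size ≤ 2 * (bigOr l).size + 2 := by
  have h1 := size_getD_le l i
  have h2 := size_bigOr_drop_le l (i + 1)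
  simp only [lastF, Fm.size]
  omega

theorem Can.last_exists (hS : F.K * (t + 1) ≤ S) {l : List (Fm α)} (m : ℕ)
    (hl : l.length ≤ 2 ^ m) (hsz : 2 * (bigOr l).size + 2 ≤ t) (h : bigOr l ∈ Γ) :
    Can F t S (m + 3) Γ (fun Δ => ∃ i, i < l.length ∧ lastF l i ∈ Δ ∧ l.getD i .bot ∈ Δ) := by
  refine Can.weaken (c := (m + 2) + 1) ?_ (by omega)
  refine (Can.find hS m hl h).bind ?_
  rintro Δ hΔ ⟨i, hi, h1, h2⟩
  have e : l.getD i .bot = l[i] := by
    rw [List.getD_eq_getElem?_getD, List.getElem?_eq_getElem hi]; rfl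
  refine Can.bind (c1 := 1) (c2 := 0) (Can.query (lastF l i) ((size_lastF_le l i).trans hsz)) ?_
  rintro Δ' hΔ' (h3 | h3)
  · exact Can.ret ⟨i, hi, h3, by rw [e]; exact hΔ' h1⟩
  · exact Can.close_nand hS _ _ h3 (by rw [e]; exact hΔ' h1) (hΔ' h2)

theorem Can.last_elim (hS : F.K * (t + 1) ≤ S) {l : List (Fm α)} {i : ℕ} (h : lastF l i ∈ Γ) :
    Can F t S 2 Γ (fun Δ => l.getD i .bot ∈ Δ ∧ Fm.neg (bigOr (l.drop (i + 1))) ∈ Δ) :=
  Can.and_elim hS _ _ h

/-- Later entries are false. -/
theorem Can.last_later (hS : F.K * (t + 1) ≤ S) {l : List (Fm α)} (m : ℕ)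
    (hl : l.length ≤ 2 ^ m) {i j : ℕ} (h : lastF l i ∈ Γ) (hij : i < j) (hj : j < l.length)
    (h1 : l.getD j .bot ∈ Γ) : Can F t S (m + 3) Γ Q := by
  refine Can.weaken (c := 2 + (m + 1)) ?_ (by omega)
  refine (Can.last_elim hS h).bind ?_
  rintro Δ hΔ ⟨_, h3⟩
  refine Can.refuteOr hS m ?_ h3 (l.getD j .bot) ?_ (hΔ h1)
  · rw [List.length_drop]; omega
  · rw [List.getD_eq_getElem?_getD, List.getElem?_eq_getElem hj]
    simp only [Option.getD_some]
    rw [List.mem_iff_getElem]
    refine ⟨j - (i + 1), by rw [List.length_drop]; omega, ?_⟩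
    rw [List.getElem_drop]
    congr 1
    omega

theorem Can.last_unique (hS : F.K * (t + 1) ≤ S) {l : List (Fm α)} (m : ℕ)
    (hl : l.length ≤ 2 ^ m) {i j : ℕ} (h : lastF l i ∈ Γ) (h' : lastF l j ∈ Γ) (hij : i ≠ j)
    (hi : i < l.length) (hj : j < l.length) : Can F t S (m + 5) Γ Q := by
  refine Can.weaken (c := 2 + (m + 3)) ?_ (by omega)
  rcases lt_or_gt_of_ne hij with h0 | h0
  · refine (Can.last_elim hS h').bind ?_
    rintro Δ hΔ ⟨h2, _⟩
    exact Can.last_later hS m hl (hΔ h) h0 hj h2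
  · refine (Can.last_elim hS h).bind ?_
    rintro Δ hΔ ⟨h2, _⟩
    exact Can.last_later hS m hl (hΔ h') h0 hi h2

/-- Enumerating the true indices of a list, up to `K` many. -/
theorem Can.enumerate (hS : F.K * (t + 1) ≤ S) {ι : Type} [DecidableEq ι] (l : List ι)
    (f : ι → Fm α) (m : ℕ) (hl : l.length ≤ 2 ^ m)
    (hsz : ∀ M : Finset ι, (bigOr ((l.filter (fun a => a ∉ M)).map f)).size ≤ t) (K : ℕ) :
    Can F t S (K * (m + 3)) Γ (fun Δ => ∃ M : Finset ι, (∀ a ∈ M, a ∈ l ∧ f a ∈ Δ) ∧
      M.card ≤ K ∧ (M.card = K ∨ Fm.neg (bigOr ((l.filter (fun a => a ∉ M)).map f)) ∈ Δ)) := by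
  induction K with
  | zero => exact (Can.ret ⟨∅, by simp, by simp, Or.inl (by simp)⟩).weaken (by omega)
  | succ K ih =>
    have e : (K + 1) * (m + 3) = K * (m + 3) + (1 + (m + 2)) := by ring
    rw [e]
    refine ih.bind ?_
    rintro Δ hΔ ⟨M, h1, h2, h3⟩
    rcases h3 with h3 | h3
    · refine (Can.queryFind hS (l := l.filter (fun a => a ∉ M)) (f := f) m
        ((List.length_filter_le _ _).trans hl) (hsz M)).mono le_rfl ?_
      rintro Δ' hΔ' (⟨a, ha, h4⟩ | h4)
      · rw [List.mem_filter] at ha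
        simp only [decide_eq_true_eq] at ha
        refine ⟨insert a M, ?_, ?_, Or.inl ?_⟩
        · intro b hb
          rcases Finset.mem_insert.1 hb with rfl | hb
          · exact ⟨ha.1, h4⟩
          · exact ⟨(h1 b hb).1, hΔ' (h1 b hb).2⟩
        · rw [Finset.card_insert_of_notMem ha.2]; omega
        · rw [Finset.card_insert_of_notMem ha.2]; omega
      · exact ⟨M, fun a ha => ⟨(h1 a ha).1, hΔ' (h1 a ha).2⟩, by omega, Or.inr h4⟩
    · exact (Can.ret ⟨M, h1, by omega, Or.inr h3⟩).weaken (by omega)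

/-- Querying all formulas of a list. -/
theorem Can.queryAll (l : List (Fm α)) (hsz : ∀ φ ∈ l, φ.size ≤ t) :
    Can F t S l.length Γ (fun Δ => ∃ val : Fm α → Bool, ∀ φ ∈ l, sg (val φ) φ ∈ Δ) := by
  classical
  induction l with
  | nil => exact Can.ret ⟨fun _ => false, by simp⟩
  | cons a l ih =>
    refine Can.weaken (c := l.length + 1) ?_ (by rw [List.length_cons])
    refine (ih (fun φ hφ => hsz φ (by simp [hφ]))).bind ?_
    rintro Δ hΔ ⟨val, hval⟩
    by_cases ha : a ∈ l
    · refine (Can.ret ⟨val, ?_⟩).weaken (by omega)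
      intro φ hφ
      rcases List.mem_cons.1 hφ with rfl | hφ
      · exact hval _ ha
      · exact hval φ hφ
    · refine (Can.sgQuery a (hsz a (by simp))).mono le_rfl ?_
      rintro Δ' hΔ' ⟨b, hb⟩
      refine ⟨Function.update val a b, ?_⟩
      intro φ hφ
      by_cases hφa : φ = a
      · subst hφa
        rw [Function.update_self]; exact hb
      · rw [Function.update_of_ne hφa]
        exact hΔ' (hval φ ((List.mem_cons.1 hφ).resolve_left hφa))

end FregeEF
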