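import Pool.Agent.Work.MP_c07f0d_lc.Basic

/-!
# The query game

`Ref F t S d Γ`: the finite set of formulas hidden in `Γ` can be refuted by a binary tree of depth
`d` of queries to formulas of size `≤ t`, each leaf of which is refuted by a Frege proof of size
`≤ S`.  Such a tree yields a Frege proof whose size is `2 ^ d` times a polynomial.
-/

namespace FregeEF

variable {α β γ : Type}

/-- Conjunction of a list. -/
def conj : List (Fm α) → Fm α
  | [] => .neg .bot
  | φ :: l => .and φ (conj l)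

theorem size_conj_le (B : ℕ) (l : List (Fm α)) (h : ∀ x ∈ l, x.size ≤ B) :
    (conj l).size ≤ l.length * (B + 1) + 2 := by
  induction l with
  | nil => simp [conj, Fm.size]
  | cons a l ih =>
    have h1 := h a (by simp)
    have h2 := ih (fun x hx => h x (by simp [hx]))
    simp only [conj, Fm.size, List.length_cons]
    nlinarith

theorem length_le_size_conj (l : List (Fm α)) : l.length ≤ (conj l).size := by
  induction l with
  | nil => simp
  | cons a l ih => simp only [conj, Fm.size, List.length_cons]; omega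

variable {F : FregeSystem}

theorem infer0 (concl : Fm ℕ) (θ : List (Fm α)) (M : ℕ)
    (ht : smallTest [] concl = true)
    (hv : ∀ v : ℕ → Prop, concl.eval v)
    (hM : 1 ≤ M) (hθ : ∀ x ∈ θ, x.size ≤ M) :
    F.PB (concl.subst (sub θ)) (F.K * M) := by
  have := F.infer [] concl θ [] M ht (fun v _ => hv v) hM hθ .nil
  simpa using this

theorem infer1 (p1 concl : Fm ℕ) (θ : List (Fm α)) (M : ℕ) {s1 : ℕ}
    (ht : smallTest [p1] concl = true)
    (hv : ∀ v : ℕ → Prop, p1.eval v → concl.eval v)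
    (hM : 1 ≤ M) (hθ : ∀ x ∈ θ, x.size ≤ M)
    (h1 : F.PB (p1.subst (sub θ)) s1) :
    F.PB (concl.subst (sub θ)) (s1 + F.K * M) := by
  have := F.infer [p1] concl θ [s1] M ht (fun v h => hv v (h p1 (by simp))) hM hθ
    (.cons h1 .nil)
  simpa using this

theorem infer2 (p1 p2 concl : Fm ℕ) (θ : List (Fm α)) (M : ℕ) {s1 s2 : ℕ}
    (ht : smallTest [p1, p2] concl = true)
    (hv : ∀ v : ℕ → Prop, p1.eval v → p2.eval v → concl.eval v)
    (hM : 1 ≤ M) (hθ : ∀ x ∈ θ, x.size ≤ M)
    (h1 : F.PB (p1.subst (sub θ)) s1) (h2 : F.PB (p2.subst (sub θ)) s2) :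
    F.PB (concl.subst (sub θ)) (s1 + s2 + F.K * M) := by
  have := F.infer [p1, p2] concl θ [s1, s2] M ht
    (fun v h => hv v (h p1 (by simp)) (h p2 (by simp))) hM hθ
    (.cons h1 (.cons h2 .nil))
  simpa using this

theorem infer3 (p1 p2 p3 concl : Fm ℕ) (θ : List (Fm α)) (M : ℕ) {s1 s2 s3 : ℕ}
    (ht : smallTest [p1, p2, p3] concl = true)
    (hv : ∀ v : ℕ → Prop, p1.eval v → p2.eval v → p3.eval v → concl.eval v)
    (hM : 1 ≤ M) (hθ : ∀ x ∈ θ, x.size ≤ M)
    (h1 : F.PB (p1.subst (sub θ)) s1) (h2 : F.PB (p2.subst (sub θ)) s2)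
    (h3 : F.PB (p3.subst (sub θ)) s3) :
    F.PB (concl.subst (sub θ)) (s1 + s2 + s3 + F.K * M) := by
  have := F.infer [p1, p2, p3] concl θ [s1, s2, s3] M ht
    (fun v h => hv v (h p1 (by simp)) (h p2 (by simp)) (h p3 (by simp))) hM hθ
    (.cons h1 (.cons h2 (.cons h3 .nil)))
  simpa [add_assoc] using this

/-- Membership in a conjunction. -/
theorem pb_conj_mem {x : Fm α} {l : List (Fm α)} (hx : x ∈ l) (M : ℕ)
    (hM : (conj l).size ≤ M) :
    F.PB (.imp (conj l) x) (l.length * (F.K * M)) := by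
  induction l with
  | nil => simp at hx
  | cons a l ih =>
    have hM' : a.size + (conj l).size + 1 ≤ M := by simpa [conj, Fm.size] using hM
    have hsz := a.size_pos
    rcases List.mem_cons.1 hx with h | h
    · subst h
      have := infer0 (F := F) (.imp (.and (.var 0) (.var 1)) (.var 0)) [x, conj l] M
        (by decide) (by intro v h; exact h.1) (by omega)
        (by simp; omega)
      refine FregeSystem.PB.mono this ?_
      rw [List.length_cons]
      nlinarith [Nat.zero_le (l.length * (F.K * M))]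
    · have h1 := ih h (by omega)
      have hxs : x.size ≤ (conj l).size := by
        clear * - h
        induction l with
        | nil => simp at h
        | cons b l ih =>
          simp only [conj, Fm.size]
          rcases List.mem_cons.1 h with h | h
          · subst h; omega
          · have := ih h; omega
      have := infer1 (F := F) (.imp (.var 1) (.var 2)) (.imp (.and (.var 0) (.var 1)) (.var 2))
        [a, conj l, x] M (by decide) (by intro v h h'; exact h h'.2) (by omega)
        (by simp; omega) h1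
      refine FregeSystem.PB.mono this ?_
      rw [List.length_cons]
      nlinarith [Nat.zero_le (l.length * (F.K * M))]

theorem pb_conj_sub {l l' : List (Fm α)} (hl : ∀ x ∈ l', x ∈ l) (M : ℕ)
    (hM : (conj l).size ≤ M) (hM' : (conj l').size ≤ M) :
    F.PB (.imp (conj l) (conj l')) ((l'.length + 1) * ((l.length + 1) * (F.K * M))) := by
  induction l' with
  | nil =>
    have := infer0 (F := F) (.imp (.var 0) (.neg .bot)) [conj l] M
      (by decide) (by intro v h h'; exact h') (by have := (conj l).size_pos; omega)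
      (by simp; omega)
    refine FregeSystem.PB.mono this ?_
    simp only [List.length_nil]
    nlinarith [Nat.zero_le (l.length * (F.K * M))]
  | cons a l' ih =>
    have hM2 : a.size + (conj l').size + 1 ≤ M := by simpa [conj, Fm.size] using hM'
    have h1 := ih (fun x hx => hl x (by simp [hx])) (by omega)
    have h2 := pb_conj_mem (F := F) (hl a (by simp)) M hM
    have := infer2 (F := F) (.imp (.var 0) (.var 1)) (.imp (.var 0) (.var 2))
        (.imp (.var 0) (.and (.var 1) (.var 2)))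
        [conj l, a, conj l'] M (by decide) (by intro v h h' h3; exact ⟨h h3, h' h3⟩)
        (by have := (conj l).size_pos; omega)
        (by simp; omega) h2 h1
    refine FregeSystem.PB.mono this ?_
    rw [List.length_cons]
    nlinarith [Nat.zero_le (l.length * (F.K * M))]

/-- The refutation game; see the header of this file. -/
inductive Ref (F : FregeSystem) (t S : ℕ) : ℕ → Set (Fm α) → Prop
  | leaf {d : ℕ} {Γ : Set (Fm α)} (l : List (Fm α)) (hl : ∀ x ∈ l, x ∈ Γ)
      (h : (∀ x ∈ l, x.size ≤ t + 1) → F.PB (.imp (conj l) .bot) S) : Ref F t S d Γ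
  | query {d : ℕ} {Γ : Set (Fm α)} (φ : Fm α)
      (hφ : (∀ x ∈ Γ, x.size ≤ t + 1) → φ.size ≤ t)
      (h1 : Ref F t S d (insert φ Γ)) (h2 : Ref F t S d (insert (.neg φ) Γ)) :
      Ref F t S (d + 1) Γ

theorem Ref.mono {t S : ℕ} {d : ℕ} {Γ : Set (Fm α)} (h : Ref F t S d Γ) :
    ∀ {d' : ℕ} {Δ : Set (Fm α)}, d ≤ d' → Γ ⊆ Δ → Ref F t S d' Δ := by
  induction h with
  | leaf l hl h => intro d' Δ _ hΔ; exact .leaf l (fun x hx => hΔ (hl x hx)) h
  | query φ hφ _ _ ih1 ih2 =>
    intro d' Δ hd hΔ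
    obtain ⟨k, rfl⟩ : ∃ k, d' = k + 1 := ⟨d' - 1, by omega⟩
    exact .query φ (fun h => hφ (fun x hx => h x (hΔ hx)))
      (ih1 (by omega) (Set.insert_subset_insert hΔ)) (ih2 (by omega) (Set.insert_subset_insert hΔ))

/-- A game tree of depth `d` gives a Frege refutation of size about `2 ^ d`. -/
theorem Ref.pb_aux {t S : ℕ} (N : ℕ) {d : ℕ} {Γ : Set (Fm α)} (h : Ref F t S d Γ) :
    ∀ l : List (Fm α), (∀ x ∈ Γ, x ∈ l) → (∀ x ∈ l, x.size ≤ t + 1) → l.length + d ≤ N →
      ∃ s, F.PB (.imp (conj l) .bot) s ∧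
        s + (S + 3) * ((N + 2) * (F.K * ((N + 1) * (t + 2) + S + 2))) ≤
          2 ^ (d + 1) * ((S + 3) * ((N + 2) * (F.K * ((N + 1) * (t + 2) + S + 2)))) := by
  set M : ℕ := (N + 1) * (t + 2) + S + 2 with hMdef
  have hKpos := F.K_pos
  have hKM : 1 ≤ F.K * M := Nat.mul_pos hKpos (by omega)
  set Z : ℕ := (S + 3) * ((N + 2) * (F.K * M)) with hZ
  have hZS : F.K * M ≤ Z := by
    rw [hZ]
    nlinarith [Nat.zero_le ((S + 3) * N * (F.K * M)), Nat.zero_le (S * (F.K * M))]
  induction h with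
  | @leaf d Γ l' hl h =>
    intro l hΓ hsz hN
    have hsz' : ∀ x ∈ l', x.size ≤ t + 1 := fun x hx => hsz x (hΓ x (hl x hx))
    have hS := h hsz'
    have hsl : (conj l).size ≤ M := by
      have := size_conj_le (t + 1) l hsz
      have h2 : l.length * (t + 1 + 1) ≤ N * (t + 2) := Nat.mul_le_mul_right _ (by omega)
      rw [hMdef]
      nlinarith
    have hsl'' : (conj l').size ≤ S := by
      obtain ⟨L, _, h2, h3⟩ := hS
      have := size_le_lsize h2
      simp only [Fm.size] at this
      omega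
    have hsl' : (conj l').size ≤ M := by omega
    have h1 := pb_conj_sub (F := F) (l := l) (l' := l') (fun x hx => hΓ x (hl x hx)) M hsl hsl'
    have := infer2 (F := F) (.imp (.var 0) (.var 1)) (.imp (.var 1) .bot) (.imp (.var 0) .bot)
      [conj l, conj l'] M (by decide) (by intro v h h' h3; exact h' (h h3)) (by omega)
      (by simp; omega) h1 hS
    refine ⟨_, this, ?_⟩
    have hlen : l'.length ≤ S := (length_le_size_conj l').trans hsl''
    have e1 : (l'.length + 1) * ((l.length + 1) * (F.K * M)) ≤ (S + 1) * ((N + 1) * (F.K * M)) := by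
      refine Nat.mul_le_mul (by omega) (Nat.mul_le_mul_right _ (by omega))
    have e2 : (l'.length + 1) * ((l.length + 1) * (F.K * M)) + S + F.K * M ≤ Z := by
      rw [hZ]
      have : S ≤ S * (F.K * M) := Nat.le_mul_of_pos_right _ hKM
      nlinarith [Nat.zero_le ((N : ℕ) * (F.K * M)), Nat.zero_le (S * N * (F.K * M))]
    have e3 : 2 ^ (d + 1) ≥ 2 := by
      calc 2 ^ (d + 1) = 2 ^ d * 2 := pow_succ 2 d
        _ ≥ 1 * 2 := Nat.mul_le_mul_right _ Nat.one_le_two_pow
    calc _ ≤ Z + Z := by omega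
      _ = 2 * Z := by omega
      _ ≤ _ := Nat.mul_le_mul_right _ e3
  | @query d Γ φ hφ _ _ ih1 ih2 =>
    intro l hΓ hsz hN
    have hφ' := hφ (fun x hx => hsz x (hΓ x hx))
    obtain ⟨s1, h1, e1⟩ := ih1 (φ :: l)
      (by
        intro x hx
        rcases hx with hx | hx
        · subst hx; simp
        · simp [hΓ x hx])
      (by
        intro x hx
        rcases List.mem_cons.1 hx with hx | hx
        · subst hx; omega
        · exact hsz x hx)
      (by rw [List.length_cons]; omega)
    obtain ⟨s2, h2, e2⟩ := ih2 (.neg φ :: l)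
      (by
        intro x hx
        rcases hx with hx | hx
        · subst hx; simp
        · simp [hΓ x hx])
      (by
        intro x hx
        rcases List.mem_cons.1 hx with hx | hx
        · subst hx; simp only [Fm.size]; omega
        · exact hsz x hx)
      (by rw [List.length_cons]; omega)
    have hsl : (conj l).size ≤ M := by
      have := size_conj_le (t + 1) l hsz
      have h2 : l.length * (t + 1 + 1) ≤ N * (t + 2) := Nat.mul_le_mul_right _ (by omega)
      rw [hMdef]
      nlinarith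
    have hφM : φ.size ≤ M := by rw [hMdef]; nlinarith
    have := infer2 (F := F) (.imp (.and (.var 0) (.var 1)) .bot)
      (.imp (.and (.neg (.var 0)) (.var 1)) .bot) (.imp (.var 1) .bot)
      [φ, conj l] M (by decide)
      (by
        intro v h h' h3
        by_cases h0 : v 0
        · exact h ⟨h0, h3⟩
        · exact h' ⟨h0, h3⟩) (by omega)
      (by simp; omega) h1 h2
    refine ⟨_, this, ?_⟩
    have : 2 ^ (d + 1 + 1) * Z = 2 ^ (d + 1) * Z + 2 ^ (d + 1) * Z := by
      rw [pow_succ]; ring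
    omega

/-- Main theorem on the game: from a game tree for `{¬ τ}` to a Frege proof of `τ`. -/
theorem Ref.pb {t S d : ℕ} {τ : Fm α} (hτ : τ.size ≤ t) (h : Ref F t S d {.neg τ}) :
    F.PB τ (2 ^ (d + 1) * ((S + 3) * ((d + 3) * (F.K * ((d + 2) * (t + 2) + S + 2))))) := by
  obtain ⟨s, h1, h2⟩ := h.pb_aux (d + 1) [.neg τ] (by simp) (by simp [Fm.size]; omega)
    (by simp; omega)
  have := infer1 (F := F) (.imp (.and (.neg (.var 0)) (.neg .bot)) .bot) (.var 0) [τ]
    ((d + 2) * (t + 2) + S + 2) (by decide)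
    (by
      intro v h
      by_contra h0
      exact h ⟨h0, fun h => h⟩) (by omega)
    (by simp; nlinarith) h1
  refine FregeSystem.PB.mono this ?_
  have hK : F.K * ((d + 2) * (t + 2) + S + 2) ≤
      (S + 3) * ((d + 3) * (F.K * ((d + 2) * (t + 2) + S + 2))) := by
    have h0 := Nat.zero_le ((S + 3) * (d + 2) * (F.K * ((d + 2) * (t + 2) + S + 2)))
    have h1 := Nat.zero_le ((S + 2) * (F.K * ((d + 2) * (t + 2) + S + 2)))
    nlinarith
  have e : (d + 1 + 2) = d + 3 := by ring
  have e' : (d + 1 + 1) = d + 2 := by ring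
  rw [e, e'] at h2
  omega

/-! ### Strategies with postconditions -/

/-- With `c` queries, starting from `Γ`, one can reach a context with property `Q`. -/
def Can (F : FregeSystem) (t S c : ℕ) (Γ : Set (Fm α)) (Q : Set (Fm α) → Prop) : Prop :=
  ∀ d, (∀ Δ, Γ ⊆ Δ → Q Δ → Ref F t S d Δ) → Ref F t S (d + c) Γ

variable {t S : ℕ}

theorem Can.ref {c : ℕ} {Γ : Set (Fm α)} (h : Can F t S c Γ (fun _ => False)) :
    Ref F t S c Γ := by
  have := h 0 (fun _ _ h => h.elim)
  rwa [Nat.zero_add] at this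

theorem Can.ofRef {c : ℕ} {Γ : Set (Fm α)} {Q : Set (Fm α) → Prop} (h : Ref F t S c Γ) :
    Can F t S c Γ Q := fun _ _ => h.mono (by omega) (fun _ hx => hx)

theorem Can.ret {Γ : Set (Fm α)} {Q : Set (Fm α) → Prop} (h : Q Γ) : Can F t S 0 Γ Q :=
  fun _ hd => hd Γ (fun _ hx => hx) h

theorem Can.bind {c1 c2 : ℕ} {Γ : Set (Fm α)} {Q1 Q2 : Set (Fm α) → Prop}
    (h1 : Can F t S c1 Γ Q1) (h2 : ∀ Δ, Γ ⊆ Δ → Q1 Δ → Can F t S c2 Δ Q2) :
    Can F t S (c1 + c2) Γ Q2 := by
  intro d hd
  have := h1 (d + c2) (fun Δ hΔ hq => h2 Δ hΔ hq d (fun Δ' hΔ' hq' => hd Δ' (hΔ.trans hΔ') hq'))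
  exact this.mono (by omega) (fun _ hx => hx)

theorem Can.mono {c c' : ℕ} {Γ : Set (Fm α)} {Q Q' : Set (Fm α) → Prop}
    (h : Can F t S c Γ Q) (hc : c ≤ c') (hQ : ∀ Δ, Γ ⊆ Δ → Q Δ → Q' Δ) :
    Can F t S c' Γ Q' := by
  intro d hd
  exact (h d (fun Δ hΔ hq => hd Δ hΔ (hQ Δ hΔ hq))).mono (by omega) (fun _ hx => hx)

theorem Can.weaken {c c' : ℕ} {Γ : Set (Fm α)} {Q : Set (Fm α) → Prop}
    (h : Can F t S c Γ Q) (hc : c ≤ c') : Can F t S c' Γ Q := h.mono hc (fun _ _ h => h)

theorem Can.false_elim {c : ℕ} {Γ : Set (Fm α)} {Q : Set (Fm α) → Prop}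
    (h : Can F t S c Γ (fun _ => False)) : Can F t S c Γ Q :=
  h.mono le_rfl (fun _ _ h => h.elim)

theorem Can.query {Γ : Set (Fm α)} (φ : Fm α) (hφ : φ.size ≤ t) :
    Can F t S 1 Γ (fun Δ => φ ∈ Δ ∨ Fm.neg φ ∈ Δ) := by
  intro d hd
  exact .query φ (fun _ => hφ) (hd _ (Set.subset_insert _ _) (Or.inl (Set.mem_insert _ _)))
    (hd _ (Set.subset_insert _ _) (Or.inr (Set.mem_insert _ _)))

/-- A query to a formula smaller than some formula in the context. -/
theorem Can.querySub {Γ : Set (Fm α)} (φ ψ : Fm α) (hψ : ψ ∈ Γ) (h : φ.size + 1 ≤ ψ.size) :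
    Can F t S 1 Γ (fun Δ => φ ∈ Δ ∨ Fm.neg φ ∈ Δ) := by
  intro d hd
  exact .query φ (fun hs => by have := hs ψ hψ; omega)
    (hd _ (Set.subset_insert _ _) (Or.inl (Set.mem_insert _ _)))
    (hd _ (Set.subset_insert _ _) (Or.inr (Set.mem_insert _ _)))

theorem subst_conj (σ : α → Fm β) (l : List (Fm α)) :
    (conj l).subst σ = conj (l.map (Fm.subst σ)) := by
  induction l with
  | nil => rfl
  | cons a l ih => simp [conj, Fm.subst, ih]

/-- Closing a branch by a small unsatisfiable schematic set of formulas. -/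
theorem Can.close {Γ : Set (Fm α)} {Q : Set (Fm α) → Prop} (sk : List (Fm ℕ))
    (θ : List (Fm α)) (hS : F.K * (t + 1) ≤ S)
    (ht : smallTest [] (.imp (conj sk) .bot) = true)
    (hv : ∀ v : ℕ → Prop, ¬ (conj sk).eval v)
    (hmem : ∀ p ∈ sk, p.subst (sub θ) ∈ Γ)
    (hθ : (∀ p ∈ sk, (p.subst (sub θ)).size ≤ t + 1) → ∀ x ∈ θ, x.size ≤ t + 1) :
    Can F t S 0 Γ Q := by
  intro d _
  refine .leaf (sk.map (Fm.subst (sub θ))) ?_ ?_
  · intro x hx
    obtain ⟨p, hp, rfl⟩ := List.mem_map.1 hx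
    exact hmem p hp
  · intro hs
    have := infer0 (F := F) (.imp (conj sk) .bot) θ (t + 1) ht (fun v h => hv v h) (by omega)
      (hθ (fun p hp => hs _ (List.mem_map_of_mem hp)))
    rw [Fm.subst, subst_conj] at this
    exact FregeSystem.PB.mono this hS

variable {Q : Set (Fm α) → Prop} {Γ : Set (Fm α)}

theorem Can.close_neg (hS : F.K * (t + 1) ≤ S) (φ : Fm α) (h1 : φ ∈ Γ) (h2 : Fm.neg φ ∈ Γ) :
    Can F t S 0 Γ Q :=
  Can.close [.var 0, .neg (.var 0)] [φ] hS (by decide) (by intro v h; exact h.2.1 h.1)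
    (by
      intro p hp
      simp only [List.mem_cons, List.not_mem_nil, or_false] at hp
      rcases hp with rfl | rfl
      · exact h1
      · exact h2)
    (by
      intro h x hx
      have := h (.var 0) (by simp)
      simp only [List.mem_cons, List.not_mem_nil, or_false] at hx
      subst hx
      exact this)

theorem Can.close_bot (hS : F.K * (t + 1) ≤ S) (h1 : Fm.bot ∈ Γ) :
    Can F t S 0 Γ Q :=
  Can.close [.bot] [] hS (by decide) (by intro v h; exact h.1)
    (by
      intro p hp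
      simp only [List.mem_cons, List.not_mem_nil, or_false] at hp
      subst hp
      exact h1)
    (by intro h x hx; simp at hx)

theorem Can.close_or (hS : F.K * (t + 1) ≤ S) (φ ψ : Fm α) (h1 : Fm.or φ ψ ∈ Γ)
    (h2 : Fm.neg φ ∈ Γ) (h3 : Fm.neg ψ ∈ Γ) : Can F t S 0 Γ Q :=
  Can.close [.or (.var 0) (.var 1), .neg (.var 0), .neg (.var 1)] [φ, ψ] hS (by decide)
    (by intro v h; exact h.1.elim h.2.1 h.2.2.1)
    (by
      intro p hp
      simp only [List.mem_cons, List.not_mem_nil, or_false] at hp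
      rcases hp with rfl | rfl | rfl
      · exact h1
      · exact h2
      · exact h3)
    (by
      intro h x hx
      have := h (.or (.var 0) (.var 1)) (by simp)
      have e : (Fm.or (.var 0) (.var 1)).subst (sub [φ, ψ]) = .or φ ψ := rfl
      rw [e] at this
      simp only [Fm.size] at this
      simp only [List.mem_cons, List.not_mem_nil, or_false] at hx
      rcases hx with rfl | rfl <;> omega)

theorem Can.close_nor_left (hS : F.K * (t + 1) ≤ S) (φ ψ : Fm α) (h1 : Fm.neg (.or φ ψ) ∈ Γ)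
    (h2 : φ ∈ Γ) : Can F t S 0 Γ Q :=
  Can.close [.neg (.or (.var 0) (.var 1)), .var 0] [φ, ψ] hS (by decide)
    (by intro v h; exact h.1 (Or.inl h.2.1))
    (by
      intro p hp
      simp only [List.mem_cons, List.not_mem_nil, or_false] at hp
      rcases hp with rfl | rfl
      · exact h1
      · exact h2)
    (by
      intro h x hx
      have := h (.neg (.or (.var 0) (.var 1))) (by simp)
      have e : (Fm.neg (Fm.or (.var 0) (.var 1))).subst (sub [φ, ψ]) = .neg (.or φ ψ) := rfl
      rw [e] at this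
      simp only [Fm.size] at this
      simp only [List.mem_cons, List.not_mem_nil, or_false] at hx
      rcases hx with rfl | rfl <;> omega)

theorem Can.close_nor_right (hS : F.K * (t + 1) ≤ S) (φ ψ : Fm α)
    (h1 : Fm.neg (.or φ ψ) ∈ Γ) (h2 : ψ ∈ Γ) : Can F t S 0 Γ Q :=
  Can.close [.neg (.or (.var 0) (.var 1)), .var 1] [φ, ψ] hS (by decide)
    (by intro v h; exact h.1 (Or.inr h.2.1))
    (by
      intro p hp
      simp only [List.mem_cons, List.not_mem_nil, or_false] at hp
      rcases hp with rfl | rfl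
      · exact h1
      · exact h2)
    (by
      intro h x hx
      have := h (.neg (.or (.var 0) (.var 1))) (by simp)
      have e : (Fm.neg (Fm.or (.var 0) (.var 1))).subst (sub [φ, ψ]) = .neg (.or φ ψ) := rfl
      rw [e] at this
      simp only [Fm.size] at this
      simp only [List.mem_cons, List.not_mem_nil, or_false] at hx
      rcases hx with rfl | rfl <;> omega)

theorem Can.close_and_left (hS : F.K * (t + 1) ≤ S) (φ ψ : Fm α) (h1 : Fm.and φ ψ ∈ Γ)
    (h2 : Fm.neg φ ∈ Γ) : Can F t S 0 Γ Q :=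
  Can.close [.and (.var 0) (.var 1), .neg (.var 0)] [φ, ψ] hS (by decide)
    (by intro v h; exact h.2.1 h.1.1)
    (by
      intro p hp
      simp only [List.mem_cons, List.not_mem_nil, or_false] at hp
      rcases hp with rfl | rfl
      · exact h1
      · exact h2)
    (by
      intro h x hx
      have := h (.and (.var 0) (.var 1)) (by simp)
      have e : (Fm.and (.var 0) (.var 1)).subst (sub [φ, ψ]) = .and φ ψ := rfl
      rw [e] at this
      simp only [Fm.size] at this
      simp only [List.mem_cons, List.not_mem_nil, or_false] at hx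
      rcases hx with rfl | rfl <;> omega)

theorem Can.close_and_right (hS : F.K * (t + 1) ≤ S) (φ ψ : Fm α) (h1 : Fm.and φ ψ ∈ Γ)
    (h2 : Fm.neg ψ ∈ Γ) : Can F t S 0 Γ Q :=
  Can.close [.and (.var 0) (.var 1), .neg (.var 1)] [φ, ψ] hS (by decide)
    (by intro v h; exact h.2.1 h.1.2)
    (by
      intro p hp
      simp only [List.mem_cons, List.not_mem_nil, or_false] at hp
      rcases hp with rfl | rfl
      · exact h1
      · exact h2)
    (by
      intro h x hx
      have := h (.and (.var 0) (.var 1)) (by simp)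
      have e : (Fm.and (.var 0) (.var 1)).subst (sub [φ, ψ]) = .and φ ψ := rfl
      rw [e] at this
      simp only [Fm.size] at this
      simp only [List.mem_cons, List.not_mem_nil, or_false] at hx
      rcases hx with rfl | rfl <;> omega)

theorem Can.close_nand (hS : F.K * (t + 1) ≤ S) (φ ψ : Fm α) (h1 : Fm.neg (.and φ ψ) ∈ Γ)
    (h2 : φ ∈ Γ) (h3 : ψ ∈ Γ) : Can F t S 0 Γ Q :=
  Can.close [.neg (.and (.var 0) (.var 1)), .var 0, .var 1] [φ, ψ] hS (by decide)
    (by intro v h; exact h.1 ⟨h.2.1, h.2.2.1⟩)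
    (by
      intro p hp
      simp only [List.mem_cons, List.not_mem_nil, or_false] at hp
      rcases hp with rfl | rfl | rfl
      · exact h1
      · exact h2
      · exact h3)
    (by
      intro h x hx
      have := h (.neg (.and (.var 0) (.var 1))) (by simp)
      have e : (Fm.neg (Fm.and (.var 0) (.var 1))).subst (sub [φ, ψ]) = .neg (.and φ ψ) := rfl
      rw [e] at this
      simp only [Fm.size] at this
      simp only [List.mem_cons, List.not_mem_nil, or_false] at hx
      rcases hx with rfl | rfl <;> omega)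

theorem Can.close_negneg (hS : F.K * (t + 1) ≤ S) (φ : Fm α) (h1 : Fm.neg (.neg φ) ∈ Γ)
    (h2 : Fm.neg φ ∈ Γ) : Can F t S 0 Γ Q := Can.close_neg hS (.neg φ) h2 h1

/-! ### Derived rules with postconditions -/

/-- From a true conjunction get both conjuncts. -/
theorem Can.and_elim (hS : F.K * (t + 1) ≤ S) (φ ψ : Fm α) (h : Fm.and φ ψ ∈ Γ) :
    Can F t S 2 Γ (fun Δ => φ ∈ Δ ∧ ψ ∈ Δ) := by
  refine Can.bind (c1 := 1) (c2 := 1)
    (Can.querySub φ _ h (by simp only [Fm.size]; have := ψ.size_pos; omega)) ?_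
  intro Δ hΔ h1
  rcases h1 with h1 | h1
  · refine Can.bind (c1 := 1) (c2 := 0)
      (Can.querySub ψ _ (hΔ h) (by simp only [Fm.size]; have := φ.size_pos; omega)) ?_
    intro Δ' hΔ' h2
    rcases h2 with h2 | h2
    · exact Can.ret ⟨hΔ' h1, h2⟩
    · exact Can.close_and_right hS φ ψ (hΔ' (hΔ h)) h2
  · exact (Can.close_and_left hS φ ψ (hΔ h) h1).weaken (by omega)

/-- Binary search. -/
theorem Can.bsearch {A B : ℕ → Set (Fm α) → Prop} {c : ℕ}
    (hA : ∀ s Δ Δ', Δ ⊆ Δ' → A s Δ → A s Δ') (hB : ∀ s Δ Δ', Δ ⊆ Δ' → B s Δ → B s Δ')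
    (m : ℕ) : ∀ (Γ : Set (Fm α)) (a b : ℕ),
    (∀ s, a < s → s < b → ∀ Δ, Γ ⊆ Δ → Can F t S c Δ (fun Δ' => A s Δ' ∨ B s Δ')) →
    a < b → b ≤ a + 2 ^ m → A a Γ → B b Γ →
    Can F t S (c * m) Γ (fun Δ => ∃ s, a ≤ s ∧ s < b ∧ A s Δ ∧ B (s + 1) Δ) := by
  induction m with
  | zero =>
    intro Γ a b _ hab hb ha hbB
    have : b = a + 1 := by simp at hb; omega
    subst this
    exact (Can.ret ⟨a, le_rfl, hab, ha, hbB⟩)
  | succ m ih =>
    intro Γ a b probe hab hb ha hbB
    have hpow : 2 ^ (m + 1) = 2 ^ m + 2 ^ m := by rw [pow_succ]; ring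
    by_cases hmid : a + 2 ^ m < b
    · have hpos : 0 < 2 ^ m := Nat.two_pow_pos m
      have h1 := probe (a + 2 ^ m) (by omega) hmid Γ (fun _ hx => hx)
      have : c * (m + 1) = c + c * m := by ring
      rw [this]
      refine h1.bind ?_
      intro Δ hΔ h2
      rcases h2 with h2 | h2
      · refine (ih Δ (a + 2 ^ m) b (fun s hs1 hs2 Δ' hΔ' => probe s (by omega) hs2 Δ'
          (hΔ.trans hΔ')) hmid (by omega) h2 (hB _ _ _ hΔ hbB)).mono le_rfl ?_
        rintro Δ' _ ⟨s, hs1, hs2, hs3⟩
        exact ⟨s, by omega, hs2, hs3⟩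
      · refine (ih Δ a (a + 2 ^ m) (fun s hs1 hs2 Δ' hΔ' => probe s hs1 (by omega) Δ'
          (hΔ.trans hΔ')) (by omega) (by omega) (hA _ _ _ hΔ ha) h2).mono le_rfl ?_
        rintro Δ' _ ⟨s, hs1, hs2, hs3⟩
        exact ⟨s, hs1, by omega, hs3⟩
    · refine (ih Γ a b probe hab (by omega) ha hbB).weaken ?_
      exact Nat.mul_le_mul_left _ (by omega)

/-! ### Big disjunctions and conjunctions -/

/-- Right-nested disjunction of a list. -/
def bigOr : List (Fm α) → Fm α
  | [] => .bot
  | φ :: l => .or φ (bigOr l)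

theorem size_bigOr_drop_le (l : List (Fm α)) (i : ℕ) : (bigOr (l.drop i)).size ≤ (bigOr l).size := by
  induction l generalizing i with
  | nil => simp
  | cons a l ih =>
    cases i with
    | zero => simp
    | succ i =>
      have := ih i
      simp only [List.drop_succ_cons, bigOr, Fm.size]
      omega

theorem size_mem_bigOr {φ : Fm α} {l : List (Fm α)} (h : φ ∈ l) :
    φ.size + 1 ≤ (bigOr l).size := by
  induction l with
  | nil => simp at h
  | cons a l ih =>
    simp only [bigOr, Fm.size]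
    rcases List.mem_cons.1 h with h | h
    · subst h; have := (bigOr l).size_pos; omega
    · have := ih h; omega

theorem size_bigOr_le (B : ℕ) (l : List (Fm α)) (h : ∀ x ∈ l, x.size ≤ B) :
    (bigOr l).size ≤ l.length * (B + 1) + 1 := by
  induction l with
  | nil => simp [bigOr, Fm.size]
  | cons a l ih =>
    have h1 := h a (by simp)
    have h2 := ih (fun x hx => h x (by simp [hx]))
    simp only [bigOr, Fm.size, List.length_cons]
    nlinarith

/-- From a true big disjunction, find a true disjunct. -/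
theorem Can.find (hS : F.K * (t + 1) ≤ S) {l : List (Fm α)} (m : ℕ) (hl : l.length ≤ 2 ^ m)
    (h : bigOr l ∈ Γ) :
    Can F t S (m + 2) Γ (fun Δ => ∃ i, ∃ hi : i < l.length, l[i] ∈ Δ ∧
      Fm.neg (bigOr (l.drop (i + 1))) ∈ Δ) := by
  by_cases hl0 : l = []
  · subst hl0
    exact (Can.close_bot hS h).weaken (by omega)
  have hlpos : 0 < l.length := List.length_pos_of_ne_nil hl0
  have hbs : (Fm.bot : Fm α).size + 1 ≤ (bigOr l).size := by
    cases l with
    | nil => exact absurd rfl hl0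
    | cons a l => simp only [bigOr, Fm.size]; have := a.size_pos; have := (bigOr l).size_pos; omega
  have e : m + 2 = 1 + (1 * m + 1) := by ring
  rw [e]
  refine (Can.querySub .bot _ h hbs).bind ?_
  intro Δ hΔ h1
  rcases h1 with h1 | h1
  · exact (Can.close_bot hS h1).weaken (by omega)
  refine Can.bind (Can.bsearch (A := fun s Δ => bigOr (l.drop s) ∈ Δ)
    (B := fun s Δ => Fm.neg (bigOr (l.drop s)) ∈ Δ) (fun _ _ _ h1 h2 => h1 h2)
    (fun _ _ _ h1 h2 => h1 h2) m Δ 0 l.length ?_ hlpos (by omega) (by simpa using hΔ h)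
    (by simpa [bigOr] using h1)) ?_
  · intro s hs1 hs2 Δ' hΔ'
    refine Can.querySub _ _ (hΔ' (hΔ h)) ?_
    have : (bigOr (l.drop s)).size + 1 ≤ (bigOr l).size := by
      obtain ⟨k, rfl⟩ : ∃ k, s = k + 1 := ⟨s - 1, by omega⟩
      cases l with
      | nil => exact absurd rfl hl0
      | cons a l =>
        have := size_bigOr_drop_le l k
        simp only [List.drop_succ_cons, bigOr, Fm.size]
        omega
    exact this
  · rintro Δ' hΔ' ⟨s, _, hs, h2, h3⟩
    have e : l.drop s = l[s] :: l.drop (s + 1) := List.drop_eq_getElem_cons hs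
    have h2' : Fm.or l[s] (bigOr (l.drop (s + 1))) ∈ Δ' := by
      have : bigOr (l.drop s) ∈ Δ' := h2
      rw [e] at this
      exact this
    refine Can.bind (c1 := 1) (c2 := 0) (Can.querySub l[s] _ h2' ?_) ?_
    · simp only [Fm.size]; have := (bigOr (l.drop (s + 1))).size_pos; omega
    · rintro Δ'' hΔ'' (h4 | h4)
      · exact Can.ret ⟨s, hs, h4, hΔ'' h3⟩
      · exact Can.close_or hS _ _ (hΔ'' h2') h4 (hΔ'' h3)

/-- A false big disjunction with a true disjunct. -/
theorem Can.refuteOr (hS : F.K * (t + 1) ≤ S) {l : List (Fm α)} (m : ℕ)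
    (hl : l.length ≤ 2 ^ m) (h : Fm.neg (bigOr l) ∈ Γ) (φ : Fm α) (hφ : φ ∈ l) (h1 : φ ∈ Γ) :
    Can F t S (m + 1) Γ Q := by
  obtain ⟨i, hi, rfl⟩ := List.getElem_of_mem hφ
  have e : l.drop i = l[i] :: l.drop (i + 1) := List.drop_eq_getElem_cons hi
  have e2 : m + 1 = 1 + (1 * m + 0) := by ring
  rw [e2]
  refine (Can.querySub (bigOr (l.drop i)) _ h ?_).bind ?_
  · simp only [Fm.size]; have := size_bigOr_drop_le l i; omega
  · rintro Δ hΔ (h2 | h2)
    · by_cases hi0 : i = 0
      · subst hi0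
        exact (Can.close_neg hS _ (by simpa using h2) (hΔ h)).weaken (by omega)
      refine Can.bind (Can.bsearch (A := fun s Δ => Fm.neg (bigOr (l.drop s)) ∈ Δ)
        (B := fun s Δ => bigOr (l.drop s) ∈ Δ) (fun _ _ _ h1 h2 => h1 h2)
        (fun _ _ _ h1 h2 => h1 h2) m Δ 0 i ?_ (by omega) (by omega) (by simpa using hΔ h)
        h2) ?_
      · intro s hs1 hs2 Δ' hΔ'
        refine (Can.querySub (bigOr (l.drop s)) _ (hΔ' (hΔ h)) ?_).mono le_rfl ?_
        · simp only [Fm.size]; have := size_bigOr_drop_le l s; omega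
        · rintro _ _ (h3 | h3)
          · exact Or.inr h3
          · exact Or.inl h3
      · rintro Δ' hΔ' ⟨s, _, hs, h3, h4⟩
        have hs' : s < l.length := by omega
        have e' : l.drop s = l[s] :: l.drop (s + 1) := List.drop_eq_getElem_cons hs'
        have h3' : Fm.neg (.or l[s] (bigOr (l.drop (s + 1)))) ∈ Δ' := by
          have : Fm.neg (bigOr (l.drop s)) ∈ Δ' := h3
          rw [e'] at this
          exact this
        exact Can.close_nor_right hS _ _ h3' h4
    · rw [e] at h2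
      exact (Can.close_nor_left hS _ _ h2 (hΔ h1)).weaken (by omega)

/-- Conjunction of a list, by duality. -/
def bigAnd (l : List (Fm α)) : Fm α := .neg (bigOr (l.map .neg))

theorem size_bigAnd_le (B : ℕ) (l : List (Fm α)) (h : ∀ x ∈ l, x.size ≤ B) :
    (bigAnd l).size ≤ l.length * (B + 2) + 2 := by
  have := size_bigOr_le (B + 1) (l.map .neg) (by
    intro x hx
    obtain ⟨y, hy, rfl⟩ := List.mem_map.1 hx
    simpa [Fm.size] using h y hy)
  simp only [bigAnd, Fm.size]
  rw [List.length_map] at this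
  nlinarith

theorem size_mem_bigAnd {φ : Fm α} {l : List (Fm α)} (h : φ ∈ l) :
    φ.size + 3 ≤ (bigAnd l).size := by
  have := size_mem_bigOr (List.mem_map_of_mem (f := Fm.neg) h)
  simp only [bigAnd, Fm.size] at *
  omega

theorem Can.bigAnd_elim (hS : F.K * (t + 1) ≤ S) {l : List (Fm α)} (m : ℕ)
    (hl : l.length ≤ 2 ^ m) (h : bigAnd l ∈ Γ) (φ : Fm α) (hφ : φ ∈ l) :
    Can F t S (m + 2) Γ (fun Δ => φ ∈ Δ) := by
  have e : m + 2 = 1 + (m + 1) := by ring
  rw [e]
  refine (Can.querySub φ _ h (by have := size_mem_bigAnd hφ; omega)).bind ?_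
  rintro Δ hΔ (h1 | h1)
  · exact (Can.ret h1).weaken (by omega)
  · exact Can.refuteOr hS m (l := l.map .neg) (by simpa using hl) (hΔ h) (.neg φ)
      (List.mem_map_of_mem hφ) h1

theorem Can.bigAnd_false (hS : F.K * (t + 1) ≤ S) {l : List (Fm α)} (m : ℕ)
    (hl : l.length ≤ 2 ^ m) (h : Fm.neg (bigAnd l) ∈ Γ) :
    Can F t S (m + 3) Γ (fun Δ => ∃ φ ∈ l, Fm.neg φ ∈ Δ) := by
  have e : m + 3 = 1 + (m + 2) := by ring
  rw [e]
  refine (Can.querySub (bigOr (l.map .neg)) _ h (by simp only [bigAnd, Fm.size]; omega)).bind ?_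
  rintro Δ hΔ (h1 | h1)
  · refine (Can.find hS m (l := l.map .neg) (by simpa using hl) h1).mono le_rfl ?_
    rintro Δ' _ ⟨i, hi, h2, _⟩
    rw [List.length_map] at hi
    refine ⟨l[i], List.getElem_mem hi, ?_⟩
    simpa using h2
  · exact (Can.close_neg hS _ h1 (hΔ h)).weaken (by omega)

end FregeEF
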