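import Pool.Agent.Work.MP_c07f0d_lc.KSizes
import Mathlib.Data.Nat.Choose.Central

/-!
# Quasi-polynomial Frege proofs of all Kneser-Lovász tautologies
-/

namespace FregeEF

variable {F : FregeSystem}

theorem length_verts (n k : ℕ) : (verts n k).length = n.choose k := by
  rw [verts, Finset.length_toList, Finset.card_powersetCard, Finset.card_range]

theorem two_pow_le_centralBinom (k : ℕ) : 2 ^ k ≤ k.centralBinom := by
  induction k with
  | zero => simp
  | succ k ih =>
    have h := Nat.succ_mul_centralBinom_succ k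
    have h2 : (k + 1) * (2 * k.centralBinom) ≤ (k + 1) * (k + 1).centralBinom := by
      rw [h]
      nlinarith [Nat.zero_le (k * k.centralBinom)]
    have h3 := Nat.le_of_mul_le_mul_left h2 (by omega)
    rw [pow_succ]
    omega

theorem two_pow_le_verts {n k : ℕ} (h2k : 2 * k ≤ n) : 2 ^ k ≤ (verts n k).length := by
  rw [length_verts]
  calc 2 ^ k ≤ k.centralBinom := two_pow_le_centralBinom k
    _ = (2 * k).choose k := rfl
    _ ≤ n.choose k := Nat.choose_le_choose k h2k

theorem verts_le_size (n k : ℕ) : (verts n k).length ≤ (kneser n k).size := by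
  rw [kneser_eq]
  have h := length_le_size_conj (vL n k)
  rw [vL, List.length_map] at h
  simp only [Fm.size, vL]
  omega

theorem eL_le_size (n k : ℕ) : (eL n k).length ≤ (kneser n k).size := by
  rw [kneser_eq]
  have h := length_le_size_bigOr (eL n k)
  simp only [Fm.size]
  omega

theorem nc_le_size {n k : ℕ} (h2k : 2 * k ≤ n) : nc n k ≤ (kneser n k).size := by
  rw [kneser_eq]
  have h0 := two_pow_le_verts h2k
  have hp : 0 < 2 ^ k := by positivity
  have hne : verts n k ≠ [] := by
    intro h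
    rw [h] at h0
    simp at h0
  obtain ⟨X, hX⟩ := List.exists_mem_of_ne_nil _ hne
  have h1 := length_le_size_bigOr ((List.range (nc n k)).map fun c => (.var (X, c) : Fm KVar))
  rw [List.length_map, List.length_range] at h1
  have h2 : (bigOr ((List.range (nc n k)).map fun c => (.var (X, c) : Fm KVar))) ∈ vL n k :=
    List.mem_map_of_mem (f := fun X => bigOr ((List.range (nc n k)).map fun c =>
      (Fm.var (X, c) : Fm KVar))) hX
  have h3 := size_mem_conj h2
  simp only [Fm.size]
  omega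

theorem k_le_log {n k : ℕ} (h2k : 2 * k ≤ n) : k ≤ Nat.log 2 (kneser n k).size := by
  have h := (two_pow_le_verts h2k).trans (verts_le_size n k)
  exact Nat.le_log_of_pow_le (by omega) h

/-- The admissible pairs `(n, k)`. -/
abbrev KPairs : Type := {p : ℕ × ℕ // 1 ≤ p.2 ∧ 2 * p.2 ≤ p.1}

/-- The logarithm of the size. -/
noncomputable def kl (i : KPairs) : ℕ := Nat.log 2 (kneser i.1.1 i.1.2).size

theorem qp_size : QP kl (fun i => (kneser i.1.1 i.1.2).size) := by
  refine ⟨1, fun i => ?_⟩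
  have h := Nat.lt_pow_succ_log_self (b := 2) (by omega) (kneser i.1.1 i.1.2).size
  refine h.le.trans (Nat.pow_le_pow_right (by omega) ?_)
  show kl i + 1 ≤ _
  rw [pow_one]
  omega

theorem pl_k : PL kl (fun i => i.1.2) := PL.id.mono fun i => k_le_log i.2.2

theorem qp_verts : QP kl (fun i => (verts i.1.1 i.1.2).length) :=
  qp_size.mono fun _ => verts_le_size _ _

theorem qp_eL : QP kl (fun i => (eL i.1.1 i.1.2).length) :=
  qp_size.mono fun _ => eL_le_size _ _

theorem qp_nc : QP kl (fun i => nc i.1.1 i.1.2) :=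
  qp_size.mono fun i => nc_le_size i.2.2

theorem qp_n : QP kl (fun i => i.1.1) := by
  refine (qp_nc.add (((PL.const 2).mul pl_k).qp)).mono fun i => ?_
  simp only [nc]
  omega

/-- The degree used. -/
def kD (k : ℕ) : ℕ := 2 * ((k + 1) * k) ^ 2

theorem pl_D : PL kl (fun i => kD i.1.2) :=
  (PL.const 2).mul (((pl_k.add (PL.const 1)).mul pl_k).pow 2)

theorem qp_vtup : QP kl (fun i => (vtup i.1.1 i.1.2).length) := by
  refine (qp_verts.pow (pl_k.add (PL.const 1))).mono fun i => ?_
  refine (List.length_filter_le _ _).trans ?_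
  rw [length_allTup]

theorem qp_ntup : QP kl (fun i => (ntup i.1.1 (kD i.1.2)).length) := by
  refine (qp_n.pow pl_D).mono fun i => ?_
  refine (List.length_filter_le _ _).trans ?_
  rw [length_allTup, List.length_range]

theorem qp_zW : QP kl (fun i => zW i.1.1 i.1.2 (kD i.1.2)) := by
  unfold zW
  exact (((((((((qp_verts.add qp_eL).add qp_n).add qp_nc).add qp_vtup).add qp_ntup).add
    (qp_nc.mul qp_vtup)).add (qp_ntup.mul qp_vtup)).add pl_D.qp).add
    (pl_k.add (PL.const 1)).qp).add (qp_n.mul pl_D.qp)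

theorem qp_zA2 : QP kl (fun i => zA2 i.1.1 (verts i.1.1 i.1.2).length) := by
  unfold zA2
  exact (qp_n.mul ((qp_verts.mul (QP.const 2)).add (QP.const 3))).add (QP.const 1)

theorem qp_zA4 : QP kl (fun i => zA4 i.1.1 (nc i.1.1 i.1.2) (verts i.1.1 i.1.2).length) := by
  unfold zA4
  exact (qp_nc.mul (((QP.const 2).mul qp_zA2).add (QP.const 3))).add (QP.const 1)

theorem qp_zA5 : QP kl (fun i => zA5 i.1.2 (vtup i.1.1 i.1.2).length) := by
  unfold zA5
  exact (qp_vtup.mul ((((pl_k.add (PL.const 1)).mul (PL.const 2)).add (PL.const 3)).qp)).add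
    (QP.const 1)

theorem qp_zA7 : QP kl (fun i => zA7 i.1.2 (nc i.1.1 i.1.2) (vtup i.1.1 i.1.2).length) := by
  unfold zA7
  exact ((qp_nc.mul qp_vtup).mul (((QP.const 2).mul qp_zA5).add (QP.const 3))).add (QP.const 1)

theorem qp_zA8 : QP kl
    (fun i => zA8 i.1.2 i.1.1 (nc i.1.1 i.1.2) (vtup i.1.1 i.1.2).length) := by
  unfold zA8
  exact (qp_n.mul (qp_zA7.add (QP.const 1))).add (QP.const 1)

theorem qp_zA9 : QP kl (fun i => zA9 i.1.2 (nc i.1.1 i.1.2) (kD i.1.2) (vtup i.1.1 i.1.2).length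
    (ntup i.1.1 (kD i.1.2)).length) := by
  unfold zA9
  exact (qp_ntup.mul ((pl_D.qp.mul (qp_zA7.add (QP.const 1))).add (QP.const 3))).add (QP.const 1)

theorem qp_zA11 : QP kl (fun i => zA11 i.1.2 (nc i.1.1 i.1.2) (kD i.1.2)
    (vtup i.1.1 i.1.2).length (ntup i.1.1 (kD i.1.2)).length) := by
  unfold zA11
  exact ((qp_ntup.mul qp_vtup).mul (((((QP.const 2).mul qp_zA9).add (QP.const 2)).add
    (((QP.const 2).mul qp_zA5).add (QP.const 2))).add (QP.const 2))).add (QP.const 1)

theorem qp_zB : QP kl (fun i => zB i.1.1 i.1.2 (nc i.1.1 i.1.2) (kD i.1.2)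
    (verts i.1.1 i.1.2).length (vtup i.1.1 i.1.2).length (ntup i.1.1 (kD i.1.2)).length) := by
  unfold zB
  exact ((((QP.const 2).mul qp_zA2).add (QP.const 2)).add (QP.const 1)).add
    (((QP.const 1).add ((QP.const 1).add qp_zA4)).add qp_zA11)

theorem qp_zS : QP kl (fun i => zS i.1.1 (nc i.1.1 i.1.2) (verts i.1.1 i.1.2).length) := by
  unfold zS
  exact (qp_nc.mul (qp_zA2.add (QP.const 2))).add (QP.const 1)

section

variable {ι : Type} {l : ι → ℕ}

theorem qp_phSize {a b B M : ι → ℕ} (ha : QP l a) (hb : QP l b) (hB : QP l B) (hM : PL l M) :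
    QP l (fun i => phSize (a i) (b i) (B i) (M i)) := by
  unfold phSize
  exact ((hM.two_pow.add (QP.const 1)).mul
    (((((QP.const 5).mul (hM.two_pow.add (QP.const 1))).pow hM).mul
    (((ha.mul (((QP.const 2).mul ((hb.mul (hB.add (QP.const 1))).add (QP.const 1))).add
      (QP.const 3))).add (QP.const 1)).add (QP.const 1))).add (QP.const 1))).add (QP.const 1)

theorem qp_klabSize {r q : ι → ℕ} (hr : PL l r) (hq : PL l q) :
    QP l (fun i => klabSize (r i) (q i)) := by
  unfold klabSize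
  have h1 : QP l (fun i => 2 ^ (r i + 1)) := (hr.add (PL.const 1)).two_pow
  exact (((((QP.const 2).mul ((hq.qp.mul ((h1.mul (QP.const 2)).add (QP.const 2))).add
    (QP.const 1))).add (QP.const 2))).add ((h1.mul (QP.const 2)).add (QP.const 1))).add
    (QP.const 3)

theorem qp_tuckSize {q r s : ι → ℕ} (hq : PL l q) (hr : PL l r) (hs : QP l s) :
    QP l (fun i => tuckSize (q i) (r i) (s i)) := by
  unfold tuckSize
  exact (((QP.const 8).mul ((PL.const 2).mul hr).two_pow).pow hr).mul
    ((((((QP.const 2).mul hq.qp).add (QP.const 1)).mul (hs.add (QP.const 3))).pow hr).mul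
    (QP.const 2))

theorem PL.sub {f g : ι → ℕ} (hf : PL l f) : PL l (fun i => f i - g i) :=
  hf.mono fun _ => Nat.sub_le _ _

theorem pl_stepCost {r m c : ι → ℕ} (hr : PL l r) (hm : PL l m) (hc : PL l c) :
    PL l (fun i => stepCost (r i) (m i) (c i)) := by
  unfold stepCost
  have h2 : PL l (fun i => 2 * r i) := (PL.const 2).mul hr
  exact (hr.add (PL.const 4)).add (((((hr.mul ((PL.const 4).mul h2)).add
    ((hr.mul ((hr.add (PL.const 3)).mul h2)).add (((PL.const 2).mul (hr.mul hc)).add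
    (((hr.mul (hm.add (PL.const 4))).add hc).add (PL.const 1))))).add
    ((hr.mul ((PL.const 2).mul h2)).add (((h2.mul h2).add ((PL.const 3).mul h2)).add
    (hr.mul ((PL.const 2).mul h2)))))).add
    ((hr.mul ((PL.const 3).mul h2)).add (h2.add (h2.add (PL.const 0)))))

theorem pl_tuckCost {r m c : ι → ℕ} (hr : PL l r) (hm : PL l m) (hc : PL l c) :
    PL l (fun i => tuckCost (r i) (m i) (c i)) := by
  unfold tuckCost
  have h2 : PL l (fun i => 2 * r i) := (PL.const 2).mul hr
  have h3 := pl_stepCost hr hm hc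
  exact (((PL.const 1).add ((((PL.const 1).mul hc).add ((PL.const 1).mul hc)).add
    (h2.add (h2.add ((((PL.const 1).mul (hm.add (PL.const 4))).add hc).add (PL.const 1)))))).add
    (hr.mul h3)).add ((hr.mul ((PL.const 2).mul h2)).add ((hr.mul hc).add
    (((hr.mul (hm.add (PL.const 4))).add hc).add (PL.const 1))))

theorem pl_smallCost {M K k : ι → ℕ} (hM : PL l M) (hK : PL l K) (hk : PL l k) :
    PL l (fun i => smallCost (M i) (K i) (k i)) := by
  unfold smallCost klabCost
  have h1 : PL l (fun i => K i + (2 * k i - 2) + 1) :=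
    (hK.add ((PL.const 2).mul hk).sub).add (PL.const 1)
  exact (h1.mul (((PL.const 40).mul ((hM.add (PL.const 4)).pow 2)).add
    (((PL.const 3).mul hM).add (PL.const 10)))).add
    (pl_tuckCost h1 ((PL.const 2).mul h1) (((((PL.const 10).mul (h1.add (PL.const 3))).add
    ((PL.const 10).mul (hK.add (PL.const 3)))).add ((PL.const 2).mul (((PL.const 8).mul hM).add
    (PL.const 30)))).add (PL.const 20)))

theorem pl_kneserCost {M D k : ι → ℕ} (hM : PL l M) (hD : PL l D) (hk : PL l k) :
    PL l (fun i => kneserCost (M i) (D i) (k i)) := by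
  unfold kneserCost largeCost pickCost
  have h1 : PL l (fun i => 2 * (k i * D i)) := (PL.const 2).mul (hk.mul hD)
  have h2 := pl_smallCost hM h1 hk
  have hM2 : PL l (fun i => 40 * (M i + 4) ^ 2) := (PL.const 40).mul ((hM.add (PL.const 4)).pow 2)
  have hM4 : PL l (fun i => 4 * M i) := (PL.const 4).mul hM
  exact (PL.const 2).add ((h1.mul (hM.add (PL.const 3))).add
    (((hk.mul (hM2.add (((((hD.add (PL.const 8)).mul (hM.add (PL.const 5))).add hD).add
      (PL.const 20)).add (hM4.add (PL.const 30))))).add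
      ((((PL.const 2).mul hM).add (PL.const 4)).add (((PL.const 1).add
      (((hk.add (PL.const 1)).mul (hM.add (PL.const 4))).add ((hM.add hk).add (PL.const 10)))).add
      (hM4.add (PL.const 20))))).add h2))

end

theorem qp_zT {M : KPairs → ℕ} (hM : PL kl M) :
    QP kl (fun i => zT i.1.1 i.1.2 (kD i.1.2) (M i) (kneser i.1.1 i.1.2).size) := by
  unfold zT
  have h1 : PL kl (fun i => 2 * (i.1.2 * kD i.1.2)) := (PL.const 2).mul (pl_k.mul pl_D)
  have h2 : PL kl (fun i => 2 * i.1.2 - 2) := ((PL.const 2).mul pl_k).sub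
  have h3 := qp_klabSize ((h1.add h2).add (PL.const 1)) h1
  exact ((((((((qp_size.add (((QP.const 2).mul qp_zA2).add (QP.const 2))).add
    (((QP.const 2).mul qp_zA5).add (QP.const 2))).add qp_zA4).add qp_zA8).add qp_zS).add
    (((QP.const 2).mul qp_zA9).add (QP.const 2))).add
    (qp_phSize (qp_n.mul pl_D.qp) (qp_nc.mul pl_D.qp) qp_zB hM)).add ((QP.const 2).mul h3)).add
    (qp_tuckSize (h1.add h2) ((h1.add h2).add (PL.const 1)) h3)

/-- All Kneser-Lovász tautologies have quasi-polynomial Frege proofs. -/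
theorem kneser_all (F : FregeSystem) : ∃ C : ℕ, ∀ n k : ℕ, 1 ≤ k → 2 * k ≤ n →
    ∃ L : List (Fm (Finset ℕ × ℕ)), F.IsProof (kneser n k) L ∧
      lsize L ≤ 2 ^ (Nat.log 2 (kneser n k).size + 2) ^ C := by
  obtain ⟨M, hM, hW⟩ := qp_zW.exists_lt
  have hd := pl_kneserCost hM pl_D pl_k
  have ht := qp_zT hM
  have hK : QP kl (fun _ => F.K) := QP.const _
  obtain ⟨C, hC⟩ := (hd.add (PL.const 1)).two_pow.mul
    (((hK.mul (ht.add (QP.const 1))).add (QP.const 3)).mul ((hd.add (PL.const 3)).qp.mul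
      (hK.mul ((((hd.add (PL.const 2)).qp.mul (ht.add (QP.const 2))).add
        (hK.mul (ht.add (QP.const 1)))).add (QP.const 2)))))
  refine ⟨C, fun n k hk h2k => ?_⟩
  obtain ⟨L, h1, h2⟩ := (kneser_pb F hk h2k (M := M ⟨(n, k), hk, h2k⟩) (D := kD k) rfl
    (hW ⟨(n, k), hk, h2k⟩)).isProof
  exact ⟨L, h1, h2.trans (hC ⟨(n, k), hk, h2k⟩)⟩

end FregeEF
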