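import Pool.Agent.Work.MP_c07f0d_lc.Tucker2

/-!
# The labelling given by a colouring
-/

namespace FregeEF

/-- The variables of the Kneser tautologies: `(S, c)` says that the vertex `S` has colour `c`. -/
abbrev KVar := Finset ℕ × ℕ

variable {F : FregeSystem} {t S : ℕ}

/-- The points of `A` of sign `s`. -/
def side (pts : List ℕ) (A : Finset Ltr) (s : Bool) : Finset ℕ :=
  ((A.filter fun x => x.2 = s).image fun x => pts.getD x.1 0) ∩ pts.toFinset

/-- The `k`-subsets of both sides. -/
def subs (pts : List ℕ) (k : ℕ) (A : Finset Ltr) : Finset (Finset ℕ) :=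
  (side pts A true).powersetCard k ∪ (side pts A false).powersetCard k

/-- Some set of the family has the colour `c`. -/
noncomputable def hasCol (X : Finset (Finset ℕ)) (c : ℕ) : Fm KVar :=
  bigOr (X.toList.map fun S => .var (S, c))

/-- For each colour: some `k`-subset of one of the sides has it. -/
noncomputable def colL (pts cols : List ℕ) (k : ℕ) (A : Finset Ltr) : List (Fm KVar) :=
  cols.map fun c => hasCol (subs pts k A) c

open Classical in
/-- The sign of the element of least coordinate. -/
noncomputable def sgnSet (A : Finset Ltr) : Bool := decide (∃ c, (c, true) ∈ A ∧ ∀ x ∈ A, c ≤ x.1)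

/-- The labelling. -/
noncomputable def klab (pts cols : List ℕ) (k : ℕ) (A : Finset Ltr) (x : Lbl) : Fm KVar :=
  if A.card ≤ 2 * k - 2 then cst (decide (x.2 + 1 = A.card ∧ x.1 = sgnSet A))
  else if x.2 < 2 * k - 2 then .bot
  else .and (hasCol ((side pts A x.1).powersetCard k) (cols.getD (x.2 - (2 * k - 2)) 0))
    (lastF (colL pts cols k A) (x.2 - (2 * k - 2)))

theorem side_subset (pts : List ℕ) (A : Finset Ltr) (s : Bool) : side pts A s ⊆ pts.toFinset :=
  Finset.inter_subset_right

theorem mem_side {pts : List ℕ} {A : Finset Ltr} {s : Bool} {p : ℕ} :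
    p ∈ side pts A s ↔ (∃ c, (c, s) ∈ A ∧ pts.getD c 0 = p) ∧ p ∈ pts := by
  simp only [side, Finset.mem_inter, Finset.mem_image, Finset.mem_filter, List.mem_toFinset]
  refine and_congr_left fun _ => ?_
  constructor
  · rintro ⟨x, ⟨h1, h2⟩, h3⟩
    exact ⟨x.1, by rw [← h2]; exact h1, h3⟩
  · rintro ⟨c, h1, h2⟩
    exact ⟨(c, s), ⟨h1, rfl⟩, h2⟩

theorem side_negSet (pts : List ℕ) (A : Finset Ltr) (s : Bool) :
    side pts (negSet A) s = side pts A (!s) := by
  ext p
  rw [mem_side, mem_side]
  refine and_congr_left fun _ => ?_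
  refine exists_congr fun c => and_congr_left fun _ => ?_
  simp only [negSet, Finset.mem_image]
  constructor
  · rintro ⟨x, hx, h⟩
    have : x = (c, !s) := by rw [← Ltr.neg_neg x, h]; rfl
    rw [← this]; exact hx
  · intro h
    exact ⟨_, h, by simp [Ltr.neg]⟩

theorem subs_negSet (pts : List ℕ) (k : ℕ) (A : Finset Ltr) :
    subs pts k (negSet A) = subs pts k A := by
  unfold subs
  rw [side_negSet, side_negSet, Bool.not_true, Bool.not_false, Finset.union_comm]

theorem colL_negSet (pts cols : List ℕ) (k : ℕ) (A : Finset Ltr) :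
    colL pts cols k (negSet A) = colL pts cols k A := by
  unfold colL
  rw [subs_negSet]

theorem card_negSet (A : Finset Ltr) : (negSet A).card = A.card := by
  unfold negSet
  refine Finset.card_image_of_injective _ ?_
  intro x y h
  rw [← Ltr.neg_neg x, h, Ltr.neg_neg]

theorem getD_inj {pts : List ℕ} (hnd : pts.Nodup) {c c' : ℕ} (hc : c < pts.length)
    (hc' : c' < pts.length) (h : pts.getD c 0 = pts.getD c' 0) : c = c' := by
  rw [List.getD_eq_getElem?_getD, List.getElem?_eq_getElem hc, List.getD_eq_getElem?_getD,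
    List.getElem?_eq_getElem hc'] at h
  simp only [Option.getD_some] at h
  exact (List.Nodup.getElem_inj_iff hnd).1 h

theorem getD_mem' {pts : List ℕ} {c : ℕ} (hc : c < pts.length) : pts.getD c 0 ∈ pts := by
  rw [List.getD_eq_getElem?_getD, List.getElem?_eq_getElem hc]
  exact List.getElem_mem hc

theorem side_disjoint {pts : List ℕ} (hnd : pts.Nodup) {A : Finset Ltr} (hA : GoodSet pts.length A)
    (s : Bool) : Disjoint (side pts A s) (side pts A (!s)) := by
  rw [Finset.disjoint_left]
  intro p h1 h2
  rw [mem_side] at h1 h2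
  obtain ⟨⟨c, hc, hcp⟩, _⟩ := h1
  obtain ⟨⟨c', hc', hcp'⟩, _⟩ := h2
  have : c = c' := getD_inj hnd (hA.2.1 _ hc) (hA.2.1 _ hc') (hcp.trans hcp'.symm)
  subst this
  cases s
  · exact hA.2.2 c ⟨hc', hc⟩
  · exact hA.2.2 c ⟨hc, hc'⟩

theorem card_side_add {pts : List ℕ} (hnd : pts.Nodup) {A : Finset Ltr}
    (hA : GoodSet pts.length A) : (side pts A true).card + (side pts A false).card = A.card := by
  have key : ∀ s, (side pts A s).card = (A.filter fun x => x.2 = s).card := by
    intro s
    have e : side pts A s = (A.filter fun x => x.2 = s).image fun x => pts.getD x.1 0 := by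
      unfold side
      rw [Finset.inter_eq_left]
      intro p hp
      obtain ⟨x, hx, rfl⟩ := Finset.mem_image.1 hp
      rw [List.mem_toFinset]
      exact getD_mem' (hA.2.1 x (Finset.mem_filter.1 hx).1)
    rw [e]
    refine Finset.card_image_of_injOn ?_
    intro x hx y hy hxy
    have hx' := Finset.mem_filter.1 (Finset.mem_coe.1 hx)
    have hy' := Finset.mem_filter.1 (Finset.mem_coe.1 hy)
    exact Prod.ext (getD_inj hnd (hA.2.1 x hx'.1) (hA.2.1 y hy'.1) hxy) (hx'.2.trans hy'.2.symm)
  rw [key, key]
  have h1 : (A.filter fun x => x.2 = false) = A.filter fun x => ¬ x.2 = true := by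
    refine Finset.filter_congr fun x _ => ?_
    cases x.2 <;> simp
  rw [h1]
  exact Finset.card_filter_add_card_filter_not _

theorem good_negSet {r : ℕ} {A : Finset Ltr} (hA : GoodSet r A) : GoodSet r (negSet A) := by
  refine ⟨?_, ?_, ?_⟩
  · exact hA.1.image _
  · intro x hx
    obtain ⟨y, hy, rfl⟩ := Finset.mem_image.1 hx
    exact hA.2.1 y hy
  · rintro c ⟨h1, h2⟩
    obtain ⟨y, hy, h3⟩ := Finset.mem_image.1 h1
    obtain ⟨z, hz, h4⟩ := Finset.mem_image.1 h2
    have e1 : y = (c, false) := by rw [← Ltr.neg_neg y, h3]; rfl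
    have e2 : z = (c, true) := by rw [← Ltr.neg_neg z, h4]; rfl
    subst e1 e2
    exact hA.2.2 c ⟨hz, hy⟩

theorem sgnSet_iff (A : Finset Ltr) :
    sgnSet A = true ↔ ∃ c, (c, true) ∈ A ∧ ∀ x ∈ A, c ≤ x.1 := by
  simp [sgnSet]

theorem sgnSet_neg {r : ℕ} {A : Finset Ltr} (hA : GoodSet r A) :
    sgnSet (negSet A) = !sgnSet A := by
  -- the least coordinate
  obtain ⟨a, ha, hmin⟩ := Finset.exists_min_image A (fun x => x.1) hA.1
  have h1 : ∀ c s, (c, s) ∈ negSet A ↔ (c, !s) ∈ A := by
    intro c s
    simp only [negSet, Finset.mem_image]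
    constructor
    · rintro ⟨x, hx, h⟩
      have : x = (c, !s) := by rw [← Ltr.neg_neg x, h]; rfl
      rw [← this]; exact hx
    · intro h
      exact ⟨_, h, by simp [Ltr.neg]⟩
  have h2 : ∀ c, (∀ x ∈ negSet A, c ≤ x.1) ↔ ∀ x ∈ A, c ≤ x.1 := by
    intro c
    simp only [negSet, Finset.mem_image, forall_exists_index, and_imp, forall_apply_eq_imp_iff₂,
      Ltr.neg]
  have h3 : ∀ s, (∃ c, (c, s) ∈ A ∧ ∀ x ∈ A, c ≤ x.1) ↔ a.2 = s := by
    intro s
    constructor
    · rintro ⟨c, hc, hc2⟩
      have e : c = a.1 := le_antisymm (hc2 a ha) (hmin _ hc)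
      by_contra hne
      have ha' : (c, a.2) ∈ A := by rw [e]; exact ha
      cases s <;> cases h4 : a.2
      · exact hne h4
      · rw [h4] at ha'; exact hA.2.2 c ⟨ha', hc⟩
      · rw [h4] at ha'; exact hA.2.2 c ⟨hc, ha'⟩
      · exact hne h4
    · rintro rfl
      exact ⟨a.1, ha, hmin⟩
  have h4 : sgnSet (negSet A) = true ↔ a.2 = false := by
    rw [sgnSet_iff, ← h3 false]
    refine exists_congr fun c => ?_
    rw [h1, h2]
    rfl
  have h5 : sgnSet A = true ↔ a.2 = true := by rw [sgnSet_iff, ← h3 true]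
  cases h6 : a.2
  · have h7 : sgnSet (negSet A) = true := h4.2 h6
    have h8 : sgnSet A = false := by
      rw [← Bool.not_eq_true, h5, h6]; simp
    rw [h7, h8]; rfl
  · have h7 : sgnSet (negSet A) = false := by
      rw [← Bool.not_eq_true, h4, h6]; simp
    have h8 : sgnSet A = true := h5.2 h6
    rw [h7, h8]; rfl

/-! ### Sizes -/

theorem size_hasCol_le (X : Finset (Finset ℕ)) (c : ℕ) : (hasCol X c).size ≤ X.card * 2 + 1 := by
  have := size_bigOr_le 1 (X.toList.map fun S => (Fm.var (S, c) : Fm KVar)) (by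
    intro x hx
    obtain ⟨y, _, rfl⟩ := List.mem_map.1 hx
    simp [Fm.size])
  rwa [List.length_map, Finset.length_toList] at this

theorem card_subs_le (pts : List ℕ) (k : ℕ) (A : Finset Ltr) :
    (subs pts k A).card ≤ 2 ^ (pts.length + 1) := by
  have key : ∀ s, ((side pts A s).powersetCard k).card ≤ 2 ^ pts.length := by
    intro s
    calc ((side pts A s).powersetCard k).card = (side pts A s).card.choose k :=
          Finset.card_powersetCard _ _
      _ ≤ 2 ^ (side pts A s).card := Nat.choose_le_two_pow _ _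
      _ ≤ 2 ^ pts.length := Nat.pow_le_pow_right (by omega)
          ((Finset.card_le_card (side_subset pts A s)).trans (List.toFinset_card_le pts))
  have h1 := Finset.card_union_le ((side pts A true).powersetCard k)
    ((side pts A false).powersetCard k)
  have h2 := key true
  have h3 := key false
  unfold subs
  rw [pow_succ]
  omega

theorem card_side_powersetCard_le (pts : List ℕ) (k : ℕ) (A : Finset Ltr) (s : Bool) :
    ((side pts A s).powersetCard k).card ≤ 2 ^ (pts.length + 1) := by
  refine le_trans (Finset.card_le_card ?_) (card_subs_le pts k A)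
  unfold subs
  cases s
  · exact Finset.subset_union_right
  · exact Finset.subset_union_left

/-- Bound for the sizes of the label formulas. -/
def klabSize (r q1 : ℕ) : ℕ :=
  2 * (q1 * (2 ^ (r + 1) * 2 + 2) + 1) + 2 + (2 ^ (r + 1) * 2 + 1) + 3

theorem size_colL_le (pts cols : List ℕ) (k : ℕ) (A : Finset Ltr) :
    (bigOr (colL pts cols k A)).size ≤ cols.length * (2 ^ (pts.length + 1) * 2 + 2) + 1 := by
  have h1 := size_bigOr_le (2 ^ (pts.length + 1) * 2 + 1) (colL pts cols k A) (by
    intro x hx
    obtain ⟨y, _, rfl⟩ := List.mem_map.1 hx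
    have h2 := size_hasCol_le (subs pts k A) y
    have h3 := card_subs_le pts k A
    omega)
  rw [colL, List.length_map] at h1
  exact h1

theorem size_klab_le (pts cols : List ℕ) (k : ℕ) (A : Finset Ltr) (x : Lbl) :
    (klab pts cols k A x).size ≤ klabSize pts.length cols.length := by
  unfold klab klabSize
  split_ifs
  · have := size_cst_le (α := KVar) (decide (x.2 + 1 = A.card ∧ x.1 = sgnSet A))
    omega
  · simp only [Fm.size]; omega
  · have h1 := size_hasCol_le ((side pts A x.1).powersetCard k)
      (cols.getD (x.2 - (2 * k - 2)) 0)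
    have h2 := card_side_powersetCard_le pts k A x.1
    have h3 := size_lastF_le (colL pts cols k A) (x.2 - (2 * k - 2))
    have h4 := size_colL_le pts cols k A
    simp only [Fm.size]
    omega

/-! ### The rules -/

/-- Properties of a colouring of the `k`-subsets of `pts` by the colours `cols` in the game. -/
structure ColRules (F : FregeSystem) (t S : ℕ) (Base : Set (Fm KVar)) (pts cols : List ℕ)
    (k c : ℕ) : Prop where
  color : ∀ X : Finset ℕ, X.card = k → X ⊆ pts.toFinset → ∀ Δ, Base ⊆ Δ →
    Can F t S c Δ (fun Δ' => ∃ j, j < cols.length ∧ Fm.var (X, cols.getD j 0) ∈ Δ')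
  clash : ∀ X Y : Finset ℕ, X.card = k → X ⊆ pts.toFinset → Y.card = k → Y ⊆ pts.toFinset →
    Disjoint X Y → ∀ Δ, Base ⊆ Δ → ∀ j, j < cols.length → Fm.var (X, cols.getD j 0) ∈ Δ →
    Fm.var (Y, cols.getD j 0) ∈ Δ → Can F t S c Δ (fun _ => False)

variable {Base : Set (Fm KVar)} {pts cols : List ℕ} {k c : ℕ}

theorem getD_colL {A : Finset Ltr} {i : ℕ} (hi : i < cols.length) :
    (colL pts cols k A).getD i .bot = hasCol (subs pts k A) (cols.getD i 0) := by
  rw [List.getD_eq_getElem?_getD, List.getD_eq_getElem?_getD,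
    List.getElem?_eq_getElem (by rw [colL, List.length_map]; exact hi),
    List.getElem?_eq_getElem hi]
  simp [colL]

/-- A colour on both sides is impossible. -/
theorem Can.two_sides (hS : F.K * (t + 1) ≤ S) (R : ColRules F t S Base pts cols k c)
    (hnd : pts.Nodup) {A B : Finset Ltr} (hB : GoodSet pts.length B) (s : Bool)
    (hAB : side pts A s ⊆ side pts B s) {i : ℕ} (hi : i < cols.length) {Δ : Set (Fm KVar)}
    (hΔ : Base ⊆ Δ)
    (h1 : hasCol ((side pts A s).powersetCard k) (cols.getD i 0) ∈ Δ)
    (h2 : hasCol ((side pts B (!s)).powersetCard k) (cols.getD i 0) ∈ Δ) :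
    Can F t S (2 * (pts.length + 3) + c) Δ (fun _ => False) := by
  refine Can.weaken (c := (pts.length + 1 + 2) + ((pts.length + 1 + 2) + c)) ?_ (by omega)
  refine (Can.find' hS (pts.length + 1) (by
    rw [Finset.length_toList]; exact card_side_powersetCard_le pts k A s) h1).bind ?_
  rintro Δ1 hΔ1 ⟨X, hX, h3⟩
  refine (Can.find' hS (pts.length + 1) (by
    rw [Finset.length_toList]; exact card_side_powersetCard_le pts k B (!s)) (hΔ1 h2)).bind ?_
  rintro Δ2 hΔ2 ⟨Y, hY, h4⟩
  rw [Finset.mem_toList, Finset.mem_powersetCard] at hX hY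
  refine R.clash X Y hX.2 (hX.1.trans (side_subset _ _ _)) hY.2 (hY.1.trans (side_subset _ _ _))
    ?_ Δ2 (hΔ.trans (hΔ1.trans hΔ2)) i hi (hΔ2 h3) h4
  exact Finset.disjoint_of_subset_left (hX.1.trans hAB)
    (Finset.disjoint_of_subset_right hY.1 (side_disjoint hnd hB s))

/-- The cost of the label rules. -/
def klabCost (r q1 c : ℕ) : ℕ := 10 * (r + 3) + 10 * (q1 + 3) + 2 * c + 20

theorem Can.hasCol_false (hS : F.K * (t + 1) ≤ S) {X : Finset (Finset ℕ)} {Y : Finset ℕ}
    (hY : Y ∈ X) {m : ℕ} (hm : X.card ≤ 2 ^ m) {i : ℕ} {Δ : Set (Fm KVar)}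
    (h1 : Fm.neg (hasCol X i) ∈ Δ) (h2 : Fm.var (Y, i) ∈ Δ) {Q : Set (Fm KVar) → Prop} :
    Can F t S (m + 1) Δ Q :=
  Can.refute' hS m (by rw [Finset.length_toList]; exact hm) h1 (a := Y)
    (Finset.mem_toList.2 hY) h2

theorem labRules (hS : F.K * (t + 1) ≤ S) (R : ColRules F t S Base pts cols k c)
    (hnd : pts.Nodup) (hk : 1 ≤ k) (hr : pts.length = cols.length + (2 * k - 2) + 1)
    (ht : 2 * klabSize pts.length cols.length ≤ t) :
    LabRules F t S Base (klab pts cols k) (cols.length + (2 * k - 2)) pts.length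
      (klabCost pts.length cols.length c) := by
  have hlen2 : cols.length ≤ 2 ^ cols.length := (Nat.lt_two_pow_self).le
  have hll : ∀ A, (colL pts cols k A).length = cols.length := fun A => by
    rw [colL, List.length_map]
  have hcl : ∀ A, 2 * (bigOr (colL pts cols k A)).size + 2 ≤ t := by
    intro A
    have := size_colL_le pts cols k A
    unfold klabSize at ht
    omega
  have hunfold : ∀ (A : Finset Ltr) (x : Lbl), ¬ A.card ≤ 2 * k - 2 → ¬ x.2 < 2 * k - 2 →
      klab pts cols k A x = .and (hasCol ((side pts A x.1).powersetCard k)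
        (cols.getD (x.2 - (2 * k - 2)) 0)) (lastF (colL pts cols k A) (x.2 - (2 * k - 2))) := by
    intro A x h1 h2
    unfold klab
    rw [if_neg h1, if_neg h2]
  have hsmall : ∀ (A : Finset Ltr) (x : Lbl), A.card ≤ 2 * k - 2 →
      klab pts cols k A x = cst (decide (x.2 + 1 = A.card ∧ x.1 = sgnSet A)) := by
    intro A x h1
    unfold klab
    rw [if_pos h1]
  have hbot : ∀ (A : Finset Ltr) (x : Lbl), ¬ A.card ≤ 2 * k - 2 → x.2 < 2 * k - 2 →
      klab pts cols k A x = .bot := by
    intro A x h1 h2
    unfold klab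
    rw [if_neg h1, if_pos h2]
  -- a small set with a wrong label
  have hwrong : ∀ (A : Finset Ltr) (x : Lbl) (Δ : Set (Fm KVar)), A.card ≤ 2 * k - 2 →
      ¬ (x.2 + 1 = A.card ∧ x.1 = sgnSet A) → klab pts cols k A x ∈ Δ →
      Can F t S 0 Δ (fun _ => False) := by
    intro A x Δ h1 h2 h3
    rw [hsmall A x h1, decide_eq_false h2] at h3
    exact Can.close_bot hS h3
  constructor
  · -- existence
    intro A hA Δ hΔ
    by_cases hc : A.card ≤ 2 * k - 2
    · have hpos := Finset.card_pos.2 hA.1
      refine Can.weaken (c := 1) ?_ (by unfold klabCost; omega)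
      refine (Can.query (.bot : Fm KVar) (by
        simp only [Fm.size]; unfold klabSize at ht; omega)).bind (c2 := 0) ?_
      rintro Δ1 _ (h1 | h1)
      · exact Can.close_bot hS h1
      · refine Can.ret ⟨(sgnSet A, A.card - 1), by simp only; omega, ?_⟩
        rw [hsmall A _ hc]
        have : decide (A.card - 1 + 1 = A.card ∧ sgnSet A = sgnSet A) = true := by
          simp; omega
        rw [this]
        exact h1
    · -- a side with `k` elements
      have hsum := card_side_add hnd hA
      have hside : ∃ s, k ≤ (side pts A s).card := by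
        by_contra hcon
        push Not at hcon
        have h1 := hcon true
        have h2 := hcon false
        omega
      obtain ⟨s, hs⟩ := hside
      obtain ⟨X, hX1, hX2⟩ := Finset.exists_subset_card_eq hs
      have hXs : X ∈ subs pts k A := by
        unfold subs
        rw [Finset.mem_union, Finset.mem_powersetCard, Finset.mem_powersetCard]
        cases s
        · exact Or.inr ⟨hX1, hX2⟩
        · exact Or.inl ⟨hX1, hX2⟩
      refine Can.weaken (c := c + (1 + ((cols.length + 3) + ((pts.length + 1 + 2) +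
        (1 + (pts.length + 1 + 2)))) + (pts.length + 3 + cols.length + 3))) ?_
        (by unfold klabCost; omega)
      refine (R.color X hX2 (hX1.trans (side_subset _ _ _)) Δ hΔ).bind ?_
      rintro Δ1 hΔ1 ⟨j, hj, h1⟩
      refine Can.weaken (c := 1 + (((cols.length + 3) + ((pts.length + 1 + 2) +
        (1 + (pts.length + 1 + 2)))) + (pts.length + 3 + cols.length + 3))) ?_ (by omega)
      refine (Can.query (bigOr (colL pts cols k A)) (by have := hcl A; omega)).bind ?_
      rintro Δ2 hΔ2 (h2 | h2)
      · refine Can.weaken (c := (cols.length + 3) + ((pts.length + 1 + 2) +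
          (1 + (pts.length + 1 + 2)))) ?_ (by omega)
        refine (Can.last_exists hS cols.length (by rw [hll]; exact hlen2) (hcl A) h2).bind ?_
        rintro Δ3 hΔ3 ⟨i, hi, h3, h4⟩
        rw [hll] at hi
        rw [getD_colL hi] at h4
        refine (Can.find' hS (pts.length + 1) (by
          rw [Finset.length_toList]; exact card_subs_le pts k A) h4).bind ?_
        rintro Δ4 hΔ4 ⟨Y, hY, h5⟩
        rw [Finset.mem_toList] at hY
        have hY' : ∃ s', Y ∈ (side pts A s').powersetCard k := by
          unfold subs at hY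
          rcases Finset.mem_union.1 hY with hY | hY
          · exact ⟨true, hY⟩
          · exact ⟨false, hY⟩
        obtain ⟨s', hY'⟩ := hY'
        have hxv : ¬ (i + (2 * k - 2)) < 2 * k - 2 := by omega
        refine (Can.query (klab pts cols k A (s', i + (2 * k - 2)))
          ((size_klab_le _ _ _ _ _).trans (by omega))).bind ?_
        rintro Δ5 hΔ5 (h6 | h6)
        · refine (Can.ret ⟨(s', i + (2 * k - 2)), ?_, h6⟩).weaken (by omega)
          simp only; omega
        · rw [hunfold A _ hc hxv] at h6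
          simp only [Nat.add_sub_cancel] at h6
          refine Can.weaken (c := 1 + (pts.length + 1 + 1)) ?_ (by omega)
          refine (Can.querySub (hasCol ((side pts A s').powersetCard k) (cols.getD i 0)) _ h6
            (by simp only [Fm.size]; omega)).bind ?_
          rintro Δ6 hΔ6 (h7 | h7)
          · exact (Can.close_nand hS _ _ (hΔ6 h6) h7
              (hΔ6 (hΔ5 (hΔ4 h3)))).weaken (by omega)
          · exact Can.hasCol_false hS hY' (card_side_powersetCard_le pts k A s') h7
              (hΔ6 (hΔ5 h5))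
      · -- no colour: impossible
        have hmem : hasCol (subs pts k A) (cols.getD j 0) ∈ colL pts cols k A :=
          List.mem_map.2 ⟨cols.getD j 0, getD_mem' hj, rfl⟩
        have hsz := size_mem_bigOr hmem
        refine Can.weaken (c := 1 + (pts.length + 1 + 1 + (cols.length + 1))) ?_ (by omega)
        refine (Can.querySub (hasCol (subs pts k A) (cols.getD j 0)) _ h2 (by
          simp only [Fm.size]; omega)).bind ?_
        rintro Δ3 hΔ3 (h3 | h3)
        · exact (Can.refuteOr hS cols.length (by rw [hll]; exact hlen2) (hΔ3 h2) _ hmem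
            h3).weaken (by omega)
        · exact (Can.hasCol_false hS hXs (card_subs_le pts k A) h3 (hΔ3 (hΔ2 h1))).weaken
            (by omega)
  · -- uniqueness
    intro A hA Δ hΔ x y hx hy hxy h1 h2
    by_cases hc : A.card ≤ 2 * k - 2
    · by_cases hx' : x.2 + 1 = A.card ∧ x.1 = sgnSet A
      · by_cases hy' : y.2 + 1 = A.card ∧ y.1 = sgnSet A
        · exact absurd (Prod.ext (hx'.2.trans hy'.2.symm) (by omega)) hxy
        · exact (hwrong A y Δ hc hy' h2).weaken (by omega)
      · exact (hwrong A x Δ hc hx' h1).weaken (by omega)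
    by_cases hx2 : x.2 < 2 * k - 2
    · rw [hbot A x hc hx2] at h1
      exact (Can.close_bot hS h1).weaken (by omega)
    by_cases hy2 : y.2 < 2 * k - 2
    · rw [hbot A y hc hy2] at h2
      exact (Can.close_bot hS h2).weaken (by omega)
    rw [hunfold A x hc hx2] at h1
    rw [hunfold A y hc hy2] at h2
    refine Can.weaken (c := 2 + (2 + (cols.length + 5 + (2 * (pts.length + 3) + c)))) ?_
      (by unfold klabCost; omega)
    refine (Can.and_elim hS _ _ h1).bind ?_
    rintro Δ1 hΔ1 ⟨h3, h4⟩
    refine (Can.and_elim hS _ _ (hΔ1 h2)).bind ?_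
    rintro Δ2 hΔ2 ⟨h5, h6⟩
    by_cases hij : x.2 - (2 * k - 2) = y.2 - (2 * k - 2)
    · have hv : x.2 = y.2 := by omega
      have hs : y.1 = !x.1 := by
        have : x.1 ≠ y.1 := fun h => hxy (Prod.ext h hv)
        cases h7 : x.1 <;> cases h8 : y.1 <;> simp_all
      rw [← hij, hs] at h5
      exact (Can.two_sides hS R hnd hA x.1 (Finset.Subset.refl _) (by omega)
        (hΔ.trans (hΔ1.trans hΔ2)) (hΔ2 h3) h5).weaken (by omega)
    · exact (Can.last_unique hS cols.length (by rw [hll]; exact hlen2) (hΔ2 h4) h6 hij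
        (by rw [hll]; omega) (by rw [hll]; omega)).weaken (by omega)
  · -- antipodality
    intro A hA Δ hΔ x y hx hy hxy h1 h2
    by_cases hc : A.card ≤ 2 * k - 2
    · by_cases hx' : x.2 + 1 = A.card ∧ x.1 = sgnSet A
      · by_cases hy' : y.2 + 1 = (negSet A).card ∧ y.1 = sgnSet (negSet A)
        · rw [card_negSet, sgnSet_neg hA] at hy'
          refine absurd (Prod.ext ?_ ?_) hxy
          · rw [hy'.2, Lbl.opp, hx'.2]
          · simp only [Lbl.opp]; omega
        · exact (hwrong (negSet A) y Δ (by rw [card_negSet]; exact hc) hy' h2).weaken (by omega)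
      · exact (hwrong A x Δ hc hx' h1).weaken (by omega)
    have hcn : ¬ (negSet A).card ≤ 2 * k - 2 := by rw [card_negSet]; exact hc
    by_cases hx2 : x.2 < 2 * k - 2
    · rw [hbot A x hc hx2] at h1
      exact (Can.close_bot hS h1).weaken (by omega)
    by_cases hy2 : y.2 < 2 * k - 2
    · rw [hbot (negSet A) y hcn hy2] at h2
      exact (Can.close_bot hS h2).weaken (by omega)
    rw [hunfold A x hc hx2] at h1
    rw [hunfold (negSet A) y hcn hy2, colL_negSet, side_negSet] at h2
    refine Can.weaken (c := 2 + (2 + (cols.length + 5 + (2 * (pts.length + 3) + c)))) ?_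
      (by unfold klabCost; omega)
    refine (Can.and_elim hS _ _ h1).bind ?_
    rintro Δ1 hΔ1 ⟨h3, h4⟩
    refine (Can.and_elim hS _ _ (hΔ1 h2)).bind ?_
    rintro Δ2 hΔ2 ⟨h5, h6⟩
    by_cases hij : x.2 - (2 * k - 2) = y.2 - (2 * k - 2)
    · have hv : x.2 = y.2 := by omega
      have hs : y.1 = x.1 := by
        have : y.1 ≠ !x.1 := fun h => hxy (Prod.ext h hv.symm)
        cases h7 : x.1 <;> cases h8 : y.1 <;> simp_all
      rw [← hij, hs] at h5
      exact (Can.two_sides hS R hnd hA x.1 (Finset.Subset.refl _) (by omega)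
        (hΔ.trans (hΔ1.trans hΔ2)) (hΔ2 h3) h5).weaken (by omega)
    · exact (Can.last_unique hS cols.length (by rw [hll]; exact hlen2) (hΔ2 h4) h6 hij
        (by rw [hll]; omega) (by rw [hll]; omega)).weaken (by omega)
  · -- no complementary pairs
    intro A B hA hB hAB Δ hΔ x hx h1 h2
    have hcard := Finset.card_lt_card hAB
    by_cases hc : A.card ≤ 2 * k - 2
    · by_cases hx' : x.2 + 1 = A.card ∧ x.1 = sgnSet A
      · by_cases hcB : B.card ≤ 2 * k - 2
        · refine (hwrong B x.opp Δ hcB ?_ h2).weaken (by omega)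
          rintro ⟨h3, _⟩
          simp only [Lbl.opp] at h3
          omega
        · rw [hbot B x.opp hcB (by simp only [Lbl.opp]; omega)] at h2
          exact (Can.close_bot hS h2).weaken (by omega)
      · exact (hwrong A x Δ hc hx' h1).weaken (by omega)
    have hcB : ¬ B.card ≤ 2 * k - 2 := by omega
    by_cases hx2 : x.2 < 2 * k - 2
    · rw [hbot A x hc hx2] at h1
      exact (Can.close_bot hS h1).weaken (by omega)
    rw [hunfold A x hc hx2] at h1
    rw [hunfold B x.opp hcB (by simp only [Lbl.opp]; exact hx2)] at h2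
    simp only [Lbl.opp] at h2
    refine Can.weaken (c := 2 + (2 + (2 * (pts.length + 3) + c))) ?_ (by unfold klabCost; omega)
    refine (Can.and_elim hS _ _ h1).bind ?_
    rintro Δ1 hΔ1 ⟨h3, _⟩
    refine (Can.and_elim hS _ _ (hΔ1 h2)).bind ?_
    rintro Δ2 hΔ2 ⟨h5, _⟩
    refine Can.two_sides hS R hnd hB x.1 ?_ (by omega) (hΔ.trans (hΔ1.trans hΔ2)) (hΔ2 h3) h5
    intro p hp
    rw [mem_side] at hp ⊢
    obtain ⟨⟨c', h6, h7⟩, h8⟩ := hp
    exact ⟨⟨c', hAB.1 h6, h7⟩, h8⟩

/-- There is no proper colouring of the `k`-subsets of `pts` with fewer than `|pts| - 2k + 2`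
colours. -/
theorem Can.kneser_small (hS : F.K * (t + 1) ≤ S) (R : ColRules F t S Base pts cols k c)
    (hnd : pts.Nodup) (hk : 1 ≤ k) (hr : pts.length = cols.length + (2 * k - 2) + 1)
    (ht : 2 * klabSize pts.length cols.length ≤ t)
    (ht' : tuckSize (cols.length + (2 * k - 2)) pts.length (klabSize pts.length cols.length) ≤ t)
    {Γ : Set (Fm KVar)} (hΓ : Base ⊆ Γ) :
    Can F t S (tuckCost pts.length (2 * pts.length) (klabCost pts.length cols.length c)) Γ
      (fun _ => False) := by
  refine Can.tucker hS (labRules hS R hnd hk hr ht) (m := 2 * pts.length) ?_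
    (fun A x => size_klab_le pts cols k A x) ht' (by omega) hΓ
  calc 2 * (cols.length + (2 * k - 2)) ≤ 2 * pts.length := by omega
    _ ≤ 2 ^ (2 * pts.length) := (Nat.lt_two_pow_self).le

end FregeEF
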