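import Pool.Agent.Work.MP_c07f0d_lc.Kernel2
import Pool.Agent.Work.MP_c07f0d_lc.Asym

/-!
# Sizes for the kernelization, and the final parameters
-/

namespace FregeEF

variable {F : FregeSystem} {n k D V T P : ℕ}

theorem conjF_eq {α : Type} (l : List (Fm α)) : conjF l = conj l := by
  induction l with
  | nil => rfl
  | cons a l ih => simp only [conjF, conj, ih]

theorem disjF_eq {α : Type} (l : List (Fm α)) : disjF l = bigOr l := by
  induction l with
  | nil => rfl
  | cons a l ih => simp only [disjF, bigOr, ih]

theorem kneser_eq (n k : ℕ) : kneser n k = .imp (conj (vL n k)) (bigOr (eL n k)) := by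
  unfold kneser vL eL nc
  simp only [conjF_eq, disjF_eq]

theorem length_le_size_bigOr {α : Type} (l : List (Fm α)) : l.length ≤ (bigOr l).size := by
  induction l with
  | nil => simp
  | cons a l ih => simp only [bigOr, Fm.size, List.length_cons]; omega

/-- The size bounds. -/
def zA2 (n V : ℕ) : ℕ := n * (V * 2 + 3) + 1
def zA4 (n c V : ℕ) : ℕ := c * (2 * zA2 n V + 3) + 1
def zA5 (k T : ℕ) : ℕ := T * ((k + 1) * 2 + 3) + 1
def zA7 (k c T : ℕ) : ℕ := c * T * (2 * zA5 k T + 3) + 1
def zA8 (k n c T : ℕ) : ℕ := n * (zA7 k c T + 1) + 1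
def zA9 (k c D T P : ℕ) : ℕ := P * (D * (zA7 k c T + 1) + 3) + 1
def zA11 (k c D T P : ℕ) : ℕ := P * T * ((2 * zA9 k c D T P + 2) + (2 * zA5 k T + 2) + 2) + 1
def zB (n k c D V T P : ℕ) : ℕ :=
  (2 * zA2 n V + 2) + 1 + (1 + (1 + zA4 n c V) + zA11 k c D T P)
def zS (n c V : ℕ) : ℕ := c * (zA2 n V + 2) + 1

theorem size_star_le (i z : ℕ) : (star n k i z).size ≤ (verts n k).length * 2 + 2 := by
  have h := size_bigOr_le 1 (((verts n k).filter fun X => z ∉ X).map fun X => (.var (X, i) : Fm KVar))
    (by
      intro x hx
      obtain ⟨y, _, rfl⟩ := List.mem_map.1 hx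
      simp [Fm.size])
  have h2 := List.length_filter_le (fun X => decide (z ∉ X)) (verts n k)
  unfold star
  simp only [Fm.size]
  rw [List.length_map] at h
  have : ((verts n k).filter fun X => decide (z ∉ X)).length * (1 + 1) ≤
      (verts n k).length * (1 + 1) := Nat.mul_le_mul_right _ h2
  omega

theorem size_cenL_le (i : ℕ) : (bigOr (cenL n k i)).size ≤ zA2 n (verts n k).length := by
  have h := size_bigOr_le ((verts n k).length * 2 + 2) (cenL n k i) (by
    intro x hx
    obtain ⟨y, _, rfl⟩ := List.mem_map.1 hx
    exact size_star_le i y)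
  rw [cenL, List.length_map, List.length_range] at h
  rw [zA2]
  exact h

theorem size_cen_le (i z : ℕ) : (cen n k i z).size ≤ 2 * zA2 n (verts n k).length + 2 := by
  have h := size_lastF_le (cenL n k i) z
  have h2 := size_cenL_le (n := n) (k := k) i
  unfold cen
  omega

theorem size_centre_le (x : ℕ) : (centre n k x).size ≤ zA4 n (nc n k) (verts n k).length := by
  have h := size_bigOr_le (2 * zA2 n (verts n k).length + 2)
    ((List.range (nc n k)).map fun i => cen n k i x) (by
      intro y hy
      obtain ⟨i, _, rfl⟩ := List.mem_map.1 hy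
      exact size_cen_le i x)
  rw [List.length_map, List.length_range] at h
  exact h

theorem size_tupL_le (i : ℕ) : (bigOr (tupL n k i)).size ≤ zA5 k (vtup n k).length := by
  have h := size_bigOr_le ((k + 1) * 2 + 2) (tupL n k i) (by
    intro x hx
    obtain ⟨s, hs, rfl⟩ := List.mem_map.1 hx
    have h1 := size_conj_le 1 (s.map fun X => (.var (X, i) : Fm KVar)) (by
      intro y hy
      obtain ⟨z, _, rfl⟩ := List.mem_map.1 hy
      simp [Fm.size])
    have h2 : s.length = k + 1 := (mem_allTup.1 (List.mem_filter.1 hs).1).1
    rw [List.length_map, h2] at h1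
    exact h1)
  rw [tupL, List.length_map] at h
  rw [zA5]
  exact h

theorem size_tup_le (i j : ℕ) : (tup n k i j).size ≤ 2 * zA5 k (vtup n k).length + 2 := by
  have h := size_lastF_le (tupL n k i) j
  have h2 := size_tupL_le (n := n) (k := k) i
  unfold tup
  omega

theorem length_product {β γ : Type} (l : List β) (l' : List γ) :
    (List.product l l').length = l.length * l'.length := by
  induction l with
  | nil => simp [List.product]
  | cons a l ih => simp [List.product, Nat.succ_mul, Nat.add_comm] at ih ⊢

theorem size_Hf_le (x y : ℕ) : (Hf n k x y).size ≤ zA7 k (nc n k) (vtup n k).length := by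
  unfold Hf
  split_ifs with hxy
  · simp [Fm.size, zA7]
  · have h := size_bigOr_le (2 * zA5 k (vtup n k).length + 2)
      (((List.product (List.range (nc n k)) (List.range (vtup n k).length)).filter fun p =>
        x ∈ flat n k p.2 ∧ y ∈ flat n k p.2).map fun p => tup n k p.1 p.2) (by
        intro z hz
        obtain ⟨p, _, rfl⟩ := List.mem_map.1 hz
        exact size_tup_le _ _)
    refine h.trans ?_
    rw [List.length_map, zA7]
    refine Nat.add_le_add_right (Nat.mul_le_mul_right _ ?_) _
    refine (List.length_filter_le _ _).trans ?_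
    rw [length_product, List.length_range, List.length_range]

theorem size_zH_le (x : ℕ) (N : Finset ℕ) :
    (bigOr (((List.range n).filter fun y => y ∉ N).map (Hf n k x))).size ≤
      zA8 k n (nc n k) (vtup n k).length := by
  have h := size_bigOr_le (zA7 k (nc n k) (vtup n k).length)
    (((List.range n).filter fun y => y ∉ N).map (Hf n k x)) (by
      intro z hz
      obtain ⟨p, _, rfl⟩ := List.mem_map.1 hz
      exact size_Hf_le _ _)
  refine h.trans ?_
  rw [List.length_map, zA8]
  refine Nat.add_le_add_right (Nat.mul_le_mul_right _ ?_) _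
  refine (List.length_filter_le _ _).trans ?_
  rw [List.length_range]

theorem size_zs_le (N : Finset ℕ) :
    (bigOr (((List.range (nc n k)).filter fun i => i ∉ N).map
      fun i => .neg (bigOr (cenL n k i)))).size ≤ zS n (nc n k) (verts n k).length := by
  have h := size_bigOr_le (zA2 n (verts n k).length + 1)
    (((List.range (nc n k)).filter fun i => i ∉ N).map
      fun i => .neg (bigOr (cenL n k i))) (by
      intro z hz
      obtain ⟨p, _, rfl⟩ := List.mem_map.1 hz
      have := size_cenL_le (n := n) (k := k) p
      simp only [Fm.size]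
      omega)
  refine h.trans ?_
  rw [List.length_map, zS]
  refine Nat.add_le_add_right (Nat.mul_le_mul_right _ ?_) _
  refine (List.length_filter_le _ _).trans ?_
  rw [List.length_range]

theorem size_nbL_le (x : ℕ) : (bigOr (nbL n k D x)).size ≤
    zA9 k (nc n k) D (vtup n k).length (ntup n D).length := by
  have h := size_bigOr_le (D * (zA7 k (nc n k) (vtup n k).length + 1) + 2) (nbL n k D x) (by
    intro z hz
    obtain ⟨ys, hys, rfl⟩ := List.mem_map.1 hz
    have h1 := size_conj_le (zA7 k (nc n k) (vtup n k).length) (ys.map fun y => Hf n k x y) (by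
      intro y hy
      obtain ⟨z, _, rfl⟩ := List.mem_map.1 hy
      exact size_Hf_le _ _)
    have h2 : ys.length = D := (mem_allTup.1 (List.mem_filter.1 hys).1).1
    rw [List.length_map, h2] at h1
    exact h1)
  rw [nbL, List.length_map] at h
  rw [zA9]
  exact h

theorem size_nb_le (x a : ℕ) : (nb n k D x a).size ≤
    2 * zA9 k (nc n k) D (vtup n k).length (ntup n D).length + 2 := by
  have h := size_lastF_le (nbL n k D x) a
  have h2 := size_nbL_le (n := n) (k := k) (D := D) x
  unfold nb
  omega

theorem size_relL_le (x j i sl : ℕ) : (bigOr (relL n k D x j i sl)).size ≤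
    zA11 k (nc n k) D (vtup n k).length (ntup n D).length := by
  have h := size_bigOr_le ((2 * zA9 k (nc n k) D (vtup n k).length (ntup n D).length + 2) +
    (2 * zA5 k (vtup n k).length + 2) + 1) (relL n k D x j i sl) (by
    intro z hz
    obtain ⟨p, _, rfl⟩ := List.mem_map.1 hz
    have h1 := size_nb_le (n := n) (k := k) (D := D) x p.1
    have h2 := size_tup_le (n := n) (k := k) i p.2
    simp only [Fm.size]
    omega)
  refine h.trans ?_
  rw [relL, List.length_map, zA11]
  refine Nat.add_le_add_right (Nat.mul_le_mul_right _ ?_) _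
  refine (List.length_filter_le _ _).trans ?_
  rw [length_product, List.length_range, List.length_range]

theorem size_rel_le (p p' : ℕ × ℕ) : (rel n k D p p').size ≤
    zB n k (nc n k) D (verts n k).length (vtup n k).length (ntup n D).length := by
  have h1 := size_relL_le (n := n) (k := k) (D := D) p.1 p.2 p'.1 p'.2
  have h2 := size_centre_le (n := n) (k := k) p.1
  have h3 := size_cen_le (n := n) (k := k) p'.1 p.1
  unfold rel
  simp only [Fm.size, zB]
  split_ifs
  · omega
  · simp only [Fm.size]; omega

/-- The final bound for the sizes of the formulas. -/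
noncomputable def zT (n k D M s : ℕ) : ℕ :=
  s + (2 * zA2 n (verts n k).length + 2) + (2 * zA5 k (vtup n k).length + 2) +
    zA4 n (nc n k) (verts n k).length + zA8 k n (nc n k) (vtup n k).length +
    zS n (nc n k) (verts n k).length +
    (2 * zA9 k (nc n k) D (vtup n k).length (ntup n D).length + 2) +
    phSize (n * D) (nc n k * D)
      (zB n k (nc n k) D (verts n k).length (vtup n k).length (ntup n D).length) M +
    2 * klabSize (2 * (k * D) + (2 * k - 2) + 1) (2 * (k * D)) +
    tuckSize (2 * (k * D) + (2 * k - 2)) (2 * (k * D) + (2 * k - 2) + 1)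
      (klabSize (2 * (k * D) + (2 * k - 2) + 1) (2 * (k * D)))

/-- The sum of all lengths. -/
noncomputable def zW (n k D : ℕ) : ℕ :=
  (verts n k).length + (eL n k).length + n + nc n k + (vtup n k).length + (ntup n D).length +
    nc n k * (vtup n k).length + (ntup n D).length * (vtup n k).length + D + (k + 1) + n * D

theorem kHyp_main (F : FregeSystem) (hk : 1 ≤ k) (h2k : 2 * k ≤ n) {M s : ℕ}
    (hD : D = 2 * ((k + 1) * k) ^ 2) (hW : zW n k D < 2 ^ M) :
    KHyp F n k D M
      (zB n k (nc n k) D (verts n k).length (vtup n k).length (ntup n D).length)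
      (zT n k D M s) (F.K * (zT n k D M s + 1)) where
  hS := le_rfl
  hk := hk
  h2k := h2k
  hD := hD
  lv := by unfold zW at hW; omega
  le := by unfold zW at hW; omega
  ln := by unfold zW at hW; omega
  lc := by unfold zW at hW; omega
  lt := by unfold zW at hW; omega
  lnt := by unfold zW at hW; omega
  lH := by unfold zW at hW; omega
  lp := by unfold zW at hW; omega
  lD := by unfold zW at hW; omega
  lk := by unfold zW at hW; omega
  lph := by unfold zW at hW; omega
  zc := fun i => by
    have := size_cenL_le (n := n) (k := k) i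
    unfold zT; omega
  zt := fun i => by
    have := size_tupL_le (n := n) (k := k) i
    unfold zT; omega
  zce := fun i => by
    have := size_centre_le (n := n) (k := k) i
    unfold zT; omega
  zH := fun x N => by
    have := size_zH_le (n := n) (k := k) x N
    unfold zT; omega
  zs := fun N => by
    have := size_zs_le (n := n) (k := k) N
    unfold zT; omega
  zn := fun x => by
    have := size_nbL_le (n := n) (k := k) (D := D) x
    unfold zT; omega
  zB := fun p p' => size_rel_le p p'
  zB' := fun i z => by
    have := size_cen_le (n := n) (k := k) i z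
    unfold FregeEF.zB; omega
  zph := by unfold zT; omega

theorem kneser_pb (F : FregeSystem) (hk : 1 ≤ k) (h2k : 2 * k ≤ n) {M : ℕ}
    (hD : D = 2 * ((k + 1) * k) ^ 2) (hW : zW n k D < 2 ^ M) :
    F.PB (kneser n k) (2 ^ (kneserCost M D k + 1) *
      ((F.K * (zT n k D M (kneser n k).size + 1) + 3) * ((kneserCost M D k + 3) *
        (F.K * ((kneserCost M D k + 2) * (zT n k D M (kneser n k).size + 2) +
          F.K * (zT n k D M (kneser n k).size + 1) + 2))))) := by
  refine Ref.pb (by unfold zT; omega) ?_
  have := (kHyp_main F hk h2k (M := M) (s := (kneser n k).size) hD hW).kneser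
    (by unfold zT; omega) (by unfold zT; omega)
  rw [← kneser_eq] at this
  exact this

end FregeEF
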