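import Mathlib.Data.Finset.Powerset
import Mathlib.Data.List.ProdSigma
import Pool.Agent.Work.MP_c07f0d_lc.Defs

/-!
# The Kneser-Lovász tautologies
-/

namespace FregeEF

/-- Conjunction of a list of formulas. -/
def conjF {α : Type} : List (Fm α) → Fm α
  | [] => .neg .bot
  | φ :: l => .and φ (conjF l)

/-- Disjunction of a list of formulas. -/
def disjF {α : Type} : List (Fm α) → Fm α
  | [] => .bot
  | φ :: l => .or φ (disjF l)

/-- The vertices of the Kneser graph: the `k`-element subsets of `{0, …, n - 1}`. -/
noncomputable def verts (n k : ℕ) : List (Finset ℕ) := ((Finset.range n).powersetCard k).toList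

/-- The Kneser-Lovász tautology for `n` and `k`, saying that the Kneser graph of the `k`-subsets of
an `n`-element set has no proper colouring with `n - 2k + 1` colours.  The variable `(X, c)` says
that the vertex `X` has colour `c`: if every vertex has at least one of the colours
`0, …, n - 2k`, then there are two disjoint vertices with a common colour. -/
noncomputable def kneser (n k : ℕ) : Fm (Finset ℕ × ℕ) :=
  .imp
    (conjF ((verts n k).map fun X => disjF ((List.range (n - 2 * k + 1)).map fun c => .var (X, c))))
    (disjF (((List.product (verts n k) (verts n k)).filter fun p => Disjoint p.1 p.2).flatMap fun p =>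
      (List.range (n - 2 * k + 1)).map fun c => .and (.var (p.1, c)) (.var (p.2, c))))

end FregeEF
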