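import Pool.Agent.Work.MP_c07f0d_lc.KLab
import Pool.Agent.Work.MP_c07f0d_lc.Count
import Pool.Agent.Work.MP_c07f0d_lc.KneserDefs

/-!
# Kernelization of the Kneser-Lovász tautologies: definitions and basic strategies
-/

namespace FregeEF

variable {F : FregeSystem} {t S : ℕ}

/-- The number of colours. -/
def nc (n k : ℕ) : ℕ := n - 2 * k + 1

/-- All lists of length `m` with entries in `l`. -/
def allTup {β : Type} (l : List β) : ℕ → List (List β)
  | 0 => [[]]
  | m + 1 => l.flatMap fun a => (allTup l m).map (a :: ·)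

theorem length_allTup {β : Type} (l : List β) (m : ℕ) :
    (allTup l m).length = l.length ^ m := by
  induction m with
  | zero => rfl
  | succ m ih =>
    rw [allTup, List.length_flatMap]
    simp only [List.length_map, ih]
    rw [List.map_const', List.sum_replicate, smul_eq_mul, pow_succ, mul_comm]

theorem mem_allTup {β : Type} {l : List β} {m : ℕ} {s : List β} :
    s ∈ allTup l m ↔ s.length = m ∧ ∀ a ∈ s, a ∈ l := by
  induction m generalizing s with
  | zero =>
    simp only [allTup, List.mem_cons, List.not_mem_nil, or_false]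
    constructor
    · rintro rfl; simp
    · rintro ⟨h, _⟩; exact List.length_eq_zero_iff.1 h
  | succ m ih =>
    simp only [allTup, List.mem_flatMap, List.mem_map]
    constructor
    · rintro ⟨a, ha, s', hs', rfl⟩
      obtain ⟨h1, h2⟩ := ih.1 hs'
      refine ⟨by simp [h1], ?_⟩
      intro b hb
      rcases List.mem_cons.1 hb with rfl | hb
      · exact ha
      · exact h2 b hb
    · rintro ⟨h1, h2⟩
      cases s with
      | nil => simp at h1
      | cons a s =>
        exact ⟨a, h2 a (by simp), s, ih.2 ⟨by simpa using h1, fun b hb => h2 b (by simp [hb])⟩, rfl⟩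

/-- The formulas for the vertices. -/
noncomputable def vL (n k : ℕ) : List (Fm KVar) :=
  (verts n k).map fun X => bigOr ((List.range (nc n k)).map fun c => .var (X, c))

/-- The formulas for the edges. -/
noncomputable def eL (n k : ℕ) : List (Fm KVar) :=
  ((List.product (verts n k) (verts n k)).filter fun p => Disjoint p.1 p.2).flatMap fun p =>
      (List.range (nc n k)).map fun c => .and (.var (p.1, c)) (.var (p.2, c))

/-- The basic facts. -/
def KBase (n k : ℕ) : Set (Fm KVar) := {conj (vL n k), .neg (bigOr (eL n k))}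

/-- All members of colour `i` contain `z`. -/
noncomputable def star (n k i z : ℕ) : Fm KVar :=
  .neg (bigOr (((verts n k).filter fun X => z ∉ X).map fun X => .var (X, i)))

/-- The possible centres of the colour `i`. -/
noncomputable def cenL (n k i : ℕ) : List (Fm KVar) := (List.range n).map (star n k i)

/-- `z` is the last centre of the colour `i`. -/
noncomputable def cen (n k i z : ℕ) : Fm KVar := lastF (cenL n k i) z

/-- `x` is the last centre of some colour. -/
noncomputable def centre (n k x : ℕ) : Fm KVar :=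
  bigOr ((List.range (nc n k)).map fun i => cen n k i x)

/-- Tuples of `k + 1` vertices with empty intersection. -/
noncomputable def vtup (n k : ℕ) : List (List (Finset ℕ)) :=
  (allTup (verts n k) (k + 1)).filter fun s => ∀ z ∈ List.range n, ∃ X ∈ s, z ∉ X

/-- For each such tuple: all members have colour `i`. -/
noncomputable def tupL (n k i : ℕ) : List (Fm KVar) :=
  (vtup n k).map fun s => conj (s.map fun X => .var (X, i))

/-- `j` is the last tuple of members of colour `i`. -/
noncomputable def tup (n k i j : ℕ) : Fm KVar := lastF (tupL n k i) j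

/-- The tuple number `j`, as a list of points. -/
noncomputable def flat (n k j : ℕ) : List ℕ :=
  ((vtup n k).getD j []).flatMap fun X => X.toList

/-- Both points occur in the last tuple of some colour. -/
noncomputable def Hf (n k x y : ℕ) : Fm KVar :=
  if x = y then .bot else
  bigOr (((List.product (List.range (nc n k)) (List.range (vtup n k).length)).filter fun p =>
    x ∈ flat n k p.2 ∧ y ∈ flat n k p.2).map fun p => tup n k p.1 p.2)

/-- Tuples of `D` distinct points. -/
def ntup (n D : ℕ) : List (List ℕ) := (allTup (List.range n) D).filter fun y => y.Nodup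

/-- For each tuple: all its entries are neighbours of `x`. -/
noncomputable def nbL (n k D x : ℕ) : List (Fm KVar) :=
  (ntup n D).map fun ys => conj (ys.map fun y => Hf n k x y)

/-- `a` is the last tuple of neighbours of `x`. -/
noncomputable def nb (n k D x a : ℕ) : Fm KVar := lastF (nbL n k D x) a

/-- The code of a pair of points of the tuple number `j`. -/
noncomputable def code (n k j x y : ℕ) : ℕ :=
  (flat n k j).idxOf x * ((k + 1) * k) + (flat n k j).idxOf y

/-- The formulas for the pairs of a tuple of neighbours of `x` and a tuple of vertices, such that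
the `j`-th neighbour and `x` have the code `sl`. -/
noncomputable def relL (n k D x j i sl : ℕ) : List (Fm KVar) :=
  ((List.product (List.range (ntup n D).length) (List.range (vtup n k).length)).filter fun p =>
    x ∈ flat n k p.2 ∧ ((ntup n D).getD p.1 []).getD j 0 ∈ flat n k p.2 ∧
      code n k p.2 x (((ntup n D).getD p.1 []).getD j 0) = sl).map fun p =>
      .and (nb n k D x p.1) (tup n k i p.2)

/-- The relation used in the pigeonhole argument. -/
noncomputable def rel (n k D : ℕ) (p p' : ℕ × ℕ) : Fm KVar :=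
  .or (if p'.2 = p.2 then cen n k p'.1 p.1 else .bot)
    (.and (.neg (centre n k p.1)) (bigOr (relL n k D p.1 p.2 p'.1 p'.2)))

/-- Hypotheses on the parameters. -/
structure KHyp (F : FregeSystem) (n k D M B t S : ℕ) : Prop where
  hS : F.K * (t + 1) ≤ S
  hk : 1 ≤ k
  h2k : 2 * k ≤ n
  hD : D = 2 * ((k + 1) * k) ^ 2
  lv : (verts n k).length ≤ 2 ^ M
  le : (eL n k).length ≤ 2 ^ M
  ln : n ≤ 2 ^ M
  lc : nc n k ≤ 2 ^ M
  lt : (vtup n k).length ≤ 2 ^ M
  lnt : (ntup n D).length ≤ 2 ^ M
  lH : nc n k * (vtup n k).length ≤ 2 ^ M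
  lp : (ntup n D).length * (vtup n k).length ≤ 2 ^ M
  lD : D ≤ 2 ^ M
  lk : k + 1 ≤ 2 ^ M
  lph : n * D < 2 ^ M
  zc : ∀ i, 2 * (bigOr (cenL n k i)).size + 2 ≤ t
  zt : ∀ i, 2 * (bigOr (tupL n k i)).size + 2 ≤ t
  zce : ∀ x, (centre n k x).size ≤ t
  zH : ∀ x (N : Finset ℕ), (bigOr (((List.range n).filter fun y => y ∉ N).map (Hf n k x))).size ≤ t
  zs : ∀ N : Finset ℕ, (bigOr (((List.range (nc n k)).filter fun i => i ∉ N).map
    fun i => .neg (bigOr (cenL n k i)))).size ≤ t
  zn : ∀ x, 2 * (bigOr (nbL n k D x)).size + 2 ≤ t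
  zB : ∀ p p', (rel n k D p p').size ≤ B
  zB' : ∀ i z, (cen n k i z).size ≤ B
  zph : phSize (n * D) (nc n k * D) B M ≤ t

theorem mem_verts {n k : ℕ} {X : Finset ℕ} :
    X ∈ verts n k ↔ X ⊆ Finset.range n ∧ X.card = k := by
  rw [verts, Finset.mem_toList, Finset.mem_powersetCard]

variable {n k D M B : ℕ} {Q : Set (Fm KVar) → Prop}

/-- Finding the colour of a vertex. -/
theorem KHyp.color (H : KHyp F n k D M B t S) {Δ : Set (Fm KVar)} (hΔ : KBase n k ⊆ Δ)
    {X : Finset ℕ} (hX : X ∈ verts n k) :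
    Can F t S (2 * M + 4) Δ (fun Δ' => ∃ c, c < nc n k ∧ Fm.var (X, c) ∈ Δ') := by
  refine Can.weaken (c := (M + 2) + (M + 2)) ?_ (by omega)
  refine (Can.conj_elim H.hS M (l := vL n k) (by rw [vL, List.length_map]; exact H.lv)
    (hΔ (by simp [KBase])) (bigOr ((List.range (nc n k)).map fun c => .var (X, c)))
    (List.mem_map_of_mem (f := fun X => bigOr ((List.range (nc n k)).map fun c =>
      (Fm.var (X, c) : Fm KVar))) hX)).bind ?_
  intro Δ1 hΔ1 h1
  refine (Can.find' H.hS M (by rw [List.length_range]; exact H.lc) h1).mono le_rfl ?_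
  rintro Δ2 _ ⟨c, hc, h2⟩
  exact ⟨c, List.mem_range.1 hc, h2⟩

/-- Two disjoint vertices of the same colour. -/
theorem KHyp.clash (H : KHyp F n k D M B t S) {Δ : Set (Fm KVar)} (hΔ : KBase n k ⊆ Δ)
    {X Y : Finset ℕ} (hX : X ∈ verts n k) (hY : Y ∈ verts n k) (hXY : Disjoint X Y) {c : ℕ}
    (hc : c < nc n k) (h1 : Fm.var (X, c) ∈ Δ) (h2 : Fm.var (Y, c) ∈ Δ) :
    Can F t S (M + 2) Δ Q := by
  have hmem : Fm.and (Fm.var (X, c)) (Fm.var (Y, c)) ∈ eL n k := by
    rw [eL, List.mem_flatMap]
    refine ⟨(X, Y), ?_, ?_⟩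
    · rw [List.mem_filter]
      exact ⟨List.mem_product.2 ⟨hX, hY⟩, by simpa using hXY⟩
    · exact List.mem_map.2 ⟨c, List.mem_range.2 hc, rfl⟩
  have hB : Fm.neg (bigOr (eL n k)) ∈ Δ := hΔ (by simp [KBase])
  have hsz := size_mem_bigOr hmem
  refine Can.weaken (c := 1 + (M + 1)) ?_ (by omega)
  refine (Can.querySub (Fm.and (Fm.var (X, c)) (Fm.var (Y, c))) _ hB
    (by simp only [Fm.size] at hsz ⊢; omega)).bind ?_
  rintro Δ1 hΔ1 (h3 | h3)
  · exact Can.refuteOr H.hS M H.le (hΔ1 hB) _ hmem h3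
  · exact (Can.close_nand H.hS _ _ h3 (hΔ1 h1) (hΔ1 h2)).weaken (by omega)

/-- If not all members contain `z`, find one that does not. -/
theorem KHyp.star_false (H : KHyp F n k D M B t S) {Δ : Set (Fm KVar)} {i z : ℕ}
    (h : Fm.neg (star n k i z) ∈ Δ) :
    Can F t S (M + 3) Δ (fun Δ' => ∃ X ∈ verts n k, z ∉ X ∧ Fm.var (X, i) ∈ Δ') := by
  unfold star at h
  refine Can.weaken (c := 1 + (M + 2)) ?_ (by omega)
  refine (Can.querySub (bigOr (((verts n k).filter fun X => z ∉ X).map fun X => .var (X, i))) _ h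
    (by simp only [Fm.size]; omega)).bind ?_
  rintro Δ1 hΔ1 (h1 | h1)
  · refine (Can.find' H.hS M ((List.length_filter_le _ _).trans H.lv) h1).mono le_rfl ?_
    rintro Δ2 _ ⟨X, hX, h2⟩
    rw [List.mem_filter] at hX
    exact ⟨X, hX.1, by simpa using hX.2, h2⟩
  · exact (Can.close_neg H.hS _ h1 (hΔ1 h)).weaken (by omega)

/-- All members contain the centre. -/
theorem KHyp.star_true (H : KHyp F n k D M B t S) {Δ : Set (Fm KVar)} {i z : ℕ}
    (h : star n k i z ∈ Δ) {X : Finset ℕ} (hX : X ∈ verts n k) (hz : z ∉ X)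
    (h1 : Fm.var (X, i) ∈ Δ) : Can F t S (M + 1) Δ Q := by
  unfold star at h
  refine Can.refute' H.hS M ((List.length_filter_le _ _).trans H.lv) h (a := X) ?_ h1
  rw [List.mem_filter]
  exact ⟨hX, by simpa using hz⟩

theorem length_cenL (n k i : ℕ) : (cenL n k i).length = n := by simp [cenL]

theorem getD_cenL {n k i z : ℕ} (hz : z < n) : (cenL n k i).getD z .bot = star n k i z := by
  rw [List.getD_eq_getElem?_getD, List.getElem?_eq_getElem (by rw [length_cenL]; exact hz)]
  simp [cenL]

theorem KHyp.cen_star (H : KHyp F n k D M B t S) {Δ : Set (Fm KVar)} {i z : ℕ} (hz : z < n)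
    (h : cen n k i z ∈ Δ) : Can F t S 2 Δ (fun Δ' => star n k i z ∈ Δ') := by
  refine (Can.last_elim H.hS h).mono le_rfl ?_
  rintro Δ1 _ ⟨h1, _⟩
  rwa [getD_cenL hz] at h1

theorem KHyp.cen_unique (H : KHyp F n k D M B t S) {Δ : Set (Fm KVar)} {i z z' : ℕ} (hz : z < n)
    (hz' : z' < n) (hne : z ≠ z') (h : cen n k i z ∈ Δ) (h' : cen n k i z' ∈ Δ) :
    Can F t S (M + 5) Δ Q :=
  Can.last_unique H.hS M (by rw [length_cenL]; exact H.ln) h h' hne (by rw [length_cenL]; exact hz)
    (by rw [length_cenL]; exact hz')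

theorem KHyp.cen_nonstar (H : KHyp F n k D M B t S) {Δ : Set (Fm KVar)} {i z : ℕ} (hz : z < n)
    (h : cen n k i z ∈ Δ) (h' : Fm.neg (bigOr (cenL n k i)) ∈ Δ) : Can F t S (M + 3) Δ Q := by
  refine Can.weaken (c := 2 + (M + 1)) ?_ (by omega)
  refine (H.cen_star hz h).bind ?_
  intro Δ1 hΔ1 h1
  refine Can.refuteOr H.hS M (by rw [length_cenL]; exact H.ln) (hΔ1 h') (star n k i z) ?_ h1
  exact List.mem_map.2 ⟨z, List.mem_range.2 hz, rfl⟩

theorem KHyp.cen_exists (H : KHyp F n k D M B t S) {Δ : Set (Fm KVar)} {i : ℕ}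
    (h : bigOr (cenL n k i) ∈ Δ) :
    Can F t S (M + 3) Δ (fun Δ' => ∃ z, z < n ∧ cen n k i z ∈ Δ') := by
  refine (Can.last_exists H.hS M (by rw [length_cenL]; exact H.ln) (H.zc i) h).mono le_rfl ?_
  rintro Δ1 _ ⟨z, hz, h1, _⟩
  rw [length_cenL] at hz
  exact ⟨z, hz, h1⟩

theorem length_tupL (n k i : ℕ) : (tupL n k i).length = (vtup n k).length := by simp [tupL]

theorem getD_tupL {n k i j : ℕ} (hj : j < (vtup n k).length) :
    (tupL n k i).getD j .bot = conj (((vtup n k).getD j []).map fun X => .var (X, i)) := by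
  rw [List.getD_eq_getElem?_getD, List.getElem?_eq_getElem (by rw [length_tupL]; exact hj),
    List.getD_eq_getElem?_getD, List.getElem?_eq_getElem hj]
  simp [tupL]

theorem mem_vtup {n k : ℕ} {s : List (Finset ℕ)} : s ∈ vtup n k ↔
    (s.length = k + 1 ∧ ∀ X ∈ s, X ∈ verts n k) ∧ ∀ z < n, ∃ X ∈ s, z ∉ X := by
  rw [vtup, List.mem_filter, mem_allTup]
  simp

theorem vtup_getD {n k j : ℕ} (hj : j < (vtup n k).length) :
    (vtup n k).getD j [] ∈ vtup n k := by
  rw [List.getD_eq_getElem?_getD, List.getElem?_eq_getElem hj]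
  exact List.getElem_mem hj

/-- The members of the last tuple have the colour. -/
theorem KHyp.tup_mem (H : KHyp F n k D M B t S) {Δ : Set (Fm KVar)} {i j : ℕ}
    (hj : j < (vtup n k).length) (h : tup n k i j ∈ Δ) {X : Finset ℕ}
    (hX : X ∈ (vtup n k).getD j []) : Can F t S (M + 4) Δ (fun Δ' => Fm.var (X, i) ∈ Δ') := by
  refine Can.weaken (c := 2 + (M + 2)) ?_ (by omega)
  refine (Can.last_elim H.hS h).bind ?_
  rintro Δ1 hΔ1 ⟨h1, _⟩
  rw [getD_tupL hj] at h1
  refine Can.conj_elim H.hS M ?_ h1 _ (List.mem_map_of_mem (f := fun X => (Fm.var (X, i) : Fm KVar))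
    hX)
  rw [List.length_map, (mem_vtup.1 (vtup_getD hj)).1.1]
  exact H.lk

/-- A colour with a centre has no tuple with empty intersection. -/
theorem KHyp.cen_tup (H : KHyp F n k D M B t S) {Δ : Set (Fm KVar)} {i j z : ℕ} (hz : z < n)
    (hj : j < (vtup n k).length) (h : cen n k i z ∈ Δ) (h' : tup n k i j ∈ Δ) :
    Can F t S (2 * M + 7) Δ Q := by
  obtain ⟨⟨_, h1⟩, h2⟩ := mem_vtup.1 (vtup_getD hj)
  obtain ⟨X, hX, hzX⟩ := h2 z hz
  refine Can.weaken (c := 2 + ((M + 4) + (M + 1))) ?_ (by omega)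
  refine (H.cen_star hz h).bind ?_
  intro Δ1 hΔ1 h3
  refine (H.tup_mem hj (hΔ1 h') hX).bind ?_
  intro Δ2 hΔ2 h4
  exact H.star_true (hΔ2 h3) (h1 X hX) hzX h4

/-- If the colour has no centre: find members avoiding given points. -/
theorem KHyp.avoid (H : KHyp F n k D M B t S) {Δ : Set (Fm KVar)} {i z : ℕ} (hz : z < n)
    (h : Fm.neg (bigOr (cenL n k i)) ∈ Δ) :
    Can F t S (M + 4) Δ (fun Δ' => ∃ X ∈ verts n k, z ∉ X ∧ Fm.var (X, i) ∈ Δ') := by
  have hmem : star n k i z ∈ cenL n k i := List.mem_map.2 ⟨z, List.mem_range.2 hz, rfl⟩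
  have hsz := size_mem_bigOr hmem
  refine Can.weaken (c := 1 + (M + 3)) ?_ (by omega)
  refine (Can.querySub (star n k i z) _ h (by simp only [Fm.size] at hsz ⊢; omega)).bind ?_
  rintro Δ1 hΔ1 (h1 | h1)
  · exact (Can.refuteOr H.hS M (by rw [length_cenL]; exact H.ln) (hΔ1 h) _ hmem h1).weaken
      (by omega)
  · exact H.star_false h1

theorem KHyp.avoidAll (H : KHyp F n k D M B t S) {i : ℕ} (zs : List ℕ) :
    ∀ (Δ : Set (Fm KVar)), (∀ z ∈ zs, z < n) → Fm.neg (bigOr (cenL n k i)) ∈ Δ →
    Can F t S (zs.length * (M + 4)) Δ (fun Δ' => ∃ s : List (Finset ℕ), s.length = zs.length ∧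
      (∀ X ∈ s, X ∈ verts n k ∧ Fm.var (X, i) ∈ Δ') ∧ ∀ z ∈ zs, ∃ X ∈ s, z ∉ X) := by
  induction zs with
  | nil => intro Δ _ _; exact (Can.ret ⟨[], by simp⟩).weaken (by omega)
  | cons z zs ih =>
    intro Δ hz h
    have e : (z :: zs).length * (M + 4) = (M + 4) + zs.length * (M + 4) := by
      rw [List.length_cons]; ring
    rw [e]
    refine (H.avoid (hz z (by simp)) h).bind ?_
    rintro Δ1 hΔ1 ⟨X, hX, hzX, h1⟩
    refine (ih Δ1 (fun y hy => hz y (by simp [hy])) (hΔ1 h)).mono le_rfl ?_
    rintro Δ2 hΔ2 ⟨s, h2, h3, h4⟩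
    refine ⟨X :: s, by simp [h2], ?_, ?_⟩
    · intro Y hY
      rcases List.mem_cons.1 hY with rfl | hY
      · exact ⟨hX, hΔ2 h1⟩
      · exact h3 Y hY
    · intro y hy
      rcases List.mem_cons.1 hy with rfl | hy
      · exact ⟨X, by simp, hzX⟩
      · obtain ⟨Y, hY, hyY⟩ := h4 y hy
        exact ⟨Y, by simp [hY], hyY⟩

/-- A colour without centre has a tuple. -/
theorem KHyp.tup_exists (H : KHyp F n k D M B t S) {Δ : Set (Fm KVar)} {i : ℕ}
    (h : Fm.neg (bigOr (cenL n k i)) ∈ Δ) :
    Can F t S ((k + 1) * (M + 4) + (M + k + 10)) Δ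
      (fun Δ' => ∃ j, j < (vtup n k).length ∧ tup n k i j ∈ Δ') := by
  have hk := H.hk
  have h2k := H.h2k
  refine Can.bind (c1 := (k + 1) * (M + 4)) (c2 := M + k + 10)
    (Q1 := fun Δ' => ∃ s ∈ vtup n k, ∀ X ∈ s, Fm.var (X, i) ∈ Δ') ?_ ?_
  · have e : (k + 1) * (M + 4) = (M + 4) + k * (M + 4) := by ring
    rw [e]
    refine (H.avoid (z := 0) (by omega) h).bind ?_
    rintro Δ1 hΔ1 ⟨X, hX, _, h1⟩
    have hX' := mem_verts.1 hX
    have hXl : X.toList.length = k := by rw [Finset.length_toList]; exact hX'.2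
    refine (H.avoidAll X.toList Δ1 ?_ (hΔ1 h)).mono (by rw [hXl]) ?_
    · intro z hz
      rw [Finset.mem_toList] at hz
      exact Finset.mem_range.1 (hX'.1 hz)
    · rintro Δ2 hΔ2 ⟨s, h2, h3, h4⟩
      refine ⟨X :: s, mem_vtup.2 ⟨⟨by rw [List.length_cons, h2, hXl], ?_⟩, ?_⟩, ?_⟩
      · intro Y hY
        rcases List.mem_cons.1 hY with rfl | hY
        · exact hX
        · exact (h3 Y hY).1
      · intro z _
        by_cases hzX : z ∈ X
        · obtain ⟨Y, hY, hzY⟩ := h4 z (Finset.mem_toList.2 hzX)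
          exact ⟨Y, by simp [hY], hzY⟩
        · exact ⟨X, by simp, hzX⟩
      · intro Y hY
        rcases List.mem_cons.1 hY with rfl | hY
        · exact hΔ2 h1
        · exact (h3 Y hY).2
  · rintro Δ1 hΔ1 ⟨s, hs, h1⟩
    refine Can.weaken (c := 1 + (M + k + 9)) ?_ (by omega)
    refine (Can.query (bigOr (tupL n k i)) (by have := H.zt i; omega)).bind ?_
    rintro Δ2 hΔ2 (h2 | h2)
    · refine (Can.last_exists H.hS M (by rw [length_tupL]; exact H.lt) (H.zt i) h2).mono
        (by omega) ?_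
      rintro Δ3 _ ⟨j, hj, h3, _⟩
      rw [length_tupL] at hj
      exact ⟨j, hj, h3⟩
    · have hmem : conj (s.map fun X => (Fm.var (X, i) : Fm KVar)) ∈ tupL n k i :=
        List.mem_map.2 ⟨s, hs, rfl⟩
      have hsz := size_mem_bigOr hmem
      refine Can.weaken (c := 1 + (M + 1 + (k + 2))) ?_ (by omega)
      refine (Can.querySub (conj (s.map fun X => (Fm.var (X, i) : Fm KVar))) _ h2
        (by simp only [Fm.size] at hsz ⊢; omega)).bind ?_
      rintro Δ3 hΔ3 (h3 | h3)
      · exact (Can.refuteOr H.hS M (by rw [length_tupL]; exact H.lt) (hΔ3 h2) _ hmem h3).weaken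
          (by omega)
      · refine (Can.conj_intro H.hS ?_ h3).weaken ?_
        · intro φ hφ
          obtain ⟨X, hX, rfl⟩ := List.mem_map.1 hφ
          exact hΔ3 (hΔ2 (h1 X hX))
        · rw [List.length_map, (mem_vtup.1 hs).1.1]; omega

/-! ### The case of few colours without centre -/

/-- The rules for a colouring of the `k`-subsets of a set of non-centres. -/
theorem KHyp.colRules (H : KHyp F n k D M B t S) {Base : Set (Fm KVar)}
    (hBase : KBase n k ⊆ Base) (R C : Finset ℕ) (hR : ∀ z ∈ R, z < n)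
    (hR' : ∀ z ∈ R, Fm.neg (centre n k z) ∈ Base) (hC : ∀ i ∈ C, i < nc n k)
    (hC' : Fm.neg (bigOr (((List.range (nc n k)).filter fun i => i ∉ C).map
      fun i => .neg (bigOr (cenL n k i)))) ∈ Base) :
    ColRules F t S Base R.toList C.toList k (8 * M + 30) := by
  have hsub : ∀ X : Finset ℕ, X.card = k → X ⊆ R.toList.toFinset → X ∈ verts n k := by
    intro X hX hXR
    rw [Finset.toList_toFinset] at hXR
    exact mem_verts.2 ⟨fun z hz => Finset.mem_range.2 (hR z (hXR hz)), hX⟩
  constructor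
  · intro X hX hXR Δ hΔ
    have hXv := hsub X hX hXR
    rw [Finset.toList_toFinset] at hXR
    refine Can.weaken (c := (2 * M + 4) + (1 + ((M + 3) + (1 + (2 * M + 10))))) ?_ (by omega)
    refine (H.color (hBase.trans hΔ) hXv).bind ?_
    rintro Δ1 hΔ1 ⟨c, hc, h1⟩
    by_cases hcC : c ∈ C
    · refine (Can.ret ?_).weaken (by omega)
      obtain ⟨j, hj, hjc⟩ := List.getElem_of_mem (Finset.mem_toList.2 hcC)
      refine ⟨j, hj, ?_⟩
      rw [List.getD_eq_getElem?_getD, List.getElem?_eq_getElem hj, Option.getD_some, hjc]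
      exact h1
    · refine (Can.query (bigOr (cenL n k c)) (by have := H.zc c; omega)).bind ?_
      rintro Δ2 hΔ2 (h2 | h2)
      · refine (H.cen_exists h2).bind ?_
        rintro Δ3 hΔ3 ⟨z, hz, h3⟩
        by_cases hzX : z ∈ X
        · -- `z` is a centre and a non-centre
          refine (Can.refute' H.hS M (by rw [List.length_range]; exact H.lc)
            ((hΔ.trans (hΔ1.trans (hΔ2.trans hΔ3))) (hR' z (hXR hzX)))
            (a := c) (List.mem_range.2 hc) h3).weaken (by omega)
        · refine Can.weaken (c := 2 + (M + 1)) ?_ (by omega)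
          refine (H.cen_star hz h3).bind ?_
          intro Δ4 hΔ4 h4
          exact H.star_true h4 hXv hzX (hΔ4 (hΔ3 (hΔ2 h1)))
      · refine (Can.refute' H.hS M ((List.length_filter_le _ _).trans
          (by rw [List.length_range]; exact H.lc)) ((hΔ.trans (hΔ1.trans hΔ2)) hC')
          (a := c) ?_ h2).weaken (by omega)
        rw [List.mem_filter]
        exact ⟨List.mem_range.2 hc, by simpa using hcC⟩
  · intro X Y hX hXR hY hYR hXY Δ hΔ j hj h1 h2
    have hjC : C.toList.getD j 0 ∈ C := Finset.mem_toList.1 (getD_mem' hj)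
    exact (H.clash (hBase.trans hΔ) (hsub X hX hXR) (hsub Y hY hYR) hXY (hC _ hjC) h1
      h2).weaken (by omega)

theorem phSize_mono {a a' b b' B M : ℕ} (ha : a ≤ a') (hb : b ≤ b') :
    phSize a b B M ≤ phSize a' b' B M := by
  unfold phSize
  have h1 : b * (B + 1) ≤ b' * (B + 1) := Nat.mul_le_mul_right _ hb
  have h2 : a * (2 * (b * (B + 1) + 1) + 3) ≤ a' * (2 * (b' * (B + 1) + 1) + 3) :=
    Nat.mul_le_mul ha (by omega)
  refine Nat.add_le_add_right (Nat.mul_le_mul_left _ (Nat.add_le_add_right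
    (Nat.mul_le_mul_left _ (by omega)) _)) _

theorem KHyp.D_pos (H : KHyp F n k D M B t S) : 1 ≤ D := by
  have h1 := H.hk
  have h2 := H.hD
  have h3 : 1 ≤ ((k + 1) * k) ^ 2 := Nat.one_le_pow _ _ (Nat.mul_pos (by omega) (by omega))
  omega

/-- The number of all `i < n` outside a subset. -/
theorem length_filter_notMem (n : ℕ) (C : Finset ℕ) (hC : ∀ i ∈ C, i < n) :
    ((List.range n).filter fun i => i ∉ C).length = n - C.card := by
  have h1 : ((List.range n).filter fun i => i ∉ C).length = (Finset.range n \ C).card := by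
    have e : Finset.range n \ C = ((List.range n).filter fun i => i ∉ C).toFinset := by
      ext x
      simp
    rw [e, List.toFinset_card_of_nodup (List.Nodup.filter _ List.nodup_range)]
  rw [h1, Finset.card_sdiff_of_subset (fun x hx => Finset.mem_range.2 (hC x hx)),
    Finset.card_range]

/-- Finding many non-centres. -/
theorem KHyp.noncentres (H : KHyp F n k D M B t S) (C : Finset ℕ) (hC : ∀ i ∈ C, i < nc n k)
    (m : ℕ) : m ≤ C.card + (2 * k - 2) + 1 → ∀ (Δ : Set (Fm KVar)),
    (∀ i ∈ C, Fm.neg (bigOr (cenL n k i)) ∈ Δ) →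
    Can F t S (m * (40 * (M + 4) ^ 2 + (3 * M + 10))) Δ (fun Δ' => ∃ R : Finset ℕ, R.card = m ∧
      ∀ z ∈ R, z < n ∧ Fm.neg (centre n k z) ∈ Δ') := by
  have hk := H.hk
  have h2k := H.h2k
  have hDp := H.D_pos
  induction m with
  | zero => intro _ Δ _; exact (Can.ret ⟨∅, by simp⟩).weaken (by omega)
  | succ m ih =>
    intro hm Δ hCΔ
    have e : (m + 1) * (40 * (M + 4) ^ 2 + (3 * M + 10)) =
        m * (40 * (M + 4) ^ 2 + (3 * M + 10)) + (40 * (M + 4) ^ 2 + (3 * M + 10)) := by ring
    rw [e]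
    refine (ih (by omega) Δ hCΔ).bind ?_
    rintro Δ1 hΔ1 ⟨R, hRc, hR⟩
    set xs := (List.range n).filter fun z => z ∉ R with hxs
    set ys := (List.range (nc n k)).filter fun i => i ∉ C with hys
    have hRn : R ⊆ Finset.range n := fun z hz => Finset.mem_range.2 (hR z hz).1
    have hRle : R.card ≤ n := by
      have := Finset.card_le_card hRn
      rwa [Finset.card_range] at this
    have hCle : C.card ≤ nc n k := by
      have : C ⊆ Finset.range (nc n k) := fun i hi => Finset.mem_range.2 (hC i hi)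
      have := Finset.card_le_card this
      rwa [Finset.card_range] at this
    have hxl : xs.length = n - R.card := length_filter_notMem n R (fun z hz => (hR z hz).1)
    have hyl : ys.length = nc n k - C.card := length_filter_notMem _ C hC
    have hnc : nc n k = n - 2 * k + 1 := rfl
    have hnd : n ≤ n * D := Nat.le_mul_of_pos_right _ hDp
    refine (Can.php H.hS (fun x y => cen n k (ys.getD y 0) (xs.getD x 0)) (a := xs.length)
      (b := ys.length) (B := B) (M := M) (by omega) (by have := H.lph; omega)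
      (fun x y => H.zB' _ _) ?_).bind ?_
    · refine (phSize_mono ?_ ?_).trans H.zph
      · omega
      · calc ys.length ≤ nc n k := by omega
          _ ≤ nc n k * D := Nat.le_mul_of_pos_right _ hDp
    rintro Δ2 hΔ2 (⟨x, hx, h1⟩ | ⟨x, x', y, hxx, hx', hy, h1, h2⟩)
    · -- a new non-centre
      have hzm := getD_mem' hx
      set z := xs.getD x 0 with hz
      rw [hxs, List.mem_filter] at hzm
      have hzn : z < n := List.mem_range.1 hzm.1
      have hzR : z ∉ R := by simpa using hzm.2
      refine Can.weaken (c := 1 + ((M + 2) + (M + 5))) ?_ (by omega)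
      refine (Can.query (centre n k z) (H.zce z)).bind ?_
      rintro Δ3 hΔ3 (h2 | h2)
      · refine (Can.find' H.hS M (by rw [List.length_range]; exact H.lc) h2).bind ?_
        rintro Δ4 hΔ4 ⟨i, hi, h3⟩
        by_cases hiC : i ∈ C
        · exact (H.cen_nonstar hzn h3
            ((hΔ1.trans (hΔ2.trans (hΔ3.trans hΔ4))) (hCΔ i hiC))).weaken (by omega)
        · have hiy : i ∈ ys := by
            rw [hys, List.mem_filter]; exact ⟨hi, by simpa using hiC⟩
          obtain ⟨y, hy, hyi⟩ := List.getElem_of_mem hiy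
          refine (Can.refute' H.hS M ?_ ((hΔ3.trans hΔ4) h1) (a := y) (List.mem_range.2 hy)
            ?_).weaken (by omega)
          · rw [List.length_range, hyl]; have := H.lc; omega
          · have e2 : ys.getD y 0 = i := by
              rw [List.getD_eq_getElem?_getD, List.getElem?_eq_getElem hy, Option.getD_some, hyi]
            rw [e2]
            exact h3
      · refine (Can.ret ⟨insert z R, ?_, ?_⟩).weaken (by omega)
        · rw [Finset.card_insert_of_notMem hzR, hRc]
        · intro w hw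
          rcases Finset.mem_insert.1 hw with rfl | hw
          · exact ⟨hzn, h2⟩
          · exact ⟨(hR w hw).1, (hΔ2.trans hΔ3) (hR w hw).2⟩
    · -- a collision
      have hxs' : xs.Nodup := List.Nodup.filter _ List.nodup_range
      have hzm := getD_mem' (show x < xs.length by omega)
      have hzm' := getD_mem' hx'
      rw [hxs, List.mem_filter, ← hxs] at hzm hzm'
      refine (H.cen_unique (List.mem_range.1 hzm.1) (List.mem_range.1 hzm'.1) ?_ h1 h2).weaken
        (by omega)
      intro heq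
      have := getD_inj hxs' (by omega) hx' heq
      omega

/-- The cost in the case of few colours without centre. -/
def smallCost (M K : ℕ) (k : ℕ) : ℕ :=
  (K + (2 * k - 2) + 1) * (40 * (M + 4) ^ 2 + (3 * M + 10)) +
    tuckCost (K + (2 * k - 2) + 1) (2 * (K + (2 * k - 2) + 1))
      (klabCost (K + (2 * k - 2) + 1) K (8 * M + 30))

/-- Few colours without centre. -/
theorem KHyp.small (H : KHyp F n k D M B t S) (C : Finset ℕ) (hC : ∀ i ∈ C, i < nc n k)
    {Δ : Set (Fm KVar)} (hΔ : KBase n k ⊆ Δ)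
    (hC1 : ∀ i ∈ C, Fm.neg (bigOr (cenL n k i)) ∈ Δ)
    (hC2 : Fm.neg (bigOr (((List.range (nc n k)).filter fun i => i ∉ C).map
      fun i => .neg (bigOr (cenL n k i)))) ∈ Δ)
    (ht : 2 * klabSize (C.card + (2 * k - 2) + 1) C.card ≤ t)
    (ht' : tuckSize (C.card + (2 * k - 2)) (C.card + (2 * k - 2) + 1)
      (klabSize (C.card + (2 * k - 2) + 1) C.card) ≤ t) :
    Can F t S (smallCost M C.card k) Δ (fun _ => False) := by
  refine (H.noncentres C hC (C.card + (2 * k - 2) + 1) le_rfl Δ hC1).bind ?_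
  rintro Δ1 hΔ1 ⟨R, hRc, hR⟩
  have R1 := H.colRules (Base := Δ1) (hΔ.trans hΔ1) R C (fun z hz => (hR z hz).1)
    (fun z hz => (hR z hz).2) hC (hΔ1 hC2)
  have e1 : R.toList.length = C.card + (2 * k - 2) + 1 := by rw [Finset.length_toList, hRc]
  have e2 : C.toList.length = C.card := Finset.length_toList _
  have := Can.kneser_small H.hS R1 (Finset.nodup_toList R) H.hk (by rw [e1, e2])
    (by rw [e1, e2]; exact ht) (by rw [e1, e2]; exact ht') (Γ := Δ1) (fun _ h => h)
  rw [e1, e2] at this
  exact this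

end FregeEF
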