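import Pool.Agent.Work.MP_c07f0d_lc.Kernel1

/-!
# Kernelization of the Kneser-Lovász tautologies: many colours without centre
-/

namespace FregeEF

variable {F : FregeSystem} {t S : ℕ}
variable {n k D M B : ℕ} {Q : Set (Fm KVar) → Prop}

theorem mem_prodL {β γ : Type} {l₁ : List β} {l₂ : List γ} {a : β} {b : γ} :
    (a, b) ∈ List.product l₁ l₂ ↔ a ∈ l₁ ∧ b ∈ l₂ := List.mem_product

theorem length_prodL {β γ : Type} (l₁ : List β) (l₂ : List γ) :
    (List.product l₁ l₂).length = l₁.length * l₂.length := List.length_product l₁ l₂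

theorem length_flat {j : ℕ} (hj : j < (vtup n k).length) :
    (flat n k j).length = (k + 1) * k := by
  obtain ⟨⟨h1, h2⟩, _⟩ := mem_vtup.1 (vtup_getD hj)
  unfold flat
  rw [List.length_flatMap]
  have e : ((vtup n k).getD j []).map (fun X => X.toList.length) =
      ((vtup n k).getD j []).map (fun _ => k) := by
    refine List.map_congr_left fun X hX => ?_
    rw [Finset.length_toList]
    exact (mem_verts.1 (h2 X hX)).2
  rw [e, List.map_const', List.sum_replicate, smul_eq_mul, h1]

theorem mem_flat {j x : ℕ} : x ∈ flat n k j ↔ ∃ X ∈ (vtup n k).getD j [], x ∈ X := by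
  simp [flat]

theorem code_lt {j x y : ℕ} (hj : j < (vtup n k).length) (hx : x ∈ flat n k j)
    (hy : y ∈ flat n k j) : code n k j x y < ((k + 1) * k) ^ 2 := by
  have h1 := List.idxOf_lt_length_of_mem hx
  have h2 := List.idxOf_lt_length_of_mem hy
  rw [length_flat hj] at h1 h2
  unfold code
  set T := (k + 1) * k
  have h3 : ((flat n k j).idxOf x + 1) * T ≤ T * T := Nat.mul_le_mul_right _ h1
  rw [pow_two]
  nlinarith

theorem code_inj {j x y x' y' : ℕ} (hj : j < (vtup n k).length) (hx : x ∈ flat n k j)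
    (hy : y ∈ flat n k j) (hx' : x' ∈ flat n k j) (hy' : y' ∈ flat n k j)
    (h : code n k j x y = code n k j x' y') : x = x' ∧ y = y' := by
  have h2 := List.idxOf_lt_length_of_mem hy
  have h2' := List.idxOf_lt_length_of_mem hy'
  rw [length_flat hj] at h2 h2'
  unfold code at h
  set T := (k + 1) * k
  have hT : 0 < T := by omega
  have e1 : (flat n k j).idxOf x = (flat n k j).idxOf x' := by
    have h3 : ((flat n k j).idxOf x * T + (flat n k j).idxOf y) / T = (flat n k j).idxOf x := by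
      rw [Nat.add_comm, Nat.add_mul_div_right _ _ hT, Nat.div_eq_of_lt h2, Nat.zero_add]
    have h4 : ((flat n k j).idxOf x' * T + (flat n k j).idxOf y') / T =
        (flat n k j).idxOf x' := by
      rw [Nat.add_comm, Nat.add_mul_div_right _ _ hT, Nat.div_eq_of_lt h2', Nat.zero_add]
    rw [← h3, ← h4, h]
  have e2 : (flat n k j).idxOf y = (flat n k j).idxOf y' := by
    rw [e1] at h; omega
  exact ⟨(List.idxOf_inj hx).1 e1, (List.idxOf_inj hy).1 e2⟩

theorem length_nbL (n k D x : ℕ) : (nbL n k D x).length = (ntup n D).length := by simp [nbL]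

theorem getD_nbL {n k D x a : ℕ} (ha : a < (ntup n D).length) :
    (nbL n k D x).getD a .bot = conj (((ntup n D).getD a []).map fun y => Hf n k x y) := by
  rw [List.getD_eq_getElem?_getD, List.getElem?_eq_getElem (by rw [length_nbL]; exact ha),
    List.getD_eq_getElem?_getD, List.getElem?_eq_getElem ha]
  simp [nbL]

theorem mem_ntup {n D : ℕ} {s : List ℕ} : s ∈ ntup n D ↔
    (s.length = D ∧ ∀ x ∈ s, x < n) ∧ s.Nodup := by
  rw [ntup, List.mem_filter, mem_allTup]
  simp

theorem ntup_getD {n D a : ℕ} (ha : a < (ntup n D).length) :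
    (ntup n D).getD a [] ∈ ntup n D := by
  rw [List.getD_eq_getElem?_getD, List.getElem?_eq_getElem ha]
  exact List.getElem_mem ha

theorem getD_mem0 {l : List ℕ} {c : ℕ} (hc : c < l.length) : l.getD c 0 ∈ l := by
  rw [List.getD_eq_getElem?_getD, List.getElem?_eq_getElem hc]
  exact List.getElem_mem hc

/-- The slots. -/
def slots (n k D : ℕ) (C : Finset ℕ) : List (ℕ × ℕ) :=
  List.product ((List.range (nc n k)).filter fun i => i ∉ C) (List.range D) ++
  List.product ((List.range (nc n k)).filter fun i => i ∈ C) (List.range (((k + 1) * k) ^ 2))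

theorem mem_slots {n k D : ℕ} {C : Finset ℕ} {p : ℕ × ℕ} : p ∈ slots n k D C ↔
    p.1 < nc n k ∧ ((p.1 ∉ C ∧ p.2 < D) ∨ (p.1 ∈ C ∧ p.2 < ((k + 1) * k) ^ 2)) := by
  obtain ⟨i, sl⟩ := p
  simp only [slots, List.mem_append, mem_prodL, List.mem_filter, List.mem_range,
    decide_eq_true_eq, decide_not, Bool.not_eq_true', decide_eq_false_iff_not]
  tauto

theorem length_filter_mem (m : ℕ) (C : Finset ℕ) (hC : ∀ i ∈ C, i < m) :
    ((List.range m).filter fun i => i ∈ C).length = C.card := by
  have e : C = ((List.range m).filter fun i => i ∈ C).toFinset := by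
    ext x
    simp only [List.toFinset_filter, decide_eq_true_eq, Finset.mem_filter, List.mem_toFinset,
      List.mem_range]
    exact ⟨fun h => ⟨hC x h, h⟩, fun h => h.2⟩
  conv_rhs => rw [e]
  rw [List.toFinset_card_of_nodup (List.Nodup.filter _ List.nodup_range)]

theorem length_slots {n k D : ℕ} {C : Finset ℕ} (hC : ∀ i ∈ C, i < nc n k) :
    (slots n k D C).length = (nc n k - C.card) * D + C.card * ((k + 1) * k) ^ 2 := by
  rw [slots, List.length_append, length_prodL, length_prodL,
    length_filter_notMem _ _ hC, length_filter_mem _ _ hC, List.length_range, List.length_range]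

theorem map_range_getD {β γ : Type} (l : List β) (d : β) (g : β → γ) :
    (List.range l.length).map (fun y => g (l.getD y d)) = l.map g := by
  refine List.ext_getElem (by simp) ?_
  intro i h1 h2
  simp only [List.length_map, List.length_range] at h1
  simp only [List.getElem_map, List.getElem_range, List.getD_eq_getElem?_getD,
    List.getElem?_eq_getElem h1, Option.getD_some]

/-- A pair without image yields a non-centre with few neighbours. -/
theorem KHyp.no_image (H : KHyp F n k D M B t S) (C : Finset ℕ) {Δ : Set (Fm KVar)}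
    (hC1 : ∀ i ∈ C, Fm.neg (bigOr (cenL n k i)) ∈ Δ) (hC : ∀ i ∈ C, i < nc n k)
    {x j : ℕ} (hx : x < n) (hj : j < D)
    (h : Fm.neg (bigOr ((slots n k D C).map (rel n k D (x, j)))) ∈ Δ) :
    Can F t S ((D + 8) * (M + 5) + D + 20) Δ (fun Δ' => ∃ N : Finset ℕ, N.card < D ∧
      (∀ y ∈ N, y < n) ∧ Fm.neg (centre n k x) ∈ Δ' ∧
      Fm.neg (bigOr (((List.range n).filter fun y => y ∉ N).map (Hf n k x))) ∈ Δ') := by
  have hk := H.hk
  have hD := H.hD
  have hDp := H.D_pos
  set T2 := ((k + 1) * k) ^ 2 with hT2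
  have hls : (slots n k D C).length ≤ 2 ^ M := by
    rw [length_slots hC, ← hT2]
    have h1 : C.card ≤ nc n k := by
      have : C ⊆ Finset.range (nc n k) := fun i hi => Finset.mem_range.2 (hC i hi)
      have := Finset.card_le_card this
      rwa [Finset.card_range] at this
    have h2 : C.card * T2 ≤ C.card * D := Nat.mul_le_mul_left _ (by omega)
    have h3 : (nc n k - C.card) * D + C.card * D = nc n k * D := by
      rw [← Nat.add_mul]; congr 1; omega
    have h4 : nc n k * D ≤ n * D := by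
      refine Nat.mul_le_mul_right _ ?_
      unfold nc
      have := H.h2k
      omega
    have := H.lph
    omega
  -- size of `rel`
  have hsz : ∀ p ∈ slots n k D C, (rel n k D (x, j) p).size + 1 ≤
      (Fm.neg (bigOr ((slots n k D C).map (rel n k D (x, j))))).size := by
    intro p hp
    have := size_mem_bigOr (List.mem_map_of_mem (f := rel n k D (x, j)) hp)
    simp only [Fm.size]
    omega
  -- step 1: `x` is not a centre
  have e0 : (D + 8) * (M + 5) + D + 20 = (2 * M + 12) + ((D + 6) * (M + 5) + D + 18) := by ring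
  rw [e0]
  refine Can.bind (Q1 := fun Δ' => Fm.neg (centre n k x) ∈ Δ') ?_ ?_
  · refine Can.weaken (c := 1 + ((M + 2) + (M + 9))) ?_ (by omega)
    refine (Can.query (centre n k x) (H.zce x)).bind ?_
    rintro Δ1 hΔ1 (h1 | h1)
    · refine (Can.find' H.hS M (by rw [List.length_range]; exact H.lc) h1).bind ?_
      rintro Δ2 hΔ2 ⟨i, hi, h2⟩
      rw [List.mem_range] at hi
      by_cases hiC : i ∈ C
      · exact (H.cen_nonstar hx h2 ((hΔ1.trans hΔ2) (hC1 i hiC))).weaken (by omega)
      · have hp : (i, j) ∈ slots n k D C := mem_slots.2 ⟨hi, Or.inl ⟨hiC, hj⟩⟩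
        refine Can.weaken (c := 1 + (M + 1)) ?_ (by omega)
        refine (Can.querySub (rel n k D (x, j) (i, j)) _ ((hΔ1.trans hΔ2) h) (hsz _ hp)).bind ?_
        rintro Δ3 hΔ3 (h3 | h3)
        · exact Can.refute' H.hS M hls ((hΔ1.trans (hΔ2.trans hΔ3)) h) hp h3
        · unfold rel at h3
          simp only [if_true] at h3
          exact (Can.close_nor_left H.hS _ _ h3 (hΔ3 h2)).weaken (by omega)
    · exact (Can.ret h1).weaken (by omega)
  intro Δ1 hΔ1 hnc
  -- step 2: `x` has no `D` distinct neighbours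
  have e1 : (D + 6) * (M + 5) + D + 18 = (1 + (4 * M + 25)) + ((D + 2) * (M + 5) + D + 12) := by
    ring
  rw [e1]
  refine Can.bind (Q1 := fun Δ' => Fm.neg (bigOr (nbL n k D x)) ∈ Δ') ?_ ?_
  · refine (Can.query (bigOr (nbL n k D x)) (by have := H.zn x; omega)).bind ?_
    rintro Δ2 hΔ2 (h1 | h1)
    swap
    · exact (Can.ret h1).weaken (by omega)
    refine Can.weaken (c := (M + 3) + ((M + 2) + ((M + 2) + (M + 6)))) ?_ (by omega)
    refine (Can.last_exists H.hS M (by rw [length_nbL]; exact H.lnt) (H.zn x) h1).bind ?_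
    rintro Δ3 hΔ3 ⟨a, ha, h2, h3⟩
    rw [length_nbL] at ha
    rw [getD_nbL ha] at h3
    obtain ⟨⟨hy1, hy2⟩, hy3⟩ := mem_ntup.1 (ntup_getD ha)
    set ys := (ntup n D).getD a [] with hys
    have hym := getD_mem0 (l := ys) (c := j) (by omega)
    set y := ys.getD j 0 with hy
    refine (Can.conj_elim H.hS M (by rw [List.length_map, hy1]; exact H.lD) h3 (Hf n k x y)
      (List.mem_map_of_mem hym)).bind ?_
    intro Δ4 hΔ4 h4
    by_cases hxy : x = y
    · unfold Hf at h4
      rw [if_pos hxy] at h4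
      exact (Can.close_bot H.hS h4).weaken (by omega)
    unfold Hf at h4
    rw [if_neg hxy] at h4
    refine (Can.find' H.hS M (l := (List.product (List.range (nc n k))
        (List.range (vtup n k).length)).filter fun p => x ∈ flat n k p.2 ∧ y ∈ flat n k p.2)
      (f := fun p => tup n k p.1 p.2) ?_ h4).bind ?_
    · refine (List.length_filter_le _ _).trans ?_
      rw [length_prodL, List.length_range, List.length_range]
      exact H.lH
    rintro Δ5 hΔ5 ⟨⟨i, b⟩, hib, h5⟩
    rw [List.mem_filter, mem_prodL, List.mem_range, List.mem_range] at hib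
    obtain ⟨⟨hi, hb⟩, hfl⟩ := hib
    simp only [decide_eq_true_eq] at hfl
    simp only at hi hb hfl h5
    have hcode := code_lt hb hfl.1 hfl.2
    have hp : (i, code n k b x y) ∈ slots n k D C := by
      refine mem_slots.2 ⟨hi, ?_⟩
      by_cases hiC : i ∈ C
      · exact Or.inr ⟨hiC, hcode⟩
      · exact Or.inl ⟨hiC, by simp only; omega⟩
    have hmem : Fm.and (nb n k D x a) (tup n k i b) ∈ relL n k D x j i (code n k b x y) := by
      unfold relL
      refine List.mem_map.2 ⟨(a, b), ?_, rfl⟩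
      rw [List.mem_filter, mem_prodL, List.mem_range, List.mem_range]
      refine ⟨⟨ha, hb⟩, ?_⟩
      simp only [decide_eq_true_eq]
      exact ⟨hfl.1, hfl.2, rfl⟩
    have hΔ' := hΔ1.trans (hΔ2.trans (hΔ3.trans (hΔ4.trans hΔ5)))
    have hllen : (relL n k D x j i (code n k b x y)).length ≤ 2 ^ M := by
      unfold relL
      rw [List.length_map]
      refine (List.length_filter_le _ _).trans ?_
      rw [length_prodL, List.length_range, List.length_range]
      exact H.lp
    have hsz1 := hsz _ hp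
    have hsz2 := size_mem_bigOr hmem
    have hrel : rel n k D (x, j) (i, code n k b x y) =
        .or (if code n k b x y = j then cen n k i x else .bot)
        (.and (.neg (centre n k x)) (bigOr (relL n k D x j i (code n k b x y)))) := rfl
    refine Can.weaken (c := 1 + (1 + (1 + (1 + (M + 1))))) ?_ (by omega)
    refine (Can.querySub (rel n k D (x, j) (i, code n k b x y)) _ (hΔ' h) hsz1).bind ?_
    rintro Δ6 hΔ6 (h6 | h6)
    · exact (Can.refute' H.hS M hls ((hΔ'.trans hΔ6) h) hp h6).weaken (by omega)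
    rw [hrel] at h6
    refine (Can.querySub (.and (.neg (centre n k x))
      (bigOr (relL n k D x j i (code n k b x y)))) _ h6 (by simp only [Fm.size]; omega)).bind ?_
    rintro Δ7 hΔ7 (h7 | h7)
    · exact (Can.close_nor_right H.hS _ _ (hΔ7 h6) h7).weaken (by omega)
    refine (Can.querySub (bigOr (relL n k D x j i (code n k b x y))) _ h7
      (by simp only [Fm.size]; omega)).bind ?_
    rintro Δ8 hΔ8 (h8 | h8)
    · refine (Can.close_nand H.hS _ _ (hΔ8 h7) ?_ h8).weaken (by omega)
      exact (hΔ2.trans (hΔ3.trans (hΔ4.trans (hΔ5.trans (hΔ6.trans (hΔ7.trans hΔ8)))))) hnc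
    refine (Can.querySub (.and (nb n k D x a) (tup n k i b)) _ h8
      (by simp only [Fm.size] at hsz2 ⊢; omega)).bind ?_
    rintro Δ9 hΔ9 (h9 | h9)
    · exact Can.refuteOr H.hS M hllen (hΔ9 h8) _ hmem h9
    · refine (Can.close_nand H.hS _ _ h9 ?_ ?_).weaken (by omega)
      · exact (hΔ4.trans (hΔ5.trans (hΔ6.trans (hΔ7.trans (hΔ8.trans hΔ9))))) h2
      · exact (hΔ6.trans (hΔ7.trans (hΔ8.trans hΔ9))) h5
  intro Δ2 hΔ2 hnb
  -- step 3: enumerate the neighbours
  refine Can.weaken (c := D * (M + 3) + (1 + (M + 1 + (D + 1)))) ?_ (by nlinarith)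
  refine (Can.enumerate H.hS (List.range n) (Hf n k x) M (by rw [List.length_range]; exact H.ln)
    (H.zH x) D).bind ?_
  rintro Δ3 hΔ3 ⟨N, hN1, hN2, hN3⟩
  by_cases hND : N.card = D
  · have hmem : conj (N.toList.map fun y => Hf n k x y) ∈ nbL n k D x := by
      refine List.mem_map.2 ⟨N.toList, mem_ntup.2 ⟨⟨?_, ?_⟩, Finset.nodup_toList N⟩, rfl⟩
      · rw [Finset.length_toList, hND]
      · intro y hy
        rw [Finset.mem_toList] at hy
        exact List.mem_range.1 (hN1 y hy).1
    have hsz2 := size_mem_bigOr hmem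
    refine (Can.querySub (conj (N.toList.map fun y => Hf n k x y)) _ (hΔ3 hnb)
      (by simp only [Fm.size]; omega)).bind ?_
    rintro Δ4 hΔ4 (h4 | h4)
    · exact (Can.refuteOr H.hS M (by rw [length_nbL]; exact H.lnt) ((hΔ3.trans hΔ4) hnb) _ hmem
        h4).weaken (by omega)
    · refine (Can.conj_intro H.hS ?_ h4).weaken ?_
      · intro φ hφ
        obtain ⟨y, hy, rfl⟩ := List.mem_map.1 hφ
        rw [Finset.mem_toList] at hy
        exact hΔ4 (hN1 y hy).2
      · rw [List.length_map, Finset.length_toList]; omega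
  · refine (Can.ret ⟨N, by omega, fun y hy => List.mem_range.1 (hN1 y hy).1,
      (hΔ2.trans hΔ3) hnc, hN3.resolve_left hND⟩).weaken (by omega)

/-- What a true instance of the relation says. -/
theorem KHyp.rel_cases (H : KHyp F n k D M B t S) {Δ : Set (Fm KVar)} {x j i sl : ℕ}
    (h : rel n k D (x, j) (i, sl) ∈ Δ) :
    Can F t S (M + 8) Δ (fun Δ' => (sl = j ∧ cen n k i x ∈ Δ') ∨
      ∃ a b, a < (ntup n D).length ∧ b < (vtup n k).length ∧ x ∈ flat n k b ∧
        ((ntup n D).getD a []).getD j 0 ∈ flat n k b ∧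
        code n k b x (((ntup n D).getD a []).getD j 0) = sl ∧ nb n k D x a ∈ Δ' ∧
        tup n k i b ∈ Δ') := by
  refine Can.weaken (c := 2 + (2 + ((M + 2) + 2))) ?_ (by omega)
  refine (Can.or_elim H.hS _ _ h).bind ?_
  rintro Δ1 hΔ1 (h1 | h1)
  · by_cases hsl : sl = j
    · simp only [hsl, if_true] at h1
      exact (Can.ret (Or.inl ⟨hsl, h1⟩)).weaken (by omega)
    · simp only [hsl, if_false] at h1
      exact (Can.close_bot H.hS h1).weaken (by omega)
  · refine (Can.and_elim H.hS _ _ h1).bind ?_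
    rintro Δ2 hΔ2 ⟨_, h2⟩
    unfold relL at h2
    refine (Can.find' H.hS M (l := (List.product (List.range (ntup n D).length)
        (List.range (vtup n k).length)).filter fun p =>
      x ∈ flat n k p.2 ∧ ((ntup n D).getD p.1 []).getD j 0 ∈ flat n k p.2 ∧
      code n k p.2 x (((ntup n D).getD p.1 []).getD j 0) = sl)
      (f := fun p => .and (nb n k D x p.1) (tup n k i p.2)) ?_ h2).bind ?_
    · refine (List.length_filter_le _ _).trans ?_
      rw [length_prodL, List.length_range, List.length_range]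
      exact H.lp
    rintro Δ3 hΔ3 ⟨⟨a, b⟩, hab, h3⟩
    rw [List.mem_filter, mem_prodL, List.mem_range, List.mem_range] at hab
    obtain ⟨⟨ha, hb⟩, hfl⟩ := hab
    simp only [decide_eq_true_eq] at hfl
    refine (Can.and_elim H.hS _ _ h3).mono le_rfl ?_
    rintro Δ4 _ ⟨h4, h5⟩
    exact Or.inr ⟨a, b, ha, hb, hfl.1, hfl.2.1, hfl.2.2, h4, h5⟩

/-- The relation is injective. -/
theorem KHyp.collision (H : KHyp F n k D M B t S) {Δ : Set (Fm KVar)} {x j x' j' i sl : ℕ}
    (hx : x < n) (hx' : x' < n) (hj : j < D) (hj' : j' < D) (hne : (x, j) ≠ (x', j'))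
    (h : rel n k D (x, j) (i, sl) ∈ Δ) (h' : rel n k D (x', j') (i, sl) ∈ Δ) :
    Can F t S (4 * M + 30) Δ Q := by
  refine Can.weaken (c := (M + 8) + ((M + 8) + (2 * M + 7))) ?_ (by omega)
  refine (H.rel_cases h).bind ?_
  intro Δ1 hΔ1 h1
  refine (H.rel_cases (hΔ1 h')).bind ?_
  intro Δ2 hΔ2 h2
  rcases h1 with ⟨e1, h1⟩ | ⟨a, b, ha, hb, f1, f2, f3, f4, f5⟩
  · rcases h2 with ⟨e2, h2⟩ | ⟨a', b', ha', hb', f1', f2', f3', f4', f5'⟩
    · refine (H.cen_unique hx hx' ?_ (hΔ2 h1) h2).weaken (by omega)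
      rintro rfl
      exact hne (by rw [← e1, ← e2])
    · exact H.cen_tup hx hb' (hΔ2 h1) f5'
  · rcases h2 with ⟨e2, h2⟩ | ⟨a', b', ha', hb', f1', f2', f3', f4', f5'⟩
    · exact H.cen_tup hx' hb h2 (hΔ2 f5)
    · by_cases hbb : b = b'
      · subst hbb
        obtain ⟨rfl, hyy⟩ := code_inj hb f1 f2 f1' f2' (f3.trans f3'.symm)
        by_cases haa : a = a'
        · subst haa
          exfalso
          obtain ⟨⟨hl, _⟩, hnd⟩ := mem_ntup.1 (ntup_getD ha)
          have := getD_inj hnd (by rw [hl]; exact hj) (by rw [hl]; exact hj') hyy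
          exact hne (by rw [this])
        · refine (Can.last_unique H.hS M (by rw [length_nbL]; exact H.lnt) (hΔ2 f4) f4' haa
            (by rw [length_nbL]; exact ha) (by rw [length_nbL]; exact ha')).weaken (by omega)
      · refine (Can.last_unique H.hS M (by rw [length_tupL]; exact H.lt) (hΔ2 f5) f5' hbb
            (by rw [length_tupL]; exact hb) (by rw [length_tupL]; exact hb')).weaken (by omega)

/-- The cost of finding one non-centre with few neighbours. -/
def pickCost (M D : ℕ) : ℕ := 40 * (M + 4) ^ 2 + ((D + 8) * (M + 5) + D + 20 + (4 * M + 30))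

/-- Finding a non-centre with few neighbours outside a small set. -/
theorem KHyp.pick (H : KHyp F n k D M B t S) (C Bl : Finset ℕ) {Δ : Set (Fm KVar)}
    (hC1 : ∀ i ∈ C, Fm.neg (bigOr (cenL n k i)) ∈ Δ) (hC : ∀ i ∈ C, i < nc n k)
    (hBl : ∀ y ∈ Bl, y < n) (hcard : 2 * Bl.card ≤ C.card) :
    Can F t S (pickCost M D) Δ (fun Δ' => ∃ x, x < n ∧ x ∉ Bl ∧ ∃ N : Finset ℕ, N.card < D ∧
      (∀ y ∈ N, y < n) ∧ Fm.neg (centre n k x) ∈ Δ' ∧
      Fm.neg (bigOr (((List.range n).filter fun y => y ∉ N).map (Hf n k x))) ∈ Δ') := by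
  have hk := H.hk
  have h2k := H.h2k
  have hD := H.hD
  have hDp := H.D_pos
  set T2 := ((k + 1) * k) ^ 2 with hT2
  have hT2p : 1 ≤ T2 := by omega
  set xs : List (ℕ × ℕ) := List.product ((List.range n).filter fun y => y ∉ Bl) (List.range D)
    with hxs
  have hxsl : xs.length = (n - Bl.card) * D := by
    rw [hxs, length_prodL, length_filter_notMem n Bl hBl, List.length_range]
  have hysl := length_slots (n := n) (k := k) (D := D) hC
  rw [← hT2] at hysl
  have hCle : C.card ≤ nc n k := by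
    have : C ⊆ Finset.range (nc n k) := fun i hi => Finset.mem_range.2 (hC i hi)
    have := Finset.card_le_card this
    rwa [Finset.card_range] at this
  have hBle : Bl.card ≤ n := by
    have : Bl ⊆ Finset.range n := fun i hi => Finset.mem_range.2 (hBl i hi)
    have := Finset.card_le_card this
    rwa [Finset.card_range] at this
  have hncn : nc n k + 1 ≤ n := by unfold nc; omega
  have hlt : (slots n k D C).length < xs.length := by
    rw [hysl, hxsl, hD]
    have h1 : (nc n k - C.card) * (2 * T2) + C.card * T2 =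
        (2 * (nc n k - C.card) + C.card) * T2 := by ring
    have h2 : (n - Bl.card) * (2 * T2) = (2 * (n - Bl.card)) * T2 := by ring
    rw [h1, h2]
    exact Nat.mul_lt_mul_of_pos_right (by omega) (by omega)
  have hnd : xs.length ≤ n * D := by
    rw [hxsl]; exact Nat.mul_le_mul_right _ (by omega)
  have hyle : (slots n k D C).length ≤ nc n k * D := by
    rw [hysl]
    have h2 : C.card * T2 ≤ C.card * D := Nat.mul_le_mul_left _ (by omega)
    have h3 : (nc n k - C.card) * D + C.card * D = nc n k * D := by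
      rw [← Nat.add_mul]; congr 1; omega
    omega
  unfold pickCost
  refine (Can.php H.hS (fun x y => rel n k D (xs.getD x (0, 0)) ((slots n k D C).getD y (0, 0)))
    hlt (by have := H.lph; omega) (fun x y => H.zB _ _)
    ((phSize_mono hnd hyle).trans H.zph)).bind ?_
  have hmemxs : ∀ x, x < xs.length → (xs.getD x (0, 0)) ∈ xs := by
    intro x hx
    rw [List.getD_eq_getElem?_getD, List.getElem?_eq_getElem hx]
    exact List.getElem_mem hx
  have hxs1 : ∀ p ∈ xs, p.1 < n ∧ p.1 ∉ Bl ∧ p.2 < D := by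
    intro p hp
    obtain ⟨z, j⟩ := p
    rw [hxs, mem_prodL, List.mem_filter, List.mem_range, List.mem_range] at hp
    exact ⟨hp.1.1, by simpa using hp.1.2, hp.2⟩
  rintro Δ1 hΔ1 (⟨x, hx, h1⟩ | ⟨x, x', y, hxx, hx', hy, h1, h2⟩)
  · obtain ⟨g1, g2, g3⟩ := hxs1 _ (hmemxs x hx)
    have e := map_range_getD (slots n k D C) (0, 0) (rel n k D (xs.getD x (0, 0)))
    rw [e] at h1
    refine (H.no_image C (fun i hi => hΔ1 (hC1 i hi)) hC g1 g3 h1).mono (by omega) ?_
    rintro Δ2 _ ⟨N, hN⟩
    exact ⟨_, g1, g2, N, hN⟩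
  · obtain ⟨g1, _, g3⟩ := hxs1 _ (hmemxs x (by omega))
    obtain ⟨g1', _, g3'⟩ := hxs1 _ (hmemxs x' hx')
    refine (H.collision g1 g1' g3 g3' ?_ h1 h2).weaken (by omega)
    intro heq
    have hnodup : xs.Nodup :=
      List.Nodup.product (List.Nodup.filter _ List.nodup_range) List.nodup_range
    have e2 : xs.getD x (0, 0) = xs.getD x' (0, 0) := heq
    rw [List.getD_eq_getElem?_getD, List.getElem?_eq_getElem (by omega : x < xs.length),
      List.getD_eq_getElem?_getD, List.getElem?_eq_getElem hx', Option.getD_some,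
      Option.getD_some] at e2
    have := (List.Nodup.getElem_inj_iff hnodup).1 e2
    omega

/-- There is (provably) no edge from `x` to `y`. -/
def NoEdge (n k : ℕ) (Δ : Set (Fm KVar)) (x y : ℕ) : Prop :=
  ∃ N : Finset ℕ, y ∉ N ∧
    Fm.neg (bigOr (((List.range n).filter fun y => y ∉ N).map (Hf n k x))) ∈ Δ

theorem NoEdge.mono {Δ Δ' : Set (Fm KVar)} (h : Δ ⊆ Δ') {x y : ℕ} (h1 : NoEdge n k Δ x y) :
    NoEdge n k Δ' x y := by
  obtain ⟨N, h2, h3⟩ := h1
  exact ⟨N, h2, h h3⟩

/-- Building an independent set of non-centres. -/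
theorem KHyp.build (H : KHyp F n k D M B t S) (C : Finset ℕ) (hC : ∀ i ∈ C, i < nc n k)
    (hcard : 2 * (k * D) ≤ C.card) (m : ℕ) : m ≤ k → ∀ (Δ : Set (Fm KVar)),
    (∀ i ∈ C, Fm.neg (bigOr (cenL n k i)) ∈ Δ) →
    Can F t S (m * pickCost M D) Δ (fun Δ' => ∃ K Bl : Finset ℕ, K.card = m ∧
      Bl.card ≤ m * D ∧ K ⊆ Bl ∧ (∀ y ∈ Bl, y < n) ∧ (∀ x ∈ K, Fm.neg (centre n k x) ∈ Δ') ∧
      (∀ x ∈ K, ∀ y < n, y ∉ Bl → NoEdge n k Δ' x y) ∧
      (∀ x ∈ K, ∀ y ∈ K, x ≠ y → NoEdge n k Δ' x y ∨ NoEdge n k Δ' y x)) := by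
  induction m with
  | zero =>
    intro _ Δ _
    exact (Can.ret ⟨∅, ∅, by simp⟩).weaken (by omega)
  | succ m ih =>
    intro hm Δ hC1
    rw [show (m + 1) * pickCost M D = m * pickCost M D + pickCost M D by ring]
    refine (ih (by omega) Δ hC1).bind ?_
    rintro Δ1 hΔ1 ⟨K, Bl, g1, g2, g3, g4, g5, g6, g7⟩
    have hb : 2 * Bl.card ≤ C.card := by
      have : m * D ≤ k * D := Nat.mul_le_mul_right _ (by omega)
      omega
    refine (H.pick C Bl (fun i hi => hΔ1 (hC1 i hi)) hC g4 hb).mono le_rfl ?_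
    rintro Δ2 hΔ2 ⟨x, hx, hxB, N, hN1, hN2, hN3, hN4⟩
    have hxK : x ∉ K := fun h => hxB (g3 h)
    refine ⟨insert x K, Bl ∪ insert x N, ?_, ?_, ?_, ?_, ?_, ?_, ?_⟩
    · rw [Finset.card_insert_of_notMem hxK, g1]
    · have h1 := Finset.card_union_le Bl (insert x N)
      have h2 := Finset.card_insert_le x N
      have h3 : (m + 1) * D = m * D + D := by ring
      omega
    · intro y hy
      rcases Finset.mem_insert.1 hy with rfl | hy
      · exact Finset.mem_union_right _ (Finset.mem_insert_self _ _)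
      · exact Finset.mem_union_left _ (g3 hy)
    · intro y hy
      rcases Finset.mem_union.1 hy with hy | hy
      · exact g4 y hy
      · rcases Finset.mem_insert.1 hy with rfl | hy
        · exact hx
        · exact hN2 y hy
    · intro y hy
      rcases Finset.mem_insert.1 hy with rfl | hy
      · exact hN3
      · exact hΔ2 (g5 y hy)
    · intro y hy z hz hzB
      rcases Finset.mem_insert.1 hy with rfl | hy
      · exact ⟨N, fun h => hzB (Finset.mem_union_right _ (Finset.mem_insert_of_mem h)), hN4⟩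
      · exact (g6 y hy z hz (fun h => hzB (Finset.mem_union_left _ h))).mono hΔ2
    · intro y hy z hz hyz
      by_cases hyx : y = x
      · by_cases hzx : z = x
        · exact absurd (hyx.trans hzx.symm) hyz
        · have hz' := (Finset.mem_insert.1 hz).resolve_left hzx
          rw [hyx]
          exact Or.inr ((g6 z hz' x hx hxB).mono hΔ2)
      · have hy' := (Finset.mem_insert.1 hy).resolve_left hyx
        by_cases hzx : z = x
        · rw [hzx]
          exact Or.inl ((g6 y hy' x hx hxB).mono hΔ2)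
        · have hz' := (Finset.mem_insert.1 hz).resolve_left hzx
          exact (g7 y hy' z hz' hyz).imp (NoEdge.mono hΔ2) (NoEdge.mono hΔ2)

/-- A tuple through two points contradicts that there is no edge. -/
theorem KHyp.noEdge_tup (H : KHyp F n k D M B t S) {Δ : Set (Fm KVar)} {x y i j : ℕ}
    (hi : i < nc n k) (hj : j < (vtup n k).length) (hxy : x ≠ y) (hy : y < n)
    (hxf : x ∈ flat n k j) (hyf : y ∈ flat n k j) (h : NoEdge n k Δ x y)
    (h1 : tup n k i j ∈ Δ) : Can F t S (M + 2) Δ Q := by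
  obtain ⟨N, hN1, hN2⟩ := h
  have hyl : y ∈ (List.range n).filter fun y => y ∉ N := by
    rw [List.mem_filter]; exact ⟨List.mem_range.2 hy, by simpa using hN1⟩
  have hsz := size_mem_bigOr (List.mem_map_of_mem (f := Hf n k x) hyl)
  refine Can.weaken (c := 1 + (M + 1)) ?_ (by omega)
  refine (Can.querySub (Hf n k x y) _ hN2 (by simp only [Fm.size]; omega)).bind ?_
  rintro Δ1 hΔ1 (h2 | h2)
  · exact Can.refute' H.hS M ((List.length_filter_le _ _).trans
      (by rw [List.length_range]; exact H.ln)) (hΔ1 hN2) hyl h2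
  · unfold Hf at h2
    rw [if_neg hxy] at h2
    refine Can.refute' H.hS M ?_ h2 (a := (i, j)) ?_ (hΔ1 h1)
    · refine (List.length_filter_le _ _).trans ?_
      rw [length_prodL, List.length_range, List.length_range]
      exact H.lH
    · rw [List.mem_filter, mem_prodL, List.mem_range, List.mem_range]
      exact ⟨⟨hi, hj⟩, by simp [hxf, hyf]⟩

/-- The cost in the case of many colours without centre. -/
def largeCost (M D k : ℕ) : ℕ :=
  k * pickCost M D + ((2 * M + 4) + (1 + ((k + 1) * (M + 4) + (M + k + 10)) + (4 * M + 20)))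

/-- Many colours without centre. -/
theorem KHyp.large (H : KHyp F n k D M B t S) (C : Finset ℕ) (hC : ∀ i ∈ C, i < nc n k)
    (hcard : 2 * (k * D) ≤ C.card) {Δ : Set (Fm KVar)} (hΔ : KBase n k ⊆ Δ)
    (hC1 : ∀ i ∈ C, Fm.neg (bigOr (cenL n k i)) ∈ Δ) :
    Can F t S (largeCost M D k) Δ (fun _ => False) := by
  have hk := H.hk
  unfold largeCost
  refine (H.build C hC hcard k le_rfl Δ hC1).bind ?_
  rintro Δ1 hΔ1 ⟨K, Bl, g1, g2, g3, g4, g5, g6, g7⟩
  have hKv : K ∈ verts n k :=
    mem_verts.2 ⟨fun x hx => Finset.mem_range.2 (g4 x (g3 hx)), g1⟩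
  refine (H.color (hΔ.trans hΔ1) hKv).bind ?_
  rintro Δ2 hΔ2 ⟨i, hi, h1⟩
  refine Can.weaken (c := 1 + (((k + 1) * (M + 4) + (M + k + 10)) + (4 * M + 20))) ?_ (by omega)
  refine (Can.query (bigOr (cenL n k i)) (by have := H.zc i; omega)).bind ?_
  rintro Δ3 hΔ3 (h2 | h2)
  · refine Can.weaken (c := (M + 3) + (2 + (M + 1))) ?_ (by omega)
    refine (H.cen_exists h2).bind ?_
    rintro Δ4 hΔ4 ⟨z, hz, h3⟩
    by_cases hzK : z ∈ K
    · exact (Can.refute' H.hS M (by rw [List.length_range]; exact H.lc)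
        ((hΔ2.trans (hΔ3.trans hΔ4)) (g5 z hzK)) (a := i) (List.mem_range.2 hi) h3).weaken
        (by omega)
    · refine (H.cen_star hz h3).bind ?_
      intro Δ5 hΔ5 h4
      exact H.star_true h4 hKv hzK ((hΔ3.trans (hΔ4.trans hΔ5)) h1)
  · refine (H.tup_exists h2).bind ?_
    rintro Δ4 hΔ4 ⟨j, hj, h3⟩
    obtain ⟨⟨hl, hmem⟩, hemp⟩ := mem_vtup.1 (vtup_getD hj)
    by_cases hdis : ∃ X ∈ (vtup n k).getD j [], Disjoint K X
    · obtain ⟨X, hX, hd⟩ := hdis
      refine Can.weaken (c := (M + 4) + (M + 2)) ?_ (by omega)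
      refine (H.tup_mem hj h3 hX).bind ?_
      intro Δ5 hΔ5 h4
      exact H.clash (hΔ.trans (hΔ1.trans (hΔ2.trans (hΔ3.trans (hΔ4.trans hΔ5))))) hKv
        (hmem X hX) hd hi ((hΔ3.trans (hΔ4.trans hΔ5)) h1) h4
    · push Not at hdis
      -- two points of `K` in the tuple
      obtain ⟨X0, hX0⟩ : ∃ X0, X0 ∈ (vtup n k).getD j [] := by
        have : 0 < ((vtup n k).getD j []).length := by omega
        exact ⟨_, List.getElem_mem this⟩
      obtain ⟨x, hxK, hxX⟩ := Finset.not_disjoint_iff.1 (hdis X0 hX0)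
      have hxn : x < n := g4 x (g3 hxK)
      obtain ⟨X1, hX1, hxX1⟩ := hemp x hxn
      obtain ⟨y, hyK, hyX⟩ := Finset.not_disjoint_iff.1 (hdis X1 hX1)
      have hyn : y < n := g4 y (g3 hyK)
      have hxy : x ≠ y := by rintro rfl; exact hxX1 hyX
      have hxf : x ∈ flat n k j := mem_flat.2 ⟨X0, hX0, hxX⟩
      have hyf : y ∈ flat n k j := mem_flat.2 ⟨X1, hX1, hyX⟩
      have hsub := hΔ2.trans (hΔ3.trans hΔ4)
      rcases g7 x hxK y hyK hxy with h4 | h4
      · exact (H.noEdge_tup hi hj hxy hyn hxf hyf (h4.mono hsub) h3).weaken (by omega)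
      · exact (H.noEdge_tup hi hj hxy.symm hxn hyf hxf (h4.mono hsub) h3).weaken (by omega)

/-- The total cost. -/
def kneserCost (M D k : ℕ) : ℕ :=
  2 + ((2 * (k * D)) * (M + 3) + (largeCost M D k + smallCost M (2 * (k * D)) k))

theorem klabSize_mono {r r' q q' : ℕ} (hr : r ≤ r') (hq : q ≤ q') :
    klabSize r q ≤ klabSize r' q' := by
  unfold klabSize
  have h1 : 2 ^ (r + 1) ≤ 2 ^ (r' + 1) := Nat.pow_le_pow_right (by omega) (by omega)
  have h2 : q * (2 ^ (r + 1) * 2 + 2) ≤ q' * (2 ^ (r' + 1) * 2 + 2) :=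
    Nat.mul_le_mul hq (by omega)
  omega

theorem tuckSize_mono {q q' r r' s s' : ℕ} (hr : r ≤ r') (hq : q ≤ q') (hs : s ≤ s') :
    tuckSize q r s ≤ tuckSize q' r' s' := by
  unfold tuckSize
  refine Nat.mul_le_mul ?_ (Nat.mul_le_mul_right _ ?_)
  · calc (8 * 2 ^ (2 * r)) ^ r ≤ (8 * 2 ^ (2 * r')) ^ r :=
          Nat.pow_le_pow_left (Nat.mul_le_mul_left _ (Nat.pow_le_pow_right (by omega) (by omega))) _
      _ ≤ (8 * 2 ^ (2 * r')) ^ r' := Nat.pow_le_pow_right (by positivity) hr
  · calc ((2 * q + 1) * (s + 3)) ^ r ≤ ((2 * q' + 1) * (s' + 3)) ^ r :=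
          Nat.pow_le_pow_left (Nat.mul_le_mul (by omega) (by omega)) _
      _ ≤ ((2 * q' + 1) * (s' + 3)) ^ r' := Nat.pow_le_pow_right (by positivity) hr

theorem klabCost_mono {r r' q q' c : ℕ} (hr : r ≤ r') (hq : q ≤ q') :
    klabCost r q c ≤ klabCost r' q' c := by
  unfold klabCost; omega

theorem stepCost_mono {r r' m m' c c' : ℕ} (hr : r ≤ r') (hm : m ≤ m') (hc : c ≤ c') :
    stepCost r m c ≤ stepCost r' m' c' := by
  unfold stepCost
  gcongr

theorem tuckCost_mono {r r' m m' c c' : ℕ} (hr : r ≤ r') (hm : m ≤ m') (hc : c ≤ c') :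
    tuckCost r m c ≤ tuckCost r' m' c' := by
  unfold tuckCost
  have := stepCost_mono hr hm hc
  gcongr

theorem smallCost_mono {M K K' k : ℕ} (hK : K ≤ K') : smallCost M K k ≤ smallCost M K' k := by
  unfold smallCost
  refine Nat.add_le_add (Nat.mul_le_mul_right _ (by omega)) ?_
  exact tuckCost_mono (by omega) (by omega) (klabCost_mono (by omega) hK)

/-- The refutation of the negated Kneser-Lovász tautology. -/
theorem KHyp.kneser (H : KHyp F n k D M B t S)
    (ht : 2 * klabSize (2 * (k * D) + (2 * k - 2) + 1) (2 * (k * D)) ≤ t)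
    (ht' : tuckSize (2 * (k * D) + (2 * k - 2)) (2 * (k * D) + (2 * k - 2) + 1)
      (klabSize (2 * (k * D) + (2 * k - 2) + 1) (2 * (k * D))) ≤ t) :
    Ref F t S (kneserCost M D k) {Fm.neg (.imp (conj (vL n k)) (bigOr (eL n k)))} := by
  refine Can.ref ?_
  unfold kneserCost
  refine (Can.imp_false H.hS _ _ (Set.mem_singleton _)).bind ?_
  rintro Δ _ ⟨h1, h2⟩
  have hΔ : KBase n k ⊆ Δ := by
    rintro φ (rfl | rfl)
    · exact h1
    · exact h2
  refine (Can.enumerate H.hS (List.range (nc n k)) (fun i => .neg (bigOr (cenL n k i))) M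
    (by rw [List.length_range]; exact H.lc) H.zs (2 * (k * D))).bind ?_
  rintro Δ1 hΔ1 ⟨C, hC1, hC2, hC3⟩
  have hC : ∀ i ∈ C, i < nc n k := fun i hi => List.mem_range.1 (hC1 i hi).1
  rcases hC3 with hC3 | hC3
  · exact (H.large C hC (by omega) (hΔ.trans hΔ1) (fun i hi => (hC1 i hi).2)).weaken (by omega)
  · have e1 : klabSize (C.card + (2 * k - 2) + 1) C.card ≤
        klabSize (2 * (k * D) + (2 * k - 2) + 1) (2 * (k * D)) := klabSize_mono (by omega) hC2
    refine (H.small C hC (hΔ.trans hΔ1) (fun i hi => (hC1 i hi).2) hC3 (by omega) ?_).weaken ?_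
    · exact (tuckSize_mono (by omega) (by omega) e1).trans ht'
    · have := smallCost_mono (M := M) (k := k) hC2
      omega

end FregeEF
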