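import Pool.Agent.Work.MP_c07f0d_lc.WireDefs

/-!
# Linear nesting rank of a system of extension axioms
-/

namespace FregeEF

/-- No variable of `V` occurs in `φ`. -/
def Fm.FreeOf (V : ℕ → Prop) (φ : Fm ℕ) : Prop := ∀ x, V x → ¬ φ.Occurs x

/-- `Lin V p s φ`: put `û = u` if `p u = true` and `û = ¬ u` if `p u = false`, for the variables
`u` in `V`.  The formula `φ` (if `s = true`), respectively its negation (if `s = false`), is built
from the literals `û` and from arbitrary formulas without variables of `V` by disjunctions, and by
conjunctions in which at most one of the two sides contains variables of `V` (negations and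
implications are read through De Morgan's laws). -/
def Lin (V : ℕ → Prop) (p : ℕ → Bool) : Bool → Fm ℕ → Prop
  | s, .var x => V x → p x = s
  | _, .bot => True
  | s, .neg φ => Lin V p (!s) φ
  | true, .and φ ψ => (Lin V p true φ ∧ ψ.FreeOf V) ∨ (φ.FreeOf V ∧ Lin V p true ψ)
  | false, .and φ ψ => Lin V p false φ ∧ Lin V p false ψ
  | true, .or φ ψ => Lin V p true φ ∧ Lin V p true ψ
  | false, .or φ ψ => (Lin V p false φ ∧ ψ.FreeOf V) ∨ (φ.FreeOf V ∧ Lin V p false ψ)
  | true, .imp φ ψ => Lin V p false φ ∧ Lin V p true ψ
  | false, .imp φ ψ => (Lin V p true φ ∧ ψ.FreeOf V) ∨ (φ.FreeOf V ∧ Lin V p false ψ)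

/-- The system `E` of extension axioms has linear nesting rank at most `r`: the extension variables
can be given levels `0, …, r` and polarities such that, for every axiom `(q, φ)` of `E`, the
extension variables in `φ` have at most the level of `q`, and `φ` (if `q` has polarity `true`) or
its negation (if `q` has polarity `false`) is linear in the extension variables of the level of
`q`. -/
def LinearRankLE (E : List (ℕ × Fm ℕ)) (r : ℕ) : Prop :=
  ∃ (lev : ℕ → ℕ) (p : ℕ → Bool), ∀ a ∈ E, lev a.1 ≤ r ∧
    (∀ x ∈ hd E, a.2.Occurs x → lev x ≤ lev a.1) ∧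
    Lin (fun x => x ∈ hd E ∧ lev x = lev a.1) p (p a.1) a.2

end FregeEF
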