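import Pool.Agent.Work.MP_c07f0d_lc.PVSol
import Pool.Agent.Work.MP_c07f0d_lc.LinDefs

/-!
# Linear formulas: monotonicity and decomposition, proved in Frege systems
-/

namespace FregeEF

variable {α : Type} {F : FregeSystem} {M : ℕ}

theorem pb_bigOr_elim {l : List (Fm α)} {R : Fm α} {s : ℕ} (hM : (bigOr l).size ≤ M)
    (hR : R.size ≤ M) (h : ∀ x ∈ l, F.PB (.imp x R) s) :
    F.PB (.imp (bigOr l) R) ((l.length + 1) * (s + F.K * M)) := by
  have hR1 := R.size_pos
  induction l with
  | nil =>
    have := infer0 (F := F) (.imp .bot (.var 0)) [R] M (by decide)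
      (by intro v h; exact h.elim) (by omega) (by simp; omega)
    exact FregeSystem.PB.mono this (by simp)
  | cons a l ih =>
    have hM' : a.size + (bigOr l).size + 1 ≤ M := by simpa [bigOr, Fm.size] using hM
    have h1 := ih (by omega) (fun x hx => h x (by simp [hx]))
    have h2 := h a (by simp)
    have := infer2 (F := F) (.imp (.var 0) (.var 2)) (.imp (.var 1) (.var 2))
      (.imp (.or (.var 0) (.var 1)) (.var 2)) [a, bigOr l, R] M (by decide)
      (by intro v h h' h0; exact h0.elim h h') (by omega) (by simp; omega) h2 h1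
    refine FregeSystem.PB.mono this (le_of_eq ?_)
    rw [List.length_cons]; ring

theorem pb_bigOr_intro {l : List (Fm α)} {x : Fm α} (hx : x ∈ l) (hM : (bigOr l).size ≤ M) :
    F.PB (.imp x (bigOr l)) (l.length * (F.K * M)) := by
  induction l with
  | nil => simp at hx
  | cons a l ih =>
    have hM' : a.size + (bigOr l).size + 1 ≤ M := by simpa [bigOr, Fm.size] using hM
    have := a.size_pos
    rcases List.mem_cons.1 hx with rfl | hx
    · have := infer0 (F := F) (.imp (.var 0) (.or (.var 0) (.var 1))) [x, bigOr l] M (by decide)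
        (by intro v h; exact Or.inl h) (by omega) (by simp; omega)
      exact FregeSystem.PB.mono this (Nat.le_mul_of_pos_left _ (by simp))
    · have h1 := ih hx (by omega)
      have h2 := size_mem_bigOr hx
      have := infer1 (F := F) (.imp (.var 0) (.var 2)) (.imp (.var 0) (.or (.var 1) (.var 2)))
        [x, a, bigOr l] M (by decide)
        (by intro v h h0; exact Or.inr (h h0)) (by omega) (by simp; omega) h1
      refine FregeSystem.PB.mono this (le_of_eq ?_)
      rw [List.length_cons]; ring

/-- chaining of implications -/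
theorem pb_trans {φ ψ χ : Fm α} {s1 s2 : ℕ} (h1 : F.PB (.imp φ ψ) s1) (h2 : F.PB (.imp ψ χ) s2)
    (m1 : φ.size ≤ M) (m2 : ψ.size ≤ M) (m3 : χ.size ≤ M) :
    F.PB (.imp φ χ) (s1 + s2 + F.K * M) := by
  have := φ.size_pos
  exact infer2 (F := F) (.imp (.var 0) (.var 1)) (.imp (.var 1) (.var 2)) (.imp (.var 0) (.var 2))
    [φ, ψ, χ] M (by decide) (by intro v h h' h0; exact h' (h h0)) (by omega) (by simp; omega) h1 h2

theorem Fm.FreeOf.lin {V : ℕ → Prop} {p : ℕ → Bool} {φ : Fm ℕ} (h : φ.FreeOf V) :
    ∀ s, Lin V p s φ := by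
  induction φ with
  | var x => intro s hx; exact absurd rfl (h x hx)
  | bot => intro s; cases s <;> trivial
  | neg φ ih => intro s; exact ih h (!s)
  | and φ ψ ih1 ih2 =>
    have h1 : φ.FreeOf V := fun x hx h' => h x hx (Or.inl h')
    have h2 : ψ.FreeOf V := fun x hx h' => h x hx (Or.inr h')
    intro s
    cases s
    · exact ⟨ih1 h1 _, ih2 h2 _⟩
    · exact Or.inl ⟨ih1 h1 _, h2⟩
  | or φ ψ ih1 ih2 =>
    have h1 : φ.FreeOf V := fun x hx h' => h x hx (Or.inl h')
    have h2 : ψ.FreeOf V := fun x hx h' => h x hx (Or.inr h')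
    intro s
    cases s
    · exact Or.inl ⟨ih1 h1 _, h2⟩
    · exact ⟨ih1 h1 _, ih2 h2 _⟩
  | imp φ ψ ih1 ih2 =>
    have h1 : φ.FreeOf V := fun x hx h' => h x hx (Or.inl h')
    have h2 : ψ.FreeOf V := fun x hx h' => h x hx (Or.inr h')
    intro s
    cases s
    · exact Or.inl ⟨ih1 h1 _, h2⟩
    · exact ⟨ih1 h1 _, ih2 h2 _⟩

section mono

variable {V : ℕ → Prop} {p : ℕ → Bool} {σ1 σ2 : ℕ → Fm ℕ} {G : Fm ℕ} {s0 : ℕ}

/-- Monotonicity. -/
theorem lin_mono (hG : G.size ≤ M)
    (hlit : ∀ u, V u → F.PB (.imp G (.imp (sg (p u) (σ1 u)) (sg (p u) (σ2 u)))) s0)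
    (hfree : ∀ x, ¬ V x → σ1 x = σ2 x) (φ : Fm ℕ) : ∀ s, Lin V p s φ →
    (φ.subst σ1).size + 1 ≤ M → (φ.subst σ2).size + 1 ≤ M →
    F.PB (.imp G (.imp (sg s (φ.subst σ1)) (sg s (φ.subst σ2)))) (φ.size * (s0 + F.K * M)) := by
  have hG1 := G.size_pos
  have same : ∀ ψ : Fm ℕ, ψ.size ≤ M → F.PB (.imp G (.imp ψ ψ)) (F.K * M) := by
    intro ψ hψ
    exact infer0 (F := F) (.imp (.var 0) (.imp (.var 1) (.var 1))) [G, ψ] M (by decide)
      (by intro v _ h; exact h) (by omega) (by simp; omega)
  induction φ with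
  | var x =>
    intro s h m1 m2
    simp only [Fm.subst, Fm.size, one_mul] at m1 m2 ⊢
    by_cases hV : V x
    · have h1 := h hV
      subst h1
      exact (hlit x hV).mono (by omega)
    · rw [hfree x hV]
      have := size_sg_le s (σ2 x)
      exact (same _ (by omega)).mono (by omega)
  | bot =>
    intro s _ m1 m2
    simp only [Fm.subst, Fm.size] at m1 m2 ⊢
    have := size_sg_le s (Fm.bot : Fm ℕ)
    simp only [Fm.size] at this
    exact (same _ (by omega)).mono (by omega)
  | neg φ ih =>
    intro s h m1 m2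
    simp only [Fm.subst, Fm.size] at m1 m2 ⊢
    have i := ih (!s) h (by omega) (by omega)
    cases s
    · have := infer1 (F := F) (.imp (.var 0) (.imp (.var 1) (.var 2)))
        (.imp (.var 0) (.imp (.neg (.neg (.var 1))) (.neg (.neg (.var 2)))))
        [G, φ.subst σ1, φ.subst σ2] M (by decide)
        (by
          intro v h h0 h1 h2
          exact h1 fun h3 => h2 (h h0 h3)) (by omega) (by simp; omega) i
      refine FregeSystem.PB.mono this ?_
      nlinarith
    · refine FregeSystem.PB.mono i ?_
      nlinarith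
  | and φ ψ ih1 ih2 =>
    intro s h m1 m2
    simp only [Fm.subst, Fm.size] at m1 m2 ⊢
    cases s
    · have i1 := ih1 false h.1 (by omega) (by omega)
      have i2 := ih2 false h.2 (by omega) (by omega)
      have := infer2 (F := F) (.imp (.var 0) (.imp (.neg (.var 1)) (.neg (.var 2))))
        (.imp (.var 0) (.imp (.neg (.var 3)) (.neg (.var 4))))
        (.imp (.var 0) (.imp (.neg (.and (.var 1) (.var 3))) (.neg (.and (.var 2) (.var 4)))))
        [G, φ.subst σ1, φ.subst σ2, ψ.subst σ1, ψ.subst σ2] M (by decide)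
        (by
          intro v h h' h0 h1 h2
          refine h1 ⟨?_, ?_⟩
          · by_contra h3; exact h h0 h3 h2.1
          · by_contra h3; exact h' h0 h3 h2.2) (by omega) (by simp; omega) i1 i2
      refine FregeSystem.PB.mono this ?_
      nlinarith
    · have hl : Lin V p true φ ∧ Lin V p true ψ := by
        rcases h with h | h
        · exact ⟨h.1, h.2.lin _⟩
        · exact ⟨h.1.lin _, h.2⟩
      have i1 := ih1 true hl.1 (by omega) (by omega)
      have i2 := ih2 true hl.2 (by omega) (by omega)
      have := infer2 (F := F) (.imp (.var 0) (.imp (.var 1) (.var 2)))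
        (.imp (.var 0) (.imp (.var 3) (.var 4)))
        (.imp (.var 0) (.imp (.and (.var 1) (.var 3)) (.and (.var 2) (.var 4))))
        [G, φ.subst σ1, φ.subst σ2, ψ.subst σ1, ψ.subst σ2] M (by decide)
        (by
          intro v h h' h0 h1
          exact ⟨h h0 h1.1, h' h0 h1.2⟩) (by omega) (by simp; omega) i1 i2
      refine FregeSystem.PB.mono this ?_
      nlinarith
  | or φ ψ ih1 ih2 =>
    intro s h m1 m2
    simp only [Fm.subst, Fm.size] at m1 m2 ⊢
    cases s
    · have hl : Lin V p false φ ∧ Lin V p false ψ := by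
        rcases h with h | h
        · exact ⟨h.1, h.2.lin _⟩
        · exact ⟨h.1.lin _, h.2⟩
      have i1 := ih1 false hl.1 (by omega) (by omega)
      have i2 := ih2 false hl.2 (by omega) (by omega)
      have := infer2 (F := F) (.imp (.var 0) (.imp (.neg (.var 1)) (.neg (.var 2))))
        (.imp (.var 0) (.imp (.neg (.var 3)) (.neg (.var 4))))
        (.imp (.var 0) (.imp (.neg (.or (.var 1) (.var 3))) (.neg (.or (.var 2) (.var 4)))))
        [G, φ.subst σ1, φ.subst σ2, ψ.subst σ1, ψ.subst σ2] M (by decide)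
        (by
          intro v h h' h0 h1 h2
          rcases h2 with h2 | h2
          · exact h h0 (fun h3 => h1 (Or.inl h3)) h2
          · exact h' h0 (fun h3 => h1 (Or.inr h3)) h2) (by omega) (by simp; omega) i1 i2
      refine FregeSystem.PB.mono this ?_
      nlinarith
    · have i1 := ih1 true h.1 (by omega) (by omega)
      have i2 := ih2 true h.2 (by omega) (by omega)
      have := infer2 (F := F) (.imp (.var 0) (.imp (.var 1) (.var 2)))
        (.imp (.var 0) (.imp (.var 3) (.var 4)))
        (.imp (.var 0) (.imp (.or (.var 1) (.var 3)) (.or (.var 2) (.var 4))))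
        [G, φ.subst σ1, φ.subst σ2, ψ.subst σ1, ψ.subst σ2] M (by decide)
        (by
          intro v h h' h0 h1
          exact h1.imp (h h0) (h' h0)) (by omega) (by simp; omega) i1 i2
      refine FregeSystem.PB.mono this ?_
      nlinarith
  | imp φ ψ ih1 ih2 =>
    intro s h m1 m2
    simp only [Fm.subst, Fm.size] at m1 m2 ⊢
    cases s
    · have hl : Lin V p true φ ∧ Lin V p false ψ := by
        rcases h with h | h
        · exact ⟨h.1, h.2.lin _⟩
        · exact ⟨h.1.lin _, h.2⟩
      have i1 := ih1 true hl.1 (by omega) (by omega)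
      have i2 := ih2 false hl.2 (by omega) (by omega)
      have := infer2 (F := F) (.imp (.var 0) (.imp (.var 1) (.var 2)))
        (.imp (.var 0) (.imp (.neg (.var 3)) (.neg (.var 4))))
        (.imp (.var 0) (.imp (.neg (.imp (.var 1) (.var 3))) (.neg (.imp (.var 2) (.var 4)))))
        [G, φ.subst σ1, φ.subst σ2, ψ.subst σ1, ψ.subst σ2] M (by decide)
        (by
          intro v h h' h0 h1 h2
          refine h1 fun h3 => ?_
          by_contra h4
          exact h' h0 h4 (h2 (h h0 h3))) (by omega) (by simp; omega) i1 i2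
      refine FregeSystem.PB.mono this ?_
      nlinarith
    · have i1 := ih1 false h.1 (by omega) (by omega)
      have i2 := ih2 true h.2 (by omega) (by omega)
      have := infer2 (F := F) (.imp (.var 0) (.imp (.neg (.var 1)) (.neg (.var 2))))
        (.imp (.var 0) (.imp (.var 3) (.var 4)))
        (.imp (.var 0) (.imp (.imp (.var 1) (.var 3)) (.imp (.var 2) (.var 4))))
        [G, φ.subst σ1, φ.subst σ2, ψ.subst σ1, ψ.subst σ2] M (by decide)
        (by
          intro v h h' h0 h1 h2
          refine h' h0 (h1 ?_)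
          by_contra h3
          exact h h0 h3 h2) (by omega) (by simp; omega) i1 i2
      refine FregeSystem.PB.mono this ?_
      nlinarith

end mono

/-! ### Decomposition -/

/-- Make all literals of the variables in `vs` false. -/
noncomputable def zt (vs : List ℕ) (p : ℕ → Bool) (x : ℕ) : Fm ℕ :=
  if x ∈ vs then cst (!p x) else .var x

/-- Make the literal of `u` true and all other literals of the variables in `vs` false. -/
noncomputable def et (vs : List ℕ) (p : ℕ → Bool) (u x : ℕ) : Fm ℕ :=
  if x = u then cst (p u) else zt vs p x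

open Classical in
/-- The coefficient of `u`. -/
noncomputable def cf (vs : List ℕ) (p : ℕ → Bool) (s : Bool) (φ : Fm ℕ) (u : ℕ) : Fm ℕ :=
  if φ.Occurs u then sg s (φ.subst (et vs p u)) else .bot

theorem size_zt_le (vs : List ℕ) (p : ℕ → Bool) (x : ℕ) : (zt vs p x).size ≤ 2 := by
  unfold zt
  split_ifs
  · exact size_cst_le _
  · simp [Fm.size]

theorem size_et_le (vs : List ℕ) (p : ℕ → Bool) (u x : ℕ) : (et vs p u x).size ≤ 2 := by
  unfold et
  split_ifs
  · exact size_cst_le _
  · exact size_zt_le _ _ _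

theorem size_cf_le (vs : List ℕ) (p : ℕ → Bool) (s : Bool) (φ : Fm ℕ) (u : ℕ) :
    (cf vs p s φ u).size ≤ 2 * φ.size + 1 := by
  unfold cf
  split_ifs
  · have h1 := size_sg_le s (φ.subst (et vs p u))
    have h2 := Fm.size_subst_le (et vs p u) 2 (by omega) φ (fun x _ => size_et_le vs p u x)
    omega
  · simp [Fm.size]

section dec

variable {vs : List ℕ} {l : ℕ → Fm ℕ}

theorem dec_sum {X X0 Y Y0 Z Z0 : Fm ℕ} {x y z : ℕ → Fm ℕ} {p1 p2 : ℕ}
    (hX : F.PB (.imp X (.or X0 (bigOr (vs.map fun u => .and (x u) (l u))))) p1)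
    (hY : F.PB (.imp Y (.or Y0 (bigOr (vs.map fun u => .and (y u) (l u))))) p2)
    (hZ : F.PB (.imp Z (.or X Y)) (F.K * M)) (hX0 : F.PB (.imp X0 Z0) (F.K * M))
    (hY0 : F.PB (.imp Y0 Z0) (F.K * M))
    (hx : ∀ u ∈ vs, F.PB (.imp (x u) (z u)) (F.K * M))
    (hy : ∀ u ∈ vs, F.PB (.imp (y u) (z u)) (F.K * M))
    (mX : X.size ≤ M) (mY : Y.size ≤ M) (mZ : Z.size ≤ M) (mX0 : X0.size ≤ M)
    (mY0 : Y0.size ≤ M) (mZ0 : Z0.size ≤ M)
    (mx : (bigOr (vs.map fun u => .and (x u) (l u))).size ≤ M)
    (my : (bigOr (vs.map fun u => .and (y u) (l u))).size ≤ M)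
    (mz : (bigOr (vs.map fun u => .and (z u) (l u))).size ≤ M) :
    F.PB (.imp Z (.or Z0 (bigOr (vs.map fun u => .and (z u) (l u)))))
      (p1 + p2 + 2 * ((vs.length + 1) * ((vs.length + 4) * (F.K * M))) + 6 * (F.K * M)) := by
  have hZ1 := Z.size_pos
  set W := bigOr (vs.map fun u => Fm.and (z u) (l u)) with hW
  have term : ∀ (f : ℕ → Fm ℕ), (∀ u ∈ vs, F.PB (.imp (f u) (z u)) (F.K * M)) →
      (bigOr (vs.map fun u => .and (f u) (l u))).size ≤ M →
      F.PB (.imp (bigOr (vs.map fun u => .and (f u) (l u))) W)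
        ((vs.length + 1) * ((vs.length + 4) * (F.K * M))) := by
    intro f hf mf
    have := pb_bigOr_elim (F := F) (l := vs.map fun u => Fm.and (f u) (l u)) (R := W)
      (s := (vs.length + 3) * (F.K * M)) (M := M) mf mz (by
        intro y hy
        obtain ⟨u, hu, rfl⟩ := List.mem_map.1 hy
        have h1 : F.PB (.imp (.and (z u) (l u)) W)
            ((vs.map fun u => Fm.and (z u) (l u)).length * (F.K * M)) :=
          pb_bigOr_intro (F := F) (M := M)
            (List.mem_map_of_mem (f := fun u => Fm.and (z u) (l u)) hu) mz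
        have s1 : (Fm.and (z u) (l u)).size + 1 ≤ W.size :=
          size_mem_bigOr (List.mem_map_of_mem (f := fun u => Fm.and (z u) (l u)) hu)
        have s2 := size_mem_bigOr (List.mem_map_of_mem (f := fun u => Fm.and (f u) (l u)) hu)
        simp only [Fm.size] at s1 s2
        have h2 := infer1 (F := F) (.imp (.var 0) (.var 1))
          (.imp (.and (.var 0) (.var 2)) (.and (.var 1) (.var 2))) [f u, z u, l u] M (by decide)
          (by intro v h h0; exact ⟨h h0.1, h0.2⟩) (by omega) (by simp; omega) (hf u hu)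
        have h3 : F.PB (.imp (.and (f u) (l u)) W) _ :=
          pb_trans (M := M) (φ := .and (f u) (l u)) (ψ := .and (z u) (l u)) h2 h1
            (by simp only [Fm.size]; omega) (by simp only [Fm.size]; omega) mz
        refine FregeSystem.PB.mono h3 (le_of_eq ?_)
        rw [List.length_map]; ring)
    refine FregeSystem.PB.mono this (le_of_eq ?_)
    rw [List.length_map]; ring
  have tx := term x hx mx
  have ty := term y hy my
  have step1 := F.infer [.imp (.var 0) (.or (.var 1) (.var 2)), .imp (.var 1) (.var 3),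
    .imp (.var 2) (.var 4)] (.imp (.var 0) (.or (.var 3) (.var 4)))
    [X, X0, bigOr (vs.map fun u => .and (x u) (l u)), Z0, W] _ M (by decide)
    (by
      intro v h h0
      have e1 := h _ (List.mem_cons_self ..) h0
      rcases e1 with e1 | e1
      · exact Or.inl (h (.imp (.var 1) (.var 3)) (by simp) e1)
      · exact Or.inr (h (.imp (.var 2) (.var 4)) (by simp) e1))
    (by omega) (by simp; omega) (.cons hX (.cons hX0 (.cons tx .nil)))
  have step2 := F.infer [.imp (.var 0) (.or (.var 1) (.var 2)), .imp (.var 1) (.var 3),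
    .imp (.var 2) (.var 4)] (.imp (.var 0) (.or (.var 3) (.var 4)))
    [Y, Y0, bigOr (vs.map fun u => .and (y u) (l u)), Z0, W] _ M (by decide)
    (by
      intro v h h0
      have e1 := h _ (List.mem_cons_self ..) h0
      rcases e1 with e1 | e1
      · exact Or.inl (h (.imp (.var 1) (.var 3)) (by simp) e1)
      · exact Or.inr (h (.imp (.var 2) (.var 4)) (by simp) e1))
    (by omega) (by simp; omega) (.cons hY (.cons hY0 (.cons ty .nil)))
  have step3 := F.infer [.imp (.var 0) (.or (.var 1) (.var 2)), .imp (.var 1) (.or (.var 3) (.var 4)),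
    .imp (.var 2) (.or (.var 3) (.var 4))] (.imp (.var 0) (.or (.var 3) (.var 4)))
    [Z, X, Y, Z0, W] _ M (by decide)
    (by
      intro v h h0
      have e1 := h _ (List.mem_cons_self ..) h0
      rcases e1 with e1 | e1
      · exact h (.imp (.var 1) (.or (.var 3) (.var 4))) (by simp) e1
      · exact h (.imp (.var 2) (.or (.var 3) (.var 4))) (by simp) e1)
    (by omega) (by simp; omega) (.cons hZ (.cons step1 (.cons step2 .nil)))
  refine FregeSystem.PB.mono step3 (le_of_eq ?_)
  simp only [List.sum_cons, List.sum_nil]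
  ring

theorem dec_prod {X X0 G Z Z0 : Fm ℕ} {x z : ℕ → Fm ℕ} {p1 : ℕ}
    (hX : F.PB (.imp X (.or X0 (bigOr (vs.map fun u => .and (x u) (l u))))) p1)
    (hZX : F.PB (.imp Z X) (F.K * M)) (hZG : F.PB (.imp Z G) (F.K * M))
    (hX0 : F.PB (.imp G (.imp X0 Z0)) (F.K * M))
    (hx : ∀ u ∈ vs, F.PB (.imp G (.imp (x u) (z u))) (F.K * M))
    (mX : X.size ≤ M) (mG : G.size + 1 ≤ M) (mZ : Z.size ≤ M) (mX0 : X0.size ≤ M)
    (mZ0 : Z0.size ≤ M)
    (mx : (bigOr (vs.map fun u => .and (x u) (l u))).size ≤ M)
    (mz : (bigOr (vs.map fun u => .and (z u) (l u))).size + G.size + 1 ≤ M) :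
    F.PB (.imp Z (.or Z0 (bigOr (vs.map fun u => .and (z u) (l u)))))
      (p1 + ((vs.length + 1) * ((vs.length + 3) * (F.K * M))) + 4 * (F.K * M)) := by
  have hZ1 := Z.size_pos
  set W := bigOr (vs.map fun u => Fm.and (z u) (l u)) with hW
  have tx : F.PB (.imp (bigOr (vs.map fun u => .and (x u) (l u))) (.imp G W))
        ((vs.length + 1) * ((vs.length + 3) * (F.K * M))) := by
    have := pb_bigOr_elim (F := F) (l := vs.map fun u => Fm.and (x u) (l u)) (R := .imp G W)
      (s := (vs.length + 2) * (F.K * M)) (M := M) mx (by simp only [Fm.size]; omega) (by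
        intro y hy
        obtain ⟨u, hu, rfl⟩ := List.mem_map.1 hy
        have h1 : F.PB (.imp (.and (z u) (l u)) W) (vs.length * (F.K * M)) := by
          have := pb_bigOr_intro (F := F) (M := M)
            (List.mem_map_of_mem (f := fun u => Fm.and (z u) (l u)) hu)
            (show W.size ≤ M by omega)
          rwa [List.length_map] at this
        have s1 : (Fm.and (z u) (l u)).size + 1 ≤ W.size :=
          size_mem_bigOr (List.mem_map_of_mem (f := fun u => Fm.and (z u) (l u)) hu)
        have s2 := size_mem_bigOr (List.mem_map_of_mem (f := fun u => Fm.and (x u) (l u)) hu)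
        simp only [Fm.size] at s1 s2
        have h2 := infer2 (F := F) (.imp (.var 3) (.imp (.var 0) (.var 1)))
          (.imp (.and (.var 1) (.var 2)) (.var 4))
          (.imp (.and (.var 0) (.var 2)) (.imp (.var 3) (.var 4))) [x u, z u, l u, G, W] M
          (by decide)
          (by intro v h h' h0 h1; exact h' ⟨h h1 h0.1, h0.2⟩) (by omega) (by simp; omega)
          (hx u hu) h1
        refine FregeSystem.PB.mono h2 (le_of_eq ?_)
        ring)
    refine FregeSystem.PB.mono this (le_of_eq ?_)
    rw [List.length_map]; ring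
  have step3 := F.infer [.imp (.var 0) (.or (.var 1) (.var 2)), .imp (.var 5) (.var 0),
    .imp (.var 5) (.var 6), .imp (.var 6) (.imp (.var 1) (.var 3)),
    .imp (.var 2) (.imp (.var 6) (.var 4))] (.imp (.var 5) (.or (.var 3) (.var 4)))
    [X, X0, bigOr (vs.map fun u => .and (x u) (l u)), Z0, W, Z, G] _ M (by decide)
    (by
      intro v h h0
      have e1 := h (.imp (.var 0) (.or (.var 1) (.var 2))) (by simp)
      have e2 := h (.imp (.var 5) (.var 0)) (by simp) h0
      have e3 := h (.imp (.var 5) (.var 6)) (by simp) h0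
      rcases e1 e2 with e1 | e1
      · exact Or.inl (h (.imp (.var 6) (.imp (.var 1) (.var 3))) (by simp) e3 e1)
      · exact Or.inr (h (.imp (.var 2) (.imp (.var 6) (.var 4))) (by simp) e1 e3))
    (by omega) (by simp; omega) (.cons hX (.cons hZX (.cons hZG (.cons hX0 (.cons tx .nil)))))
  refine FregeSystem.PB.mono step3 (le_of_eq ?_)
  simp only [List.sum_cons, List.sum_nil]
  ring

end dec

end FregeEF
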