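import Pool.Agent.Work.MP_c07f0d_lc.LinA

/-!
# Decomposition of linear formulas
-/

namespace FregeEF

variable {F : FregeSystem} {M : ℕ}

theorem cf_occ {vs : List ℕ} {p : ℕ → Bool} {s : Bool} {φ : Fm ℕ} {u : ℕ} (h : φ.Occurs u) :
    cf vs p s φ u = sg s (φ.subst (et vs p u)) := by
  unfold cf; rw [if_pos h]

theorem cf_not {vs : List ℕ} {p : ℕ → Bool} {s : Bool} {φ : Fm ℕ} {u : ℕ} (h : ¬ φ.Occurs u) :
    cf vs p s φ u = .bot := by
  unfold cf; rw [if_neg h]

theorem subst_free {vs : List ℕ} {ψ : Fm ℕ} (h : ψ.FreeOf (· ∈ vs)) {ρ : ℕ → Fm ℕ}
    (hρ : ∀ x, x ∉ vs → ρ x = .var x) : ψ.subst ρ = ψ := by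
  rw [Fm.subst_congr (ρ := fun x => .var x) fun x hx => hρ x fun h' => h x h' hx, Fm.subst_var]

theorem zt_free {vs : List ℕ} {p : ℕ → Bool} {x : ℕ} (h : x ∉ vs) : zt vs p x = .var x := by
  unfold zt; rw [if_neg h]

theorem et_free {vs : List ℕ} {p : ℕ → Bool} {u x : ℕ} (hu : u ∈ vs) (h : x ∉ vs) :
    et vs p u x = .var x := by
  unfold et
  rw [if_neg (by rintro rfl; exact h hu), zt_free h]

section

variable {vs : List ℕ} {p : ℕ → Bool} {σ : ℕ → Fm ℕ} {N b : ℕ}

/-- The cost of one decomposition step. -/
noncomputable def Dc (F : FregeSystem) (n M : ℕ) : ℕ := 2 * ((n + 1) * ((n + 4) * (F.K * M))) + 6 * (F.K * M)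

theorem Dc_prod (F : FregeSystem) (n M : ℕ) :
    (n + 1) * ((n + 3) * (F.K * M)) + 4 * (F.K * M) ≤ Dc F n M := by
  have : (n + 1) * ((n + 3) * (F.K * M)) ≤ (n + 1) * ((n + 4) * (F.K * M)) :=
    Nat.mul_le_mul_left _ (Nat.mul_le_mul_right _ (by omega))
  unfold Dc; omega

theorem Dc_sum (F : FregeSystem) (n M : ℕ) :
    2 * ((n + 1) * ((n + 4) * (F.K * M))) + 6 * (F.K * M) ≤ Dc F n M := le_refl _

theorem Dc_var (F : FregeSystem) (n M : ℕ) : n * (F.K * M) + F.K * M ≤ Dc F n M := by
  have h1 : n * (F.K * M) ≤ (n + 1) * ((n + 4) * (F.K * M)) :=
    Nat.mul_le_mul (by omega) (Nat.le_mul_of_pos_left _ (by omega))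
  unfold Dc; omega

theorem fin_prod {a c D X Y : ℕ} (h : X + Y ≤ D) (hc : a + 1 ≤ c) : a * D + X + Y ≤ c * D := by
  have h1 : (a + 1) * D ≤ c * D := Nat.mul_le_mul_right _ hc
  rw [Nat.add_mul, Nat.one_mul] at h1
  omega

theorem fin_sum {a b c D X Y : ℕ} (h : X + Y ≤ D) (hc : a + b + 1 ≤ c) :
    a * D + b * D + X + Y ≤ c * D := by
  have h1 : (a + b + 1) * D ≤ c * D := Nat.mul_le_mul_right _ hc
  rw [Nat.add_mul, Nat.one_mul, Nat.add_mul] at h1
  omega

theorem size_W (hσ : ∀ x, (σ x).size ≤ b) {f : ℕ → Fm ℕ} {c : ℕ} (hf : ∀ u, (f u).size ≤ c) :
    (bigOr (vs.map fun u => .and (f u) (sg (p u) (σ u)))).size ≤ vs.length * (c + b + 3) + 1 := by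
  have := size_bigOr_le (c + b + 2) (vs.map fun u => .and (f u) (sg (p u) (σ u))) (by
    intro x hx
    obtain ⟨u, hu, rfl⟩ := List.mem_map.1 hx
    have h1 := hf u
    have h2 := size_sg_le (p u) (σ u)
    have h3 := hσ u
    simp only [Fm.size]; omega)
  rwa [List.length_map] at this

/-- Decomposition of a linear formula. -/
theorem lin_dec (hσ : ∀ x, (σ x).size ≤ b) (hσf : ∀ x, x ∉ vs → σ x = .var x)
    (hM : vs.length * (2 * N + b + 4) + 2 * (N * (b + 2)) + 6 * N + 10 ≤ M) (φ : Fm ℕ) :
    ∀ s, Lin (· ∈ vs) p s φ → φ.size ≤ N →
    F.PB (.imp (sg s (φ.subst σ)) (.or (sg s (φ.subst (zt vs p)))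
      (bigOr (vs.map fun u => .and (cf vs p s φ u) (sg (p u) (σ u)))))) (φ.size * Dc F vs.length M) := by
  have hb : 1 ≤ b := (σ 0).size_pos.trans (hσ 0)
  -- sizes
  have sσ : ∀ ψ : Fm ℕ, ψ.size ≤ N → (ψ.subst σ).size ≤ N * b := fun ψ hψ =>
    (Fm.size_subst_le σ b hb ψ (fun x _ => hσ x)).trans (Nat.mul_le_mul_right _ hψ)
  have sz : ∀ ψ : Fm ℕ, ψ.size ≤ N → (ψ.subst (zt vs p)).size ≤ 2 * N := fun ψ hψ => by
    have := Fm.size_subst_le (zt vs p) 2 (by omega) ψ (fun x _ => size_zt_le vs p x)
    omega
  have se : ∀ u, ∀ ψ : Fm ℕ, ψ.size ≤ N → (ψ.subst (et vs p u)).size ≤ 2 * N := fun u ψ hψ => by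
    have := Fm.size_subst_le (et vs p u) 2 (by omega) ψ (fun x _ => size_et_le vs p u x)
    omega
  have sW : ∀ s, ∀ ψ : Fm ℕ, ψ.size ≤ N → (bigOr (vs.map fun u => .and (cf vs p s ψ u)
      (sg (p u) (σ u)))).size ≤ vs.length * (2 * N + b + 4) + 1 := by
    intro s ψ hψ
    have := size_W (vs := vs) (p := p) hσ (f := cf vs p s ψ) (c := 2 * N + 1) (fun u => by
      have := size_cf_le vs p s ψ u
      omega)
    refine this.trans (le_of_eq ?_)
    ring
  have e1 : N * (b + 2) = N * b + 2 * N := by ring
  rw [e1] at hM
  have hD : F.K * M ≤ Dc F vs.length M := by unfold Dc; omega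
  have ssg : ∀ (s : Bool) (ψ : Fm ℕ), (sg s ψ).size ≤ ψ.size + 1 := fun s ψ => size_sg_le s ψ
  induction φ with
  | var x =>
    intro s h hN
    simp only [Fm.size, one_mul]
    by_cases hx : x ∈ vs
    · have hp : p x = s := h hx
      subst hp
      -- the term of x
      have hW := sW (p x) (.var x) hN
      have h1 : F.PB (.imp (.and (cf vs p (p x) (.var x) x) (sg (p x) (σ x)))
          (bigOr (vs.map fun u => .and (cf vs p (p x) (.var x) u) (sg (p u) (σ u)))))
          (vs.length * (F.K * M)) := by
        have := pb_bigOr_intro (F := F) (M := M) (List.mem_map_of_mem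
          (f := fun u => Fm.and (cf vs p (p x) (.var x) u) (sg (p u) (σ u))) hx) (by omega)
        rwa [List.length_map] at this
      have e2 : cf vs p (p x) (.var x) x = .neg .bot := by
        rw [cf_occ (φ := .var x) (show (Fm.var x).Occurs x from rfl)]
        simp only [Fm.subst, et, if_true]
        cases p x <;> rfl
      rw [e2] at h1
      have hN1 : 1 ≤ N := hN
      have hbN : b ≤ N * b := Nat.le_mul_of_pos_left _ hN1
      have s1 := ssg (p x) (σ x)
      have s2 := hσ x
      have s3 := sz (.var x) hN
      have s4 := ssg (p x) ((Fm.var x).subst (zt vs p))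
      have := infer1 (F := F) (.imp (.and (.neg .bot) (.var 0)) (.var 1))
        (.imp (.var 0) (.or (.var 2) (.var 1)))
        [sg (p x) (σ x),
          bigOr (vs.map fun u => .and (cf vs p (p x) (.var x) u) (sg (p u) (σ u))),
          sg (p x) ((Fm.var x).subst (zt vs p))] M (by decide)
        (by intro v h h0; exact Or.inr (h ⟨fun h => h, h0⟩)) (by omega)
        (by simp only [List.mem_cons, List.not_mem_nil, or_false, forall_eq_or_imp, forall_eq]
            refine ⟨?_, ?_, ?_⟩ <;> omega) h1
      exact FregeSystem.PB.mono this (Dc_var _ _ _)
    · have e2 : (Fm.var x).subst σ = .var x := hσf x hx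
      have e3 : (Fm.var x).subst (zt vs p) = .var x := zt_free hx
      rw [e2, e3]
      have hW := sW s (.var x) hN
      have s1 := ssg s (.var x)
      simp only [Fm.size] at s1
      have := infer0 (F := F) (.imp (.var 0) (.or (.var 0) (.var 1)))
        [sg s (.var x), bigOr (vs.map fun u => .and (cf vs p s (.var x) u) (sg (p u) (σ u)))] M
        (by decide) (by intro v h; exact Or.inl h) (by omega) (by simp; omega)
      exact FregeSystem.PB.mono this hD
  | bot =>
    intro s h hN
    simp only [Fm.size, one_mul, Fm.subst] at hN ⊢
    have hW := sW s .bot (by simpa [Fm.size] using hN)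
    have s1 := ssg s (.bot : Fm ℕ)
    simp only [Fm.size] at s1
    have := infer0 (F := F) (.imp (.var 0) (.or (.var 0) (.var 1)))
      [sg s .bot, bigOr (vs.map fun u => .and (cf vs p s .bot u) (sg (p u) (σ u)))] M
      (by decide) (by intro v h; exact Or.inl h) (by omega) (by simp; omega)
    exact FregeSystem.PB.mono this hD
  | neg φ ih =>
    intro s h hN
    have hN' : φ.size ≤ N := by simp only [Fm.size] at hN; omega
    have i := ih (!s) h hN'
    cases s
    · have w1 := sW true φ hN'
      have w2 := sW false (.neg φ) hN
      have a1 := sσ φ hN'
      have a2 := sz φ hN'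
      have := dec_prod (F := F) (M := M) (G := .neg .bot) (Z := .neg (.neg (φ.subst σ)))
        (Z0 := .neg (.neg (φ.subst (zt vs p)))) (z := cf vs p false (.neg φ)) i
        (by
          exact infer0 (F := F) (.imp (.neg (.neg (.var 0))) (.var 0)) [φ.subst σ] M (by decide)
            (by intro v h; exact not_not.1 h) (by omega) (by simp; omega))
        (by
          exact infer0 (F := F) (.imp (.neg (.neg (.var 0))) (.neg .bot)) [φ.subst σ] M (by decide)
            (by intro v _ h; exact h) (by omega) (by simp; omega))
        (by
          exact infer0 (F := F) (.imp (.neg .bot) (.imp (.var 0) (.neg (.neg (.var 0)))))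
            [φ.subst (zt vs p)] M (by decide)
            (by intro v _ h h'; exact h' h) (by omega) (by simp; omega))
        (by
          intro u _
          by_cases ho : φ.Occurs u
          · rw [cf_occ ho, cf_occ (φ := .neg φ) ho]
            have a3 := se u φ hN'
            exact infer0 (F := F) (.imp (.neg .bot) (.imp (.var 0) (.neg (.neg (.var 0)))))
              [φ.subst (et vs p u)] M (by decide)
              (by intro v _ h h'; exact h' h) (by omega) (by simp; omega)
          · rw [Bool.not_false, cf_not ho]
            have a3 := size_cf_le vs p false (.neg φ) u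
            exact infer0 (F := F) (.imp (.neg .bot) (.imp .bot (.var 0)))
              [cf vs p false (.neg φ) u] M (by decide)
              (by intro v _ h; exact h.elim) (by omega) (by simp; omega))
        (by simp only [Bool.not_false, sg_true]; omega) (by simp only [Fm.size]; omega)
        (by simp only [Fm.size]; omega)
        (by simp only [Bool.not_false, sg_true]; omega) (by simp only [Fm.size]; omega)
        (by simp only [Bool.not_false]; omega) (by simp only [Fm.size]; omega)
      refine FregeSystem.PB.mono this ?_
      simp only [Fm.size]
      exact fin_prod (Dc_prod _ _ _) (by omega)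
    · refine FregeSystem.PB.mono i (Nat.mul_le_mul_right _ ?_)
      simp only [Fm.size]
      omega
  | and φ ψ ih1 ih2 =>
    intro s h hN
    have hN1 : φ.size ≤ N := by simp only [Fm.size] at hN; omega
    have hN2 : ψ.size ≤ N := by simp only [Fm.size] at hN; omega
    have w3 := sW s (.and φ ψ) hN
    have a1 := sσ φ hN1
    have a2 := sz φ hN1
    have b1 := sσ ψ hN2
    have b2 := sz ψ hN2
    cases s
    · have i1 := ih1 false h.1 hN1
      have i2 := ih2 false h.2 hN2
      have w1 := sW false φ hN1
      have w2 := sW false ψ hN2
      have := dec_sum (F := F) (M := M) (Z := .neg (.and (φ.subst σ) (ψ.subst σ)))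
        (Z0 := .neg (.and (φ.subst (zt vs p)) (ψ.subst (zt vs p))))
        (z := cf vs p false (.and φ ψ)) i1 i2
        (by
          exact infer0 (F := F) (.imp (.neg (.and (.var 0) (.var 1)))
            (.or (.neg (.var 0)) (.neg (.var 1)))) [φ.subst σ, ψ.subst σ] M (by decide)
            (by intro v h; exact not_and_or.1 h) (by omega) (by simp; omega))
        (by
          exact infer0 (F := F) (.imp (.neg (.var 0)) (.neg (.and (.var 0) (.var 1))))
            [φ.subst (zt vs p), ψ.subst (zt vs p)] M (by decide)
            (by intro v h h'; exact h h'.1) (by omega) (by simp; omega))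
        (by
          exact infer0 (F := F) (.imp (.neg (.var 1)) (.neg (.and (.var 0) (.var 1))))
            [φ.subst (zt vs p), ψ.subst (zt vs p)] M (by decide)
            (by intro v h h'; exact h h'.2) (by omega) (by simp; omega))
        (by
          intro u _
          have a3 := se u φ hN1
          have b3 := se u ψ hN2
          by_cases ho : φ.Occurs u
          · rw [cf_occ ho, cf_occ (φ := .and φ ψ) (Or.inl ho)]
            exact infer0 (F := F) (.imp (.neg (.var 0)) (.neg (.and (.var 0) (.var 1))))
              [φ.subst (et vs p u), ψ.subst (et vs p u)] M (by decide)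
              (by intro v h h'; exact h h'.1) (by omega) (by simp; omega)
          · rw [cf_not ho]
            have a4 := size_cf_le vs p false (.and φ ψ) u
            exact infer0 (F := F) (.imp .bot (.var 0)) [cf vs p false (.and φ ψ) u] M (by decide)
              (by intro v h; exact h.elim) (by omega) (by simp; omega))
        (by
          intro u _
          have a3 := se u φ hN1
          have b3 := se u ψ hN2
          by_cases ho : ψ.Occurs u
          · rw [cf_occ ho, cf_occ (φ := .and φ ψ) (Or.inr ho)]
            exact infer0 (F := F) (.imp (.neg (.var 1)) (.neg (.and (.var 0) (.var 1))))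
              [φ.subst (et vs p u), ψ.subst (et vs p u)] M (by decide)
              (by intro v h h'; exact h h'.2) (by omega) (by simp; omega)
          · rw [cf_not ho]
            have a4 := size_cf_le vs p false (.and φ ψ) u
            exact infer0 (F := F) (.imp .bot (.var 0)) [cf vs p false (.and φ ψ) u] M (by decide)
              (by intro v h; exact h.elim) (by omega) (by simp; omega))
        (by simp only [sg_false, Fm.size]; omega) (by simp only [sg_false, Fm.size]; omega)
        (by simp only [Fm.size]; omega) (by simp only [sg_false, Fm.size]; omega)
        (by simp only [sg_false, Fm.size]; omega) (by simp only [Fm.size]; omega)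
        (by omega) (by omega) (by omega)
      refine FregeSystem.PB.mono this ?_
      simp only [Fm.size]
      exact fin_sum (Dc_sum _ _ _) (by omega)
    · rcases h with ⟨h1, h2⟩ | ⟨h1, h2⟩
      · have i := ih1 true h1 hN1
        have w1 := sW true φ hN1
        have q1 : ψ.subst σ = ψ := subst_free h2 hσf
        have q2 : ψ.subst (zt vs p) = ψ := subst_free h2 fun x hx => zt_free hx
        have := dec_prod (F := F) (M := M) (G := ψ) (Z := .and (φ.subst σ) ψ)
          (Z0 := .and (φ.subst (zt vs p)) ψ) (z := cf vs p true (.and φ ψ)) i
          (by
            exact infer0 (F := F) (.imp (.and (.var 0) (.var 1)) (.var 0)) [φ.subst σ, ψ] M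
              (by decide) (by intro v h; exact h.1) (by omega) (by simp; omega))
          (by
            exact infer0 (F := F) (.imp (.and (.var 0) (.var 1)) (.var 1)) [φ.subst σ, ψ] M
              (by decide) (by intro v h; exact h.2) (by omega) (by simp; omega))
          (by
            exact infer0 (F := F) (.imp (.var 1) (.imp (.var 0) (.and (.var 0) (.var 1))))
              [φ.subst (zt vs p), ψ] M (by decide)
              (by intro v h h'; exact ⟨h', h⟩) (by omega) (by simp; omega))
          (by
            intro u hu
            have a3 := se u φ hN1
            by_cases ho : φ.Occurs u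
            · rw [cf_occ ho, cf_occ (φ := .and φ ψ) (Or.inl ho)]
              have q3 : ψ.subst (et vs p u) = ψ := subst_free h2 fun x hx => et_free hu hx
              simp only [sg_true, Fm.subst]
              rw [q3]
              exact infer0 (F := F) (.imp (.var 1) (.imp (.var 0) (.and (.var 0) (.var 1))))
                [φ.subst (et vs p u), ψ] M (by decide)
                (by intro v h h'; exact ⟨h', h⟩) (by omega) (by simp; omega)
            · rw [cf_not ho]
              have a4 := size_cf_le vs p true (.and φ ψ) u
              exact infer0 (F := F) (.imp (.var 1) (.imp .bot (.var 0)))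
                [cf vs p true (.and φ ψ) u, ψ] M (by decide)
                (by intro v _ h; exact h.elim) (by omega) (by simp; omega))
          (by simp only [sg_true]; omega) (by omega)
          (by simp only [Fm.size]; omega) (by simp only [sg_true]; omega)
          (by simp only [Fm.size]; omega) (by omega) (by omega)
        simp only [sg_true, Fm.subst, q1, q2]
        refine FregeSystem.PB.mono this ?_
        simp only [Fm.size]
        exact fin_prod (Dc_prod _ _ _) (by omega)
      · have i := ih2 true h2 hN2
        have w1 := sW true ψ hN2
        have q1 : φ.subst σ = φ := subst_free h1 hσf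
        have q2 : φ.subst (zt vs p) = φ := subst_free h1 fun x hx => zt_free hx
        have := dec_prod (F := F) (M := M) (G := φ) (Z := .and φ (ψ.subst σ))
          (Z0 := .and φ (ψ.subst (zt vs p))) (z := cf vs p true (.and φ ψ)) i
          (by
            exact infer0 (F := F) (.imp (.and (.var 0) (.var 1)) (.var 1)) [φ, ψ.subst σ] M
              (by decide) (by intro v h; exact h.2) (by omega) (by simp; omega))
          (by
            exact infer0 (F := F) (.imp (.and (.var 0) (.var 1)) (.var 0)) [φ, ψ.subst σ] M
              (by decide) (by intro v h; exact h.1) (by omega) (by simp; omega))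
          (by
            exact infer0 (F := F) (.imp (.var 1) (.imp (.var 0) (.and (.var 1) (.var 0))))
              [ψ.subst (zt vs p), φ] M (by decide)
              (by intro v h h'; exact ⟨h, h'⟩) (by omega) (by simp; omega))
          (by
            intro u hu
            have a3 := se u ψ hN2
            by_cases ho : ψ.Occurs u
            · rw [cf_occ ho, cf_occ (φ := .and φ ψ) (Or.inr ho)]
              have q3 : φ.subst (et vs p u) = φ := subst_free h1 fun x hx => et_free hu hx
              simp only [sg_true, Fm.subst]
              rw [q3]
              exact infer0 (F := F) (.imp (.var 1) (.imp (.var 0) (.and (.var 1) (.var 0))))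
                [ψ.subst (et vs p u), φ] M (by decide)
                (by intro v h h'; exact ⟨h, h'⟩) (by omega) (by simp; omega)
            · rw [cf_not ho]
              have a4 := size_cf_le vs p true (.and φ ψ) u
              exact infer0 (F := F) (.imp (.var 1) (.imp .bot (.var 0)))
                [cf vs p true (.and φ ψ) u, φ] M (by decide)
                (by intro v _ h; exact h.elim) (by omega) (by simp; omega))
          (by simp only [sg_true]; omega) (by omega)
          (by simp only [Fm.size]; omega) (by simp only [sg_true]; omega)
          (by simp only [Fm.size]; omega) (by omega) (by omega)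
        simp only [sg_true, Fm.subst, q1, q2]
        refine FregeSystem.PB.mono this ?_
        simp only [Fm.size]
        exact fin_prod (Dc_prod _ _ _) (by omega)
  | or φ ψ ih1 ih2 =>
    intro s h hN
    have hN1 : φ.size ≤ N := by simp only [Fm.size] at hN; omega
    have hN2 : ψ.size ≤ N := by simp only [Fm.size] at hN; omega
    have w3 := sW s (.or φ ψ) hN
    have a1 := sσ φ hN1
    have a2 := sz φ hN1
    have b1 := sσ ψ hN2
    have b2 := sz ψ hN2
    cases s
    · rcases h with ⟨h1, h2⟩ | ⟨h1, h2⟩
      · have i := ih1 false h1 hN1
        have w1 := sW false φ hN1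
        have q1 : ψ.subst σ = ψ := subst_free h2 hσf
        have q2 : ψ.subst (zt vs p) = ψ := subst_free h2 fun x hx => zt_free hx
        have := dec_prod (F := F) (M := M) (G := .neg ψ) (Z := .neg (.or (φ.subst σ) ψ))
          (Z0 := .neg (.or (φ.subst (zt vs p)) ψ)) (z := cf vs p false (.or φ ψ)) i
          (by
            exact infer0 (F := F) (.imp (.neg (.or (.var 0) (.var 1))) (.neg (.var 0)))
              [φ.subst σ, ψ] M
              (by decide) (by intro v h h'; exact h (Or.inl h')) (by omega) (by simp; omega))
          (by
            exact infer0 (F := F) (.imp (.neg (.or (.var 0) (.var 1))) (.neg (.var 1)))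
              [φ.subst σ, ψ] M
              (by decide) (by intro v h h'; exact h (Or.inr h')) (by omega) (by simp; omega))
          (by
            exact infer0 (F := F) (.imp (.neg (.var 1)) (.imp (.neg (.var 0))
              (.neg (.or (.var 0) (.var 1)))))
              [φ.subst (zt vs p), ψ] M (by decide)
              (by intro v h h' h''; exact h''.elim h' h) (by omega) (by simp; omega))
          (by
            intro u hu
            have a3 := se u φ hN1
            by_cases ho : φ.Occurs u
            · rw [cf_occ ho, cf_occ (φ := .or φ ψ) (Or.inl ho)]
              have q3 : ψ.subst (et vs p u) = ψ := subst_free h2 fun x hx => et_free hu hx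
              simp only [sg_false, Fm.subst]
              rw [q3]
              exact infer0 (F := F) (.imp (.neg (.var 1)) (.imp (.neg (.var 0))
                (.neg (.or (.var 0) (.var 1)))))
                [φ.subst (et vs p u), ψ] M (by decide)
                (by intro v h h' h''; exact h''.elim h' h) (by omega) (by simp; omega)
            · rw [cf_not ho]
              have a4 := size_cf_le vs p false (.or φ ψ) u
              exact infer0 (F := F) (.imp (.neg (.var 1)) (.imp .bot (.var 0)))
                [cf vs p false (.or φ ψ) u, ψ] M (by decide)
                (by intro v _ h; exact h.elim) (by omega) (by simp; omega))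
          (by simp only [sg_false, Fm.size]; omega) (by simp only [Fm.size]; omega)
          (by simp only [Fm.size]; omega) (by simp only [sg_false, Fm.size]; omega)
          (by simp only [Fm.size]; omega) (by omega) (by simp only [Fm.size]; omega)
        simp only [sg_false, Fm.subst, q1, q2]
        refine FregeSystem.PB.mono this ?_
        simp only [Fm.size]
        exact fin_prod (Dc_prod _ _ _) (by omega)
      · have i := ih2 false h2 hN2
        have w1 := sW false ψ hN2
        have q1 : φ.subst σ = φ := subst_free h1 hσf
        have q2 : φ.subst (zt vs p) = φ := subst_free h1 fun x hx => zt_free hx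
        have := dec_prod (F := F) (M := M) (G := .neg φ) (Z := .neg (.or φ (ψ.subst σ)))
          (Z0 := .neg (.or φ (ψ.subst (zt vs p)))) (z := cf vs p false (.or φ ψ)) i
          (by
            exact infer0 (F := F) (.imp (.neg (.or (.var 0) (.var 1))) (.neg (.var 1)))
              [φ, ψ.subst σ] M
              (by decide) (by intro v h h'; exact h (Or.inr h')) (by omega) (by simp; omega))
          (by
            exact infer0 (F := F) (.imp (.neg (.or (.var 0) (.var 1))) (.neg (.var 0)))
              [φ, ψ.subst σ] M
              (by decide) (by intro v h h'; exact h (Or.inl h')) (by omega) (by simp; omega))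
          (by
            exact infer0 (F := F) (.imp (.neg (.var 1)) (.imp (.neg (.var 0))
              (.neg (.or (.var 1) (.var 0)))))
              [ψ.subst (zt vs p), φ] M (by decide)
              (by intro v h h' h''; exact h''.elim h h') (by omega) (by simp; omega))
          (by
            intro u hu
            have a3 := se u ψ hN2
            by_cases ho : ψ.Occurs u
            · rw [cf_occ ho, cf_occ (φ := .or φ ψ) (Or.inr ho)]
              have q3 : φ.subst (et vs p u) = φ := subst_free h1 fun x hx => et_free hu hx
              simp only [sg_false, Fm.subst]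
              rw [q3]
              exact infer0 (F := F) (.imp (.neg (.var 1)) (.imp (.neg (.var 0))
                (.neg (.or (.var 1) (.var 0)))))
                [ψ.subst (et vs p u), φ] M (by decide)
                (by intro v h h' h''; exact h''.elim h h') (by omega) (by simp; omega)
            · rw [cf_not ho]
              have a4 := size_cf_le vs p false (.or φ ψ) u
              exact infer0 (F := F) (.imp (.neg (.var 1)) (.imp .bot (.var 0)))
                [cf vs p false (.or φ ψ) u, φ] M (by decide)
                (by intro v _ h; exact h.elim) (by omega) (by simp; omega))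
          (by simp only [sg_false, Fm.size]; omega) (by simp only [Fm.size]; omega)
          (by simp only [Fm.size]; omega) (by simp only [sg_false, Fm.size]; omega)
          (by simp only [Fm.size]; omega) (by omega) (by simp only [Fm.size]; omega)
        simp only [sg_false, Fm.subst, q1, q2]
        refine FregeSystem.PB.mono this ?_
        simp only [Fm.size]
        exact fin_prod (Dc_prod _ _ _) (by omega)
    · have i1 := ih1 true h.1 hN1
      have i2 := ih2 true h.2 hN2
      have w1 := sW true φ hN1
      have w2 := sW true ψ hN2
      have := dec_sum (F := F) (M := M) (Z := .or (φ.subst σ) (ψ.subst σ))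
        (Z0 := .or (φ.subst (zt vs p)) (ψ.subst (zt vs p)))
        (z := cf vs p true (.or φ ψ)) i1 i2
        (by
          exact infer0 (F := F) (.imp (.or (.var 0) (.var 1)) (.or (.var 0) (.var 1)))
            [φ.subst σ, ψ.subst σ] M (by decide)
            (by intro v h; exact h) (by omega) (by simp; omega))
        (by
          exact infer0 (F := F) (.imp (.var 0) (.or (.var 0) (.var 1)))
            [φ.subst (zt vs p), ψ.subst (zt vs p)] M (by decide)
            (by intro v h; exact Or.inl h) (by omega) (by simp; omega))
        (by
          exact infer0 (F := F) (.imp (.var 1) (.or (.var 0) (.var 1)))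
            [φ.subst (zt vs p), ψ.subst (zt vs p)] M (by decide)
            (by intro v h; exact Or.inr h) (by omega) (by simp; omega))
        (by
          intro u _
          have a3 := se u φ hN1
          have b3 := se u ψ hN2
          by_cases ho : φ.Occurs u
          · rw [cf_occ ho, cf_occ (φ := .or φ ψ) (Or.inl ho)]
            exact infer0 (F := F) (.imp (.var 0) (.or (.var 0) (.var 1)))
              [φ.subst (et vs p u), ψ.subst (et vs p u)] M (by decide)
              (by intro v h; exact Or.inl h) (by omega) (by simp; omega)
          · rw [cf_not ho]
            have a4 := size_cf_le vs p true (.or φ ψ) u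
            exact infer0 (F := F) (.imp .bot (.var 0)) [cf vs p true (.or φ ψ) u] M (by decide)
              (by intro v h; exact h.elim) (by omega) (by simp; omega))
        (by
          intro u _
          have a3 := se u φ hN1
          have b3 := se u ψ hN2
          by_cases ho : ψ.Occurs u
          · rw [cf_occ ho, cf_occ (φ := .or φ ψ) (Or.inr ho)]
            exact infer0 (F := F) (.imp (.var 1) (.or (.var 0) (.var 1)))
              [φ.subst (et vs p u), ψ.subst (et vs p u)] M (by decide)
              (by intro v h; exact Or.inr h) (by omega) (by simp; omega)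
          · rw [cf_not ho]
            have a4 := size_cf_le vs p true (.or φ ψ) u
            exact infer0 (F := F) (.imp .bot (.var 0)) [cf vs p true (.or φ ψ) u] M (by decide)
              (by intro v h; exact h.elim) (by omega) (by simp; omega))
        (by simp only [sg_true]; omega) (by simp only [sg_true]; omega)
        (by simp only [Fm.size]; omega) (by simp only [sg_true]; omega)
        (by simp only [sg_true]; omega) (by simp only [Fm.size]; omega)
        (by omega) (by omega) (by omega)
      refine FregeSystem.PB.mono this ?_
      simp only [Fm.size]
      exact fin_sum (Dc_sum _ _ _) (by omega)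
  | imp φ ψ ih1 ih2 =>
    intro s h hN
    have hN1 : φ.size ≤ N := by simp only [Fm.size] at hN; omega
    have hN2 : ψ.size ≤ N := by simp only [Fm.size] at hN; omega
    have w3 := sW s (.imp φ ψ) hN
    have a1 := sσ φ hN1
    have a2 := sz φ hN1
    have b1 := sσ ψ hN2
    have b2 := sz ψ hN2
    cases s
    · rcases h with ⟨h1, h2⟩ | ⟨h1, h2⟩
      · have i := ih1 true h1 hN1
        have w1 := sW true φ hN1
        have q1 : ψ.subst σ = ψ := subst_free h2 hσf
        have q2 : ψ.subst (zt vs p) = ψ := subst_free h2 fun x hx => zt_free hx
        have := dec_prod (F := F) (M := M) (G := .neg ψ) (Z := .neg (.imp (φ.subst σ) ψ))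
          (Z0 := .neg (.imp (φ.subst (zt vs p)) ψ)) (z := cf vs p false (.imp φ ψ)) i
          (by
            exact infer0 (F := F) (.imp (.neg (.imp (.var 0) (.var 1))) (.var 0))
              [φ.subst σ, ψ] M
              (by decide)
              (by intro v h; by_contra h'; exact h fun h'' => absurd h'' h') (by omega)
              (by simp; omega))
          (by
            exact infer0 (F := F) (.imp (.neg (.imp (.var 0) (.var 1))) (.neg (.var 1)))
              [φ.subst σ, ψ] M
              (by decide) (by intro v h h'; exact h fun _ => h') (by omega) (by simp; omega))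
          (by
            exact infer0 (F := F) (.imp (.neg (.var 1)) (.imp (.var 0)
              (.neg (.imp (.var 0) (.var 1)))))
              [φ.subst (zt vs p), ψ] M (by decide)
              (by intro v h h' h''; exact h (h'' h')) (by omega) (by simp; omega))
          (by
            intro u hu
            have a3 := se u φ hN1
            by_cases ho : φ.Occurs u
            · rw [cf_occ ho, cf_occ (φ := .imp φ ψ) (Or.inl ho)]
              have q3 : ψ.subst (et vs p u) = ψ := subst_free h2 fun x hx => et_free hu hx
              simp only [sg_false, sg_true, Fm.subst]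
              rw [q3]
              exact infer0 (F := F) (.imp (.neg (.var 1)) (.imp (.var 0)
                (.neg (.imp (.var 0) (.var 1)))))
                [φ.subst (et vs p u), ψ] M (by decide)
                (by intro v h h' h''; exact h (h'' h')) (by omega) (by simp; omega)
            · rw [cf_not ho]
              have a4 := size_cf_le vs p false (.imp φ ψ) u
              exact infer0 (F := F) (.imp (.neg (.var 1)) (.imp .bot (.var 0)))
                [cf vs p false (.imp φ ψ) u, ψ] M (by decide)
                (by intro v _ h; exact h.elim) (by omega) (by simp; omega))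
          (by simp only [sg_true]; omega) (by simp only [Fm.size]; omega)
          (by simp only [Fm.size]; omega) (by simp only [sg_true]; omega)
          (by simp only [Fm.size]; omega) (by omega) (by simp only [Fm.size]; omega)
        simp only [sg_false, Fm.subst, q1, q2]
        refine FregeSystem.PB.mono this ?_
        simp only [Fm.size]
        exact fin_prod (Dc_prod _ _ _) (by omega)
      · have i := ih2 false h2 hN2
        have w1 := sW false ψ hN2
        have q1 : φ.subst σ = φ := subst_free h1 hσf
        have q2 : φ.subst (zt vs p) = φ := subst_free h1 fun x hx => zt_free hx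
        have := dec_prod (F := F) (M := M) (G := φ) (Z := .neg (.imp φ (ψ.subst σ)))
          (Z0 := .neg (.imp φ (ψ.subst (zt vs p)))) (z := cf vs p false (.imp φ ψ)) i
          (by
            exact infer0 (F := F) (.imp (.neg (.imp (.var 0) (.var 1))) (.neg (.var 1)))
              [φ, ψ.subst σ] M
              (by decide) (by intro v h h'; exact h fun _ => h') (by omega) (by simp; omega))
          (by
            exact infer0 (F := F) (.imp (.neg (.imp (.var 0) (.var 1))) (.var 0))
              [φ, ψ.subst σ] M
              (by decide)
              (by intro v h; by_contra h'; exact h fun h'' => absurd h'' h') (by omega)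
              (by simp; omega))
          (by
            exact infer0 (F := F) (.imp (.var 1) (.imp (.neg (.var 0))
              (.neg (.imp (.var 1) (.var 0)))))
              [ψ.subst (zt vs p), φ] M (by decide)
              (by intro v h h' h''; exact h' (h'' h)) (by omega) (by simp; omega))
          (by
            intro u hu
            have a3 := se u ψ hN2
            by_cases ho : ψ.Occurs u
            · rw [cf_occ ho, cf_occ (φ := .imp φ ψ) (Or.inr ho)]
              have q3 : φ.subst (et vs p u) = φ := subst_free h1 fun x hx => et_free hu hx
              simp only [sg_false, Fm.subst]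
              rw [q3]
              exact infer0 (F := F) (.imp (.var 1) (.imp (.neg (.var 0))
                (.neg (.imp (.var 1) (.var 0)))))
                [ψ.subst (et vs p u), φ] M (by decide)
                (by intro v h h' h''; exact h' (h'' h)) (by omega) (by simp; omega)
            · rw [cf_not ho]
              have a4 := size_cf_le vs p false (.imp φ ψ) u
              exact infer0 (F := F) (.imp (.var 1) (.imp .bot (.var 0)))
                [cf vs p false (.imp φ ψ) u, φ] M (by decide)
                (by intro v _ h; exact h.elim) (by omega) (by simp; omega))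
          (by simp only [sg_false, Fm.size]; omega) (by omega)
          (by simp only [Fm.size]; omega) (by simp only [sg_false, Fm.size]; omega)
          (by simp only [Fm.size]; omega) (by omega) (by omega)
        simp only [sg_false, Fm.subst, q1, q2]
        refine FregeSystem.PB.mono this ?_
        simp only [Fm.size]
        exact fin_prod (Dc_prod _ _ _) (by omega)
    · have i1 := ih1 false h.1 hN1
      have i2 := ih2 true h.2 hN2
      have w1 := sW false φ hN1
      have w2 := sW true ψ hN2
      have := dec_sum (F := F) (M := M) (Z := .imp (φ.subst σ) (ψ.subst σ))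
        (Z0 := .imp (φ.subst (zt vs p)) (ψ.subst (zt vs p)))
        (z := cf vs p true (.imp φ ψ)) i1 i2
        (by
          exact infer0 (F := F) (.imp (.imp (.var 0) (.var 1)) (.or (.neg (.var 0)) (.var 1)))
            [φ.subst σ, ψ.subst σ] M (by decide)
            (by
              intro v h
              by_cases h' : v 0
              · exact Or.inr (h h')
              · exact Or.inl h') (by omega) (by simp; omega))
        (by
          exact infer0 (F := F) (.imp (.neg (.var 0)) (.imp (.var 0) (.var 1)))
            [φ.subst (zt vs p), ψ.subst (zt vs p)] M (by decide)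
            (by intro v h h'; exact absurd h' h) (by omega) (by simp; omega))
        (by
          exact infer0 (F := F) (.imp (.var 1) (.imp (.var 0) (.var 1)))
            [φ.subst (zt vs p), ψ.subst (zt vs p)] M (by decide)
            (by intro v h _; exact h) (by omega) (by simp; omega))
        (by
          intro u _
          have a3 := se u φ hN1
          have b3 := se u ψ hN2
          by_cases ho : φ.Occurs u
          · rw [cf_occ ho, cf_occ (φ := .imp φ ψ) (Or.inl ho)]
            exact infer0 (F := F) (.imp (.neg (.var 0)) (.imp (.var 0) (.var 1)))
              [φ.subst (et vs p u), ψ.subst (et vs p u)] M (by decide)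
              (by intro v h h'; exact absurd h' h) (by omega) (by simp; omega)
          · rw [cf_not ho]
            have a4 := size_cf_le vs p true (.imp φ ψ) u
            exact infer0 (F := F) (.imp .bot (.var 0)) [cf vs p true (.imp φ ψ) u] M (by decide)
              (by intro v h; exact h.elim) (by omega) (by simp; omega))
        (by
          intro u _
          have a3 := se u φ hN1
          have b3 := se u ψ hN2
          by_cases ho : ψ.Occurs u
          · rw [cf_occ ho, cf_occ (φ := .imp φ ψ) (Or.inr ho)]
            exact infer0 (F := F) (.imp (.var 1) (.imp (.var 0) (.var 1)))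
              [φ.subst (et vs p u), ψ.subst (et vs p u)] M (by decide)
              (by intro v h _; exact h) (by omega) (by simp; omega)
          · rw [cf_not ho]
            have a4 := size_cf_le vs p true (.imp φ ψ) u
            exact infer0 (F := F) (.imp .bot (.var 0)) [cf vs p true (.imp φ ψ) u] M (by decide)
              (by intro v h; exact h.elim) (by omega) (by simp; omega))
        (by simp only [sg_false, Fm.size]; omega) (by simp only [sg_true]; omega)
        (by simp only [Fm.size]; omega) (by simp only [sg_false, Fm.size]; omega)
        (by simp only [sg_true]; omega) (by simp only [Fm.size]; omega)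
        (by omega) (by omega) (by omega)
      refine FregeSystem.PB.mono this ?_
      simp only [Fm.size]
      exact fin_sum (Dc_sum _ _ _) (by omega)

end

end FregeEF
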