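import Pool.Agent.Work.MP_c07f0d_lc.LinB

/-!
# Elimination of half of the variables of a level: composition of affine forms
-/

namespace FregeEF

variable {F : FregeSystem} {M : ℕ}

/-- The disjunction of the conjunctions `c u ∧ l u`, where `u` runs over the list `vs`. -/
def ip (vs : List ℕ) (c l : ℕ → Fm ℕ) : Fm ℕ := bigOr (vs.map fun u => .and (c u) (l u))

theorem size_ip_le {vs : List ℕ} {c l : ℕ → Fm ℕ} {s1 s2 : ℕ} (h1 : ∀ u, (c u).size ≤ s1)
    (h2 : ∀ u, (l u).size ≤ s2) : (ip vs c l).size ≤ vs.length * (s1 + s2 + 2) + 1 := by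
  have := size_bigOr_le (s1 + s2 + 1) (vs.map fun u => Fm.and (c u) (l u)) (by
    intro x hx
    obtain ⟨u, hu, rfl⟩ := List.mem_map.1 hx
    have h1 := h1 u
    have h2 := h2 u
    simp only [Fm.size]; omega)
  rwa [List.length_map] at this

theorem size_mem_ip {vs : List ℕ} {c l : ℕ → Fm ℕ} {u : ℕ} (hu : u ∈ vs) :
    (c u).size + (l u).size + 2 ≤ (ip vs c l).size := by
  have := size_mem_bigOr (List.mem_map_of_mem (f := fun u => Fm.and (c u) (l u)) hu)
  exact this

theorem ip_intro {vs : List ℕ} {c l : ℕ → Fm ℕ} {u : ℕ} (hu : u ∈ vs)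
    (hM : (ip vs c l).size ≤ M) :
    F.PB (.imp (.and (c u) (l u)) (ip vs c l)) (vs.length * (F.K * M)) := by
  have := pb_bigOr_intro (F := F) (M := M)
    (List.mem_map_of_mem (f := fun u => Fm.and (c u) (l u)) hu) hM
  rwa [List.length_map] at this

theorem ip_elim {vs : List ℕ} {c l : ℕ → Fm ℕ} {R : Fm ℕ} {s : ℕ}
    (hM : (ip vs c l).size ≤ M) (hR : R.size ≤ M)
    (h : ∀ u ∈ vs, F.PB (.imp (.and (c u) (l u)) R) s) :
    F.PB (.imp (ip vs c l) R) ((vs.length + 1) * (s + F.K * M)) := by
  have := pb_bigOr_elim (F := F) (M := M) hM hR (by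
    intro x hx
    obtain ⟨u, hu, rfl⟩ := List.mem_map.1 hx
    exact h u hu)
  rwa [List.length_map] at this

theorem occurs_ip {vs : List ℕ} {c l : ℕ → Fm ℕ} {y : ℕ} (h : (ip vs c l).Occurs y) :
    ∃ u ∈ vs, (c u).Occurs y ∨ (l u).Occurs y := by
  unfold ip at h
  induction vs with
  | nil => exact h.elim
  | cons a vs ih =>
    rcases h with h | h
    · exact ⟨a, List.mem_cons_self .., h⟩
    · obtain ⟨u, hu, h'⟩ := ih h
      exact ⟨u, List.mem_cons_of_mem _ hu, h'⟩

section comp

variable {vs : List ℕ} {A0 : Fm ℕ} {A1 B0 l C1 : ℕ → Fm ℕ} {B1 : ℕ → ℕ → Fm ℕ}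
  {inP : ℕ → Prop} {t S : ℕ}

theorem comp_fwd
    (hP : ∀ z ∈ vs, inP z → F.PB (.iff (l z) (.or (B0 z) (ip vs (B1 z) l))) t)
    (hB0 : ∀ z, ¬ inP z → B0 z = .bot) (hB1 : ∀ z u, ¬ inP z → B1 z u = .bot)
    (hC : ∀ u, C1 u = .bot ∨ C1 u = .or (A1 u) (ip vs A1 (fun z => B1 z u)))
    (sA0 : A0.size ≤ S) (sA : ∀ u, (A1 u).size ≤ S) (sB0 : ∀ u, (B0 u).size ≤ S)
    (sB : ∀ z u, (B1 z u).size ≤ S) (sl : ∀ u, (l u).size ≤ S) (sC : ∀ u, (C1 u).size ≤ S)
    (hM : 2 * (vs.length * (S + S + 2)) + 4 * S + 10 ≤ M) :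
    F.PB (.imp (.or (.or A0 (ip vs A1 B0)) (ip vs C1 l)) (.or A0 (ip vs A1 l)))
      ((vs.length + 2) ^ 2 * (t + (2 * vs.length + 6) * (F.K * M))) := by
  have i1 : (ip vs A1 l).size ≤ vs.length * (S + S + 2) + 1 := size_ip_le sA sl
  have i2 : (ip vs A1 B0).size ≤ vs.length * (S + S + 2) + 1 := size_ip_le sA sB0
  have i3 : (ip vs C1 l).size ≤ vs.length * (S + S + 2) + 1 := size_ip_le sC sl
  have i4 : ∀ z, (ip vs (B1 z) l).size ≤ vs.length * (S + S + 2) + 1 :=
    fun z => size_ip_le (sB z) sl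
  have i5 : ∀ u, (ip vs A1 (fun z => B1 z u)).size ≤ vs.length * (S + S + 2) + 1 :=
    fun u => size_ip_le sA (fun z => sB z u)
  set n := vs.length with hn
  set W := F.K * M with hW
  -- first part
  have g1 : F.PB (.imp A0 (.or A0 (ip vs A1 l))) W :=
    infer0 (F := F) (.imp (.var 0) (.or (.var 0) (.var 1))) [A0, ip vs A1 l] M (by decide)
      (by intro v h; exact Or.inl h) (by omega) (by simp; omega)
  -- second part
  have g2 : F.PB (.imp (ip vs A1 B0) (.or A0 (ip vs A1 l))) ((n + 1) * ((t + n * W + W) + W)) := by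
    refine ip_elim (by omega) (by simp only [Fm.size]; omega) fun z hz => ?_
    have a1 := sA z
    have a2 := sB0 z
    have a3 := sl z
    have a4 := i4 z
    by_cases hz' : inP z
    · have h1 := hP z hz hz'
      have h2 : F.PB (.imp (.and (A1 z) (l z)) (ip vs A1 l)) (n * W) :=
        ip_intro (F := F) (M := M) hz (by omega)
      exact infer2 (F := F) (.iff (.var 0) (.or (.var 1) (.var 2)))
        (.imp (.and (.var 3) (.var 0)) (.var 4))
        (.imp (.and (.var 3) (.var 1)) (.or (.var 5) (.var 4)))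
        [l z, B0 z, ip vs (B1 z) l, A1 z, ip vs A1 l, A0] M (by decide)
        (by intro v h h' h0; exact Or.inr (h' ⟨h0.1, h.2 (Or.inl h0.2)⟩)) (by omega)
        (by simp; omega) h1 h2
    · rw [hB0 z hz']
      have := infer0 (F := F) (.imp (.and (.var 0) .bot) (.or (.var 1) (.var 2)))
        [A1 z, A0, ip vs A1 l] M (by decide)
        (by intro v h; exact h.2.elim) (by omega) (by simp; omega)
      exact FregeSystem.PB.mono this (by omega)
  -- third part
  have g3 : F.PB (.imp (ip vs C1 l) (.or A0 (ip vs A1 l)))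
      ((n + 1) * ((n * W + (n + 1) * ((t + n * W + n * W + W) + W) + W) + W)) := by
    refine ip_elim (by omega) (by simp only [Fm.size]; omega) fun u hu => ?_
    have a1 := sA u
    have a3 := sl u
    have a5 := i5 u
    rcases hC u with hCu | hCu
    · rw [hCu]
      have := infer0 (F := F) (.imp (.and .bot (.var 0)) (.or (.var 1) (.var 2)))
        [l u, A0, ip vs A1 l] M (by decide)
        (by intro v h; exact h.1.elim) (by omega) (by simp; omega)
      refine FregeSystem.PB.mono this ?_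
      omega
    · rw [hCu]
      have h1 : F.PB (.imp (.and (A1 u) (l u)) (ip vs A1 l)) (n * W) :=
        ip_intro (F := F) (M := M) hu (by omega)
      have h2 : F.PB (.imp (ip vs A1 (fun z => B1 z u)) (.imp (l u) (ip vs A1 l)))
          ((n + 1) * ((t + n * W + n * W + W) + W)) := by
        refine ip_elim (by omega) (by simp only [Fm.size]; omega) fun z hz => ?_
        have b1 := sA z
        have b2 := sB0 z
        have b3 := sl z
        have b4 := i4 z
        have b6 := sB z u
        by_cases hz' : inP z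
        · have h3 := hP z hz hz'
          have h4 : F.PB (.imp (.and (B1 z u) (l u)) (ip vs (B1 z) l)) (n * W) :=
            ip_intro (F := F) (M := M) hu (by omega)
          have h5 : F.PB (.imp (.and (A1 z) (l z)) (ip vs A1 l)) (n * W) :=
            ip_intro (F := F) (M := M) hz (by omega)
          have := F.infer [.iff (.var 0) (.or (.var 1) (.var 2)),
            .imp (.and (.var 3) (.var 4)) (.var 2), .imp (.and (.var 5) (.var 0)) (.var 6)]
            (.imp (.and (.var 5) (.var 3)) (.imp (.var 4) (.var 6)))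
            [l z, B0 z, ip vs (B1 z) l, B1 z u, l u, A1 z, ip vs A1 l] _ M (by decide)
            (by
              intro v h h0 h1
              have e1 := h (.iff (.var 0) (.or (.var 1) (.var 2))) (by simp)
              have e2 := h (.imp (.and (.var 3) (.var 4)) (.var 2)) (by simp)
              have e3 := h (.imp (.and (.var 5) (.var 0)) (.var 6)) (by simp)
              exact e3 ⟨h0.1, e1.2 (Or.inr (e2 ⟨h0.2, h1⟩))⟩)
            (by omega) (by simp; omega) (.cons h3 (.cons h4 (.cons h5 .nil)))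
          refine FregeSystem.PB.mono this (le_of_eq ?_)
          simp only [List.sum_cons, List.sum_nil]
          ring
        · rw [hB1 z u hz']
          have := infer0 (F := F) (.imp (.and (.var 0) .bot) (.imp (.var 1) (.var 2)))
            [A1 z, l u, ip vs A1 l] M (by decide)
            (by intro v h; exact h.2.elim) (by omega) (by simp; omega)
          exact FregeSystem.PB.mono this (by omega)
      exact infer2 (F := F) (.imp (.and (.var 0) (.var 1)) (.var 2))
        (.imp (.var 3) (.imp (.var 1) (.var 2)))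
        (.imp (.and (.or (.var 0) (.var 3)) (.var 1)) (.or (.var 4) (.var 2)))
        [A1 u, l u, ip vs A1 l, ip vs A1 (fun z => B1 z u), A0] M (by decide)
        (by
          intro v h h' h0
          rcases h0.1 with h1 | h1
          · exact Or.inr (h ⟨h1, h0.2⟩)
          · exact Or.inr (h' h1 h0.2)) (by omega)
        (by simp; omega) h1 h2
  have := F.infer [.imp (.var 0) (.var 3), .imp (.var 1) (.var 3), .imp (.var 2) (.var 3)]
    (.imp (.or (.or (.var 0) (.var 1)) (.var 2)) (.var 3))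
    [A0, ip vs A1 B0, ip vs C1 l, .or A0 (ip vs A1 l)] _ M (by decide)
    (by
      intro v h h0
      have e1 := h (.imp (.var 0) (.var 3)) (by simp)
      have e2 := h (.imp (.var 1) (.var 3)) (by simp)
      have e3 := h (.imp (.var 2) (.var 3)) (by simp)
      rcases h0 with (h0 | h0) | h0
      · exact e1 h0
      · exact e2 h0
      · exact e3 h0)
    (by omega) (by simp [Fm.size]; omega) (.cons g1 (.cons g2 (.cons g3 .nil)))
  refine FregeSystem.PB.mono this ?_
  simp only [List.sum_cons, List.sum_nil]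
  nlinarith [Nat.zero_le (n * t), Nat.zero_le (n * n * t), Nat.zero_le (n * W),
    Nat.zero_le (n * n * W), Nat.zero_le (n * n * n * W), Nat.zero_le t, Nat.zero_le W]

theorem comp_bwd
    (hP : ∀ z ∈ vs, inP z → F.PB (.iff (l z) (.or (B0 z) (ip vs (B1 z) l))) t)
    (hz : ∀ z, A1 z = .bot ∨ inP z ∨ C1 z = .or (A1 z) (ip vs A1 (fun z' => B1 z' z)))
    (hu : ∀ z u, inP z → B1 z u = .bot ∨ C1 u = .or (A1 u) (ip vs A1 (fun z' => B1 z' u)))
    (sA0 : A0.size ≤ S) (sA : ∀ u, (A1 u).size ≤ S) (sB0 : ∀ u, (B0 u).size ≤ S)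
    (sB : ∀ z u, (B1 z u).size ≤ S) (sl : ∀ u, (l u).size ≤ S) (sC : ∀ u, (C1 u).size ≤ S)
    (hM : 2 * (vs.length * (S + S + 2)) + 4 * S + 10 ≤ M) :
    F.PB (.imp (.or A0 (ip vs A1 l)) (.or (.or A0 (ip vs A1 B0)) (ip vs C1 l)))
      ((vs.length + 2) ^ 2 * (t + (2 * vs.length + 6) * (F.K * M))) := by
  have i1 : (ip vs A1 l).size ≤ vs.length * (S + S + 2) + 1 := size_ip_le sA sl
  have i2 : (ip vs A1 B0).size ≤ vs.length * (S + S + 2) + 1 := size_ip_le sA sB0
  have i3 : (ip vs C1 l).size ≤ vs.length * (S + S + 2) + 1 := size_ip_le sC sl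
  have i4 : ∀ z, (ip vs (B1 z) l).size ≤ vs.length * (S + S + 2) + 1 :=
    fun z => size_ip_le (sB z) sl
  have i5 : ∀ u, (ip vs A1 (fun z => B1 z u)).size ≤ vs.length * (S + S + 2) + 1 :=
    fun u => size_ip_le sA (fun z => sB z u)
  set n := vs.length with hn
  set W := F.K * M with hW
  have g1 : F.PB (.imp A0 (.or (.or A0 (ip vs A1 B0)) (ip vs C1 l))) W :=
    infer0 (F := F) (.imp (.var 0) (.or (.or (.var 0) (.var 1)) (.var 2)))
      [A0, ip vs A1 B0, ip vs C1 l] M (by decide)
      (by intro v h; exact Or.inl (Or.inl h)) (by omega) (by simp; omega)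
  have g2 : F.PB (.imp (ip vs A1 l) (.or (.or A0 (ip vs A1 B0)) (ip vs C1 l)))
      ((n + 1) * ((t + n * W + (n + 1) * ((n * W + n * W + W) + W) + W) + W)) := by
    refine ip_elim (by omega) (by simp only [Fm.size]; omega) fun z hz0 => ?_
    have a1 := sA z
    have a2 := sB0 z
    have a3 := sl z
    have a4 := i4 z
    have a5 := i5 z
    rcases hz z with h | h | h
    · rw [h]
      have := infer0 (F := F) (.imp (.and .bot (.var 0)) (.or (.or (.var 1) (.var 2)) (.var 3)))
        [l z, A0, ip vs A1 B0, ip vs C1 l] M (by decide)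
        (by intro v h; exact h.1.elim) (by omega) (by simp; omega)
      exact FregeSystem.PB.mono this (by omega)
    · have h1 := hP z hz0 h
      have h2 : F.PB (.imp (.and (A1 z) (B0 z)) (ip vs A1 B0)) (n * W) :=
        ip_intro (F := F) (M := M) hz0 (by omega)
      have h3 : F.PB (.imp (ip vs (B1 z) l) (.imp (A1 z) (ip vs C1 l)))
          ((n + 1) * ((n * W + n * W + W) + W)) := by
        refine ip_elim (by omega) (by simp only [Fm.size]; omega) fun u hu0 => ?_
        have b1 := sA u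
        have b3 := sl u
        have b5 := i5 u
        have b6 := sB z u
        rcases hu z u h with h4 | h4
        · rw [h4]
          have := infer0 (F := F) (.imp (.and .bot (.var 0)) (.imp (.var 1) (.var 2)))
            [l u, A1 z, ip vs C1 l] M (by decide)
            (by intro v h; exact h.1.elim) (by omega) (by simp; omega)
          exact FregeSystem.PB.mono this (by omega)
        · have h5 : F.PB (.imp (.and (A1 z) (B1 z u)) (ip vs A1 (fun z' => B1 z' u))) (n * W) :=
            ip_intro (F := F) (M := M) (l := fun z' => B1 z' u) hz0 (by omega)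
          have h6 : F.PB (.imp (.and (C1 u) (l u)) (ip vs C1 l)) (n * W) :=
            ip_intro (F := F) (M := M) hu0 (by omega)
          rw [h4] at h6
          exact infer2 (F := F) (.imp (.and (.var 0) (.var 1)) (.var 2))
            (.imp (.and (.or (.var 3) (.var 2)) (.var 4)) (.var 5))
            (.imp (.and (.var 1) (.var 4)) (.imp (.var 0) (.var 5)))
            [A1 z, B1 z u, ip vs A1 (fun z' => B1 z' u), A1 u, l u, ip vs C1 l] M (by decide)
            (by intro v h h' h0 h1; exact h' ⟨Or.inr (h ⟨h1, h0.1⟩), h0.2⟩) (by omega)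
            (by simp; omega) h5 h6
      have := F.infer [.iff (.var 0) (.or (.var 1) (.var 2)),
        .imp (.and (.var 3) (.var 1)) (.var 4), .imp (.var 2) (.imp (.var 3) (.var 5))]
        (.imp (.and (.var 3) (.var 0)) (.or (.or (.var 6) (.var 4)) (.var 5)))
        [l z, B0 z, ip vs (B1 z) l, A1 z, ip vs A1 B0, ip vs C1 l, A0] _ M (by decide)
        (by
          intro v h h0
          have e1 := h (.iff (.var 0) (.or (.var 1) (.var 2))) (by simp)
          have e2 := h (.imp (.and (.var 3) (.var 1)) (.var 4)) (by simp)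
          have e3 := h (.imp (.var 2) (.imp (.var 3) (.var 5))) (by simp)
          rcases e1.1 h0.2 with h1 | h1
          · exact Or.inl (Or.inr (e2 ⟨h0.1, h1⟩))
          · exact Or.inr (e3 h1 h0.1))
        (by omega) (by simp; omega) (.cons h1 (.cons h2 (.cons h3 .nil)))
      refine FregeSystem.PB.mono this (le_of_eq ?_)
      simp only [List.sum_cons, List.sum_nil]
      ring
    · have h6 : F.PB (.imp (.and (C1 z) (l z)) (ip vs C1 l)) (n * W) :=
        ip_intro (F := F) (M := M) hz0 (by omega)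
      rw [h] at h6
      have := infer1 (F := F) (.imp (.and (.or (.var 0) (.var 1)) (.var 2)) (.var 3))
        (.imp (.and (.var 0) (.var 2)) (.or (.or (.var 4) (.var 5)) (.var 3)))
        [A1 z, ip vs A1 (fun z' => B1 z' z), l z, ip vs C1 l, A0, ip vs A1 B0] M (by decide)
        (by intro v h h0; exact Or.inr (h ⟨Or.inl h0.1, h0.2⟩)) (by omega)
        (by simp; omega) h6
      exact FregeSystem.PB.mono this (by omega)
  have := infer2 (F := F) (.imp (.var 0) (.var 2)) (.imp (.var 1) (.var 2))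
    (.imp (.or (.var 0) (.var 1)) (.var 2))
    [A0, ip vs A1 l, .or (.or A0 (ip vs A1 B0)) (ip vs C1 l)] M (by decide)
    (by
      intro v h h' h0
      exact h0.elim h h')
    (by omega) (by simp [Fm.size]; omega) g1 g2
  refine FregeSystem.PB.mono this ?_
  nlinarith [Nat.zero_le (n * t), Nat.zero_le (n * n * t), Nat.zero_le (n * W),
    Nat.zero_le (n * n * W), Nat.zero_le (n * n * n * W), Nat.zero_le t, Nat.zero_le W]

theorem comp_iff {lx : Fm ℕ}
    (hx : F.PB (.iff lx (.or (.or A0 (ip vs A1 B0)) (ip vs C1 l))) t)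
    (hP : ∀ z ∈ vs, inP z → F.PB (.iff (l z) (.or (B0 z) (ip vs (B1 z) l))) t)
    (hB0 : ∀ z, ¬ inP z → B0 z = .bot) (hB1 : ∀ z u, ¬ inP z → B1 z u = .bot)
    (hC : ∀ u, C1 u = .bot ∨ C1 u = .or (A1 u) (ip vs A1 (fun z => B1 z u)))
    (hz : ∀ z, A1 z = .bot ∨ inP z ∨ C1 z = .or (A1 z) (ip vs A1 (fun z' => B1 z' z)))
    (hu : ∀ z u, inP z → B1 z u = .bot ∨ C1 u = .or (A1 u) (ip vs A1 (fun z' => B1 z' u)))
    (sx : lx.size ≤ S)
    (sA0 : A0.size ≤ S) (sA : ∀ u, (A1 u).size ≤ S) (sB0 : ∀ u, (B0 u).size ≤ S)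
    (sB : ∀ z u, (B1 z u).size ≤ S) (sl : ∀ u, (l u).size ≤ S) (sC : ∀ u, (C1 u).size ≤ S)
    (hM : 2 * (vs.length * (S + S + 2)) + 4 * S + 10 ≤ M) :
    F.PB (.iff lx (.or A0 (ip vs A1 l)))
      (3 * (vs.length + 2) ^ 2 * (t + (2 * vs.length + 6) * (F.K * M))) := by
  have h1 := comp_fwd hP hB0 hB1 hC sA0 sA sB0 sB sl sC hM
  have h2 := comp_bwd hP hz hu sA0 sA sB0 sB sl sC hM
  have i1 : (ip vs A1 l).size ≤ vs.length * (S + S + 2) + 1 := size_ip_le sA sl
  have i2 : (ip vs A1 B0).size ≤ vs.length * (S + S + 2) + 1 := size_ip_le sA sB0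
  have i3 : (ip vs C1 l).size ≤ vs.length * (S + S + 2) + 1 := size_ip_le sC sl
  have := F.infer [.iff (.var 0) (.var 1), .imp (.var 1) (.var 2), .imp (.var 2) (.var 1)]
    (.iff (.var 0) (.var 2))
    [lx, .or (.or A0 (ip vs A1 B0)) (ip vs C1 l), .or A0 (ip vs A1 l)] _ M (by decide)
    (by
      intro v h
      have e1 := h (.iff (.var 0) (.var 1)) (by simp)
      have e2 := h (.imp (.var 1) (.var 2)) (by simp)
      have e3 := h (.imp (.var 2) (.var 1)) (by simp)
      exact ⟨fun h0 => e2 (e1.1 h0), fun h0 => e1.2 (e3 h0)⟩)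
    (by omega) (by simp [Fm.size]; omega) (.cons hx (.cons h1 (.cons h2 .nil)))
  refine FregeSystem.PB.mono this ?_
  simp only [List.sum_cons, List.sum_nil]
  have e1 : t + (2 * vs.length + 6) * (F.K * M) ≤
      (vs.length + 2) ^ 2 * (t + (2 * vs.length + 6) * (F.K * M)) :=
    Nat.le_mul_of_pos_left _ (by positivity)
  have e2 : F.K * M ≤ (2 * vs.length + 6) * (F.K * M) := Nat.le_mul_of_pos_left _ (by omega)
  rw [Nat.mul_assoc 3]
  omega

end comp

end FregeEF
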