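import Pool.Agent.Work.MP_c07f0d_lc.LinC

/-!
# Solving one level
-/

namespace FregeEF

variable {F : FregeSystem} {M : ℕ}

section base

variable {vs : List ℕ} {p : ℕ → Bool} {σ : ℕ → Fm ℕ} {N b t : ℕ}

/-- The cost of the base case. -/
noncomputable def Bc (F : FregeSystem) (n N M : ℕ) : ℕ :=
  N * Dc F n M + (n + 2) * (2 * (N * (2 * (F.K * M)))) + (n + 4) * (2 * (F.K * M))

/-- The base case: one axiom. -/
theorem base_iff (hσ : ∀ x, (σ x).size ≤ b) (hσf : ∀ x, x ∉ vs → σ x = .var x)
    (hM : vs.length * (2 * N + b + 4) + 2 * (N * (b + 2)) + 6 * N + b + 10 ≤ M) {φ : Fm ℕ} {q : ℕ}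
    (hL : Lin (· ∈ vs) p (p q) φ) (hN : φ.size ≤ N)
    (hc : F.PB (.iff (sg (p q) (σ q)) (.or (sg (p q) (φ.subst (zt vs p)))
      (ip vs (cf vs p (p q) φ) fun u => sg (p u) (σ u)))) t) :
    F.PB (.iff (σ q) (φ.subst σ)) (t + Bc F vs.length N M) := by
  have hb : 1 ≤ b := (σ 0).size_pos.trans (hσ 0)
  have sσ : (φ.subst σ).size ≤ N * b :=
    (Fm.size_subst_le σ b hb φ (fun x _ => hσ x)).trans (Nat.mul_le_mul_right _ hN)
  have sz : (φ.subst (zt vs p)).size ≤ 2 * N := by
    have := Fm.size_subst_le (zt vs p) 2 (by omega) φ (fun x _ => size_zt_le vs p x)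
    omega
  have se : ∀ u, (φ.subst (et vs p u)).size ≤ 2 * N := fun u => by
    have := Fm.size_subst_le (et vs p u) 2 (by omega) φ (fun x _ => size_et_le vs p u x)
    omega
  have sW : (ip vs (cf vs p (p q) φ) fun u => sg (p u) (σ u)).size ≤
      vs.length * (2 * N + b + 4) + 1 := by
    have := size_ip_le (vs := vs) (c := cf vs p (p q) φ) (l := fun u => sg (p u) (σ u))
      (s1 := 2 * N + 1) (s2 := b + 1) (fun u => by
        have := size_cf_le vs p (p q) φ u
        omega) (fun u => by
        have := size_sg_le (p u) (σ u)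
        have := hσ u
        omega)
    refine this.trans (le_of_eq ?_)
    ring
  have e1 : N * (b + 2) = N * b + 2 * N := by ring
  have hdec := lin_dec (F := F) (p := p) hσ hσf (N := N) (M := M) (by omega) φ (p q) hL hN
  rw [e1] at hM
  set W := F.K * M with hW
  have hzt : F.PB (.imp (.neg .bot) (.imp (sg (p q) (φ.subst (zt vs p)))
      (sg (p q) (φ.subst σ)))) (φ.size * (W + W)) := by
    refine lin_mono (V := (· ∈ vs)) (p := p) (M := M) (by simp only [Fm.size]; omega) ?_ ?_ φ (p q)
      hL (by omega) (by omega)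
    · intro u hu
      have hu' : u ∈ vs := hu
      have s1 := hσ u
      unfold zt
      rw [if_pos hu']
      cases p u
      · exact infer0 (F := F) (.imp (.neg .bot) (.imp (.neg (.neg .bot)) (.neg (.var 0))))
          [σ u] M (by decide) (by intro v _ h; exact absurd id h) (by omega) (by simp; omega)
      · exact infer0 (F := F) (.imp (.neg .bot) (.imp .bot (.var 0)))
          [σ u] M (by decide) (by intro v _ h; exact h.elim) (by omega) (by simp; omega)
    · intro x hx
      rw [hσf x hx]
      exact zt_free hx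
  have het : ∀ u ∈ vs, F.PB (.imp (sg (p u) (σ u)) (.imp (sg (p q) (φ.subst (et vs p u)))
      (sg (p q) (φ.subst σ)))) (φ.size * (W + W)) := by
    intro u hu
    have s0 := hσ u
    have s0' := size_sg_le (p u) (σ u)
    refine lin_mono (V := (· ∈ vs)) (p := p) (M := M) (by omega) ?_ ?_ φ (p q)
      hL (by have := se u; omega) (by omega)
    · intro x hx
      have s1 := hσ x
      unfold et
      by_cases hxu : x = u
      · subst hxu
        rw [if_pos rfl]
        have s3 := size_cst_le (α := ℕ) (p x)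
        have s4 := size_sg_le (p x) (cst (p x) : Fm ℕ)
        exact infer0 (F := F) (.imp (.var 0) (.imp (.var 1) (.var 0)))
          [sg (p x) (σ x), sg (p x) (cst (p x))] M (by decide) (by intro v h _; exact h) (by omega)
          (by simp; omega)
      · rw [if_neg hxu]
        have hx' : x ∈ vs := hx
        unfold zt
        rw [if_pos hx']
        cases p x
        · exact infer0 (F := F) (.imp (.var 1) (.imp (.neg (.neg .bot)) (.neg (.var 0))))
            [σ x, sg (p u) (σ u)] M (by decide) (by intro v _ h; exact absurd id h) (by omega)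
            (by simp; omega)
        · exact infer0 (F := F) (.imp (.var 1) (.imp .bot (.var 0)))
            [σ x, sg (p u) (σ u)] M (by decide) (by intro v _ h; exact h.elim) (by omega)
            (by simp; omega)
    · intro x hx
      rw [hσf x hx]
      exact et_free hu hx
  have hs1 := size_sg_le (p q) (φ.subst σ)
  have hel : F.PB (.imp (ip vs (cf vs p (p q) φ) fun u => sg (p u) (σ u)) (sg (p q) (φ.subst σ)))
      ((vs.length + 1) * ((φ.size * (W + W) + W) + W)) := by
    refine ip_elim (by omega) (by omega) fun u hu => ?_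
    have s0 := hσ u
    have s0' := size_sg_le (p u) (σ u)
    by_cases ho : φ.Occurs u
    · rw [cf_occ ho]
      have s2 := se u
      have s3 := size_sg_le (p q) (φ.subst (et vs p u))
      exact infer1 (F := F) (.imp (.var 0) (.imp (.var 1) (.var 2)))
        (.imp (.and (.var 1) (.var 0)) (.var 2))
        [sg (p u) (σ u), sg (p q) (φ.subst (et vs p u)), sg (p q) (φ.subst σ)] M (by decide)
        (by intro v h h0; exact h h0.2 h0.1) (by omega) (by simp; omega) (het u hu)
    · rw [cf_not ho]
      have := infer0 (F := F) (.imp (.and .bot (.var 0)) (.var 1))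
        [sg (p u) (σ u), sg (p q) (φ.subst σ)] M (by decide)
        (by intro v h; exact h.1.elim) (by omega) (by simp; omega)
      exact FregeSystem.PB.mono this (by omega)
  have s1 := hσ q
  have s4 := size_sg_le (p q) (φ.subst (zt vs p))
  have hfin : F.PB (.iff (σ q) (φ.subst σ))
      (t + (φ.size * Dc F vs.length M) + (φ.size * (W + W)) +
        ((vs.length + 1) * ((φ.size * (W + W) + W) + W)) + W) := by
    rw [FregeEF.ip] at hc hel sW
    cases hpq : p q
    · rw [hpq] at hc hdec hzt hel s4 sW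
      have := F.infer [.iff (.neg (.var 0)) (.or (.var 1) (.var 2)),
        .imp (.neg (.var 3)) (.or (.var 1) (.var 2)),
        .imp (.neg .bot) (.imp (.var 1) (.neg (.var 3))), .imp (.var 2) (.neg (.var 3))]
        (.iff (.var 0) (.var 3))
        [σ q, sg false (φ.subst (zt vs p)),
          bigOr (vs.map fun u => Fm.and (cf vs p false φ u) (sg (p u) (σ u))), φ.subst σ] _ M
        (by decide)
        (by
          intro v h
          have e1 := h (.iff (.neg (.var 0)) (.or (.var 1) (.var 2))) (by simp)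
          have e2 := h (.imp (.neg (.var 3)) (.or (.var 1) (.var 2))) (by simp)
          have e3 := h (.imp (.neg .bot) (.imp (.var 1) (.neg (.var 3)))) (by simp)
          have e4 := h (.imp (.var 2) (.neg (.var 3))) (by simp)
          refine ⟨fun h0 => ?_, fun h0 => ?_⟩
          · by_contra h1
            exact e1.2 (e2 h1) h0
          · by_contra h1
            rcases e1.1 h1 with h2 | h2
            · exact e3 id h2 h0
            · exact e4 h2 h0)
        (by omega) (by simp only [List.mem_cons, List.not_mem_nil, or_false, forall_eq_or_imp,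
              forall_eq]; refine ⟨?_, ?_, ?_, ?_⟩ <;> omega)
        (.cons hc (.cons hdec (.cons hzt (.cons hel .nil))))
      refine FregeSystem.PB.mono this (le_of_eq ?_)
      simp only [List.sum_cons, List.sum_nil]
      ring
    · rw [hpq] at hc hdec hzt hel s4 sW
      have := F.infer [.iff (.var 0) (.or (.var 1) (.var 2)),
        .imp (.var 3) (.or (.var 1) (.var 2)),
        .imp (.neg .bot) (.imp (.var 1) (.var 3)), .imp (.var 2) (.var 3)]
        (.iff (.var 0) (.var 3))
        [σ q, sg true (φ.subst (zt vs p)),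
          bigOr (vs.map fun u => Fm.and (cf vs p true φ u) (sg (p u) (σ u))), φ.subst σ] _ M
        (by decide)
        (by
          intro v h
          have e1 := h (.iff (.var 0) (.or (.var 1) (.var 2))) (by simp)
          have e2 := h (.imp (.var 3) (.or (.var 1) (.var 2))) (by simp)
          have e3 := h (.imp (.neg .bot) (.imp (.var 1) (.var 3))) (by simp)
          have e4 := h (.imp (.var 2) (.var 3)) (by simp)
          exact ⟨fun h0 => (e1.1 h0).elim (e3 id) e4, fun h0 => e1.2 (e2 h0)⟩)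
        (by omega) (by simp only [List.mem_cons, List.not_mem_nil, or_false, forall_eq_or_imp,
              forall_eq]; refine ⟨?_, ?_, ?_, ?_⟩ <;> omega)
        (.cons hc (.cons hdec (.cons hzt (.cons hel .nil))))
      refine FregeSystem.PB.mono this (le_of_eq ?_)
      simp only [List.sum_cons, List.sum_nil]
      ring
  refine FregeSystem.PB.mono hfin ?_
  have c1 : φ.size * Dc F vs.length M ≤ N * Dc F vs.length M := Nat.mul_le_mul_right _ hN
  have c2 : φ.size * (W + W) ≤ N * (2 * W) := Nat.mul_le_mul hN (by omega)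
  have c3 : (vs.length + 1) * ((φ.size * (W + W) + W) + W) ≤
      (vs.length + 1) * (N * (2 * W) + 2 * W) := Nat.mul_le_mul_left _ (by omega)
  unfold Bc
  rw [← hW]
  have d1 : (vs.length + 2) * (2 * (N * (2 * W))) = (vs.length + 1) * (N * (2 * W)) +
    (vs.length + 1) * (N * (2 * W)) + 2 * (N * (2 * W)) := by ring
  have d2 : (vs.length + 4) * (2 * W) = (vs.length + 1) * (2 * W) + 6 * W := by ring
  have d3 : (vs.length + 1) * (N * (2 * W) + 2 * W) = (vs.length + 1) * (N * (2 * W)) +
    (vs.length + 1) * (2 * W) := by ring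
  omega

end base

/-- Affine forms for the extension variables of `G`. -/
structure Mat (F : FregeSystem) (vs : List ℕ) (p : ℕ → Bool) (b X : ℕ) (G : List (ℕ × Fm ℕ))
    (k s : ℕ) (c0 : ℕ → Fm ℕ) (c1 : ℕ → ℕ → Fm ℕ) : Prop where
  z0 : ∀ x, x ∉ hd G → c0 x = .bot
  z1 : ∀ x u, x ∉ hd G → c1 x u = .bot
  z2 : ∀ x u, u ∈ hd G → c1 x u = .bot
  z3 : ∀ x u, (∀ a ∈ G, ¬ a.2.Occurs u) → c1 x u = .bot
  s0 : ∀ x, (c0 x).size ≤ s
  s1 : ∀ x u, (c1 x u).size ≤ s
  o0 : ∀ x y, (c0 x).Occurs y → y ∉ vs ∧ ∃ a ∈ G, a.2.Occurs y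
  o1 : ∀ x u y, (c1 x u).Occurs y → y ∉ vs ∧ ∃ a ∈ G, a.2.Occurs y
  sol : ∀ (σ : ℕ → Fm ℕ) (t : ℕ), (∀ x, (σ x).size ≤ b) → (∀ x, x ∉ vs → σ x = .var x) →
    (∀ x ∈ hd G, F.PB (.iff (sg (p x) (σ x)) (.or (c0 x)
      (ip vs (c1 x) fun u => sg (p u) (σ u)))) t) →
    ∀ a ∈ G, F.PB (.iff (σ a.1) (a.2.subst σ)) ((6 * (vs.length + 2) ^ 2) ^ k * (t + X))

theorem Mat.base0 (F : FregeSystem) (vs : List ℕ) (p : ℕ → Bool) (b X : ℕ) {s : ℕ} (hs : 1 ≤ s) :
    Mat F vs p b X [] 0 s (fun _ => .bot) (fun _ _ => .bot) where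
  z0 _ _ := rfl
  z1 _ _ _ := rfl
  z2 _ _ _ := rfl
  z3 _ _ _ := rfl
  s0 _ := hs
  s1 _ _ := hs
  o0 _ _ h := h.elim
  o1 _ _ _ h := h.elim
  sol _ _ _ _ _ a ha := by simp at ha

theorem Mat.base1 {vs : List ℕ} {p : ℕ → Bool} {b X s N : ℕ} {q : ℕ} {φ : Fm ℕ}
    (hq : ¬ φ.Occurs q) (hL : Lin (· ∈ vs) p (p q) φ) (hN : φ.size ≤ N)
    (hM : vs.length * (2 * N + b + 4) + 2 * (N * (b + 2)) + 6 * N + b + 10 ≤ M)
    (hX : Bc F vs.length N M ≤ X) (hs : 2 * N + 1 ≤ s) :
    Mat F vs p b X [(q, φ)] 0 s (fun x => if x = q then sg (p q) (φ.subst (zt vs p)) else .bot)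
      (fun x u => if x = q then cf vs p (p q) φ u else .bot) where
  z0 x hx := by
    have : x ≠ q := by rintro rfl; exact hx (mem_hd.2 ⟨_, List.mem_cons_self .., rfl⟩)
    simp only [this, if_false]
  z1 x u hx := by
    have : x ≠ q := by rintro rfl; exact hx (mem_hd.2 ⟨_, List.mem_cons_self .., rfl⟩)
    simp only [this, if_false]
  z2 x u hu := by
    obtain ⟨a, ha, rfl⟩ := mem_hd.1 hu
    simp only [List.mem_cons, List.not_mem_nil, or_false] at ha
    subst ha
    simp only [cf_not hq, ite_self]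
  z3 x u hu := by
    have := hu (q, φ) (List.mem_cons_self ..)
    simp only [cf_not this, ite_self]
  s0 x := by
    split_ifs
    · have h1 := size_sg_le (p q) (φ.subst (zt vs p))
      have := Fm.size_subst_le (zt vs p) 2 (by omega) φ (fun x _ => size_zt_le vs p x)
      omega
    · simp only [Fm.size]; omega
  s1 x u := by
    split_ifs
    · have := size_cf_le vs p (p q) φ u
      omega
    · simp only [Fm.size]; omega
  o0 x y h := by
    split_ifs at h with hx
    · have h' : (φ.subst (zt vs p)).Occurs y := by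
        cases hp : p q <;> rw [hp] at h <;> exact h
      obtain ⟨z, hz, hzy⟩ := Fm.occurs_subst h'
      unfold zt at hzy
      split_ifs at hzy with hzv
      · cases hb : (!p z) <;> rw [hb] at hzy <;> exact absurd hzy (by simp [Fm.Occurs])
      · have : z = y := hzy
        subst this
        exact ⟨hzv, _, List.mem_cons_self .., hz⟩
    · exact h.elim
  o1 x u y h := by
    split_ifs at h with hx
    · unfold cf at h
      split_ifs at h with ho
      · have h' : (φ.subst (et vs p u)).Occurs y := by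
          cases hp : p q <;> rw [hp] at h <;> exact h
        obtain ⟨z, hz, hzy⟩ := Fm.occurs_subst h'
        unfold et at hzy
        split_ifs at hzy with hzu
        · cases hb : (p u) <;> rw [hb] at hzy <;> exact absurd hzy (by simp [Fm.Occurs])
        · unfold zt at hzy
          split_ifs at hzy with hzv
          · cases hb : (!p z) <;> rw [hb] at hzy <;> exact absurd hzy (by simp [Fm.Occurs])
          · have : z = y := hzy
            subst this
            exact ⟨hzv, _, List.mem_cons_self .., hz⟩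
      · exact h.elim
    · exact h.elim
  sol σ t hσ hσf hc a ha := by
    simp only [List.mem_cons, List.not_mem_nil, or_false] at ha
    subst ha
    have := hc q (mem_hd.2 ⟨_, List.mem_cons_self .., rfl⟩)
    simp only [if_true] at this
    refine (base_iff hσ hσf hM hL hN this).mono ?_
    rw [pow_zero, one_mul]
    omega

open Classical in
/-- Composition. -/
theorem Mat.comp {vs : List ℕ} {p : ℕ → Bool} {b X s s' S k : ℕ} {G P : List (ℕ × Fm ℕ)}
    {A0 B0 : ℕ → Fm ℕ} {A1 B1 : ℕ → ℕ → Fm ℕ} (hA : Acyc (G ++ P))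
    (hG : Mat F vs p b X G k s A0 A1) (hP : Mat F vs p b X P k s B0 B1)
    (hs : (vs.length + 2) * (2 * s + 2) ≤ s') (hs' : s' ≤ S) (hb : b + 1 ≤ S)
    (hM : 2 * (vs.length * (S + S + 2)) + 4 * S + 10 ≤ M)
    (hX : (2 * vs.length + 6) * (F.K * M) ≤ X) :
    ∃ (c0 : ℕ → Fm ℕ) (c1 : ℕ → ℕ → Fm ℕ), Mat F vs p b X (G ++ P) (k + 1) s' c0 c1 := by
  have hss' : s ≤ s' := by nlinarith [Nat.zero_le (vs.length * (2 * s + 2))]
  have hhd : ∀ x, x ∈ hd (G ++ P) ↔ x ∈ hd G ∨ x ∈ hd P := by
    intro x; rw [hd_append, Finset.mem_union]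
  set c0 : ℕ → Fm ℕ := fun x => if x ∈ hd G then .or (A0 x) (ip vs (A1 x) B0) else B0 x with hc0
  set c1 : ℕ → ℕ → Fm ℕ := fun x u => if x ∈ hd G then
    (if u ∈ hd (G ++ P) then .bot else if ∀ a ∈ G ++ P, ¬ a.2.Occurs u then .bot else
      .or (A1 x u) (ip vs (A1 x) fun z => B1 z u)) else B1 x u with hc1
  have c0G : ∀ x ∈ hd G, c0 x = .or (A0 x) (ip vs (A1 x) B0) := fun x hx => by
    simp only [hc0, hx, if_true]
  have c0P : ∀ x, x ∉ hd G → c0 x = B0 x := fun x hx => by
    simp only [hc0, hx, if_false]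
  have c1P : ∀ x u, x ∉ hd G → c1 x u = B1 x u := fun x u hx => by
    simp only [hc1, hx, if_false]
  have c1G : ∀ x ∈ hd G, ∀ u, u ∉ hd (G ++ P) → (¬ ∀ a ∈ G ++ P, ¬ a.2.Occurs u) →
      c1 x u = .or (A1 x u) (ip vs (A1 x) fun z => B1 z u) := fun x hx u hu hu' => by
    simp only [hc1, hx, if_true, hu, if_false, hu']
  have c1G' : ∀ x ∈ hd G, ∀ u, c1 x u = .bot ∨
      c1 x u = .or (A1 x u) (ip vs (A1 x) fun z => B1 z u) := fun x hx u => by
    simp only [hc1, hx, if_true]
    split_ifs
    · exact Or.inl rfl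
    · exact Or.inl rfl
    · exact Or.inr rfl
  have B1G : ∀ z u, u ∈ hd G → B1 z u = .bot := fun z u hu =>
    hP.z3 z u fun a ha h => hA.body ha h hu
  have sz0 : ∀ x, (c0 x).size ≤ s' := by
    intro x
    by_cases hx : x ∈ hd G
    · rw [c0G x hx]
      have h1 := size_ip_le (vs := vs) (hG.s1 x) hP.s0
      have h2 := hG.s0 x
      simp only [Fm.size]
      nlinarith
    · rw [c0P x hx]; exact (hP.s0 x).trans hss'
  have sz1 : ∀ x u, (c1 x u).size ≤ s' := by
    intro x u
    by_cases hx : x ∈ hd G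
    · rcases c1G' x hx u with h | h
      · rw [h]; simp only [Fm.size]; nlinarith [Nat.zero_le (vs.length * (2 * s + 2))]
      · rw [h]
        have h1 := size_ip_le (vs := vs) (hG.s1 x) (fun z => hP.s1 z u)
        have h2 := hG.s1 x u
        simp only [Fm.size]
        nlinarith
    · rw [c1P x u hx]; exact (hP.s1 x u).trans hss'
  refine ⟨c0, c1, ?_, ?_, ?_, ?_, sz0, sz1, ?_, ?_, ?_⟩
  · intro x hx
    rw [hhd, not_or] at hx
    rw [c0P x hx.1, hP.z0 x hx.2]
  · intro x u hx
    rw [hhd, not_or] at hx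
    rw [c1P x u hx.1, hP.z1 x u hx.2]
  · intro x u hu
    by_cases hx : x ∈ hd G
    · simp only [hc1, hx, if_true, hu]
    · rw [c1P x u hx]
      rcases (hhd u).1 hu with hu | hu
      · exact B1G x u hu
      · exact hP.z2 x u hu
  · intro x u hu
    by_cases hx : x ∈ hd G
    · simp only [hc1, hx, if_true]
      split_ifs <;> rfl
    · rw [c1P x u hx]
      exact hP.z3 x u fun a ha => hu a (by simp [ha])
  · intro x y h
    by_cases hx : x ∈ hd G
    · rw [c0G x hx] at h
      rcases h with h | h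
      · obtain ⟨h1, a, ha, h2⟩ := hG.o0 x y h
        exact ⟨h1, a, by simp [ha], h2⟩
      · obtain ⟨u, _, h | h⟩ := occurs_ip h
        · obtain ⟨h1, a, ha, h2⟩ := hG.o1 x u y h
          exact ⟨h1, a, by simp [ha], h2⟩
        · obtain ⟨h1, a, ha, h2⟩ := hP.o0 u y h
          exact ⟨h1, a, by simp [ha], h2⟩
    · rw [c0P x hx] at h
      obtain ⟨h1, a, ha, h2⟩ := hP.o0 x y h
      exact ⟨h1, a, by simp [ha], h2⟩
  · intro x u y h
    by_cases hx : x ∈ hd G
    · rcases c1G' x hx u with h' | h'
      · rw [h'] at h; exact h.elim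
      · rw [h'] at h
        rcases h with h | h
        · obtain ⟨h1, a, ha, h2⟩ := hG.o1 x u y h
          exact ⟨h1, a, by simp [ha], h2⟩
        · obtain ⟨w, _, h | h⟩ := occurs_ip h
          · obtain ⟨h1, a, ha, h2⟩ := hG.o1 x w y h
            exact ⟨h1, a, by simp [ha], h2⟩
          · obtain ⟨h1, a, ha, h2⟩ := hP.o1 w u y h
            exact ⟨h1, a, by simp [ha], h2⟩
    · rw [c1P x u hx] at h
      obtain ⟨h1, a, ha, h2⟩ := hP.o1 x u y h
      exact ⟨h1, a, by simp [ha], h2⟩
  · intro σ t hσ hσf hc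
    -- the claim for `P`
    have clP : ∀ x ∈ hd P, F.PB (.iff (sg (p x) (σ x)) (.or (B0 x)
        (ip vs (B1 x) fun u => sg (p u) (σ u)))) t := by
      intro x hx
      have hx' : x ∉ hd G := fun h => hA.disj h hx
      have := hc x ((hhd x).2 (Or.inr hx))
      rw [c0P x hx', show c1 x = B1 x from funext fun u => c1P x u hx'] at this
      exact this
    have slit : ∀ u, (sg (p u) (σ u)).size ≤ S := fun u => by
      have := size_sg_le (p u) (σ u)
      have := hσ u
      omega
    -- the claim for `G`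
    have clG : ∀ x ∈ hd G, F.PB (.iff (sg (p x) (σ x)) (.or (A0 x)
        (ip vs (A1 x) fun u => sg (p u) (σ u))))
        (3 * (vs.length + 2) ^ 2 * (t + (2 * vs.length + 6) * (F.K * M))) := by
      intro x hx
      have hcx := hc x ((hhd x).2 (Or.inl hx))
      rw [c0G x hx] at hcx
      refine comp_iff (A0 := A0 x) (A1 := A1 x) (B0 := B0) (B1 := B1) (C1 := c1 x)
        (l := fun u => sg (p u) (σ u)) (inP := fun z => z ∈ hd P) (S := S) hcx
        (fun z _ hz => clP z hz) (fun z hz => hP.z0 z hz) (fun z u hz => hP.z1 z u hz)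
        (c1G' x hx) ?_ ?_ (slit x) ((hG.s0 x).trans (hss'.trans hs'))
        (fun u => (hG.s1 x u).trans (hss'.trans hs'))
        (fun u => (hP.s0 u).trans (hss'.trans hs'))
        (fun z u => (hP.s1 z u).trans (hss'.trans hs')) slit (fun u => (sz1 x u).trans hs') hM
      · intro z
        by_cases hzG : z ∈ hd G
        · exact Or.inl (hG.z2 x z hzG)
        by_cases hzP : z ∈ hd P
        · exact Or.inr (Or.inl hzP)
        by_cases hno : ∀ a ∈ G ++ P, ¬ a.2.Occurs z
        · exact Or.inl (hG.z3 x z fun a ha => hno a (by simp [ha]))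
        · refine Or.inr (Or.inr (c1G x hx z ?_ hno))
          rw [hhd]; tauto
      · intro z u hz
        by_cases huG : u ∈ hd G
        · exact Or.inl (B1G z u huG)
        by_cases huP : u ∈ hd P
        · exact Or.inl (hP.z2 z u huP)
        by_cases hno : ∀ a ∈ G ++ P, ¬ a.2.Occurs u
        · exact Or.inl (hP.z3 z u fun a ha => hno a (by simp [ha]))
        · refine Or.inr (c1G x hx u ?_ hno)
          rw [hhd]; tauto
    have hq1 : 1 ≤ (vs.length + 2) ^ 2 := Nat.one_le_pow _ _ (by omega)
    intro a ha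
    rcases List.mem_append.1 ha with ha | ha
    · refine (hG.sol σ _ hσ hσf clG a ha).mono ?_
      rw [pow_succ (6 * (vs.length + 2) ^ 2) k,
        Nat.mul_assoc ((6 * (vs.length + 2) ^ 2) ^ k)]
      refine Nat.mul_le_mul_left _ ?_
      have e1 : t + (2 * vs.length + 6) * (F.K * M) ≤ t + X := by omega
      have e2 : 3 * (vs.length + 2) ^ 2 * (t + (2 * vs.length + 6) * (F.K * M)) ≤
        3 * (vs.length + 2) ^ 2 * (t + X) := Nat.mul_le_mul_left _ e1
      have e3 : t + X ≤ (vs.length + 2) ^ 2 * (t + X) := Nat.le_mul_of_pos_left _ hq1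
      nlinarith
    · refine (hP.sol σ _ hσ hσf clP a ha).mono ?_
      rw [pow_succ (6 * (vs.length + 2) ^ 2) k,
        Nat.mul_assoc ((6 * (vs.length + 2) ^ 2) ^ k)]
      refine Nat.mul_le_mul_left _ ?_
      exact Nat.le_mul_of_pos_left _ (by positivity)

end FregeEF
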