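import Pool.Agent.Work.MP_c07f0d_lc.PVDec
import Pool.Agent.Work.MP_c07f0d_lc.Final
import Mathlib.Analysis.SpecialFunctions.Log.Basic
import Mathlib.Analysis.Complex.ExponentialBounds

/-!
# Frege simulates extended Frege with size `2 ^ O(N / log N)`
-/

namespace FregeEF

variable {F : FregeSystem}

/-- The system `G` can be solved with size at most `exp x`. -/
def FB (F : FregeSystem) (G : List (ℕ × Fm ℕ)) (x : ℝ) : Prop :=
  ∃ b : ℕ, Sol F G b ∧ (b : ℝ) ≤ Real.exp x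

theorem FB.mono {G : List (ℕ × Fm ℕ)} {x y : ℝ} (h : FB F G x) (hxy : x ≤ y) : FB F G y := by
  obtain ⟨b, h1, h2⟩ := h
  exact ⟨b, h1, h2.trans (Real.exp_le_exp.2 hxy)⟩

/-- The overhead. -/
noncomputable def Lam (F : FregeSystem) (N : ℕ) : ℝ :=
  Real.log F.K + 2 * Real.log (2 * N + 8) + 5

theorem Lam_ge (F : FregeSystem) (N : ℕ) : 5 ≤ Lam F N := by
  have h1 : (1 : ℝ) ≤ F.K := by exact_mod_cast F.K_pos
  have h2 := Real.log_nonneg h1
  have h3 : 0 ≤ Real.log (2 * N + 8) := Real.log_nonneg (by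
    have : (0 : ℝ) ≤ N := Nat.cast_nonneg _
    linarith)
  unfold Lam
  linarith

theorem FB.comp {S P : List (ℕ × Fm ℕ)} {x y : ℝ} (hA : Acyc (S ++ P)) (hS : FB F S x)
    (hP : FB F P y) : FB F (S ++ P) (x + y) := by
  obtain ⟨b1, h1, h2⟩ := hS
  obtain ⟨b2, h3, h4⟩ := hP
  refine ⟨b1 * b2, h1.comp hA h3, ?_⟩
  push_cast
  rw [Real.exp_add]
  exact mul_le_mul h2 h4 (Nat.cast_nonneg _) (Real.exp_pos _).le

theorem FB.dec {S P : List (ℕ × Fm ℕ)} {x : ℝ} {N k : ℕ} (hA : Acyc (S ++ P)) (hS : FB F S x)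
    (hP : FB F P x) (hN : ∀ a ∈ S, a.2.size ≤ N) (hk : wr S P ≤ k) :
    FB F (S ++ P) (x + 3 * k + Lam F N) := by
  obtain ⟨b1, h1, h2⟩ := hS
  obtain ⟨b2, h3, h4⟩ := hP
  refine ⟨_, h1.dec hA h3 hN hk, ?_⟩
  have hK : (0 : ℝ) < F.K := by exact_mod_cast F.K_pos
  have hN0 : (0 : ℝ) < 2 * N + 8 := by positivity
  have e1 : (F.K : ℝ) = Real.exp (Real.log F.K) := (Real.exp_log hK).symm
  have e2 : (2 * (N : ℝ) + 8) ^ 2 = Real.exp (2 * Real.log (2 * N + 8)) := by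
    rw [two_mul (Real.log _), Real.exp_add, Real.exp_log hN0, sq]
  have e3 : (8 : ℝ) ^ (k + 1) * 2 ≤ Real.exp (3 * k + 4) := by
    have h5 : (2 : ℝ) ≤ Real.exp 1 := by
      have := Real.add_one_le_exp (1 : ℝ)
      linarith
    calc (8 : ℝ) ^ (k + 1) * 2 = 2 ^ (3 * k + 4) := by
          rw [show (8 : ℝ) = 2 ^ 3 by norm_num, ← pow_mul, ← pow_succ]
          ring_nf
      _ ≤ (Real.exp 1) ^ (3 * k + 4) := pow_le_pow_left₀ (by norm_num) h5 _
      _ = Real.exp (3 * k + 4) := by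
          rw [← Real.exp_nat_mul]
          push_cast
          ring_nf
  push_cast
  have h6 : (b1 : ℝ) + b2 ≤ 2 * Real.exp x := by linarith
  calc (F.K : ℝ) * (2 * N + 8) ^ 2 * 8 ^ (k + 1) * (b1 + b2) ≤
      F.K * (2 * N + 8) ^ 2 * 8 ^ (k + 1) * (2 * Real.exp x) := by gcongr
    _ = F.K * (2 * N + 8) ^ 2 * (8 ^ (k + 1) * 2) * Real.exp x := by ring
    _ ≤ F.K * (2 * N + 8) ^ 2 * Real.exp (3 * k + 4) * Real.exp x := by gcongr
    _ = Real.exp (Real.log F.K) * Real.exp (2 * Real.log (2 * N + 8)) * Real.exp (3 * k + 4) *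
        Real.exp x := by rw [← e1, ← e2]
    _ = Real.exp (Real.log F.K + 2 * Real.log (2 * N + 8) + (3 * k + 4) + x) := by
        rw [← Real.exp_add, ← Real.exp_add, ← Real.exp_add]
    _ ≤ _ := by
        rw [Real.exp_le_exp]
        unfold Lam
        linarith

theorem FB.base {G : List (ℕ × Fm ℕ)} {N : ℕ} (hA : Acyc G) (h0 : wr G G = 0) (hN1 : 1 ≤ N)
    (hN : ∀ a ∈ G, a.2.size ≤ N) : FB F G (Lam F N) := by
  refine ⟨_, Sol.base hA h0 hN1 hN, ?_⟩
  have hK : (0 : ℝ) < F.K := by exact_mod_cast F.K_pos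
  have hN0 : (1 : ℝ) ≤ N := by exact_mod_cast hN1
  have h1 : Real.log N ≤ Real.log (2 * N + 8) := Real.log_le_log (by linarith) (by linarith)
  have h2 : 0 ≤ Real.log (2 * N + 8) := Real.log_nonneg (by linarith)
  push_cast
  calc (F.K : ℝ) * N = Real.exp (Real.log F.K + Real.log N) := by
        rw [Real.exp_add, Real.exp_log hK, Real.exp_log (by linarith)]
    _ ≤ _ := by
        rw [Real.exp_le_exp]
        unfold Lam
        linarith

theorem pv_ineq1 {A m cr u w : ℝ} (hA : 0 ≤ A) (hu : 0 < u) (hw : 0 ≤ w) (hm : m ≤ 2 * w)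
    (hcr : 20 * w ≤ cr * (u + 1)) :
    A / u ^ 2 * (m - cr) + 2 * (4 * A * w / u ^ 2) ≤
      A / (u + 1) ^ 2 * m + 4 * A * (2 * w) / (u + 1) ^ 2 := by
  have h1 : (m + 8 * w) * (2 * u + 1) ≤ cr * (u + 1) ^ 2 := by
    have h2 : (m + 8 * w) * (2 * u + 1) ≤ (10 * w) * (2 * u + 1) := by
      have : 0 ≤ 2 * u + 1 := by linarith
      exact mul_le_mul_of_nonneg_right (by linarith) this
    have h3 : 20 * w * (u + 1) ≤ cr * (u + 1) * (u + 1) :=
      mul_le_mul_of_nonneg_right hcr (by linarith)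
    nlinarith
  have hu1 : 0 < u + 1 := by linarith
  have e : A / (u + 1) ^ 2 * m + 4 * A * (2 * w) / (u + 1) ^ 2 -
      (A / u ^ 2 * (m - cr) + 2 * (4 * A * w / u ^ 2)) =
      A * (cr * (u + 1) ^ 2 - (m + 8 * w) * (2 * u + 1)) / (u ^ 2 * (u + 1) ^ 2) := by
    field_simp
    ring
  have h4 : 0 ≤ A * (cr * (u + 1) ^ 2 - (m + 8 * w) * (2 * u + 1)) / (u ^ 2 * (u + 1) ^ 2) := by
    have : 0 ≤ cr * (u + 1) ^ 2 - (m + 8 * w) * (2 * u + 1) := by linarith
    positivity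
  linarith

theorem pv_ineq2 {A cr u w Λ : ℝ} (hu : 10 ≤ u) (hw : 0 < w)
    (hcr : cr * (u + 1) ≤ 20 * w) (hA1 : 40 * (u + 1) ≤ A) (hA2 : 300 * Λ ≤ A)
    (hΛ : 0 ≤ Λ) (huw : (u + 1) ^ 2 ≤ 121 * w) :
    5 * A * w / u ^ 2 + 3 * cr + Λ ≤ 4 * A * (2 * w) / (u + 1) ^ 2 := by
  have hu0 : 0 < u := by linarith
  have hu1 : 0 < u + 1 := by linarith
  have hA0 : 0 < A := by linarith
  rw [le_div_iff₀ (by positivity)]
  have h1 : 5 * A * w / u ^ 2 * (u + 1) ^ 2 ≤ 6.05 * A * w := by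
    rw [div_mul_eq_mul_div, div_le_iff₀ (by positivity)]
    have h2 : (u + 1) ^ 2 ≤ 1.21 * u ^ 2 := by nlinarith
    have h3 : 0 ≤ 5 * A * w := by positivity
    nlinarith [mul_le_mul_of_nonneg_left h2 h3]
  have h2 : 3 * cr * (u + 1) ^ 2 ≤ 1.5 * A * w := by
    have h3 : 3 * cr * (u + 1) ^ 2 ≤ 60 * w * (u + 1) := by nlinarith
    have h4 : 60 * w * (u + 1) ≤ 1.5 * A * w := by nlinarith
    linarith
  have h3 : Λ * (u + 1) ^ 2 ≤ 0.45 * A * w := by
    have h4 : Λ * (u + 1) ^ 2 ≤ Λ * (121 * w) := mul_le_mul_of_nonneg_left huw hΛ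
    have h5 : 300 * Λ * w ≤ A * w := mul_le_mul_of_nonneg_right hA2 hw.le
    nlinarith
  nlinarith

theorem pow_bound (j : ℕ) : ((j : ℝ) + 11) ^ 2 ≤ 121 * 2 ^ j := by
  induction j with
  | zero => norm_num
  | succ j ih =>
    push_cast
    rw [pow_succ (2 : ℝ)]
    have : (0 : ℝ) ≤ j := Nat.cast_nonneg _
    nlinarith

/-- The recursion. -/
theorem FB.rec {N J : ℕ} {A : ℝ} (hN1 : 1 ≤ N) (hA1 : 40 * ((J : ℝ) + 11) ≤ A)
    (hA2 : 300 * Lam F N ≤ A) :
    ∀ j ≤ J, ∀ G : List (ℕ × Fm ℕ), Acyc G → (∀ a ∈ G, a.2.size ≤ N) → wr G G < 2 ^ j →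
      FB F G (A / ((j : ℝ) + 10) ^ 2 * wr G G + 4 * A * 2 ^ j / ((j : ℝ) + 10) ^ 2) := by
  have hΛ := Lam_ge F N
  have hA0 : 0 < A := by linarith
  intro j
  induction j with
  | zero =>
    intro _ G hG hN hw
    have h0 : wr G G = 0 := by simpa using hw
    refine (FB.base hG h0 hN1 hN).mono ?_
    rw [h0]
    norm_num
    linarith
  | succ j ih =>
    intro hj G hG hN hw
    have ih := ih (by omega)
    have hj0 : (0 : ℝ) ≤ j := Nat.cast_nonneg _
    have hjJ : (j : ℝ) + 1 ≤ J := by exact_mod_cast hj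
    have hw0 : (0 : ℝ) < 2 ^ j := by positivity
    have hpow := pow_bound j
    have e1 : (((j + 1 : ℕ) : ℝ) + 10) = ((j : ℝ) + 10) + 1 := by push_cast; ring
    have e2 : (2 : ℝ) ^ (j + 1) = 2 * 2 ^ j := by rw [pow_succ]; ring
    rw [e1, e2]
    rcases Nat.eq_zero_or_pos (wr G G) with h0 | h0
    · refine (FB.base hG h0 hN1 hN).mono ?_
      rw [h0]
      have := pv_ineq2 (A := A) (cr := 0) (u := (j : ℝ) + 10) (w := 2 ^ j) (Λ := Lam F N)
        (by linarith) hw0 (by nlinarith) (by linarith) hA2 (by linarith)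
        (by have : (j : ℝ) + 10 + 1 = j + 11 := by ring
            rw [this]; exact hpow)
      have h2 : 0 ≤ 5 * A * 2 ^ j / ((j : ℝ) + 10) ^ 2 := by positivity
      simp only [Nat.cast_zero, mul_zero]
      linarith
    obtain ⟨S, P, rfl, h1, h2⟩ := exists_half hG h0
    have hsplit := wr_split hG
    have hSlt : wr S S < 2 ^ j := by rw [pow_succ] at hw; omega
    have hPlt : wr P P < 2 ^ j := by rw [pow_succ] at hw; omega
    have hNS : ∀ a ∈ S, a.2.size ≤ N := fun a ha => hN a (by simp [ha])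
    have hNP : ∀ a ∈ P, a.2.size ≤ N := fun a ha => hN a (by simp [ha])
    have bS := ih S hG.left hNS hSlt
    have bP := ih P hG.right hNP hPlt
    have hsR : (wr (S ++ P) (S ++ P) : ℝ) = wr S S + wr S P + wr P P := by exact_mod_cast hsplit
    have hmR : (wr (S ++ P) (S ++ P) : ℝ) ≤ 2 * 2 ^ j := by
      have : wr (S ++ P) (S ++ P) ≤ 2 * 2 ^ j := by rw [pow_succ] at hw; omega
      exact_mod_cast this
    have hcoef : 0 ≤ A / ((j : ℝ) + 10) ^ 2 := by positivity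
    by_cases hc : 20 * (2 : ℝ) ^ j ≤ (wr S P : ℝ) * (((j : ℝ) + 10) + 1)
    · refine (bS.comp hG bP).mono ?_
      have := pv_ineq1 (A := A) (m := wr (S ++ P) (S ++ P)) (cr := wr S P) (u := (j : ℝ) + 10)
        (w := 2 ^ j) hA0.le (by linarith) hw0.le hmR hc
      refine le_trans (le_of_eq ?_) this
      rw [hsR]
      ring
    · push Not at hc
      have hSle : (wr S S : ℝ) ≤ 2 ^ j := by exact_mod_cast hSlt.le
      have hPle : (wr P P : ℝ) ≤ 2 ^ j := by exact_mod_cast hPlt.le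
      have bS' := bS.mono (y := 5 * A * 2 ^ j / ((j : ℝ) + 10) ^ 2) (by
        have := mul_le_mul_of_nonneg_left hSle hcoef
        have e : 5 * A * 2 ^ j / ((j : ℝ) + 10) ^ 2 = A / ((j : ℝ) + 10) ^ 2 * 2 ^ j +
          4 * A * 2 ^ j / ((j : ℝ) + 10) ^ 2 := by ring
        linarith)
      have bP' := bP.mono (y := 5 * A * 2 ^ j / ((j : ℝ) + 10) ^ 2) (by
        have := mul_le_mul_of_nonneg_left hPle hcoef
        have e : 5 * A * 2 ^ j / ((j : ℝ) + 10) ^ 2 = A / ((j : ℝ) + 10) ^ 2 * 2 ^ j +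
          4 * A * 2 ^ j / ((j : ℝ) + 10) ^ 2 := by ring
        linarith)
      refine (bS'.dec hG bP' hNS le_rfl).mono ?_
      have := pv_ineq2 (A := A) (cr := wr S P) (u := (j : ℝ) + 10) (w := 2 ^ j) (Λ := Lam F N)
        (by linarith) hw0 hc.le (by linarith) hA2 (by linarith)
        (by have : (j : ℝ) + 10 + 1 = j + 11 := by ring
            rw [this]; exact hpow)
      have h3 : 0 ≤ A / (((j : ℝ) + 10) + 1) ^ 2 * (wr (S ++ P) (S ++ P) : ℝ) := by positivity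
      linarith

theorem IsEF.size_E {R : List Rule} {τ : Fm ℕ} {L : List (Fm ℕ)} {E : List (ℕ × Fm ℕ)}
    (h : IsEF R τ L E) : (E.map fun a => a.2.size).sum ≤ lsize L := by
  induction h with
  | nil => simp
  | step _ _ ih => rw [lsize_cons]; omega
  | ext _ _ _ _ _ _ ih =>
    rw [lsize_cons, List.map_cons, List.sum_cons]
    simp only [Fm.iff, Fm.size]
    omega

theorem wr_le (G H : List (ℕ × Fm ℕ)) : wr G H ≤ (G.map fun a => a.2.size).sum := by
  induction G with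
  | nil => simp [wr]
  | cons g G ih =>
    rw [wr_cons, List.map_cons, List.sum_cons]
    have := cn_le (H := H) g.2
    omega

theorem FregeSystem.IsEFProof.pv {τ : Fm ℕ} {L : List (Fm ℕ)} {E : List (ℕ × Fm ℕ)}
    (h : F.IsEFProof τ L E) {x : ℝ} (hx : FB F E x) :
    ∃ L' : List (Fm ℕ), F.IsProof τ L' ∧ (lsize L' : ℝ) ≤ 2 * lsize L * Real.exp x := by
  obtain ⟨b, ⟨σ, s1, s2, _, s4⟩, hb⟩ := hx
  obtain ⟨_, _, h3⟩ := h.1.acyc
  have := IsEF.pb h σ b b s2 (by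
    intro x hx
    refine s1 x fun h4 => ?_
    obtain ⟨a, ha, rfl⟩ := mem_hd.1 h4
    exact h3 a ha hx) s4
  obtain ⟨L', h5, h6⟩ := this.isProof
  refine ⟨L', h5, ?_⟩
  calc (lsize L' : ℝ) ≤ ((lsize L * b + lsize L * b : ℕ) : ℝ) := by exact_mod_cast h6
    _ = 2 * lsize L * b := by push_cast; ring
    _ ≤ _ := by gcongr

/-- Frege systems simulate extended Frege systems with size `(N + 2) ^ O(M / log² M + 1)`, where `M`
is an upper bound on the number of wires of the extension axioms. -/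
theorem frege_simulates (F : FregeSystem) : ∃ C : ℕ, ∀ (τ : Fm ℕ) (L : List (Fm ℕ))
    (E : List (ℕ × Fm ℕ)) (M : ℕ), F.IsEFProof τ L E → wires E ≤ M → M ≤ lsize L →
    ∃ L' : List (Fm ℕ), F.IsProof τ L' ∧
      lsize L' ≤ (lsize L + 2) ^ (C * (M / (Nat.log 2 M + 1) ^ 2 + 1)) := by
  have hK1 : (1 : ℝ) ≤ F.K := by exact_mod_cast F.K_pos
  have hK0 := Real.log_nonneg hK1
  set c3 : ℝ := 300 * Real.log F.K + 3860 with hc3
  have hln2 : (1 / 2 : ℝ) ≤ Real.log 2 := by have := Real.log_two_gt_d9; linarith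
  have hln2' : Real.log 2 ≤ 1 := by have := Real.log_two_lt_d9; linarith
  refine ⟨⌈18 * c3 + 2⌉₊, fun τ L E m h hwM hMN => ?_⟩
  have hC2 : 18 * c3 + 2 ≤ ((⌈18 * c3 + 2⌉₊ : ℕ) : ℝ) := Nat.le_ceil _
  set C := ⌈18 * c3 + 2⌉₊ with hC
  obtain ⟨hA, hL, _⟩ := h.1.acyc
  set N := lsize L with hN
  have hN1 : 1 ≤ N := by
    have hτ : τ ∈ L := by
      have h2 := h.2
      cases L with
      | nil => simp at h2
      | cons a L => simp at h2; simp [h2]
    have := size_le_lsize hτ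
    have := τ.size_pos
    omega
  have hEN : ∀ a ∈ E, a.2.size ≤ N := by
    intro a ha
    have := size_le_lsize (hL a ha)
    simp only [Fm.iff, Fm.size] at this
    omega
  have hNR : (1 : ℝ) ≤ N := by exact_mod_cast hN1
  have hwE : wires E = wr E E := rfl
  rw [hwE] at hwM
  have hwMR : (wr E E : ℝ) ≤ m := by exact_mod_cast hwM
  set ℓ := Nat.log 2 m with hℓ
  have hmlt : m < 2 ^ (ℓ + 1) := Nat.lt_pow_succ_log_self (by omega) m
  have hℓN : ℓ ≤ Nat.log 2 N := Nat.log_mono_right hMN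
  set J := ℓ + 1 with hJ
  have hJR : (1 : ℝ) ≤ J := by exact_mod_cast (by omega : 1 ≤ J)
  set q := m / J ^ 2 with hq
  set Y := Real.log (N + 2) with hY
  have hY1 : 1 ≤ Y := by
    have h1 : Real.log 3 ≤ Y := Real.log_le_log (by norm_num) (by linarith)
    have h2 : (1 : ℝ) ≤ Real.log 3 := by
      rw [Real.le_log_iff_exp_le (by norm_num)]
      have := Real.exp_one_lt_d9
      linarith
    linarith
  have hqR : (m : ℝ) / J ^ 2 ≤ q + 1 := by
    rw [div_le_iff₀ (by positivity)]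
    have h1 : m < J ^ 2 * (q + 1) := Nat.lt_mul_div_succ m (by positivity)
    have h2 : (m : ℝ) ≤ J ^ 2 * (q + 1) := by exact_mod_cast h1.le
    linarith
  have hpowJ : (2 : ℝ) ^ J ≤ 2 * (m + 1) := by
    have h1 : (2 : ℝ) ^ J = 2 * 2 ^ ℓ := by rw [hJ, pow_succ]; ring
    rw [h1]
    have h2 : 2 ^ ℓ ≤ m + 1 := by
      rcases Nat.eq_zero_or_pos m with h0 | h0
      · rw [hℓ, h0]; simp
      · exact (Nat.pow_log_le_self 2 (by omega)).trans (by omega)
    have h3 : (2 : ℝ) ^ ℓ ≤ m + 1 := by exact_mod_cast h2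
    linarith
  have hJY : (J : ℝ) ≤ 3 * Y := by
    have h1 : (2 : ℝ) ^ (Nat.log 2 N) ≤ N + 2 := by
      have : (2 : ℝ) ^ (Nat.log 2 N) ≤ N := by
        exact_mod_cast Nat.pow_log_le_self 2 (by omega)
      linarith
    have h2 := Real.log_le_log (by positivity) h1
    rw [Real.log_pow] at h2
    have h3 : (ℓ : ℝ) ≤ (Nat.log 2 N : ℝ) := by exact_mod_cast hℓN
    have h4 : (Nat.log 2 N : ℝ) * (1 / 2) ≤ Nat.log 2 N * Real.log 2 :=
      mul_le_mul_of_nonneg_left hln2 (Nat.cast_nonneg _)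
    have h5 : (J : ℝ) = ℓ + 1 := by rw [hJ]; push_cast; ring
    linarith
  have hlog8 : Real.log (2 * N + 8) ≤ 2 + Y := by
    have h1 : Real.log (2 * N + 8) ≤ Real.log (4 * (N + 2)) :=
      Real.log_le_log (by linarith) (by linarith)
    rw [Real.log_mul (by norm_num) (by linarith)] at h1
    have h2 : Real.log 4 ≤ 2 := by
      rw [show (4 : ℝ) = 2 ^ 2 by norm_num, Real.log_pow]
      push_cast
      linarith
    linarith
  set A : ℝ := 40 * ((J : ℝ) + 11) + 300 * Lam F N with hAdef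
  have hΛ5 := Lam_ge F N
  have hA0 : 0 ≤ A := by rw [hAdef]; linarith
  have hAle : A ≤ c3 * Y := by
    have h1 : Lam F N ≤ Real.log F.K + 2 * Y + 9 := by unfold Lam; linarith
    rw [hAdef, hc3]
    nlinarith
  have hrec := FB.rec (F := F) (N := N) (J := J) (A := A) hN1 (by rw [hAdef]; linarith)
    (by rw [hAdef]; linarith) J le_rfl E hA hEN (by omega)
  have hX : A / ((J : ℝ) + 10) ^ 2 * wr E E + 4 * A * 2 ^ J / ((J : ℝ) + 10) ^ 2 ≤
      18 * c3 * Y * (q + 1) := by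
    have h2 : A / ((J : ℝ) + 10) ^ 2 * wr E E + 4 * A * 2 ^ J / ((J : ℝ) + 10) ^ 2 ≤
        A * (9 * (m + 1)) / ((J : ℝ) + 10) ^ 2 := by
      have e : A / ((J : ℝ) + 10) ^ 2 * wr E E + 4 * A * 2 ^ J / ((J : ℝ) + 10) ^ 2 =
        A * (wr E E + 4 * 2 ^ J) / ((J : ℝ) + 10) ^ 2 := by ring
      rw [e]
      gcongr
      linarith
    refine h2.trans ?_
    rw [div_le_iff₀ (by positivity)]
    have hq0 : (0 : ℝ) ≤ q := Nat.cast_nonneg _
    have h3 : (m : ℝ) ≤ (q + 1) * J ^ 2 := by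
      rw [div_le_iff₀ (by positivity)] at hqR
      exact hqR
    have h5 : (m : ℝ) + 1 ≤ 2 * (q + 1) * ((J : ℝ) + 10) ^ 2 := by nlinarith
    calc A * (9 * (m + 1)) ≤ (c3 * Y) * (9 * (2 * (q + 1) * ((J : ℝ) + 10) ^ 2)) := by
          gcongr
      _ = 18 * c3 * Y * (q + 1) * ((J : ℝ) + 10) ^ 2 := by ring
  obtain ⟨L', h1, h2⟩ := h.pv (hrec.mono hX)
  refine ⟨L', h1, ?_⟩
  have h3 : (lsize L' : ℝ) ≤ (N + 2) ^ (C * (q + 1)) := by
    refine h2.trans ?_
    have hq0 : (0 : ℝ) ≤ q := Nat.cast_nonneg _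
    have h4 : 2 * (N : ℝ) ≤ Real.exp (2 * Y * (q + 1)) := by
      have h5 : 2 * (N : ℝ) ≤ (N + 2) ^ 2 := by nlinarith
      refine h5.trans ?_
      rw [← Real.exp_log (show (0 : ℝ) < N + 2 by linarith), ← Real.exp_nat_mul,
        Real.exp_le_exp]
      push_cast
      nlinarith
    calc 2 * (N : ℝ) * Real.exp (18 * c3 * Y * (q + 1)) ≤
        Real.exp (2 * Y * (q + 1)) * Real.exp (18 * c3 * Y * (q + 1)) := by gcongr
      _ = Real.exp ((18 * c3 + 2) * (Y * (q + 1))) := by rw [← Real.exp_add]; ring_nf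
      _ ≤ Real.exp ((C * (q + 1) : ℕ) * Y) := by
          rw [Real.exp_le_exp]
          push_cast
          have h6 : (18 * c3 + 2) * (Y * (q + 1)) ≤ C * (Y * (q + 1)) :=
            mul_le_mul_of_nonneg_right hC2 (by positivity)
          linarith
      _ = (N + 2) ^ (C * (q + 1)) := by
          rw [Real.exp_nat_mul, Real.exp_log (by linarith)]
  exact_mod_cast h3

end FregeEF
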