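import Pool.Agent.Work.MP_c07f0d_lc.LinD
import Pool.Agent.Work.MP_c07f0d_lc.PVFinal

/-!
# Frege systems simulate extended Frege systems of small linear nesting rank
-/

namespace FregeEF

variable {F : FregeSystem} {M : ℕ}

/-- Affine forms for a whole system. -/
theorem exists_mat {vs : List ℕ} {p : ℕ → Bool} {b X N S : ℕ}
    (hb : b + 1 ≤ S) (hM1 : 2 * (vs.length * (S + S + 2)) + 4 * S + 10 ≤ M)
    (hM2 : vs.length * (2 * N + b + 4) + 2 * (N * (b + 2)) + 6 * N + b + 10 ≤ M)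
    (hX1 : (2 * vs.length + 6) * (F.K * M) ≤ X) (hX2 : Bc F vs.length N M ≤ X) :
    ∀ (k : ℕ) (G : List (ℕ × Fm ℕ)), Acyc G →
      (∀ a ∈ G, Lin (· ∈ vs) p (p a.1) a.2 ∧ a.2.size ≤ N) → G.length ≤ 2 ^ k →
      (4 * (vs.length + 2)) ^ k * (2 * N + 1) ≤ S →
      ∃ (c0 : ℕ → Fm ℕ) (c1 : ℕ → ℕ → Fm ℕ),
        Mat F vs p b X G k ((4 * (vs.length + 2)) ^ k * (2 * N + 1)) c0 c1 := by
  intro k
  induction k with
  | zero =>
    intro G hA hG hlen hS
    rw [pow_zero, one_mul] at hS ⊢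
    match G, hlen with
    | [], _ => exact ⟨_, _, Mat.base0 F vs p b X (by omega)⟩
    | [(q, φ)], _ =>
      have h1 := hG (q, φ) (List.mem_cons_self ..)
      exact ⟨_, _, Mat.base1 (hA.2 _ (List.mem_cons_self ..)) h1.1 h1.2 hM2 hX2 le_rfl⟩
    | _ :: _ :: _, h => simp at h
  | succ k ih =>
    intro G hA hG hlen hS
    have hG' : G.take (2 ^ k) ++ G.drop (2 ^ k) = G := List.take_append_drop _ _
    have e : (4 * (vs.length + 2)) ^ (k + 1) * (2 * N + 1) =
        4 * (vs.length + 2) * ((4 * (vs.length + 2)) ^ k * (2 * N + 1)) := by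
      rw [pow_succ]; ring
    have hs1 : 1 ≤ (4 * (vs.length + 2)) ^ k * (2 * N + 1) := Nat.one_le_iff_ne_zero.2 (by
      positivity)
    have hle : (4 * (vs.length + 2)) ^ k * (2 * N + 1) ≤ S := by
      rw [e] at hS
      refine le_trans ?_ hS
      exact Nat.le_mul_of_pos_left _ (by omega)
    rw [pow_succ] at hlen
    obtain ⟨A0, A1, h1⟩ := ih (G.take (2 ^ k)) (by rw [← hG'] at hA; exact hA.left)
      (fun a ha => hG a (List.mem_of_mem_take ha)) (by rw [List.length_take]; omega) hle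
    obtain ⟨B0, B1, h2⟩ := ih (G.drop (2 ^ k)) (by rw [← hG'] at hA; exact hA.right)
      (fun a ha => hG a (List.mem_of_mem_drop ha)) (by rw [List.length_drop]; omega) hle
    have h3 := Mat.comp (F := F) (M := M) (S := S)
      (s' := (4 * (vs.length + 2)) ^ (k + 1) * (2 * N + 1)) (by rw [hG']; exact hA) h1 h2
      (by rw [e]; nlinarith) hS hb hM1 hX1
    rw [hG'] at h3
    exact h3

/-- Solving one level. -/
theorem Sol.level {G : List (ℕ × Fm ℕ)} {p : ℕ → Bool} {N K : ℕ} (hA : Acyc G)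
    (hL : ∀ a ∈ G, Lin (· ∈ hd G) p (p a.1) a.2) (hN : ∀ a ∈ G, a.2.size ≤ N)
    (hn : G.length ≤ N) (hK : N ≤ 2 ^ K) (hN1 : 1 ≤ N) :
    Sol F G ((N + 2) ^ ((14 + F.K) * (K + 1))) := by
  classical
  set vs := G.map Prod.fst with hvs
  have hmem : ∀ x, x ∈ vs ↔ x ∈ hd G := by intro x; simp [hvs, hd]
  have hpred : (fun x => x ∈ hd G) = (fun x => x ∈ vs) := by
    funext x; exact propext (hmem x).symm
  set n := vs.length with hnvs
  have hnG : n = G.length := by rw [hnvs, hvs, List.length_map]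
  have hnN : n ≤ N := by omega
  set s := (4 * (n + 2)) ^ K * (2 * N + 1) with hs
  have hs1 : 2 * N + 1 ≤ s := Nat.le_mul_of_pos_left _ (by positivity)
  set M := 10 * ((n + N + 2) * (s + 4)) with hM
  set W := F.K * M with hW
  set X := Bc F n N M + (2 * n + 6) * W with hX
  have hM1 : 2 * (n * ((s + 2) + (s + 2) + 2)) + 4 * (s + 2) + 10 ≤ M := by
    rw [hM]; nlinarith [Nat.zero_le (n * s), Nat.zero_le (N * s)]
  have hM2 : n * (2 * N + (s + 1) + 4) + 2 * (N * ((s + 1) + 2)) + 6 * N + (s + 1) + 10 ≤ M := by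
    have : n * (2 * N + (s + 1) + 4) ≤ n * (s + (s + 1) + 4) := Nat.mul_le_mul_left _ (by omega)
    rw [hM]; nlinarith [Nat.zero_le (n * s), Nat.zero_le (N * s)]
  obtain ⟨c0, c1, hmat⟩ := exists_mat (F := F) (M := M) (vs := vs) (p := p) (b := s + 1) (X := X)
    (N := N) (S := s + 2) (by omega) hM1 hM2 (by rw [hX, ← hnvs, ← hW]; omega)
    (by rw [hX, ← hnvs]; omega) K G hA
    (fun a ha => ⟨by rw [← hpred]; exact hL a ha, hN a ha⟩) (by omega) (by rw [← hs]; omega)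
  rw [← hnvs, ← hs] at hmat
  set σ : ℕ → Fm ℕ := fun x => if x ∈ hd G then (if p x then c0 x else .neg (c0 x)) else .var x
    with hσ
  have σ1 : ∀ x, x ∉ hd G → σ x = .var x := fun x hx => by simp only [hσ, hx, if_false]
  have σ2 : ∀ x, (σ x).size ≤ s + 1 := by
    intro x
    by_cases hx : x ∈ hd G
    · simp only [hσ, hx, if_true]
      have := hmat.s0 x
      split_ifs
      · omega
      · simp only [Fm.size]; omega
    · rw [σ1 x hx]; simp only [Fm.size]; omega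
  have hM0 : 1 ≤ M := by omega
  have hlit : ∀ u, (sg (p u) (σ u)).size ≤ s + 2 := fun u => by
    have := size_sg_le (p u) (σ u)
    have := σ2 u
    omega
  -- the claim for the whole system
  have hcl : ∀ x ∈ hd G, F.PB (.iff (sg (p x) (σ x)) (.or (c0 x)
      (ip vs (c1 x) fun u => sg (p u) (σ u)))) ((n + 1) * (W + W) + W) := by
    intro x hx
    have s0 := hmat.s0 x
    have hip : (ip vs (c1 x) fun u => sg (p u) (σ u)).size ≤ n * ((s + 2) + (s + 2) + 2) + 1 := by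
      have := size_ip_le (vs := vs) (c := c1 x) (l := fun u => sg (p u) (σ u)) (s1 := s)
        (s2 := s + 2) (hmat.s1 x) hlit
      rw [← hnvs] at this
      refine this.trans ?_
      have : n * (s + (s + 2) + 2) ≤ n * ((s + 2) + (s + 2) + 2) :=
        Nat.mul_le_mul_left _ (by omega)
      omega
    have h1 : F.PB (.imp (ip vs (c1 x) fun u => sg (p u) (σ u)) .bot) ((n + 1) * (W + W)) := by
      refine ip_elim (by omega) (by simp only [Fm.size]; omega) fun u hu => ?_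
      rw [hmat.z2 x u ((hmem u).1 hu)]
      have := hlit u
      exact infer0 (F := F) (.imp (.and .bot (.var 0)) .bot) [sg (p u) (σ u)] M (by decide)
        (by intro v h; exact h.1) (by omega) (by simp; omega)
    cases hp : p x
    · have e1 : sg false (σ x) = .neg (.neg (c0 x)) := by
        simp only [hσ, hx, if_true, hp]; rfl
      rw [e1]
      exact infer1 (F := F) (.imp (.var 1) .bot) (.iff (.neg (.neg (.var 0))) (.or (.var 0) (.var 1)))
        [c0 x, ip vs (c1 x) fun u => sg (p u) (σ u)] M (by decide)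
        (by
          intro v h
          exact ⟨fun h0 => Or.inl (not_not.1 h0), fun h0 h1 => h0.elim h1 fun h2 => h h2⟩)
        (by omega) (by simp; omega) h1
    · have e1 : sg true (σ x) = c0 x := by
        simp only [hσ, hx, if_true, hp]; rfl
      rw [e1]
      exact infer1 (F := F) (.imp (.var 1) .bot) (.iff (.var 0) (.or (.var 0) (.var 1)))
        [c0 x, ip vs (c1 x) fun u => sg (p u) (σ u)] M (by decide)
        (by
          intro v h
          exact ⟨fun h0 => Or.inl h0, fun h0 => h0.elim id fun h2 => (h h2).elim⟩)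
        (by omega) (by simp; omega) h1
  have hsol := hmat.sol σ _ σ2 (fun x hx => σ1 x fun h => hx ((hmem x).2 h)) hcl
  rw [← hnvs] at hsol
  -- the bounds
  set B := N + 2 with hB
  have hB3 : 3 ≤ B := by omega
  have hBp : ∀ i j : ℕ, i ≤ j → B ^ i ≤ B ^ j := fun i j h => Nat.pow_le_pow_right (by omega) h
  have b1 : 3 ≤ B ^ 1 := by rw [pow_one]; exact hB3
  have b2 : 9 ≤ B ^ 2 := by
    calc 9 = 3 ^ 2 := rfl
      _ ≤ B ^ 2 := Nat.pow_le_pow_left hB3 2
  have b3 : 27 ≤ B ^ 3 := by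
    calc 27 = 3 ^ 3 := rfl
      _ ≤ B ^ 3 := Nat.pow_le_pow_left hB3 3
  have t1 : s ≤ B ^ (3 * K + 2) := by
    have h1 : 4 * (n + 2) ≤ B ^ 3 := by
      calc 4 * (n + 2) ≤ B ^ 2 * B := Nat.mul_le_mul (by omega) (by omega)
        _ = B ^ 3 := by ring
    calc s ≤ (B ^ 3) ^ K * B ^ 2 := by
          refine Nat.mul_le_mul (Nat.pow_le_pow_left h1 K) ?_
          nlinarith
      _ = B ^ (3 * K + 2) := by rw [← pow_mul, ← pow_add]
  have t2 : s + 4 ≤ B ^ (3 * K + 3) := by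
    have h1 : 9 ≤ B ^ (3 * K + 2) := b2.trans (hBp _ _ (by omega))
    calc s + 4 ≤ 3 * B ^ (3 * K + 2) := by omega
      _ ≤ B * B ^ (3 * K + 2) := Nat.mul_le_mul_right _ hB3
      _ = B ^ (3 * K + 3) := by rw [← pow_succ']
  have t3 : M ≤ B ^ (3 * K + 7) := by
    calc M ≤ 10 * ((2 * B) * B ^ (3 * K + 3)) :=
          Nat.mul_le_mul_left _ (Nat.mul_le_mul (by omega) t2)
      _ ≤ 27 * (B * B ^ (3 * K + 3)) := by nlinarith [Nat.zero_le (B * B ^ (3 * K + 3))]
      _ ≤ B ^ 3 * (B * B ^ (3 * K + 3)) := Nat.mul_le_mul_right _ b3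
      _ = B ^ (3 * K + 7) := by rw [← pow_succ', ← pow_add]; congr 1; ring
  have t4 : W ≤ B ^ (3 * K + 7 + F.K) := by
    have h1 : F.K ≤ B ^ F.K := (Nat.lt_pow_self (by omega)).le
    calc W ≤ B ^ F.K * B ^ (3 * K + 7) := Nat.mul_le_mul h1 t3
      _ = B ^ (3 * K + 7 + F.K) := by rw [← pow_add]; congr 1; ring
  have hB0 : B ≤ B ^ 2 := by nlinarith
  have t5 : Dc F n M ≤ B ^ 4 * W := by
    have h1 : Dc F n M = (2 * ((n + 1) * (n + 4)) + 6) * W := by
      unfold Dc; rw [← hW]; ring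
    rw [h1]
    refine Nat.mul_le_mul_right _ ?_
    have h2 : (n + 1) * (n + 4) ≤ B * (2 * B) := Nat.mul_le_mul (by omega) (by omega)
    have h3 : B ^ 4 = B ^ 2 * B ^ 2 := by ring
    have h4 : B * (2 * B) = 2 * B ^ 2 := by ring
    have h5 : 9 * B ^ 2 ≤ B ^ 2 * B ^ 2 := Nat.mul_le_mul_right _ b2
    omega
  have t6 : (n + 1) * (W + W) + W + X ≤ B ^ 7 * W := by
    have h1 : X = N * Dc F n M + ((n + 2) * (4 * N) + (n + 4) * 2 + (2 * n + 6)) * W := by
      rw [hX]; unfold Bc; rw [← hW]; ring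
    have h2 : N * Dc F n M ≤ B * (B ^ 4 * W) := Nat.mul_le_mul (by omega) t5
    have h3 : (n + 2) * (4 * N) + (n + 4) * 2 + (2 * n + 6) + (2 * (n + 1) + 1) ≤ B ^ 6 := by
      have h4 : (n + 2) * (4 * N) ≤ B * (4 * B) := Nat.mul_le_mul (by omega) (by omega)
      have h5 : B ^ 6 = B ^ 2 * (B ^ 2 * B ^ 2) := by ring
      have h6 : B * (4 * B) = 4 * B ^ 2 := by ring
      have h7 : B ^ 2 * (9 * 9) ≤ B ^ 6 := by
        rw [h5]
        exact Nat.mul_le_mul_left _ (Nat.mul_le_mul b2 b2)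
      omega
    have h8 : B ^ 5 * W + B ^ 6 * W ≤ B ^ 7 * W := by
      rw [← Nat.add_mul]
      refine Nat.mul_le_mul_right _ ?_
      have h9 : B ^ 7 = B * B ^ 6 := by ring
      have h10 : B ^ 5 ≤ B ^ 6 := hBp _ _ (by omega)
      have h11 : 3 * B ^ 6 ≤ B * B ^ 6 := Nat.mul_le_mul_right _ hB3
      omega
    have h11 := Nat.mul_le_mul_right W h3
    have h12 : B * (B ^ 4 * W) = B ^ 5 * W := by ring
    have h13 : (n + 1) * (W + W) + W = (2 * (n + 1) + 1) * W := by ring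
    rw [h1, h13]
    rw [Nat.add_mul] at h11
    omega
  have t7 : (6 * (n + 2) ^ 2) ^ K ≤ B ^ (4 * K) := by
    rw [pow_mul]
    refine Nat.pow_le_pow_left ?_ K
    calc 6 * (n + 2) ^ 2 ≤ B ^ 2 * B ^ 2 :=
          Nat.mul_le_mul (by omega) (Nat.pow_le_pow_left (by omega) 2)
      _ = B ^ 4 := by ring
  have t8 : (6 * (n + 2) ^ 2) ^ K * ((n + 1) * (W + W) + W + X) ≤
      B ^ ((14 + F.K) * (K + 1)) := by
    calc (6 * (n + 2) ^ 2) ^ K * ((n + 1) * (W + W) + W + X) ≤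
        B ^ (4 * K) * (B ^ 7 * B ^ (3 * K + 7 + F.K)) :=
          Nat.mul_le_mul t7 (t6.trans (Nat.mul_le_mul_left _ t4))
      _ = B ^ (7 * K + 14 + F.K) := by rw [← pow_add, ← pow_add]; congr 1; ring
      _ ≤ B ^ ((14 + F.K) * (K + 1)) := hBp _ _ (by nlinarith [Nat.zero_le (F.K * K)])
  have t9 : s + 1 ≤ B ^ ((14 + F.K) * (K + 1)) := by
    have : s + 1 ≤ s + 4 := by omega
    refine this.trans (t2.trans (hBp _ _ ?_))
    nlinarith [Nat.zero_le (F.K * K)]
  refine ⟨σ, σ1, fun x => (σ2 x).trans t9, ?_, fun a ha => (hsol a ha).mono t8⟩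
  intro x y hy
  by_cases hx : x ∈ hd G
  · have h1 : (c0 x).Occurs y := by
      simp only [hσ, hx, if_true] at hy
      split_ifs at hy
      · exact hy
      · exact hy
    obtain ⟨h2, a, ha, h3⟩ := hmat.o0 x y h1
    exact ⟨fun h => h2 ((hmem y).2 h), Or.inr ⟨a, ha, h3⟩⟩
  · rw [σ1 x hx] at hy
    have : x = y := hy
    subst this
    exact ⟨hx, Or.inl rfl⟩

/-- The axioms of level at most `j`, sorted by levels. -/
def lvs (E : List (ℕ × Fm ℕ)) (lev : ℕ → ℕ) : ℕ → List (ℕ × Fm ℕ)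
  | 0 => E.filter fun a => lev a.1 = 0
  | j + 1 => (E.filter fun a => lev a.1 = j + 1) ++ lvs E lev j

theorem mem_lvs {E : List (ℕ × Fm ℕ)} {lev : ℕ → ℕ} {a : ℕ × Fm ℕ} {j : ℕ} :
    a ∈ lvs E lev j ↔ a ∈ E ∧ lev a.1 ≤ j := by
  induction j with
  | zero => simp [lvs]
  | succ j ih =>
    rw [lvs, List.mem_append, ih, List.mem_filter]
    simp only [decide_eq_true_eq]
    constructor
    · rintro (⟨h1, h2⟩ | ⟨h1, h2⟩)
      · exact ⟨h1, by omega⟩
      · exact ⟨h1, by omega⟩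
    · rintro ⟨h1, h2⟩
      rcases Nat.lt_or_ge j (lev a.1) with h3 | h3
      · exact Or.inl ⟨h1, by omega⟩
      · exact Or.inr ⟨h1, h3⟩

theorem Acyc.filter {E : List (ℕ × Fm ℕ)} (h : Acyc E) (f : ℕ × Fm ℕ → Bool) :
    Acyc (E.filter f) :=
  ⟨h.1.sublist List.filter_sublist, fun a ha => h.2 a (List.mem_of_mem_filter ha)⟩

theorem acyc_lvs {E : List (ℕ × Fm ℕ)} {lev : ℕ → ℕ} (h : Acyc E)
    (hl : ∀ a ∈ E, ∀ x ∈ hd E, a.2.Occurs x → lev x ≤ lev a.1) (j : ℕ) :
    Acyc (lvs E lev j) := by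
  induction j with
  | zero => exact h.filter _
  | succ j ih =>
    have h1 := h.filter fun a => lev a.1 = j + 1
    refine ⟨List.pairwise_append.2 ⟨h1.1, ih.1, ?_⟩, ?_⟩
    · intro a ha b hb
      obtain ⟨a1, a2⟩ := List.mem_filter.1 ha
      obtain ⟨b1, b2⟩ := mem_lvs.1 hb
      have a3 : lev a.1 = j + 1 := by simpa using a2
      refine ⟨fun h => ?_, fun h => ?_⟩
      · rw [h] at b2; omega
      · have := hl b b1 a.1 (mem_hd.2 ⟨a, a1, rfl⟩) h
        omega
    · intro a ha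
      rw [lvs, List.mem_append] at ha
      rcases ha with ha | ha
      · exact h1.2 a ha
      · exact ih.2 a ha

theorem Sol.congr {G G' : List (ℕ × Fm ℕ)} {b : ℕ} (h : Sol F G b) (he : ∀ a, a ∈ G ↔ a ∈ G') :
    Sol F G' b := by
  have hh : hd G = hd G' := by
    ext x
    simp only [mem_hd, he]
  obtain ⟨σ, h1, h2, h3, h4⟩ := h
  rw [hh] at h1 h3
  refine ⟨σ, h1, h2, fun x y hy => ?_, fun a ha => h4 a ((he a).2 ha)⟩
  obtain ⟨h5, h6⟩ := h3 x y hy
  refine ⟨h5, h6.imp id ?_⟩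
  rintro ⟨a, ha, h7⟩
  exact ⟨a, (he a).1 ha, h7⟩

/-- Solving a system of linear nesting rank at most `r`. -/
theorem Sol.linear {E : List (ℕ × Fm ℕ)} {N K r : ℕ} (hA : Acyc E) (hN : ∀ a ∈ E, a.2.size ≤ N)
    (hn : E.length ≤ N) (hK : N ≤ 2 ^ K) (hN1 : 1 ≤ N) (hr : LinearRankLE E r) :
    Sol F E ((N + 2) ^ ((14 + F.K) * (K + 1) * (r + 1))) := by
  obtain ⟨lev, p, hlp⟩ := hr
  have hl : ∀ a ∈ E, ∀ x ∈ hd E, a.2.Occurs x → lev x ≤ lev a.1 := fun a ha => (hlp a ha).2.1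
  -- one level
  have hblk : ∀ j, Sol F (E.filter fun a => lev a.1 = j) ((N + 2) ^ ((14 + F.K) * (K + 1))) := by
    intro j
    refine Sol.level (p := p) (hA.filter _) ?_ (fun a ha => hN a (List.mem_of_mem_filter ha))
      ((List.length_filter_le _ _).trans hn) hK hN1
    intro a ha
    obtain ⟨h1, h2⟩ := List.mem_filter.1 ha
    have h3 : lev a.1 = j := by simpa using h2
    have h4 := (hlp a h1).2.2
    have e : (fun x => x ∈ hd E ∧ lev x = lev a.1) =
        (fun x => x ∈ hd (E.filter fun a => lev a.1 = j)) := by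
      funext x
      refine propext ?_
      rw [h3]
      constructor
      · rintro ⟨h5, h6⟩
        obtain ⟨a', h7, rfl⟩ := mem_hd.1 h5
        exact mem_hd.2 ⟨a', List.mem_filter.2 ⟨h7, by simpa using h6⟩, rfl⟩
      · intro h5
        obtain ⟨a', h7, rfl⟩ := mem_hd.1 h5
        obtain ⟨h8, h9⟩ := List.mem_filter.1 h7
        exact ⟨mem_hd.2 ⟨a', h8, rfl⟩, by simpa using h9⟩
    rw [e] at h4
    exact h4
  have hlv : ∀ j, Sol F (lvs E lev j) ((N + 2) ^ ((14 + F.K) * (K + 1) * (j + 1))) := by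
    intro j
    induction j with
    | zero =>
      have := hblk 0
      simpa [lvs] using this
    | succ j ih =>
      have h1 := Sol.comp (acyc_lvs hA hl (j + 1)) (hblk (j + 1)) ih
      have e : (N + 2) ^ ((14 + F.K) * (K + 1)) * (N + 2) ^ ((14 + F.K) * (K + 1) * (j + 1)) =
          (N + 2) ^ ((14 + F.K) * (K + 1) * (j + 1 + 1)) := by
        rw [← pow_add]; congr 1; ring
      rw [e] at h1
      exact h1
  refine (hlv r).congr fun a => ?_
  rw [mem_lvs]
  exact ⟨fun h => h.1, fun h => ⟨h, (hlp a h).1⟩⟩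

/-- Frege systems simulate extended Frege proofs of linear nesting rank `r` with size
`N ^ O((r + 1) log N)`. -/
theorem frege_linear (F : FregeSystem) : ∃ C : ℕ, ∀ (τ : Fm ℕ) (L : List (Fm ℕ))
    (E : List (ℕ × Fm ℕ)) (r : ℕ), F.IsEFProof τ L E → LinearRankLE E r →
    ∃ L' : List (Fm ℕ), F.IsProof τ L' ∧
      lsize L' ≤ (lsize L + 2) ^ (C * (r + 1) * (Nat.log 2 (lsize L) + 1)) := by
  refine ⟨2 * (14 + F.K) + 2, fun τ L E r h hr => ?_⟩
  obtain ⟨hA, hL, h3⟩ := h.1.acyc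
  set N := lsize L with hN
  have hN1 : 1 ≤ N := by
    have hτ : τ ∈ L := by
      have h2 := h.2
      cases L with
      | nil => simp at h2
      | cons a L => simp at h2; simp [h2]
    have := size_le_lsize hτ
    have := τ.size_pos
    omega
  have hEN : ∀ a ∈ E, a.2.size ≤ N := by
    intro a ha
    have := size_le_lsize (hL a ha)
    simp only [Fm.iff, Fm.size] at this
    omega
  have hlen : E.length ≤ N := by
    have h4 := IsEF.size_E h.1
    have h5 : ∀ G : List (ℕ × Fm ℕ), G.length ≤ (G.map fun a => a.2.size).sum := by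
      intro G
      induction G with
      | nil => simp
      | cons g G ih =>
        rw [List.length_cons, List.map_cons, List.sum_cons]
        have := g.2.size_pos
        omega
    exact (h5 E).trans h4
  set ℓ := Nat.log 2 N with hℓ
  have hK : N ≤ 2 ^ (ℓ + 1) := (Nat.lt_pow_succ_log_self (by omega) N).le
  obtain ⟨σ, s1, s2, _, s4⟩ := Sol.linear (F := F) hA hEN hlen hK hN1 hr
  set b := (N + 2) ^ ((14 + F.K) * (ℓ + 1 + 1) * (r + 1)) with hb
  have := IsEF.pb h σ b b s2 (by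
    intro x hx
    refine s1 x fun h4 => ?_
    obtain ⟨a, ha, rfl⟩ := mem_hd.1 h4
    exact h3 a ha hx) s4
  obtain ⟨L', h5, h6⟩ := this.isProof
  refine ⟨L', h5, ?_⟩
  calc lsize L' ≤ N * b + N * b := h6
    _ ≤ (N + 2) ^ 2 * b := by nlinarith [Nat.zero_le b, Nat.zero_le (N * b)]
    _ = (N + 2) ^ (2 + (14 + F.K) * (ℓ + 1 + 1) * (r + 1)) := by rw [hb, ← pow_add]
    _ ≤ _ := by
      refine Nat.pow_le_pow_right (by omega) ?_
      have h7 : (14 + F.K) * (ℓ + 1 + 1) * (r + 1) ≤ 2 * (14 + F.K) * (ℓ + 1) * (r + 1) := by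
        refine Nat.mul_le_mul_right _ ?_
        nlinarith
      have h8 : 2 ≤ 2 * (r + 1) * (ℓ + 1) := by nlinarith [Nat.zero_le (r * ℓ)]
      nlinarith

end FregeEF
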