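import Pool.Agent.Work.MP_c07f0d_lc.LS.Final

/-!
# Frege refutations with lines of subquadratic size

The definitions used in the statement are in `Pool.Agent.Work.MP_c07f0d_lc.Defs` (formulas, sizes,
rules, derivations, Frege systems) and in `Pool.Agent.Work.MP_c07f0d_lc.LS.LSDefs` (the parity
contradictions on the hypercube, semantic derivations).
-/

namespace Pool.Agent.Work.MP_c07f0d_lc.LineSizeR

open FregeEF _root_.LineSize

/-- For every `ε` with `0 < ε < 1` there are `q` and `δ > 0` such that the parity contradictions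
`cubeAxioms d (2 ^ (q * d))` on the hypercube, in `n` variables, have the following properties for
every Frege system `F` and all large `d`.  Every constraint has size at most `n ^ (2 - ε)`.  There
are Frege refutations in `F` with `O(n ^ 3)` lines, each of size `O(n ^ 2)`.  But every
refutation in which all lines have size at most `n ^ (2 - ε)` has more than `2 ^ (n ^ δ)` lines;
this holds for derivations in `F`, and even for derivations in which every line is logically
implied by at most `k` earlier lines, for every fixed `k`. -/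
theorem result (ε : ℝ) (h0 : 0 < ε) (h1 : ε < 1) :
    ∃ (q : ℕ) (δ : ℝ), 0 < δ ∧ ∀ (F : FregeSystem) (k : ℕ), ∃ c d₀ : ℕ, ∀ d : ℕ, d₀ ≤ d →
      (∀ φ ∈ cubeAxioms d (2 ^ (q * d)),
        (φ.size : ℝ) ≤ (Fintype.card (TVar d (2 ^ (q * d))) : ℝ) ^ (2 - ε)) ∧
      (∃ L, IsDeriv F.rules (cubeAxioms d (2 ^ (q * d))) L ∧ Fm.bot ∈ L ∧
        L.length ≤ c * Fintype.card (TVar d (2 ^ (q * d))) ^ 3 ∧
        ∀ φ ∈ L, φ.size ≤ c * Fintype.card (TVar d (2 ^ (q * d))) ^ 2) ∧
      (∀ L, IsDeriv F.rules (cubeAxioms d (2 ^ (q * d))) L ∨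
          SemDeriv k (cubeAxioms d (2 ^ (q * d))) L → Fm.bot ∈ L →
        (∀ φ ∈ L, (φ.size : ℝ) ≤ (Fintype.card (TVar d (2 ^ (q * d))) : ℝ) ^ (2 - ε)) →
        (2 : ℝ) ^ ((Fintype.card (TVar d (2 ^ (q * d))) : ℝ) ^ δ) < L.length) :=
  threshold ε h0 h1

end Pool.Agent.Work.MP_c07f0d_lc.LineSizeR
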