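import Pool.Agent.Work.MP_c07f0d_lc.LinE

/-!
# Frege systems simulate extended Frege proofs of small linear nesting rank

The definitions used in the statement are in `Pool.Agent.Work.MP_c07f0d_lc.Defs` (formulas, Frege
systems, extended Frege proofs, sizes), `Pool.Agent.Work.MP_c07f0d_lc.WireDefs` (the set `hd E` of
extension variables) and `Pool.Agent.Work.MP_c07f0d_lc.LinDefs` (linear formulas, linear nesting
rank).
-/

namespace Pool.Agent.Work.MP_c07f0d_lc.LinearRank

open FregeEF

/-- For every Frege system there is a constant `C` such that every extended Frege proof of `τ` of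
size `N` whose system of extension axioms has linear nesting rank at most `r` can be replaced by a
Frege proof of `τ` of size at most `(N + 2) ^ (C * (r + 1) * (log₂ N + 1))`. -/
theorem result (F : FregeSystem) : ∃ C : ℕ, ∀ (τ : Fm ℕ) (L : List (Fm ℕ))
    (E : List (ℕ × Fm ℕ)) (r : ℕ), F.IsEFProof τ L E → LinearRankLE E r →
    ∃ L' : List (Fm ℕ), F.IsProof τ L' ∧
      lsize L' ≤ (lsize L + 2) ^ (C * (r + 1) * (Nat.log 2 (lsize L) + 1)) :=
  frege_linear F

end Pool.Agent.Work.MP_c07f0d_lc.LinearRank
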