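import Pool.Agent.Work.MP_c07f0d_lc.Final

/-!
# Extended Frege proofs whose extension axioms have small branchwidth

The definitions used in the statement are in `Pool.Agent.Work.MP_c07f0d_lc.Defs` (formulas, Frege
systems, extended Frege proofs, sizes) and `Pool.Agent.Work.MP_c07f0d_lc.BranchDefs` (branchwidth
of the system of extension axioms).
-/

namespace Pool.Agent.Results.MP_c07f0d_lc.LowBranchwidth

open FregeEF

/-- For every Frege system there is a constant `C` such that every extended Frege proof of `τ` whose
extension axioms have branchwidth at most `w` can be replaced by a Frege proof of `τ` of size at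
most `(N + 2) ^ (C * (w + 1))`, where `N` is the size of the extended Frege proof. -/
theorem result (F : FregeSystem) : ∃ C : ℕ, ∀ (τ : Fm ℕ) (L : List (Fm ℕ))
    (E : List (ℕ × Fm ℕ)) (w : ℕ), F.IsEFProof τ L E → BranchWidthLE E w →
    ∃ L' : List (Fm ℕ), F.IsProof τ L' ∧ lsize L' ≤ (lsize L + 2) ^ (C * (w + 1)) :=
  lowBranchwidth F

end Pool.Agent.Results.MP_c07f0d_lc.LowBranchwidth
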