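import Mathlib.Data.Finset.Card
import Mathlib.Data.List.Basic
import Pool.Agent.Work.MP_c07f0d_lc.Defs

/-!
# Wires of a system of extension axioms
-/

namespace FregeEF

/-- The extension variables of a system. -/
def hd (G : List (ℕ × Fm ℕ)) : Finset ℕ := (G.map Prod.fst).toFinset

open Classical in
/-- The number of extension variables of `H` that occur in `φ`. -/
noncomputable def cn (H : List (ℕ × Fm ℕ)) (φ : Fm ℕ) : ℕ :=
  ((hd H).filter fun q => φ.Occurs q).card

/-- The number of wires from `H` to `G`: pairs of an axiom of `G` and an extension variable of `H`
that occurs in its right-hand side. -/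
noncomputable def wr (G H : List (ℕ × Fm ℕ)) : ℕ := (G.map fun a => cn H a.2).sum

/-- The number of wires of a system of extension axioms: the number of pairs of an axiom and an
extension variable that occurs in the right-hand side of this axiom. -/
noncomputable def wires (E : List (ℕ × Fm ℕ)) : ℕ := wr E E

end FregeEF
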