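import Pool.Agent.Work.MP_c07f0d_lc.Solve
import Pool.Agent.Work.MP_c07f0d_lc.WireDefs

/-!
# Wires of a system of extension axioms; cutting the system in two halves
-/

namespace FregeEF

theorem mem_hd {G : List (ℕ × Fm ℕ)} {x : ℕ} : x ∈ hd G ↔ ∃ a ∈ G, a.1 = x := by
  simp [hd]

theorem hd_append (S P : List (ℕ × Fm ℕ)) : hd (S ++ P) = hd S ∪ hd P := by
  ext x
  simp only [mem_hd, List.mem_append, Finset.mem_union, or_and_right, exists_or]

theorem hd_cons (g : ℕ × Fm ℕ) (P : List (ℕ × Fm ℕ)) : hd (g :: P) = insert g.1 (hd P) := by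
  ext x
  simp only [mem_hd, List.mem_cons, Finset.mem_insert]
  constructor
  · rintro ⟨a, rfl | ha, rfl⟩
    · exact Or.inl rfl
    · exact Or.inr ⟨a, ha, rfl⟩
  · rintro (rfl | ⟨a, ha, rfl⟩)
    · exact ⟨g, Or.inl rfl, rfl⟩
    · exact ⟨a, Or.inr ha, rfl⟩

theorem wr_nil (H : List (ℕ × Fm ℕ)) : wr [] H = 0 := rfl

theorem wr_cons (g : ℕ × Fm ℕ) (G H : List (ℕ × Fm ℕ)) :
    wr (g :: G) H = cn H g.2 + wr G H := by
  simp [wr]

theorem wr_append (G G' H : List (ℕ × Fm ℕ)) : wr (G ++ G') H = wr G H + wr G' H := by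
  simp [wr]

theorem cn_mono {H H' : List (ℕ × Fm ℕ)} (h : hd H ⊆ hd H') (φ : Fm ℕ) : cn H φ ≤ cn H' φ := by
  classical
  exact Finset.card_le_card (Finset.filter_subset_filter _ h)

theorem wr_mono {G H H' : List (ℕ × Fm ℕ)} (h : hd H ⊆ hd H') : wr G H ≤ wr G H' := by
  induction G with
  | nil => simp [wr]
  | cons g G ih => rw [wr_cons, wr_cons]; have := cn_mono h g.2; omega

theorem cn_congr {H H' : List (ℕ × Fm ℕ)} {φ : Fm ℕ}
    (h : ∀ q, φ.Occurs q → (q ∈ hd H ↔ q ∈ hd H')) : cn H φ = cn H' φ := by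
  classical
  unfold cn
  congr 1
  ext q
  simp only [Finset.mem_filter]
  constructor
  · rintro ⟨h1, h2⟩; exact ⟨(h q h2).1 h1, h2⟩
  · rintro ⟨h1, h2⟩; exact ⟨(h q h2).2 h1, h2⟩

theorem wr_congr {G H H' : List (ℕ × Fm ℕ)}
    (h : ∀ a ∈ G, ∀ q, a.2.Occurs q → (q ∈ hd H ↔ q ∈ hd H')) : wr G H = wr G H' := by
  induction G with
  | nil => rfl
  | cons g G ih =>
    rw [wr_cons, wr_cons, cn_congr (h g (by simp)), ih (fun a ha => h a (by simp [ha]))]

theorem cn_le {H : List (ℕ × Fm ℕ)} (φ : Fm ℕ) : cn H φ ≤ φ.size := by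
  classical
  have key : ∀ (T : Finset ℕ), (T.filter fun q => φ.Occurs q).card ≤ φ.size := by
    intro T
    induction φ with
    | var x =>
      have : (T.filter fun q => (Fm.var x).Occurs q) ⊆ {x} := by
        intro q hq
        have := (Finset.mem_filter.1 hq).2
        simp only [Fm.Occurs] at this
        simp [this]
      have := Finset.card_le_card this
      simpa [Fm.size] using this
    | bot => simp [Fm.Occurs, Fm.size]
    | neg φ ih => simp only [Fm.Occurs, Fm.size]; omega
    | and φ ψ ih1 ih2 =>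
      simp only [Fm.Occurs, Fm.size]
      rw [Finset.filter_or]
      have := Finset.card_union_le (T.filter fun q => φ.Occurs q) (T.filter fun q => ψ.Occurs q)
      omega
    | or φ ψ ih1 ih2 =>
      simp only [Fm.Occurs, Fm.size]
      rw [Finset.filter_or]
      have := Finset.card_union_le (T.filter fun q => φ.Occurs q) (T.filter fun q => ψ.Occurs q)
      omega
    | imp φ ψ ih1 ih2 =>
      simp only [Fm.Occurs, Fm.size]
      rw [Finset.filter_or]
      have := Finset.card_union_le (T.filter fun q => φ.Occurs q) (T.filter fun q => ψ.Occurs q)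
      omega
  exact key _

theorem Acyc.tail {g : ℕ × Fm ℕ} {G : List (ℕ × Fm ℕ)} (h : Acyc (g :: G)) : Acyc G :=
  ⟨(List.pairwise_cons.1 h.1).2, fun a ha => h.2 a (by simp [ha])⟩

theorem Acyc.left {S P : List (ℕ × Fm ℕ)} (h : Acyc (S ++ P)) : Acyc S :=
  ⟨(List.pairwise_append.1 h.1).1, fun a ha => h.2 a (by simp [ha])⟩

theorem Acyc.right {S P : List (ℕ × Fm ℕ)} (h : Acyc (S ++ P)) : Acyc P :=
  ⟨(List.pairwise_append.1 h.1).2.1, fun a ha => h.2 a (by simp [ha])⟩

theorem Acyc.disj {S P : List (ℕ × Fm ℕ)} (h : Acyc (S ++ P)) {x : ℕ} (hS : x ∈ hd S) :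
    x ∉ hd P := by
  intro hP
  obtain ⟨a, ha, rfl⟩ := mem_hd.1 hS
  obtain ⟨b, hb, hba⟩ := mem_hd.1 hP
  exact ((List.pairwise_append.1 h.1).2.2 a ha b hb).1 hba

/-- Bodies of earlier axioms do not mention later extension variables. -/
theorem Acyc.body {S P : List (ℕ × Fm ℕ)} (h : Acyc (S ++ P)) {b : ℕ × Fm ℕ} (hb : b ∈ P) {x : ℕ}
    (hx : b.2.Occurs x) : x ∉ hd S := by
  intro hS
  obtain ⟨a, ha, rfl⟩ := mem_hd.1 hS
  exact ((List.pairwise_append.1 h.1).2.2 a ha b hb).2 hx

/-- The wires of a system, cut in two parts. -/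
theorem wr_split {S P : List (ℕ × Fm ℕ)} (h : Acyc (S ++ P)) :
    wr (S ++ P) (S ++ P) = wr S S + wr S P + wr P P := by
  classical
  rw [wr_append]
  have h1 : wr P (S ++ P) = wr P P := by
    refine wr_congr fun a ha q hq => ?_
    rw [hd_append, Finset.mem_union]
    have := h.body ha hq
    tauto
  have h2 : wr S (S ++ P) = wr S S + wr S P := by
    have hdis : Disjoint (hd S) (hd P) :=
      Finset.disjoint_left.2 fun x hx => h.disj hx
    have hc : ∀ φ, cn (S ++ P) φ = cn S φ + cn P φ := by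
      intro φ
      unfold cn
      rw [hd_append, Finset.filter_union, Finset.card_union_of_disjoint]
      exact Finset.disjoint_filter_filter hdis
    have key : ∀ G : List (ℕ × Fm ℕ), wr G (S ++ P) = wr G S + wr G P := by
      intro G
      induction G with
      | nil => rfl
      | cons g G ih => rw [wr_cons, wr_cons, wr_cons, ih, hc]; omega
    exact key S
  rw [h1, h2]

/-- Cutting a system. -/
theorem exists_cut (h0 : ℕ) : ∀ G : List (ℕ × Fm ℕ), Acyc G → h0 < wr G G →
    ∃ S P, G = S ++ P ∧ wr P P ≤ h0 ∧ wr S S + h0 < wr G G := by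
  classical
  intro G
  induction G with
  | nil => intro _ h; simp [wr] at h
  | cons g G ih =>
    intro hA h
    have hA' : Acyc ([g] ++ G) := hA
    have hg0 : ∀ G' : List (ℕ × Fm ℕ), (∀ a ∈ G', a ∈ G) → wr (g :: G') (g :: G') =
        cn (g :: G') g.2 + wr G' G' := by
      intro G' hG'
      rw [wr_cons]
      congr 1
      refine wr_congr fun a ha q hq => ?_
      rw [hd_cons, Finset.mem_insert]
      have := hA'.body (hG' a ha) hq
      simp only [hd, List.map_cons, List.map_nil, List.toFinset_cons, List.toFinset_nil,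
        insert_empty_eq, Finset.mem_singleton] at this
      tauto
    have e := hg0 G (fun _ h => h)
    by_cases hG : h0 < wr G G
    · obtain ⟨S, P, rfl, h1, h2⟩ := ih hA.tail hG
      refine ⟨g :: S, P, rfl, h1, ?_⟩
      have e2 := hg0 S (fun a ha => by simp [ha])
      have h3 : cn (g :: S) g.2 ≤ cn (g :: (S ++ P)) g.2 := by
        refine cn_mono ?_ _
        rw [hd_cons, hd_cons, hd_append]
        intro x hx
        simp only [Finset.mem_insert, Finset.mem_union] at hx ⊢
        tauto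
      omega
    · refine ⟨[g], G, rfl, by omega, ?_⟩
      have h1 : wr [g] [g] = 0 := by
        rw [wr_cons, wr_nil]
        have : cn [g] g.2 = 0 := by
          unfold cn
          rw [Finset.card_eq_zero, Finset.filter_eq_empty_iff]
          intro x hx
          obtain ⟨a, ha, rfl⟩ := mem_hd.1 hx
          simp only [List.mem_cons, List.not_mem_nil, or_false] at ha
          subst ha
          exact hA.2 _ (by simp)
        omega
      omega

/-- Cutting a system in two halves. -/
theorem exists_half {G : List (ℕ × Fm ℕ)} (hA : Acyc G) (h : 0 < wr G G) :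
    ∃ S P, G = S ++ P ∧ 2 * wr P P ≤ wr G G ∧ 2 * wr S S ≤ wr G G := by
  obtain ⟨S, P, h1, h2, h3⟩ := exists_cut (wr G G / 2) G hA (by omega)
  exact ⟨S, P, h1, by omega, by omega⟩

end FregeEF
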