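import Pool.Agent.Work.MP_c07f0d_lc.PVSol

/-!
# Solving a system in two halves with few crossing variables
-/

namespace FregeEF

variable {F : FregeSystem}

open Classical in
/-- The extension variables of `P` that occur in the axioms of `S`. -/
noncomputable def crs (S P : List (ℕ × Fm ℕ)) : Finset ℕ :=
  (hd P).filter fun x => ∃ a ∈ S, a.2.Occurs x

theorem mem_crs {S P : List (ℕ × Fm ℕ)} {x : ℕ} :
    x ∈ crs S P ↔ x ∈ hd P ∧ ∃ a ∈ S, a.2.Occurs x := by
  classical
  simp [crs]

theorem card_crs_le (S P : List (ℕ × Fm ℕ)) : (crs S P).card ≤ wr S P := by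
  classical
  induction S with
  | nil => simp [crs, wr]
  | cons g S ih =>
    have h : crs (g :: S) P ⊆ ((hd P).filter fun q => g.2.Occurs q) ∪ crs S P := by
      intro x hx
      obtain ⟨h1, a, ha, h2⟩ := mem_crs.1 hx
      rw [Finset.mem_union]
      rcases List.mem_cons.1 ha with rfl | ha
      · exact Or.inl (Finset.mem_filter.2 ⟨h1, h2⟩)
      · exact Or.inr (mem_crs.2 ⟨h1, a, ha, h2⟩)
    have h1 := Finset.card_le_card h
    have h2 := Finset.card_union_le ((hd P).filter fun q => g.2.Occurs q) (crs S P)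
    rw [wr_cons]
    unfold cn
    omega

theorem Sol.dec {S P : List (ℕ × Fm ℕ)} {b1 b2 N k : ℕ} (hA : Acyc (S ++ P)) (hS : Sol F S b1)
    (hP : Sol F P b2) (hN : ∀ a ∈ S, a.2.size ≤ N) (hk : wr S P ≤ k) :
    Sol F (S ++ P) (F.K * (2 * N + 8) ^ 2 * 8 ^ (k + 1) * (b1 + b2)) := by
  classical
  obtain ⟨σ1, s1, s2, s3, s4⟩ := hS
  obtain ⟨p, p1, p2, p3, p4⟩ := hP
  have hb1 : 1 ≤ b1 := (σ1 0).size_pos.trans (s2 0)
  have hb2 : 1 ≤ b2 := (p 0).size_pos.trans (p2 0)
  set X := crs S P with hX
  set n := X.card with hn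
  have hnk : n ≤ k := (card_crs_le S P).trans hk
  set D := 2 ^ n * (2 * b1 + 2 * b2 + 4) with hD
  set M := (2 * N + 4) * D with hM
  have h2n : 1 ≤ 2 ^ n := Nat.one_le_two_pow
  have hn2 : n < 2 ^ n := Nat.lt_two_pow_self
  have hD0 : 2 * b1 + 2 * b2 + 4 ≤ D := Nat.le_mul_of_pos_left _ (by omega)
  have hDM : 4 * D ≤ M := Nat.mul_le_mul_right _ (by omega)
  have hNDM : 2 * (N * D) + 4 * D = M := by rw [hM]; ring
  have hKpos := F.K_pos
  have hMK : M ≤ F.K * M := Nat.le_mul_of_pos_left _ hKpos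
  have hnb : n * (b2 + 2) + 2 ≤ D := by
    have : n * (b2 + 2) ≤ 2 ^ n * (b2 + 2) := Nat.mul_le_mul_right _ hn2.le
    have e : D = 2 ^ n * (b2 + 2) + 2 ^ n * (2 * b1 + b2 + 2) := by rw [hD]; ring
    have : 2 ≤ 2 ^ n * (2 * b1 + b2 + 2) := by nlinarith
    omega
  set σ : ℕ → Fm ℕ := fun y => if y ∈ hd S then FregeEF.dec p X X.toList (fun _ => false) (σ1 y)
    else p y with hσ
  have hσS : ∀ y, y ∈ hd S → σ y = FregeEF.dec p X X.toList (fun _ => false) (σ1 y) := by
    intro y hy; simp only [hσ, hy, if_true]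
  have hσP : ∀ y, y ∉ hd S → σ y = p y := by
    intro y hy; simp only [hσ, hy, if_false]
  have hXl : X.toList.length = n := Finset.length_toList _
  have szdec : ∀ l v y, l.length ≤ n → (FregeEF.dec p X l v (σ1 y)).size ≤ D := by
    intro l v y hl
    have h1 := size_dec_le (X := X) p2 (s2 y) l v
    have h2 : 2 ^ l.length * (2 * b1 + 2 * b2 + 4) ≤ D :=
      Nat.mul_le_mul_right _ (Nat.pow_le_pow_right (by omega) hl)
    omega
  have szσ : ∀ y, (σ y).size ≤ D := by
    intro y
    by_cases hy : y ∈ hd S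
    · rw [hσS y hy]; exact szdec _ _ _ hXl.le
    · rw [hσP y hy]; have := p2 y; omega
  -- the final bound
  have hbound : 2 ^ n * ((N + 1) * ((n + 2) * (F.K * M)) + 2 * b1 + F.K * M) + F.K * M ≤
      F.K * (2 * N + 8) ^ 2 * 8 ^ (k + 1) * (b1 + b2) := by
    have e1 : (N + 1) * ((n + 2) * (F.K * M)) + 2 * b1 + F.K * M + F.K * M ≤
        (N + 4) * ((n + 2) * (F.K * M)) := by
      have : (N + 4) * ((n + 2) * (F.K * M)) = (N + 1) * ((n + 2) * (F.K * M)) +
        3 * (F.K * M) + 3 * ((n + 1) * (F.K * M)) := by ring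
      rw [this]
      omega
    have e2 : 2 ^ n * ((N + 1) * ((n + 2) * (F.K * M)) + 2 * b1 + F.K * M) + F.K * M ≤
        2 ^ n * ((N + 4) * ((n + 2) * (F.K * M))) := by
      have h1 : F.K * M ≤ 2 ^ n * (F.K * M) := Nat.le_mul_of_pos_left _ (by omega)
      calc 2 ^ n * ((N + 1) * ((n + 2) * (F.K * M)) + 2 * b1 + F.K * M) + F.K * M ≤
          2 ^ n * ((N + 1) * ((n + 2) * (F.K * M)) + 2 * b1 + F.K * M) + 2 ^ n * (F.K * M) := by
            omega
        _ = 2 ^ n * ((N + 1) * ((n + 2) * (F.K * M)) + 2 * b1 + F.K * M + F.K * M) := by ring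
        _ ≤ _ := Nat.mul_le_mul_left _ e1
    have e3 : n + 2 ≤ 2 ^ n * 2 := by omega
    have e4 : 2 * b1 + 2 * b2 + 4 ≤ 4 * (b1 + b2) := by omega
    have e5 : (8 : ℕ) ^ n ≤ 8 ^ k := Nat.pow_le_pow_right (by omega) hnk
    calc 2 ^ n * ((N + 1) * ((n + 2) * (F.K * M)) + 2 * b1 + F.K * M) + F.K * M ≤
        2 ^ n * ((N + 4) * ((n + 2) * (F.K * M))) := e2
      _ ≤ 2 ^ n * ((N + 4) * ((2 ^ n * 2) * (F.K * M))) := by gcongr
      _ = F.K * ((N + 4) * (2 * N + 4)) * (2 ^ n * 2 ^ n * 2 ^ n * 2) *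
          (2 * b1 + 2 * b2 + 4) := by rw [hM, hD]; ring
      _ = F.K * ((N + 4) * (2 * N + 4)) * (8 ^ n * 2) * (2 * b1 + 2 * b2 + 4) := by
          rw [← mul_pow, ← mul_pow, show 2 * 2 * 2 = 8 from rfl]
      _ ≤ F.K * ((2 * N + 8) ^ 2) * (8 ^ k * 2) * (4 * (b1 + b2)) := by
          gcongr
          nlinarith
      _ = _ := by rw [pow_succ]; ring
  refine ⟨σ, ?_, ?_, ?_, ?_⟩
  · intro x hx
    rw [hd_append, Finset.mem_union, not_or] at hx
    rw [hσP x hx.1, p1 x hx.2]
  · intro x
    refine (szσ x).trans (le_trans ?_ hbound)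
    nlinarith [Nat.zero_le (2 ^ n * ((N + 1) * ((n + 2) * (F.K * M)) + 2 * b1 + F.K * M))]
  · intro x y hy
    rw [hd_append, Finset.mem_union, not_or]
    by_cases hx : x ∈ hd S
    · rw [hσS x hx] at hy
      rcases occurs_dec _ _ hy with ⟨h1, h2⟩ | ⟨z, hz, h1⟩
      · obtain ⟨h3, h4⟩ := s3 x y h1
        rcases h4 with rfl | ⟨a, ha, h4⟩
        · exact absurd hx h3
        · refine ⟨⟨h3, fun h5 => h2 (mem_crs.2 ⟨h5, a, ha, h4⟩)⟩, Or.inr ⟨a, by simp [ha], h4⟩⟩
      · have hzP : z ∈ hd P := (mem_crs.1 (Finset.mem_toList.1 hz)).1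
        obtain ⟨h3, h4⟩ := p3 z y h1
        rcases h4 with rfl | ⟨a, ha, h4⟩
        · exact absurd hzP h3
        · exact ⟨⟨hA.body ha h4, h3⟩, Or.inr ⟨a, by simp [ha], h4⟩⟩
    · rw [hσP x hx] at hy
      obtain ⟨h3, h4⟩ := p3 x y hy
      rcases h4 with rfl | ⟨a, ha, h4⟩
      · exact ⟨⟨hx, h3⟩, Or.inl rfl⟩
      · exact ⟨⟨hA.body ha h4, h3⟩, Or.inr ⟨a, by simp [ha], h4⟩⟩
  · intro a ha
    rcases List.mem_append.1 ha with ha | ha
    swap
    · have e1 : σ a.1 = p a.1 := hσP _ fun h => hA.disj h (mem_hd.2 ⟨a, ha, rfl⟩)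
      have e2 : a.2.subst σ = a.2.subst p := Fm.subst_congr fun x hx => hσP x (hA.body ha hx)
      rw [e1, e2]
      refine (p4 a ha).mono (le_trans ?_ hbound)
      nlinarith [Nat.zero_le (2 ^ n * ((N + 1) * ((n + 2) * (F.K * M)) + 2 * b1 + F.K * M))]
    -- the main case
    have hNa := hN a ha
    have haS : a.1 ∈ hd S := mem_hd.2 ⟨a, ha, rfl⟩
    have szsub : (a.2.subst σ).size ≤ N * D :=
      (Fm.size_subst_le σ D (by omega) a.2 (fun y _ => szσ y)).trans (Nat.mul_le_mul_right _ hNa)
    have szgoal : (Fm.iff (σ a.1) (a.2.subst σ)).size ≤ M := by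
      have := szσ a.1
      simp only [Fm.iff, Fm.size]
      omega
    have main := pb_dec (F := F) (p := p) (X := X) (σ := σ) (σ1 := σ1)
      (goal := Fm.iff (σ a.1) (a.2.subst σ)) (Y := hd S) (M := M)
      (ℓ := (N + 1) * ((n + 2) * (F.K * M)) + 2 * b1) (b2 := b2)
      (c0 := (n + 1) * (F.K * M)) p2 szgoal (fun y => (szσ y).trans (by omega))
      (fun l v y hl => (szdec l v y hl).trans (by omega)) ?_ X.toList (fun _ => false) []
      (F.K * M) (Finset.nodup_toList _) (fun x hx => Finset.mem_toList.1 hx)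
      (by rw [hXl]; simp [hn]) (by
        rw [hXl]
        simp only [conj, Fm.size]
        omega)
      (fun x hx hx' => absurd (Finset.mem_toList.2 hx) hx') (by rw [hXl]; exact le_of_eq (by ring))
      ?_
    · obtain ⟨s, h1, h2⟩ := main
      have := infer1 (F := F) (.imp (.neg .bot) (.var 0)) (.var 0)
        [Fm.iff (σ a.1) (a.2.subst σ)] M (by decide) (by intro v h; exact h (fun h => h))
        (by omega) (by simpa using szgoal) h1
      refine this.mono (le_trans ?_ hbound)
      rw [hXl] at h2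
      omega
    · -- the leaves
      intro v H hH1 hH2 hH3 hH4
      have pm : ∀ x ∈ X, F.PB (.imp (conj H) (sg (v x) (p x))) (n * (F.K * M)) := by
        intro x hx
        exact (pb_conj_mem (hH3 x hx) M hH1).mono (Nat.mul_le_mul_right _ hH2)
      have pe : ∀ y, a.2.Occurs y → F.PB (.imp (conj H) (.iff (σ y) ((σ1 y).subst (cinst X v))))
          ((n + 1) * (F.K * M)) := by
        intro y hy
        by_cases hyS : y ∈ hd S
        · exact hH4 y hyS
        rw [hσP y hyS, s1 y hyS]
        change F.PB (.imp (conj H) (.iff (p y) (cinst X v y))) _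
        by_cases hyP : y ∈ hd P
        · have hyX : y ∈ X := mem_crs.2 ⟨hyP, a, ha, hy⟩
          simp only [cinst, hyX, if_true]
          have h4 := pm y hyX
          have h5 := p2 y
          cases hb : v y
          · rw [hb] at h4
            exact (infer1 (F := F) (.imp (.var 0) (.neg (.var 1)))
              (.imp (.var 0) (.iff (.var 1) .bot))
              [conj H, p y] M (by decide)
              (by intro v h h0; exact ⟨fun h' => h h0 h', fun h' => h'.elim⟩) (by omega)
              (by simp; omega) h4).mono (le_of_eq (by ring))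
          · rw [hb] at h4
            exact (infer1 (F := F) (.imp (.var 0) (.var 1))
              (.imp (.var 0) (.iff (.var 1) (.neg .bot)))
              [conj H, p y] M (by decide)
              (by intro v h h0; exact ⟨fun _ h' => h', fun _ => h h0⟩) (by omega)
              (by simp; omega) h4).mono (le_of_eq (by ring))
        · have hyX : y ∉ X := fun h => hyP (mem_crs.1 h).1
          simp only [cinst, hyX, if_false]
          rw [p1 y hyP]
          refine (infer0 (F := F) (.imp (.var 0) (.iff (.var 1) (.var 1))) [conj H, .var y] M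
            (by decide) (by intro v _; exact ⟨fun h => h, fun h => h⟩) (by omega)
            (by simp [Fm.size]; omega)).mono ?_
          rw [add_mul, one_mul]
          omega
      have szs : (a.2.subst fun y => (σ1 y).subst (cinst X v)).size ≤ N * D := by
        refine (Fm.size_subst_le _ D (by omega) a.2 (fun y _ => ?_)).trans
          (Nat.mul_le_mul_right _ hNa)
        have h1 := Fm.size_subst_le (cinst X v) 2 (by omega) (σ1 y)
          (fun x _ => size_cinst_le X v x)
        have h2 := s2 y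
        omega
      have key := pb_subst_eq (F := F) (conj H) σ (fun y => (σ1 y).subst (cinst X v))
        ((n + 1) * (F.K * M)) M hH1 a.2 pe (by omega) (by omega)
      have hb := (s4 a ha).subst (cinst X v) 2 (by omega) (size_cinst_le X v)
      have e : (Fm.iff (σ1 a.1) (a.2.subst σ1)).subst (cinst X v) =
          .iff ((σ1 a.1).subst (cinst X v)) (a.2.subst fun y => (σ1 y).subst (cinst X v)) := by
        simp only [Fm.iff, Fm.subst, Fm.subst_subst]
      rw [e] at hb
      have h1 := Fm.size_subst_le (cinst X v) 2 (by omega) (σ1 a.1)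
        (fun x _ => size_cinst_le X v x)
      have h2 := s2 a.1
      have h3 := szσ a.1
      have := infer3 (F := F) (.imp (.var 0) (.iff (.var 1) (.var 2)))
        (.imp (.var 0) (.iff (.var 3) (.var 4))) (.iff (.var 2) (.var 4))
        (.imp (.var 0) (.iff (.var 1) (.var 3)))
        [conj H, σ a.1, (σ1 a.1).subst (cinst X v), a.2.subst σ,
          a.2.subst fun y => (σ1 y).subst (cinst X v)] M (by decide)
        (by
          intro v h h' h'' h0
          obtain ⟨a1, a2⟩ := h h0
          obtain ⟨a3, a4⟩ := h' h0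
          obtain ⟨a5, a6⟩ := h''
          exact ⟨fun h => a4 (a5 (a1 h)), fun h => a2 (a6 (a3 h))⟩)
        (by omega) (by simp; omega) (hH4 a.1 haS) key hb
      refine this.mono ?_
      have e1 : a.2.size * ((n + 1) * (F.K * M) + F.K * M) ≤ N * ((n + 2) * (F.K * M)) :=
        Nat.mul_le_mul hNa (le_of_eq (by ring))
      have e2 : (N + 1) * ((n + 2) * (F.K * M)) = N * ((n + 2) * (F.K * M)) +
        (n + 1) * (F.K * M) + F.K * M := by ring
      rw [e2]
      omega
    · intro y hy
      rw [hσS y hy]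
      have h1 := szdec X.toList (fun _ => false) y hXl.le
      exact infer0 (F := F) (.imp (.var 0) (.iff (.var 1) (.var 1)))
        [conj [], FregeEF.dec p X X.toList (fun _ => false) (σ1 y)] M (by decide)
        (by intro v _; exact ⟨fun h => h, fun h => h⟩) (by omega)
        (by simp [conj, Fm.size]; omega)

end FregeEF
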