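import Pool.Agent.Work.MP_c07f0d_lc.Solve

/-!
# Frege proofs of substituted extension axioms
-/

namespace FregeEF

variable {α β γ : Type} {F : FregeSystem} {t S : ℕ}

/-- Replacement of equivalents. -/
theorem pb_subst_eq (G : Fm β) (σ1 σ2 : α → Fm β) (s0 M : ℕ) (hG : G.size ≤ M) (φ : Fm α)
    (h : ∀ x, φ.Occurs x → F.PB (.imp G (.iff (σ1 x) (σ2 x))) s0)
    (h1 : (φ.subst σ1).size ≤ M) (h2 : (φ.subst σ2).size ≤ M) :
    F.PB (.imp G (.iff (φ.subst σ1) (φ.subst σ2))) (φ.size * (s0 + F.K * M)) := by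
  have hGp := G.size_pos
  induction φ with
  | var x => exact FregeSystem.PB.mono (h x rfl) (by simp only [Fm.size]; omega)
  | bot =>
    have := infer0 (F := F) (.imp (.var 0) (.iff .bot .bot)) [G] M (by decide)
      (by intro v _; exact ⟨fun h => h, fun h => h⟩) (by omega) (by simp; omega)
    exact FregeSystem.PB.mono this (by simp only [Fm.size]; omega)
  | neg φ ih =>
    have h1' : (φ.subst σ1).size + 1 ≤ M := h1
    have h2' : (φ.subst σ2).size + 1 ≤ M := h2
    have i1 := ih h (by omega) (by omega)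
    have := infer1 (F := F) (.imp (.var 0) (.iff (.var 1) (.var 2)))
      (.imp (.var 0) (.iff (.neg (.var 1)) (.neg (.var 2)))) [G, φ.subst σ1, φ.subst σ2] M
      (by decide)
      (by
        intro v h h0
        obtain ⟨h3, h4⟩ := h h0
        exact ⟨fun h h' => h (h4 h'), fun h h' => h (h3 h')⟩) (by omega)
      (by simp; omega) i1
    refine FregeSystem.PB.mono this ?_
    simp only [Fm.size]
    nlinarith
  | and φ ψ ih1 ih2 =>
    have h1' : (φ.subst σ1).size + (ψ.subst σ1).size + 1 ≤ M := h1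
    have h2' : (φ.subst σ2).size + (ψ.subst σ2).size + 1 ≤ M := h2
    have i1 := ih1 (fun x hx => h x (Or.inl hx)) (by omega) (by omega)
    have i2 := ih2 (fun x hx => h x (Or.inr hx)) (by omega) (by omega)
    have := infer2 (F := F) (.imp (.var 0) (.iff (.var 1) (.var 2)))
      (.imp (.var 0) (.iff (.var 3) (.var 4)))
      (.imp (.var 0) (.iff (.and (.var 1) (.var 3)) (.and (.var 2) (.var 4))))
      [G, φ.subst σ1, φ.subst σ2, ψ.subst σ1, ψ.subst σ2] M
      (by decide)
      (by
        intro v h h' h0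
        obtain ⟨h3, h4⟩ := h h0
        obtain ⟨h5, h6⟩ := h' h0
        exact ⟨fun h => ⟨h3 h.1, h5 h.2⟩, fun h => ⟨h4 h.1, h6 h.2⟩⟩) (by omega)
      (by simp; omega) i1 i2
    refine FregeSystem.PB.mono this ?_
    simp only [Fm.size]
    nlinarith
  | or φ ψ ih1 ih2 =>
    have h1' : (φ.subst σ1).size + (ψ.subst σ1).size + 1 ≤ M := h1
    have h2' : (φ.subst σ2).size + (ψ.subst σ2).size + 1 ≤ M := h2
    have i1 := ih1 (fun x hx => h x (Or.inl hx)) (by omega) (by omega)
    have i2 := ih2 (fun x hx => h x (Or.inr hx)) (by omega) (by omega)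
    have := infer2 (F := F) (.imp (.var 0) (.iff (.var 1) (.var 2)))
      (.imp (.var 0) (.iff (.var 3) (.var 4)))
      (.imp (.var 0) (.iff (.or (.var 1) (.var 3)) (.or (.var 2) (.var 4))))
      [G, φ.subst σ1, φ.subst σ2, ψ.subst σ1, ψ.subst σ2] M
      (by decide)
      (by
        intro v h h' h0
        obtain ⟨h3, h4⟩ := h h0
        obtain ⟨h5, h6⟩ := h' h0
        exact ⟨fun h => h.imp h3 h5, fun h => h.imp h4 h6⟩) (by omega)
      (by simp; omega) i1 i2
    refine FregeSystem.PB.mono this ?_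
    simp only [Fm.size]
    nlinarith
  | imp φ ψ ih1 ih2 =>
    have h1' : (φ.subst σ1).size + (ψ.subst σ1).size + 1 ≤ M := h1
    have h2' : (φ.subst σ2).size + (ψ.subst σ2).size + 1 ≤ M := h2
    have i1 := ih1 (fun x hx => h x (Or.inl hx)) (by omega) (by omega)
    have i2 := ih2 (fun x hx => h x (Or.inr hx)) (by omega) (by omega)
    have := infer2 (F := F) (.imp (.var 0) (.iff (.var 1) (.var 2)))
      (.imp (.var 0) (.iff (.var 3) (.var 4)))
      (.imp (.var 0) (.iff (.imp (.var 1) (.var 3)) (.imp (.var 2) (.var 4))))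
      [G, φ.subst σ1, φ.subst σ2, ψ.subst σ1, ψ.subst σ2] M
      (by decide)
      (by
        intro v h h' h0
        obtain ⟨h3, h4⟩ := h h0
        obtain ⟨h5, h6⟩ := h' h0
        exact ⟨fun h h' => h5 (h (h4 h')), fun h h' => h6 (h (h3 h'))⟩) (by omega)
      (by simp; omega) i1 i2
    refine FregeSystem.PB.mono this ?_
    simp only [Fm.size]
    nlinarith

/-- The final leaf: the values of `σ` on the variables of the axiom agree with `v` and the
instance of `φ` has the value `v q`. -/
theorem close_axiom {Q : Finset ℕ} {σ : ℕ → Fm ℕ} {v : ℕ → Bool} {q : ℕ} {φ : Fm ℕ}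
    {Γ : Set (Fm ℕ)} {W N : ℕ} (hσ : ∀ x, x ∉ Q → σ x = .var x) (hq : q ∈ Q)
    (h1 : Fm.neg (.iff (σ q) (φ.subst σ)) ∈ Γ)
    (h2 : sg (v q) (inst Q v φ) ∈ Γ)
    (h3 : ∀ x ∈ lv Q [(q, φ)], sg (v x) (σ x) ∈ Γ)
    (hW : (lv Q [(q, φ)]).card ≤ W) (hN : φ.size ≤ N) 
    (hS : (N + 3) * ((W + 5) * (F.K * ((W + 2) * (t + 2) + 2))) ≤ S) :
    Ref F t S 0 Γ := by
  set l : List (Fm ℕ) := Fm.neg (.iff (σ q) (φ.subst σ)) :: sg (v q) (inst Q v φ) ::
    (lv Q [(q, φ)]).toList.map (fun x => sg (v x) (σ x)) with hl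
  refine .leaf l ?_ ?_
  · intro x hx
    rw [hl] at hx
    rcases List.mem_cons.1 hx with rfl | hx
    · exact h1
    rcases List.mem_cons.1 hx with rfl | hx
    · exact h2
    obtain ⟨y, hy, rfl⟩ := List.mem_map.1 hx
    exact h3 y (by simpa using hy)
  · intro hs
    set M : ℕ := (W + 2) * (t + 2) + 2 with hM
    have hlen : l.length ≤ W + 2 := by
      rw [hl]; simp only [List.length_cons, List.length_map, Finset.length_toList]; omega
    have hcl : (conj l).size ≤ M := by
      have := size_conj_le (t + 1) l hs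
      have h' : l.length * (t + 1 + 1) ≤ (W + 2) * (t + 2) := Nat.mul_le_mul_right _ hlen
      omega
    have hm1 : Fm.neg (.iff (σ q) (φ.subst σ)) ∈ l := by simp [hl]
    have hm2 : sg (v q) (inst Q v φ) ∈ l := by simp [hl]
    have hm3 : ∀ x ∈ lv Q [(q, φ)], sg (v x) (σ x) ∈ l := by
      intro x hx
      rw [hl]
      refine List.mem_cons_of_mem _ (List.mem_cons_of_mem _ ?_)
      exact List.mem_map_of_mem (f := fun x => sg (v x) (σ x)) (by simpa using hx)
    have sz1 := hs _ hm1
    have sz2 := hs _ hm2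
    simp only [Fm.size, Fm.iff] at sz1
    have sz2' := le_size_sg (v q) (inst Q v φ)
    have htM : t + 1 ≤ M := by rw [hM]; nlinarith
    -- membership in the conjunction
    have pm : ∀ x ∈ l, F.PB (.imp (conj l) x) ((W + 2) * (F.K * M)) := by
      intro x hx
      exact FregeSystem.PB.mono (pb_conj_mem hx M hcl) (Nat.mul_le_mul_right _ hlen)
    -- equivalence of `σ x` with the constant
    have pe : ∀ x, φ.Occurs x → F.PB (.imp (conj l) (.iff (σ x)
        ((fun x => if x ∈ Q then cst (v x) else .var x) x))) ((W + 2) * (F.K * M) + F.K * M) := by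
      intro x hx
      by_cases hxQ : x ∈ Q
      · simp only [hxQ, if_true]
        have hxl : x ∈ lv Q [(q, φ)] := mem_lv.2 ⟨hxQ, (q, φ), by simp, Or.inr hx⟩
        have h4 := pm _ (hm3 x hxl)
        have sz3 := hs _ (hm3 x hxl)
        have sz3' := le_size_sg (v x) (σ x)
        cases hb : v x
        · rw [hb] at h4
          exact infer1 (F := F) (.imp (.var 0) (.neg (.var 1))) (.imp (.var 0) (.iff (.var 1) .bot))
            [conj l, σ x] M (by decide)
            (by intro v h h0; exact ⟨fun h' => h h0 h', fun h' => h'.elim⟩) (by omega)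
            (by simp; omega) h4
        · rw [hb] at h4
          exact infer1 (F := F) (.imp (.var 0) (.var 1))
            (.imp (.var 0) (.iff (.var 1) (.neg .bot)))
            [conj l, σ x] M (by decide)
            (by intro v h h0; exact ⟨fun _ h' => h', fun _ => h h0⟩) (by omega)
            (by simp; omega) h4
      · simp only [hxQ, if_false]
        rw [hσ x hxQ]
        have := infer0 (F := F) (.imp (.var 0) (.iff (.var 1) (.var 1))) [conj l, .var x] M
          (by decide) (by intro v _; exact ⟨fun h => h, fun h => h⟩) (by omega)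
          (by simp [Fm.size]; omega)
        exact FregeSystem.PB.mono this (by omega)
    have key := pb_subst_eq (conj l) σ (fun x => if x ∈ Q then cst (v x) else .var x)
      ((W + 2) * (F.K * M) + F.K * M) M hcl φ pe (by omega) (by
        change (inst Q v φ).size ≤ M
        omega)
    change F.PB (.imp (conj l) (.iff (φ.subst σ) (inst Q v φ))) _ at key
    have hql : q ∈ lv Q [(q, φ)] := mem_lv.2 ⟨hq, (q, φ), by simp, Or.inl rfl⟩
    have k1 := pm _ hm1
    have k2 := pm _ hm2
    have k3 := pm _ (hm3 q hql)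
    have sz4 := hs _ (hm3 q hql)
    have sz4' := le_size_sg (v q) (σ q)
    have final : F.PB (.imp (conj l) .bot)
        (((W + 2) * (F.K * M)) + ((W + 2) * (F.K * M)) + (((W + 2) * (F.K * M)) +
          (φ.size * ((W + 2) * (F.K * M) + F.K * M + F.K * M))) + F.K * M) := by
      cases hb : v q
      · rw [hb] at k2 k3
        have := F.infer [.imp (.var 0) (.neg (.iff (.var 1) (.var 2))),
          .imp (.var 0) (.neg (.var 3)), .imp (.var 0) (.neg (.var 1)),
          .imp (.var 0) (.iff (.var 2) (.var 3))] (.imp (.var 0) .bot)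
          [conj l, σ q, φ.subst σ, inst Q v φ]
          [((W + 2) * (F.K * M)), ((W + 2) * (F.K * M)), ((W + 2) * (F.K * M)),
          (φ.size * ((W + 2) * (F.K * M) + F.K * M + F.K * M))] M (by decide)
          (by
            intro v h h0
            have e1 := h (.imp (.var 0) (.neg (.iff (.var 1) (.var 2)))) (by simp) h0
            have e2 := h (.imp (.var 0) (.neg (.var 3))) (by simp) h0
            have e3 := h (.imp (.var 0) (.neg (.var 1))) (by simp) h0
            have e4 := h (.imp (.var 0) (.iff (.var 2) (.var 3))) (by simp) h0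
            simp only [Fm.eval, Fm.iff] at e1 e2 e3 e4
            tauto)
          (by omega) (by simp; omega)
          (.cons k1 (.cons k2 (.cons k3 (.cons key .nil))))
        refine FregeSystem.PB.mono this ?_
        simp only [List.sum_cons, List.sum_nil]
        omega
      · rw [hb] at k2 k3
        have := F.infer [.imp (.var 0) (.neg (.iff (.var 1) (.var 2))),
          .imp (.var 0) (.var 3), .imp (.var 0) (.var 1),
          .imp (.var 0) (.iff (.var 2) (.var 3))] (.imp (.var 0) .bot)
          [conj l, σ q, φ.subst σ, inst Q v φ]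
          [((W + 2) * (F.K * M)), ((W + 2) * (F.K * M)), ((W + 2) * (F.K * M)),
          (φ.size * ((W + 2) * (F.K * M) + F.K * M + F.K * M))] M (by decide)
          (by
            intro v h h0
            have e1 := h (.imp (.var 0) (.neg (.iff (.var 1) (.var 2)))) (by simp) h0
            have e2 := h (.imp (.var 0) (.var 3)) (by simp) h0
            have e3 := h (.imp (.var 0) (.var 1)) (by simp) h0
            have e4 := h (.imp (.var 0) (.iff (.var 2) (.var 3))) (by simp) h0
            simp only [Fm.eval, Fm.iff] at e1 e2 e3 e4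
            tauto)
          (by omega) (by simp; omega)
          (.cons k1 (.cons k2 (.cons k3 (.cons key .nil))))
        refine FregeSystem.PB.mono this ?_
        simp only [List.sum_cons, List.sum_nil]
        omega
    refine FregeSystem.PB.mono final (le_trans ?_ hS)
    have e : φ.size * ((W + 2) * (F.K * M) + F.K * M + F.K * M) ≤ N * ((W + 4) * (F.K * M)) := by
      refine Nat.mul_le_mul hN (le_of_eq (by ring))
    have e2 : (N + 3) * ((W + 5) * (F.K * M)) = N * ((W + 4) * (F.K * M)) + N * (F.K * M) +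
      3 * ((W + 5) * (F.K * M)) := by ring
    rw [e2]
    have e3 : 3 * ((W + 5) * (F.K * M)) = 3 * ((W + 2) * (F.K * M)) + 9 * (F.K * M) := by ring
    rw [e3]
    omega

/-- Forcing the values of several formulas. -/
theorem Can.force {c : ℕ} {σ : ℕ → Fm ℕ} {v : ℕ → Bool} (l : List ℕ) :
    ∀ (Γ : Set (Fm ℕ)), (∀ x ∈ l, (σ x).size ≤ t) →
    (∀ x ∈ l, ∀ b, b ≠ v x → ∀ Δ, Γ ⊆ Δ → sg b (σ x) ∈ Δ → Can F t S c Δ (fun _ => False)) →
    Can F t S (l.length + c) Γ (fun Δ => ∀ x ∈ l, sg (v x) (σ x) ∈ Δ) := by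
  induction l with
  | nil => intro Γ _ _; exact (Can.ret (by simp)).weaken (by omega)
  | cons a l ih =>
    intro Γ hsz h
    have e : (a :: l).length + c = 1 + (l.length + c) := by rw [List.length_cons]; ring
    rw [e]
    refine (Can.sgQuery (σ a) (hsz a (by simp))).bind ?_
    rintro Δ hΔ ⟨b, hb⟩
    by_cases hbv : b = v a
    · refine (ih Δ (fun x hx => hsz x (by simp [hx])) (fun x hx b' hb' Δ' hΔ' h' =>
        h x (by simp [hx]) b' hb' Δ' (hΔ.trans hΔ') h')).mono le_rfl ?_
      intro Δ' hΔ' h' x hx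
      rcases List.mem_cons.1 hx with rfl | hx
      · rw [← hbv]; exact hΔ' hb
      · exact h' x hx
    · exact (h a (by simp) b hbv Δ hΔ hb).false_elim.weaken (by omega)

/-- The substitution. -/
noncomputable def solve (Q : Finset ℕ) (E : List (ℕ × Fm ℕ)) (T : BTree) (x : ℕ) : Fm ℕ :=
  if x ∈ Q then val Q E x T [] (fun _ => false) else .var x

/-- The number of queries used to refute the negation of a substituted extension axiom. -/
def nq (h W m : ℕ) : ℕ :=
  1 + (1 + (m + ((h + 1) * (W + 4) + (2 * h + W + 3))) +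
    ((h + 1) * (W + 4) + (W + (h + 1) * (2 * W + 4))))

/-- The substituted extension axioms are provable. -/
theorem Can.refuteAxiom (hS : F.K * (t + 1) ≤ S) {W m N : ℕ} {E : List (ℕ × Fm ℕ)} (hE : Acyc E)
    (hm : E.length ≤ 2 ^ m) {Q : Finset ℕ} (hQ : ∀ a ∈ E, a.1 ∈ Q)
    {T : BTree} (hT : T.leaves.Perm E) (hI : IntLE Q W T [])
    (hsz : ∀ k, (Sat Q (E.drop k) T [] (fun _ => false)).size ≤ t)
    (hφt : ∀ a ∈ E, ∀ v, (inst Q v a.2).size ≤ t) {a : ℕ × Fm ℕ} (ha : a ∈ E)
    (hval : ∀ x ∈ lv Q [a], (solve Q E T x).size ≤ t)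
    (hlv : (lv Q [a]).card ≤ W) (hN : a.2.size ≤ N)
    (hS' : (N + 3) * ((W + 5) * (F.K * ((W + 2) * (t + 2) + 2))) ≤ S) :
    Ref F t S (nq T.depth W m) {Fm.neg (.iff (solve Q E T a.1) (a.2.subst (solve Q E T)))} := by
  have haT : a ∈ T.leaves := hT.mem_iff.2 ha
  refine Can.ref ?_
  unfold nq
  refine (Can.query (Sat Q E T [] (fun _ => false)) (by simpa using hsz 0)).bind ?_
  rintro Δ hΔ (h1 | h1)
  · refine Can.weaken (c := (T.depth + 1) * (W + 4) + (W + (T.depth + 1) * (2 * W + 4))) ?_
      (by omega)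
    refine (Can.read hS T [] (fun _ => false) Δ hI haT h1).bind ?_
    rintro Δ' hΔ' ⟨v', h2, _, h3⟩
    have hle : (lv Q [a]).toList.length ≤ W := by rwa [Finset.length_toList]
    refine Can.weaken (c := ((lv Q [a]).toList.length + (T.depth + 1) * (2 * W + 4)) + 0) ?_
      (by omega)
    refine (Can.force (σ := solve Q E T) (v := v') (c := (T.depth + 1) * (2 * W + 4))
      (lv Q [a]).toList Δ' ?_ ?_).bind ?_
    · intro x hx; exact hval x (by simpa using hx)
    · intro x hx b hb Δ2 hΔ2 h4
      have hx' : x ∈ lv Q [a] := by simpa using hx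
      have hxQ : x ∈ Q := (mem_lv.1 hx').1
      refine h3 x hx' (by simp [lv]) b hb Δ2 hΔ2 ?_
      simpa [solve, hxQ] using h4
    · intro Δ2 hΔ2 h4
      refine Can.ofRef (close_axiom (Q := Q) (σ := solve Q E T) (v := v') (q := a.1) (φ := a.2)
        (W := W) (N := N) ?_ (hQ a ha) ?_ ?_ ?_ hlv hN hS')
      · intro x hx; simp [solve, hx]
      · exact hΔ2 (hΔ' (hΔ (Set.mem_singleton _)))
      · have : KC Q E a v' = sg (v' a.1) (inst Q v' a.2) := by simp [KC, ha]
        rw [← this]
        exact hΔ2 h2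
      · intro x hx; exact h4 x (by simpa using hx)
  · exact (Can.exist hS hE hm hQ hT hI (fun _ => false) hsz hφt h1).weaken (by omega)

end FregeEF
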