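import Pool.Agent.Work.MP_c07f0d_lc.PVCut
import Pool.Agent.Work.MP_c07f0d_lc.SubstEq

/-!
# Solving a system of extension axioms: composition and case distinction
-/

namespace FregeEF

variable {α β : Type} {F : FregeSystem}

theorem FregeSystem.PB.subst {φ : Fm α} {s : ℕ} (h : F.PB φ s) (σ : α → Fm β) (M : ℕ)
    (hM : 1 ≤ M) (hσ : ∀ x, (σ x).size ≤ M) : F.PB (φ.subst σ) (s * M) := by
  obtain ⟨L, h1, h2, h3⟩ := h
  obtain ⟨L', h4, h5, _, h6⟩ := h1.cut σ (L0 := []) .nil (by simp)
  refine ⟨L', h4, h5 _ h2, ?_⟩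
  have h7 := lsize_map_subst_le σ M hM L hσ
  have h8 : lsize L * M ≤ s * M := Nat.mul_le_mul_right _ h3
  rw [lsize_nil] at h6
  omega

theorem Fm.occurs_subst {σ : α → Fm β} {φ : Fm α} {y : β} (h : (φ.subst σ).Occurs y) :
    ∃ x, φ.Occurs x ∧ (σ x).Occurs y := by
  induction φ with
  | var x => exact ⟨x, rfl, h⟩
  | bot => exact h.elim
  | neg φ ih => exact ih h
  | and φ ψ ih1 ih2 =>
    rcases h with h | h
    · obtain ⟨x, h1, h2⟩ := ih1 h; exact ⟨x, Or.inl h1, h2⟩
    · obtain ⟨x, h1, h2⟩ := ih2 h; exact ⟨x, Or.inr h1, h2⟩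
  | or φ ψ ih1 ih2 =>
    rcases h with h | h
    · obtain ⟨x, h1, h2⟩ := ih1 h; exact ⟨x, Or.inl h1, h2⟩
    · obtain ⟨x, h1, h2⟩ := ih2 h; exact ⟨x, Or.inr h1, h2⟩
  | imp φ ψ ih1 ih2 =>
    rcases h with h | h
    · obtain ⟨x, h1, h2⟩ := ih1 h; exact ⟨x, Or.inl h1, h2⟩
    · obtain ⟨x, h1, h2⟩ := ih2 h; exact ⟨x, Or.inr h1, h2⟩

/-- The system `G` is solved, with formulas and proofs of size at most `b`. -/
def Sol (F : FregeSystem) (G : List (ℕ × Fm ℕ)) (b : ℕ) : Prop :=
  ∃ σ : ℕ → Fm ℕ, (∀ x, x ∉ hd G → σ x = .var x) ∧ (∀ x, (σ x).size ≤ b) ∧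
    (∀ x y, (σ x).Occurs y → y ∉ hd G ∧ (y = x ∨ ∃ a ∈ G, a.2.Occurs y)) ∧
    ∀ a ∈ G, F.PB (.iff (σ a.1) (a.2.subst σ)) b

theorem Sol.mono {G : List (ℕ × Fm ℕ)} {b b' : ℕ} (h : Sol F G b) (hb : b ≤ b') : Sol F G b' := by
  obtain ⟨σ, h1, h2, h3, h4⟩ := h
  exact ⟨σ, h1, fun x => (h2 x).trans hb, h3, fun a ha => (h4 a ha).mono hb⟩

/-- Composition of solutions. -/
theorem Sol.comp {S P : List (ℕ × Fm ℕ)} {b1 b2 : ℕ} (hA : Acyc (S ++ P)) (hS : Sol F S b1)
    (hP : Sol F P b2) : Sol F (S ++ P) (b1 * b2) := by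
  obtain ⟨σ1, s1, s2, s3, s4⟩ := hS
  obtain ⟨σ2, p1, p2, p3, p4⟩ := hP
  have hb1 : 1 ≤ b1 := (σ1 0).size_pos.trans (s2 0)
  have hb2 : 1 ≤ b2 := (σ2 0).size_pos.trans (p2 0)
  have hP' : ∀ x, x ∉ hd S → (σ1 x).subst σ2 = σ2 x := by
    intro x hx; rw [s1 x hx]; rfl
  refine ⟨fun x => (σ1 x).subst σ2, ?_, ?_, ?_, ?_⟩
  · intro x hx
    rw [hd_append, Finset.mem_union, not_or] at hx
    change (σ1 x).subst σ2 = _
    rw [hP' x hx.1, p1 x hx.2]
  · intro x
    exact (Fm.size_subst_le σ2 b2 hb2 (σ1 x) (fun y _ => p2 y)).trans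
      (Nat.mul_le_mul_right _ (s2 x))
  · intro x y hy
    obtain ⟨z, hz, hzy⟩ := Fm.occurs_subst hy
    obtain ⟨z1, z2⟩ := s3 x z hz
    obtain ⟨y1, y2⟩ := p3 z y hzy
    rw [hd_append, Finset.mem_union, not_or]
    refine ⟨⟨?_, y1⟩, ?_⟩
    · rcases y2 with rfl | ⟨a, ha, h⟩
      · exact z1
      · exact hA.body ha h
    · rcases y2 with rfl | ⟨a, ha, h⟩
      · rcases z2 with rfl | ⟨a, ha, h⟩
        · exact Or.inl rfl
        · exact Or.inr ⟨a, by simp [ha], h⟩
      · exact Or.inr ⟨a, by simp [ha], h⟩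
  · intro a ha
    rcases List.mem_append.1 ha with ha | ha
    · have := (s4 a ha).subst σ2 b2 hb2 p2
      have e : (Fm.iff (σ1 a.1) (a.2.subst σ1)).subst σ2 =
          .iff ((σ1 a.1).subst σ2) (a.2.subst fun x => (σ1 x).subst σ2) := by
        simp only [Fm.iff, Fm.subst, Fm.subst_subst]
      rwa [e] at this
    · have e1 : (σ1 a.1).subst σ2 = σ2 a.1 := by
        refine hP' _ fun h => ?_
        exact hA.disj h (mem_hd.2 ⟨a, ha, rfl⟩)
      have e2 : (a.2.subst fun x => (σ1 x).subst σ2) = a.2.subst σ2 :=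
        Fm.subst_congr fun x hx => hP' x (hA.body ha hx)
      change F.PB (.iff ((σ1 a.1).subst σ2) (a.2.subst fun x => (σ1 x).subst σ2)) _
      rw [e1, e2]
      exact (p4 a ha).mono (Nat.le_mul_of_pos_left _ (by omega))

/-- A system without internal wires. -/
theorem Sol.base {G : List (ℕ × Fm ℕ)} (hA : Acyc G) (h0 : wr G G = 0) {N : ℕ} (hN1 : 1 ≤ N)
    (hN : ∀ a ∈ G, a.2.size ≤ N) : Sol F G (F.K * N) := by
  classical
  have hno : ∀ a ∈ G, ∀ x, a.2.Occurs x → x ∉ hd G := by
    intro a ha x hx hxG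
    have h1 : cn G a.2 = 0 := by
      have h2 : ∀ G' : List (ℕ × Fm ℕ), wr G' G = 0 → a ∈ G' → cn G a.2 = 0 := by
        intro G'
        induction G' with
        | nil => intro _ h; simp at h
        | cons g G' ih =>
          intro h h'
          rw [wr_cons] at h
          rcases List.mem_cons.1 h' with rfl | h'
          · omega
          · exact ih (by omega) h'
      exact h2 G h0 ha
    unfold cn at h1
    rw [Finset.card_eq_zero, Finset.filter_eq_empty_iff] at h1
    exact h1 hxG hx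
  have hfind : ∀ G' : List (ℕ × Fm ℕ), Acyc G' → ∀ a ∈ G',
      G'.find? (fun b => b.1 = a.1) = some a := by
    intro G'
    induction G' with
    | nil => intro _ a ha; simp at ha
    | cons g G' ih =>
      intro hA' a ha
      rcases List.mem_cons.1 ha with rfl | ha
      · simp
      · have hne : g.1 ≠ a.1 := fun h => ((List.pairwise_cons.1 hA'.1).1 a ha).1 h.symm
        rw [List.find?_cons_of_neg (by simpa using hne)]
        exact ih hA'.tail a ha
  let σ : ℕ → Fm ℕ := fun x => match G.find? (fun b => b.1 = x) with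
    | some a => a.2
    | none => .var x
  have σ1 : ∀ x, x ∉ hd G → σ x = .var x := by
    intro x hx
    have : G.find? (fun b => b.1 = x) = none := by
      rw [List.find?_eq_none]
      intro a ha h
      exact hx (mem_hd.2 ⟨a, ha, by simpa using h⟩)
    simp only [σ, this]
  have σ2 : ∀ a ∈ G, σ a.1 = a.2 := by
    intro a ha
    simp only [σ, hfind G hA a ha]
  have hKN : N ≤ F.K * N := Nat.le_mul_of_pos_left _ F.K_pos
  have hcase : ∀ x, x ∉ hd G ∨ ∃ a ∈ G, a.1 = x := by
    intro x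
    by_cases hx : x ∈ hd G
    · exact Or.inr (mem_hd.1 hx)
    · exact Or.inl hx
  refine ⟨σ, σ1, ?_, ?_, ?_⟩
  · intro x
    rcases hcase x with hx | ⟨a, ha, rfl⟩
    · rw [σ1 x hx]; simp only [Fm.size]; omega
    · rw [σ2 a ha]; exact (hN a ha).trans hKN
  · intro x y hy
    rcases hcase x with hx | ⟨a, ha, rfl⟩
    · rw [σ1 x hx] at hy
      have hy' : x = y := hy
      subst hy'
      exact ⟨hx, Or.inl rfl⟩
    · rw [σ2 a ha] at hy
      exact ⟨hno a ha y hy, Or.inr ⟨a, ha, hy⟩⟩
  · intro a ha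
    have e : a.2.subst σ = a.2 := by
      rw [Fm.subst_congr (ρ := fun x => .var x) fun x hx => σ1 x (hno a ha x hx), Fm.subst_var]
    rw [e, σ2 a ha]
    exact infer0 (F := F) (.iff (.var 0) (.var 0)) [a.2] N (by decide)
      (by intro v; exact ⟨fun h => h, fun h => h⟩) hN1 (by simpa using hN a ha)

/-- Instantiation by truth constants. -/
noncomputable def cinst (X : Finset ℕ) (v : ℕ → Bool) (x : ℕ) : Fm ℕ :=
  if x ∈ X then cst (v x) else .var x

theorem size_cinst_le (X : Finset ℕ) (v : ℕ → Bool) (x : ℕ) : (cinst X v x).size ≤ 2 := by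
  unfold cinst
  split_ifs
  · exact size_cst_le _
  · simp [Fm.size]

/-- Case distinction on the values of the formulas `p x`, where `x` runs over a list. -/
noncomputable def dec (p : ℕ → Fm ℕ) (X : Finset ℕ) : List ℕ → (ℕ → Bool) → Fm ℕ → Fm ℕ
  | [], v, ψ => ψ.subst (cinst X v)
  | x :: l, v, ψ => .or (.and (p x) (dec p X l (Function.update v x true) ψ))
      (.and (.neg (p x)) (dec p X l (Function.update v x false) ψ))

theorem size_dec_le {p : ℕ → Fm ℕ} {X : Finset ℕ} {b1 b2 : ℕ} (hp : ∀ x, (p x).size ≤ b2)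
    {ψ : Fm ℕ} (hψ : ψ.size ≤ b1) (l : List ℕ) (v : ℕ → Bool) :
    (dec p X l v ψ).size + (2 * b2 + 4) ≤ 2 ^ l.length * (2 * b1 + 2 * b2 + 4) := by
  induction l generalizing v with
  | nil =>
    have := Fm.size_subst_le (cinst X v) 2 (by omega) ψ (fun x _ => size_cinst_le X v x)
    simp only [dec, List.length_nil, pow_zero, one_mul]
    omega
  | cons x l ih =>
    have h1 := ih (Function.update v x true)
    have h2 := ih (Function.update v x false)
    have h3 := hp x
    simp only [dec, Fm.size, List.length_cons]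
    rw [pow_succ]
    have e : 2 ^ l.length * 2 * (2 * b1 + 2 * b2 + 4) =
        2 ^ l.length * (2 * b1 + 2 * b2 + 4) + 2 ^ l.length * (2 * b1 + 2 * b2 + 4) := by ring
    rw [e]
    omega

theorem occurs_dec {p : ℕ → Fm ℕ} {X : Finset ℕ} {ψ : Fm ℕ} (l : List ℕ) (v : ℕ → Bool) {y : ℕ}
    (h : (dec p X l v ψ).Occurs y) : (ψ.Occurs y ∧ y ∉ X) ∨ ∃ x ∈ l, (p x).Occurs y := by
  induction l generalizing v with
  | nil =>
    obtain ⟨x, h1, h2⟩ := Fm.occurs_subst h
    unfold cinst at h2
    split_ifs at h2 with hx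
    · cases hb : v x
      · rw [hb] at h2; exact absurd h2 (by simp [Fm.Occurs])
      · rw [hb] at h2; exact absurd h2 (by simp [Fm.Occurs])
    · have : x = y := h2
      subst this
      exact Or.inl ⟨h1, hx⟩
  | cons x l ih =>
    have : ∀ v', (dec p X l v' ψ).Occurs y →
        (ψ.Occurs y ∧ y ∉ X) ∨ ∃ z ∈ x :: l, (p z).Occurs y := by
      intro v' h'
      rcases ih v' h' with h' | ⟨z, hz, h'⟩
      · exact Or.inl h'
      · exact Or.inr ⟨z, by simp [hz], h'⟩
    rcases h with (h | h) | (h | h)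
    · exact Or.inr ⟨x, by simp, h⟩
    · exact this _ h
    · exact Or.inr ⟨x, by simp, h⟩
    · exact this _ h

/-- Proof by case distinction. -/
theorem pb_dec {p : ℕ → Fm ℕ} {X : Finset ℕ} {σ σ1 : ℕ → Fm ℕ} {goal : Fm ℕ} {Y : Finset ℕ}
    {M ℓ b2 c0 : ℕ} (hp : ∀ x, (p x).size ≤ b2) (hgoal : goal.size ≤ M)
    (hσ : ∀ y, (σ y).size ≤ M) (hdec : ∀ l v y, l.length ≤ X.card → (dec p X l v (σ1 y)).size ≤ M)
    (hleaf : ∀ (v : ℕ → Bool) (H : List (Fm ℕ)), (conj H).size ≤ M → H.length ≤ X.card →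
      (∀ x ∈ X, sg (v x) (p x) ∈ H) →
      (∀ y ∈ Y, F.PB (.imp (conj H) (.iff (σ y) ((σ1 y).subst (cinst X v)))) c0) →
      F.PB (.imp (conj H) goal) ℓ) :
    ∀ (l : List ℕ) (v : ℕ → Bool) (H : List (Fm ℕ)) (c : ℕ),
      l.Nodup → (∀ x ∈ l, x ∈ X) → H.length + l.length ≤ X.card →
      (conj H).size + l.length * (b2 + 2) ≤ M →
      (∀ x ∈ X, x ∉ l → sg (v x) (p x) ∈ H) →
      c + l.length * (F.K * M) ≤ c0 →
      (∀ y ∈ Y, F.PB (.imp (conj H) (.iff (σ y) (dec p X l v (σ1 y)))) c) →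
      ∃ s, F.PB (.imp (conj H) goal) s ∧ s + F.K * M ≤ 2 ^ l.length * (ℓ + F.K * M) := by
  intro l
  induction l with
  | nil =>
    intro v H c _ _ hH hsz h1 hc h2
    exact ⟨ℓ, hleaf v H (by simpa using hsz) (by simpa using hH) (fun x hx => h1 x hx (by simp))
      (fun y hy => (h2 y hy).mono (by simpa using hc)), by simp⟩
  | cons x l ih =>
    intro v H c hnd hX hH hsz h1 hc h2
    rw [List.length_cons] at hH hsz hc
    have hxl : x ∉ l := (List.nodup_cons.1 hnd).1
    have hsucc : ∀ n m : ℕ, (n + 1) * m = n * m + m := fun n m => by ring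
    rw [hsucc] at hsz hc
    have hpx := hp x
    have step : ∀ b : Bool, ∃ s, F.PB (.imp (conj (sg b (p x) :: H)) goal) s ∧
        s + F.K * M ≤ 2 ^ l.length * (ℓ + F.K * M) := by
      intro b
      have hs := size_sg_le b (p x)
      have hcs : (conj (sg b (p x) :: H)).size = (sg b (p x)).size + (conj H).size + 1 := rfl
      refine ih (Function.update v x b) (sg b (p x) :: H) (c + F.K * M) (List.nodup_cons.1 hnd).2
        (fun z hz => hX z (by simp [hz])) (by rw [List.length_cons]; omega)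
        (by rw [hcs]; omega) ?_ (by omega) ?_
      · intro z hz hzl
        by_cases hzx : z = x
        · subst hzx
          rw [Function.update_self]
          exact List.mem_cons_self ..
        · rw [Function.update_of_ne hzx]
          exact List.mem_cons_of_mem _ (h1 z hz (by simp [hzx, hzl]))
      · intro y hy
        have h3 := h2 y hy
        have s1 := hdec (x :: l) v y (by rw [List.length_cons]; omega)
        simp only [dec, Fm.size] at s1
        have s2 := hσ y
        cases b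
        · exact infer1 (F := F) (.imp (.var 0) (.iff (.var 1) (.or (.and (.var 2) (.var 3))
            (.and (.neg (.var 2)) (.var 4)))))
            (.imp (.and (.neg (.var 2)) (.var 0)) (.iff (.var 1) (.var 4)))
            [conj H, σ y, p x, dec p X l (Function.update v x true) (σ1 y),
              dec p X l (Function.update v x false) (σ1 y)] M (by decide)
            (by
              intro w h h0
              obtain ⟨h5, h6⟩ := h h0.2
              refine ⟨fun h7 => ?_, fun h7 => h6 (Or.inr ⟨h0.1, h7⟩)⟩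
              rcases h5 h7 with h8 | h8
              · exact absurd h8.1 h0.1
              · exact h8.2)
            (by omega) (by simp; omega) h3
        · exact infer1 (F := F) (.imp (.var 0) (.iff (.var 1) (.or (.and (.var 2) (.var 3))
            (.and (.neg (.var 2)) (.var 4)))))
            (.imp (.and (.var 2) (.var 0)) (.iff (.var 1) (.var 3)))
            [conj H, σ y, p x, dec p X l (Function.update v x true) (σ1 y),
              dec p X l (Function.update v x false) (σ1 y)] M (by decide)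
            (by
              intro w h h0
              obtain ⟨h5, h6⟩ := h h0.2
              refine ⟨fun h7 => ?_, fun h7 => h6 (Or.inl ⟨h0.1, h7⟩)⟩
              rcases h5 h7 with h8 | h8
              · exact h8.2
              · exact absurd h0.1 h8.1)
            (by omega) (by simp; omega) h3
    obtain ⟨s1, t1, u1⟩ := step true
    obtain ⟨s2, t2, u2⟩ := step false
    have := infer2 (F := F) (.imp (.and (.var 0) (.var 1)) (.var 2))
      (.imp (.and (.neg (.var 0)) (.var 1)) (.var 2)) (.imp (.var 1) (.var 2))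
      [p x, conj H, goal] M (by decide)
      (by
        intro w h h' h0
        by_cases h5 : w 0
        · exact h ⟨h5, h0⟩
        · exact h' ⟨h5, h0⟩)
      (by have := goal.size_pos; omega) (by simp; omega) t1 t2
    refine ⟨_, this, ?_⟩
    rw [List.length_cons, pow_succ]
    have e : 2 ^ l.length * 2 * (ℓ + F.K * M) =
      2 ^ l.length * (ℓ + F.K * M) + 2 ^ l.length * (ℓ + F.K * M) := by ring
    rw [e]
    omega

end FregeEF
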