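import Pool.Agent.Work.MP_c07f0d_lc.Gadgets

/-!
# Parities of families indexed by words
-/

namespace FregeEF

variable {α : Type} {F : FregeSystem} {t S : ℕ}
variable {Q : Set (Fm α) → Prop} {Γ : Set (Fm α)}

/-! ### Parity of lists of Booleans -/

/-- Parity of a list of Booleans. -/
def xorB (l : List Bool) : Bool := l.foldr xor false

@[simp] theorem xorB_nil : xorB [] = false := rfl
@[simp] theorem xorB_cons (b : Bool) (l : List Bool) : xorB (b :: l) = xor b (xorB l) := rfl

theorem xorB_append (l l' : List Bool) : xorB (l ++ l') = xor (xorB l) (xorB l') := by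
  induction l with
  | nil => simp
  | cons a l ih => simp [ih]

theorem xorB_perm {l l' : List Bool} (h : l.Perm l') : xorB l = xorB l' := by
  induction h with
  | nil => rfl
  | cons x _ ih => simp [ih]
  | swap x y l => simp only [xorB_cons]; cases x <;> cases y <;> simp
  | trans _ _ ih1 ih2 => exact ih1.trans ih2

theorem xorB_map_xor {ι : Type} (l : List ι) (f g : ι → Bool) :
    xorB (l.map fun x => xor (f x) (g x)) = xor (xorB (l.map f)) (xorB (l.map g)) := by
  induction l with
  | nil => rfl
  | cons a l ih =>
    simp only [List.map_cons, xorB_cons, ih]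
    cases f a <;> cases g a <;> cases xorB (l.map f) <;> cases xorB (l.map g) <;> rfl

theorem xorB_map_false {ι : Type} (l : List ι) (f : ι → Bool) (h : ∀ x ∈ l, f x = false) :
    xorB (l.map f) = false := by
  induction l with
  | nil => rfl
  | cons a l ih =>
    simp only [List.map_cons, xorB_cons]
    rw [h a (by simp), ih (fun x hx => h x (by simp [hx]))]
    rfl

theorem xorB_exchange {ι κ : Type} (l : List ι) (l' : List κ) (f : ι → κ → Bool) :
    xorB (l.map fun x => xorB (l'.map (f x))) = xorB (l'.map fun y => xorB (l.map fun x => f x y)) := by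
  induction l with
  | nil => simp only [List.map_nil, xorB_nil]; rw [xorB_map_false _ _ (fun _ _ => rfl)]
  | cons a l ih =>
    simp only [List.map_cons, xorB_cons, ih]
    rw [xorB_map_xor]

theorem xorB_exists {ι : Type} {l : List ι} {f : ι → Bool} (h : xorB (l.map f) = true) :
    ∃ x ∈ l, f x = true := by
  by_contra hc
  rw [xorB_map_false l f (by
    intro x hx
    by_contra hf
    exact hc ⟨x, hx, by simpa using hf⟩)] at h
  exact absurd h (by simp)

theorem xorB_symm {ι : Type} (l : List ι) (f : ι → ι → Bool) (h : ∀ x ∈ l, ∀ y ∈ l, f x y = f y x)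
    (hd : ∀ x ∈ l, f x x = false) : xorB (l.map fun x => xorB (l.map (f x))) = false := by
  induction l with
  | nil => rfl
  | cons a l ih =>
    have h1 : (l.map fun x => xorB ((a :: l).map (f x))) =
        l.map fun x => xor (f x a) (xorB (l.map (f x))) := rfl
    rw [List.map_cons, xorB_cons, h1, xorB_map_xor, ih (fun x hx y hy => h x (by simp [hx]) y
      (by simp [hy])) (fun x hx => hd x (by simp [hx])), List.map_cons, xorB_cons, hd a (by simp)]
    have h2 : l.map (f a) = l.map fun x => f x a := by
      refine List.map_congr_left fun x hx => h a (by simp) x (by simp [hx])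
    rw [h2]
    simp

/-! ### Exclusive or of formulas -/

/-- Exclusive or. -/
def xorF (φ ψ : Fm α) : Fm α := .or (.and φ (.neg ψ)) (.and (.neg φ) ψ)

/-- Exclusive or of a list. -/
def xorl : List (Fm α) → Fm α
  | [] => .bot
  | φ :: l => xorF φ (xorl l)

theorem size_xorl_le (B : ℕ) (l : List (Fm α)) (h : ∀ x ∈ l, x.size ≤ B) :
    (xorl l).size ≤ 2 ^ l.length * (2 * B + 6) := by
  have key : (xorl l).size + (2 * B + 5) ≤ 2 ^ l.length * (2 * B + 6) := by
    induction l with
    | nil => simp only [xorl, Fm.size, List.length_nil, pow_zero]; omega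
    | cons a l ih =>
      have h1 := h a (by simp)
      have h2 := ih (fun x hx => h x (by simp [hx]))
      have e : 2 ^ l.length * 2 * (2 * B + 6) = 2 * (2 ^ l.length * (2 * B + 6)) := by ring
      simp only [xorl, xorF, Fm.size, List.length_cons, pow_succ]
      rw [e]
      omega
  omega

theorem Can.close_xor (hS : F.K * (t + 1) ≤ S) (φ ψ : Fm α) (a b c : Bool) (h : c ≠ xor a b)
    (h1 : sg c (xorF φ ψ) ∈ Γ) (h2 : sg a φ ∈ Γ) (h3 : sg b ψ ∈ Γ) : Can F t S 0 Γ Q := by
  have key : ∀ (sk : List (Fm ℕ)), sk = [sg c (xorF (.var 0) (.var 1)), sg a (.var 0),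
      sg b (.var 1)] → smallTest [] (.imp (conj sk) .bot) = true →
      (∀ v : ℕ → Prop, ¬ (conj sk).eval v) → Can F t S 0 Γ Q := by
    intro sk hsk ht hv
    subst hsk
    have e1 : (sg c (xorF (.var 0) (.var 1))).subst (sub [φ, ψ]) = sg c (xorF φ ψ) := by
      cases c <;> rfl
    have e2 : (sg a (.var 0)).subst (sub [φ, ψ]) = sg a φ := by cases a <;> rfl
    have e3 : (sg b (.var 1)).subst (sub [φ, ψ]) = sg b ψ := by cases b <;> rfl
    refine Can.close _ [φ, ψ] hS ht hv ?_ ?_
    · intro p hp
      simp only [List.mem_cons, List.not_mem_nil, or_false] at hp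
      rcases hp with rfl | rfl | rfl
      · rw [e1]; exact h1
      · rw [e2]; exact h2
      · rw [e3]; exact h3
    · intro h x hx
      have h4 := h _ (List.mem_cons_self ..)
      rw [e1] at h4
      have h5 := le_size_sg c (xorF φ ψ)
      simp only [xorF, Fm.size] at h5
      have h6 : (sg c (xorF φ ψ)).size ≤ t + 1 := h4
      simp only [xorF] at h6
      simp only [List.mem_cons, List.not_mem_nil, or_false] at hx
      rcases hx with rfl | rfl <;> omega
  refine key _ rfl ?_ ?_
  · cases a <;> cases b <;> cases c <;> decide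
  · intro v
    cases a <;> cases b <;> cases c <;> simp [conj, xorF, Fm.eval] at h ⊢ <;> tauto

theorem Can.xorl_eval (hS : F.K * (t + 1) ≤ S) (val : Fm α → Bool) (l : List (Fm α)) :
    ∀ (Γ : Set (Fm α)) (c : Bool), (∀ φ ∈ l, sg (val φ) φ ∈ Γ) → sg c (xorl l) ∈ Γ →
      c ≠ xorB (l.map val) → Can F t S (l.length) Γ Q := by
  induction l with
  | nil =>
    intro Γ c _ h hc
    have : c = true := by cases c <;> simp_all
    subst this
    exact Can.close_bot hS h
  | cons φ l ih =>
    intro Γ c h h1 hc
    refine Can.weaken (c := 1 + l.length) ?_ (by rw [List.length_cons]; omega)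
    refine (Can.sgQuerySub (xorl l) _ h1 ?_).bind ?_
    · have := le_size_sg c (xorl (φ :: l))
      simp only [xorl, xorF, Fm.size] at this ⊢
      omega
    · rintro Δ hΔ ⟨b, hb⟩
      by_cases hbv : b = xorB (l.map val)
      · refine (Can.close_xor hS φ (xorl l) (val φ) b c ?_ (hΔ h1) (hΔ (h φ (by simp)))
          hb).weaken (by omega)
        rw [hbv]
        simpa using hc
      · exact ih Δ b (fun ψ hψ => hΔ (h ψ (by simp [hψ]))) hb hbv

/-! ### Parity of a family indexed by words -/

variable {A : Type}

/-- Parity of `f w` over all words `w` of length `n` over the alphabet `al`. -/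
def par (al : List A) : ℕ → (List A → Fm α) → Fm α
  | 0, f => f []
  | n + 1, f => xorl (al.map fun a => par al n (fun w => f (a :: w)))

theorem size_par_le (al : List A) (B : ℕ) (hB : 1 ≤ B) (n : ℕ) : ∀ (f : List A → Fm α),
    (∀ w, w.length = n → (f w).size ≤ B) →
      (par al n f).size ≤ (8 * 2 ^ al.length) ^ n * B := by
  induction n with
  | zero => intro f h; simpa [par] using h [] rfl
  | succ n ih =>
    intro f h
    have h1 := size_xorl_le ((8 * 2 ^ al.length) ^ n * B)
      (al.map fun a => par al n (fun w => f (a :: w))) (by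
      intro x hx
      obtain ⟨a, _, rfl⟩ := List.mem_map.1 hx
      exact ih _ (fun w hw => h (a :: w) (by simp [hw])))
    rw [List.length_map] at h1
    rw [par]
    refine h1.trans ?_
    set X := (8 * 2 ^ al.length) ^ n * B with hX
    have hX1 : 1 ≤ X := Nat.mul_pos (Nat.pow_pos (by positivity)) (by omega)
    have e : (8 * 2 ^ al.length) ^ (n + 1) * B = 2 ^ al.length * (8 * X) := by
      rw [hX, pow_succ]; ring
    rw [e]
    exact Nat.mul_le_mul_left _ (by omega)

/-- The parity over all extensions of the prefix `u`. -/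
def lvl (al : List A) (N : ℕ) (f : List A → Fm α) (u : List A) : Fm α :=
  par al (N - u.length) (fun w => f (u ++ w))

theorem lvl_nil (al : List A) (N : ℕ) (f : List A → Fm α) : lvl al N f [] = par al N f := rfl

theorem lvl_full (al : List A) (N : ℕ) (f : List A → Fm α) (u : List A) (hu : u.length = N) :
    lvl al N f u = f u := by
  simp [lvl, hu, par]

theorem lvl_step (al : List A) (N : ℕ) (f : List A → Fm α) (u : List A) (hu : u.length < N) :
    lvl al N f u = xorl (al.map fun a => lvl al N f (u ++ [a])) := by
  obtain ⟨k, hk⟩ : ∃ k, N - u.length = k + 1 := ⟨N - u.length - 1, by omega⟩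
  unfold lvl
  rw [hk, par]
  congr 1
  refine List.map_congr_left fun a _ => ?_
  have : N - (u ++ [a]).length = k := by rw [List.length_append]; simp; omega
  rw [this]
  simp

theorem size_lvl_le (al : List A) (B : ℕ) (hB : 1 ≤ B) (N : ℕ) (f : List A → Fm α)
    (hf : ∀ w, w.length = N → (f w).size ≤ B) (u : List A) (hu : u.length ≤ N) :
    (lvl al N f u).size ≤ (8 * 2 ^ al.length) ^ N * B := by
  refine (size_par_le al B hB _ _ (fun w hw => hf _ (by rw [List.length_append]; omega))).trans ?_
  refine Nat.mul_le_mul_right _ (Nat.pow_le_pow_right (by positivity) (by omega))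

/-- The general descent. -/
theorem Can.descend (hS : F.K * (t + 1) ≤ S) (al : List A) (hs : List (List A → Fm α)) (N : ℕ)
    (hstep : ∀ h ∈ hs, ∀ u : List A, u.length < N → (∀ a ∈ u, a ∈ al) →
      ∃ l : List (Fm α), l.Perm (al.map fun a => h (u ++ [a])) ∧ h u = xorl l)
    (hsz : ∀ h ∈ hs, ∀ u : List A, u.length ≤ N → (h u).size ≤ t) (k : ℕ) :
    ∀ (u : List A) (Γ : Set (Fm α)) (val : Fm α → Bool), k ≤ N → u.length = N - k →
      (∀ a ∈ u, a ∈ al) → (∀ h ∈ hs, sg (val (h u)) (h u) ∈ Γ) →
      xorB (hs.map fun h => val (h u)) = true →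
      Can F t S (k * (hs.length * al.length + al.length)) Γ (fun Δ => ∃ w : List A,
        w.length = N ∧ (∀ a ∈ w, a ∈ al) ∧ ∃ val' : Fm α → Bool,
          (∀ h ∈ hs, sg (val' (h w)) (h w) ∈ Δ) ∧ xorB (hs.map fun h => val' (h w)) = true) := by
  induction k with
  | zero =>
    intro u Γ val _ hu hua hval hx
    exact (Can.ret ⟨u, by omega, hua, val, hval, hx⟩).weaken (by omega)
  | succ k ih =>
    intro u Γ val hk hu hua hval hx
    have e : (k + 1) * (hs.length * al.length + al.length) =
      hs.length * al.length + (al.length + k * (hs.length * al.length + al.length)) := by ring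
    rw [e]
    have hlen : (hs.flatMap fun h => al.map fun a => h (u ++ [a])).length =
        hs.length * al.length := by
      clear * -
      induction hs with
      | nil => simp
      | cons h hs ih => simp only [List.flatMap_cons, List.length_append, ih, List.length_map,
          List.length_cons]; ring
    refine Can.bind ((Can.queryAll (hs.flatMap fun h => al.map fun a => h (u ++ [a]))
      ?_).weaken (le_of_eq hlen)) ?_
    · intro φ hφ
      obtain ⟨h, hh, hφ⟩ := List.mem_flatMap.1 hφ
      obtain ⟨a, _, rfl⟩ := List.mem_map.1 hφ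
      exact hsz h hh _ (by rw [List.length_append]; simp; omega)
    rintro Δ hΔ ⟨val', hval'⟩
    have hv : ∀ h ∈ hs, ∀ a ∈ al, sg (val' (h (u ++ [a]))) (h (u ++ [a])) ∈ Δ := by
      intro h hh a ha
      exact hval' _ (List.mem_flatMap.2 ⟨h, hh, List.mem_map.2 ⟨a, ha, rfl⟩⟩)
    by_cases H : ∀ h ∈ hs, xorB (al.map fun a => val' (h (u ++ [a]))) = val (h u)
    · have h1 : xorB (hs.map fun h => xorB (al.map fun a => val' (h (u ++ [a])))) = true := by
        rw [← hx]
        congr 1
        exact List.map_congr_left H
      rw [xorB_exchange] at h1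
      obtain ⟨a, ha, h2⟩ := xorB_exists h1
      refine (ih (u ++ [a]) Δ val' (by omega) (by rw [List.length_append]; simp; omega) ?_
        (fun h hh => hv h hh a ha) h2).weaken (by omega)
      intro b hb
      rcases List.mem_append.1 hb with hb | hb
      · exact hua b hb
      · simp only [List.mem_cons, List.not_mem_nil, or_false] at hb; subst hb; exact ha
    · push Not at H
      obtain ⟨h, hh, hne⟩ := H
      obtain ⟨l, hl1, hl2⟩ := hstep h hh u (by omega) hua
      have h3 := hΔ (hval h hh)
      rw [hl2] at h3
      have hll : l.length = al.length := by rw [hl1.length_eq, List.length_map]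
      refine (Can.xorl_eval hS val' l Δ (val (h u)) ?_ (by rw [hl2]; exact h3) ?_).weaken
        (by omega)
      · intro φ hφ
        obtain ⟨a, ha, rfl⟩ := List.mem_map.1 (hl1.mem_iff.1 hφ)
        exact hv h hh a ha
      · rw [xorB_perm (hl1.map val'), List.map_map]
        exact fun h' => hne h'.symm

/-- A parity of `⊥`s is false. -/
theorem Can.par_bot (hS : F.K * (t + 1) ≤ S) (al : List A) (N : ℕ) (f : List A → Fm α)
    (hf : ∀ w, f w = .bot) (hsz : ∀ u, u.length ≤ N → (lvl al N f u).size ≤ t)
    (h : par al N f ∈ Γ) :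
    Can F t S (N * (2 * al.length)) Γ Q := by
  have := Can.descend (F := F) (t := t) (S := S) hS al [lvl al N f] N
    (by
      intro h hh u hu _
      simp only [List.mem_cons, List.not_mem_nil, or_false] at hh
      subst hh
      exact ⟨_, List.Perm.refl _, lvl_step al N f u hu⟩)
    (by
      intro h hh u hu
      simp only [List.mem_cons, List.not_mem_nil, or_false] at hh
      subst hh
      exact hsz u hu)
    N [] Γ (fun _ => true) le_rfl (by simp) (by simp)
    (by
      intro h' hh
      simp only [List.mem_cons, List.not_mem_nil, or_false] at hh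
      subst hh
      exact h) (by simp)
  refine Can.weaken (c := N * (1 * al.length + al.length) + 0) ?_ (le_of_eq (by ring))
  refine this.bind ?_
  rintro Δ hΔ ⟨w, hw, _, val', h1, h2⟩
  have h3 := h1 (lvl al N f) (by simp)
  simp only [List.map_cons, List.map_nil, xorB_cons, xorB_nil, Bool.xor_false] at h2
  rw [h2, lvl_full al N f w hw, hf] at h3
  exact Can.close_bot hS h3

/-- Cancellation by swapping two neighbouring letters. -/
theorem Can.par_swap (hS : F.K * (t + 1) ≤ S) (al : List A) (N i : ℕ) (hi : i + 2 ≤ N)
    (f : List A → Fm α)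
    (hsw : ∀ (u : List A) (a b : A) (v : List A), u.length = i →
      f (u ++ a :: b :: v) = f (u ++ b :: a :: v))
    (hdg : ∀ (u : List A) (a : A) (v : List A), u.length = i → f (u ++ a :: a :: v) = .bot)
    (hsz : ∀ u, u.length ≤ N → (lvl al N f u).size ≤ t)
    (hsz0 : ∀ n ≤ N, ∀ u, u.length ≤ n → (lvl al n (fun _ => (.bot : Fm α)) u).size ≤ t)
    (h : par al N f ∈ Γ) :
    Can F t S (N * (2 * al.length) + (al.length * al.length + 3 * al.length + N * (2 * al.length)))
      Γ Q := by
  have h0 := Can.descend (F := F) (t := t) (S := S) hS al [lvl al N f] i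
    (by
      intro h hh u hu _
      simp only [List.mem_cons, List.not_mem_nil, or_false] at hh
      subst hh
      exact ⟨_, List.Perm.refl _, lvl_step al N f u (by omega)⟩)
    (by
      intro h hh u hu
      simp only [List.mem_cons, List.not_mem_nil, or_false] at hh
      subst hh
      exact hsz u (by omega))
    i [] Γ (fun _ => true) le_rfl (by simp) (by simp)
    (by
      intro h' hh
      simp only [List.mem_cons, List.not_mem_nil, or_false] at hh
      subst hh
      exact h) (by simp)
  have hc : i * (1 * al.length + al.length) ≤ N * (2 * al.length) := by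
    have : 1 * al.length + al.length = 2 * al.length := by ring
    rw [this]
    exact Nat.mul_le_mul_right _ (by omega)
  refine Can.bind (h0.weaken hc) ?_
  rintro Δ hΔ ⟨u, hu, hua, val, h1, h2⟩
  simp only [List.map_cons, List.map_nil, xorB_cons, xorB_nil, Bool.xor_false] at h2
  have h3 := h1 (lvl al N f) (by simp)
  rw [h2] at h3
  rw [lvl_step al N f u (by omega)] at h3
  -- the formulas for two more letters
  set L2 : List (Fm α) := al.flatMap fun a => al.map fun b => lvl al N f (u ++ [a] ++ [b]) with hL2
  set L1 : List (Fm α) := al.map fun a => lvl al N f (u ++ [a]) with hL1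
  have hL2len : L2.length = al.length * al.length := by
    rw [hL2]; simp
  have hlen : (L1 ++ L2).length = al.length + al.length * al.length := by
    rw [List.length_append, hL2len, hL1, List.length_map]
  refine Can.weaken (c := (al.length + al.length * al.length) +
    (al.length + N * (2 * al.length))) ?_ (by omega)
  rw [← hlen]
  refine (Can.queryAll (L1 ++ L2) ?_).bind ?_
  · intro φ hφ
    rcases List.mem_append.1 hφ with hφ | hφ
    · obtain ⟨a, _, rfl⟩ := List.mem_map.1 hφ
      exact hsz _ (by rw [List.length_append, List.length_singleton]; omega)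
    · obtain ⟨a, _, hφ⟩ := List.mem_flatMap.1 hφ
      obtain ⟨b, _, rfl⟩ := List.mem_map.1 hφ
      exact hsz _ (by simp only [List.length_append, List.length_singleton]; omega)
  rintro Δ' hΔ' ⟨val', hval'⟩
  have hv1 : ∀ φ ∈ L1, sg (val' φ) φ ∈ Δ' := fun φ hφ => hval' φ (by simp [hφ])
  have hv2 : ∀ φ ∈ L2, sg (val' φ) φ ∈ Δ' := fun φ hφ => hval' φ (by simp [hφ])
  have hv2' : ∀ a ∈ al, ∀ b ∈ al, sg (val' (lvl al N f (u ++ [a] ++ [b])))
      (lvl al N f (u ++ [a] ++ [b])) ∈ Δ' := fun a ha b hb =>
    hv2 _ (List.mem_flatMap.2 ⟨a, ha, List.mem_map.2 ⟨b, hb, rfl⟩⟩)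
  by_cases H1 : xorB (L1.map val') = true
  swap
  · exact (Can.xorl_eval hS val' L1 Δ' true hv1 (hΔ' h3) (fun h => H1 h.symm)).weaken
      (by rw [hL1, List.length_map]; omega)
  by_cases H2 : ∀ a ∈ al, xorB (al.map fun b => val' (lvl al N f (u ++ [a] ++ [b]))) =
      val' (lvl al N f (u ++ [a]))
  swap
  · push Not at H2
    obtain ⟨a, ha, hne⟩ := H2
    have h4 := hv1 _ (List.mem_map.2 ⟨a, ha, rfl⟩)
    have e4 := lvl_step al N f (u ++ [a]) (by rw [List.length_append]; simp; omega)
    generalize val' (lvl al N f (u ++ [a])) = c at h4 hne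
    rw [e4] at h4
    refine (Can.xorl_eval hS val' _ Δ' c ?_ h4 ?_).weaken (by rw [List.length_map]; omega)
    · intro φ hφ
      obtain ⟨b, hb, rfl⟩ := List.mem_map.1 hφ
      exact hv2' a ha b hb
    · rw [List.map_map]
      exact fun h' => hne h'.symm
  by_cases H3 : ∀ a ∈ al, val' (lvl al N f (u ++ [a] ++ [a])) = false
  swap
  · push Not at H3
    obtain ⟨a, ha, hne⟩ := H3
    have h4 := hv2' a ha a ha
    rw [show val' (lvl al N f (u ++ [a] ++ [a])) = true by simpa using hne] at h4
    have e5 : lvl al N f (u ++ [a] ++ [a]) = par al (N - (i + 2)) (fun _ => .bot) := by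
      unfold lvl
      congr 1
      · simp only [List.length_append, List.length_cons, List.length_nil]; omega
      · funext w
        have := hdg u a w hu
        simpa using this
    rw [sg_true, e5] at h4
    refine (Can.par_bot hS al (N - (i + 2)) (fun _ => .bot) (fun _ => rfl)
      (hsz0 (N - (i + 2)) (by omega)) h4).weaken ?_
    have : (N - (i + 2)) * (2 * al.length) ≤ N * (2 * al.length) :=
      Nat.mul_le_mul_right _ (by omega)
    omega
  exfalso
  have h5 : xorB (al.map fun a => xorB (al.map fun b => val' (lvl al N f (u ++ [a] ++ [b])))) =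
      true := by
    rw [← H1, hL1, List.map_map]
    congr 1
    exact List.map_congr_left H2
  rw [xorB_symm al (fun a b => val' (lvl al N f (u ++ [a] ++ [b]))) ?_ H3] at h5
  · exact absurd h5 (by simp)
  · intro a _ b _
    have : lvl al N f (u ++ [a] ++ [b]) = lvl al N f (u ++ [b] ++ [a]) := by
      unfold lvl
      have hl : (u ++ [a] ++ [b]).length = (u ++ [b] ++ [a]).length := by simp
      rw [hl]
      congr 1
      funext w
      simpa using hsw u a b w hu
    rw [this]

end FregeEF
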