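import Pool.Agent.Work.MP_c07f0d_lc.Sel
import Pool.Agent.Work.MP_c07f0d_lc.BranchDefs

/-!
# Solving a system of extension axioms along a branch decomposition
-/

namespace FregeEF

variable {F : FregeSystem} {t S : ℕ}

/-- All truth assignments that agree with `v` outside of `I`. -/
def assigns : List ℕ → (ℕ → Bool) → List (ℕ → Bool)
  | [], v => [v]
  | x :: I, v => assigns I (Function.update v x true) ++ assigns I (Function.update v x false)

theorem length_assigns (I : List ℕ) (v : ℕ → Bool) : (assigns I v).length = 2 ^ I.length := by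
  induction I generalizing v with
  | nil => simp [assigns]
  | cons x I ih => simp only [assigns, List.length_append, ih, List.length_cons, pow_succ]; ring

theorem mem_assigns (I : List ℕ) (v v' : ℕ → Bool) :
    v' ∈ assigns I v ↔ ∀ x, x ∉ I → v' x = v x := by
  induction I generalizing v with
  | nil =>
    simp only [assigns, List.mem_cons, List.not_mem_nil, or_false, not_false_eq_true,
      forall_const]
    exact ⟨fun h x => by rw [h], fun h => funext h⟩
  | cons y I ih =>
    simp only [assigns, List.mem_append, ih]
    constructor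
    · rintro (h | h) x hx
      · rw [h x (fun h' => hx (List.mem_cons_of_mem _ h'))]
        rw [Function.update_of_ne]
        rintro rfl; exact hx (List.mem_cons_self ..)
      · rw [h x (fun h' => hx (List.mem_cons_of_mem _ h'))]
        rw [Function.update_of_ne]
        rintro rfl; exact hx (List.mem_cons_self ..)
    · intro h
      cases hb : v' y
      · right
        intro x hx
        by_cases hxy : x = y
        · subst hxy; rw [Function.update_self, hb]
        · rw [Function.update_of_ne hxy]
          exact h x (fun h' => (List.mem_cons.1 h').elim hxy hx)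
      · left
        intro x hx
        by_cases hxy : x = y
        · subst hxy; rw [Function.update_self, hb]
        · rw [Function.update_of_ne hxy]
          exact h x (fun h' => (List.mem_cons.1 h').elim hxy hx)

theorem assigns_update (I : List ℕ) (v : ℕ → Bool) (q : ℕ) (b : Bool) (hq : q ∉ I) :
    assigns I (Function.update v q b) = (assigns I v).map fun u => Function.update u q b := by
  induction I generalizing v with
  | nil => simp [assigns]
  | cons y I ih =>
    have hqy : q ≠ y := fun h => hq (by simp [h])
    have hqI : q ∉ I := fun h => hq (by simp [h])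
    simp only [assigns, List.map_append]
    rw [Function.update_comm hqy, Function.update_comm hqy, ih _ hqI, ih _ hqI]

/-- Instantiation of the extension variables by truth constants. -/
noncomputable def inst (Q : Finset ℕ) (v : ℕ → Bool) (φ : Fm ℕ) : Fm ℕ :=
  φ.subst (fun x => if x ∈ Q then cst (v x) else .var x)

/-- The constraint given by the axiom `a`, if it is active. -/
noncomputable def KC (Q : Finset ℕ) (A : List (ℕ × Fm ℕ)) (a : ℕ × Fm ℕ) (v : ℕ → Bool) : Fm ℕ :=
  if a ∈ A then sg (v a.1) (inst Q v a.2) else .neg .bot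

/-- The variables that are internal to a leaf. -/
noncomputable def inLeaf (Q : Finset ℕ) (a : ℕ × Fm ℕ) (out : List (ℕ × Fm ℕ)) : List ℕ :=
  (lv Q [a] \ lv Q out).toList

/-- The variables that are chosen at a node. -/
noncomputable def inNode (Q : Finset ℕ) (l r : BTree) (out : List (ℕ × Fm ℕ)) : List ℕ :=
  ((lv Q l.leaves ∩ lv Q r.leaves) \ lv Q out).toList

/-- The system of active constraints in the tree has a solution that extends `v`. -/
noncomputable def Sat (Q : Finset ℕ) (A : List (ℕ × Fm ℕ)) :
    BTree → List (ℕ × Fm ℕ) → (ℕ → Bool) → Fm ℕ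
  | .leaf a, out, v => bigOr ((assigns (inLeaf Q a out) v).map (KC Q A a))
  | .node l r, out, v => bigOr ((assigns (inNode Q l r out) v).map
      fun v' => .and (Sat Q A l (r.leaves ++ out) v') (Sat Q A r (l.leaves ++ out) v'))

theorem lv_append (Q : Finset ℕ) (l l' : List (ℕ × Fm ℕ)) : lv Q (l ++ l') = lv Q l ∪ lv Q l' := by
  ext x
  simp only [lv, Finset.mem_filter, List.mem_append, Finset.mem_union]
  constructor
  · rintro ⟨hx, a, ha | ha, h⟩
    · exact Or.inl ⟨hx, a, ha, h⟩
    · exact Or.inr ⟨hx, a, ha, h⟩
  · rintro (⟨hx, a, ha, h⟩ | ⟨hx, a, ha, h⟩)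
    · exact ⟨hx, a, Or.inl ha, h⟩
    · exact ⟨hx, a, Or.inr ha, h⟩

theorem mem_lv {Q : Finset ℕ} {l : List (ℕ × Fm ℕ)} {x : ℕ} :
    x ∈ lv Q l ↔ x ∈ Q ∧ ∃ a ∈ l, a.1 = x ∨ a.2.Occurs x := by
  simp [lv]

theorem inst_update {Q : Finset ℕ} {v : ℕ → Bool} {φ : Fm ℕ} {q : ℕ} {b : Bool}
    (h : ¬ φ.Occurs q) : inst Q (Function.update v q b) φ = inst Q v φ := by
  refine Fm.subst_congr fun x hx => ?_
  have : x ≠ q := by rintro rfl; exact h hx
  rw [Function.update_of_ne this]

/-- Off the new axiom, the two systems have syntactically equal formulas. -/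
theorem Sat_update {Q : Finset ℕ} {A : List (ℕ × Fm ℕ)} {q : ℕ} {φ : Fm ℕ} (hq : q ∈ Q)
    (hA : ∀ a ∈ A, a.1 ≠ q ∧ ¬ a.2.Occurs q) (b : Bool) :
    ∀ (T : BTree) (out : List (ℕ × Fm ℕ)) (v : ℕ → Bool), (q, φ) ∈ out → (q, φ) ∉ T.leaves →
      Sat Q ((q, φ) :: A) T out (Function.update v q b) = Sat Q A T out v := by
  intro T
  induction T with
  | leaf a =>
    intro out v hout hT
    have hqo : q ∈ lv Q out := mem_lv.2 ⟨hq, _, hout, Or.inl rfl⟩
    have hqI : q ∉ inLeaf Q a out := by simp [inLeaf, hqo]
    have ha : a ≠ (q, φ) := by rintro rfl; exact hT (by simp [BTree.leaves])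
    rw [Sat, Sat, assigns_update _ _ _ _ hqI, List.map_map]
    congr 1
    refine List.map_congr_left fun u _ => ?_
    simp only [Function.comp, KC, List.mem_cons, ha, false_or]
    by_cases haA : a ∈ A
    · simp only [haA, if_true]
      rw [inst_update (hA a haA).2, Function.update_of_ne (hA a haA).1]
    · simp [haA]
  | node l r ihl ihr =>
    intro out v hout hT
    have hqo : q ∈ lv Q out := mem_lv.2 ⟨hq, _, hout, Or.inl rfl⟩
    have hqI : q ∉ inNode Q l r out := by simp [inNode, hqo]
    have hl : (q, φ) ∉ l.leaves := fun h => hT (by simp [BTree.leaves, h])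
    have hr : (q, φ) ∉ r.leaves := fun h => hT (by simp [BTree.leaves, h])
    rw [Sat, Sat, assigns_update _ _ _ _ hqI, List.map_map]
    congr 1
    refine List.map_congr_left fun u _ => ?_
    simp only [Function.comp]
    rw [ihl _ u (by simp [hout]) hl, ihr _ u (by simp [hout]) hr]

theorem assigns_update_mem (I : List ℕ) (v : ℕ → Bool) (q : ℕ) (b : Bool) (hq : q ∈ I) :
    assigns I (Function.update v q b) = assigns I v := by
  induction I generalizing v with
  | nil => simp at hq
  | cons y I ih =>
    simp only [assigns]
    by_cases hqy : q = y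
    · subst hqy
      rw [Function.update_idem, Function.update_idem]
    · have hqI : q ∈ I := (List.mem_cons.1 hq).resolve_left hqy
      rw [Function.update_comm hqy, Function.update_comm hqy, ih _ hqI, ih _ hqI]

/-- `Sat` depends only on the assignment to variables that occur both inside and outside. -/
theorem Sat_congr {Q : Finset ℕ} {A : List (ℕ × Fm ℕ)} {q : ℕ} (hq : q ∈ Q) (b : Bool) :
    ∀ (T : BTree) (out : List (ℕ × Fm ℕ)) (v : ℕ → Bool),
      (q ∈ lv Q T.leaves → q ∉ lv Q out) →
      Sat Q A T out (Function.update v q b) = Sat Q A T out v := by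
  intro T
  induction T with
  | leaf a =>
    intro out v h
    by_cases hqa : q ∈ lv Q [a]
    · have hqI : q ∈ inLeaf Q a out := by
        simp only [inLeaf, Finset.mem_toList, Finset.mem_sdiff]
        exact ⟨hqa, h hqa⟩
      rw [Sat, Sat, assigns_update_mem _ _ _ _ hqI]
    · have hqI : q ∉ inLeaf Q a out := by simp [inLeaf, hqa]
      rw [Sat, Sat, assigns_update _ _ _ _ hqI, List.map_map]
      congr 1
      refine List.map_congr_left fun u _ => ?_
      have h1 : a.1 ≠ q := fun h' => hqa (mem_lv.2 ⟨hq, a, by simp, Or.inl h'⟩)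
      have h2 : ¬ a.2.Occurs q := fun h' => hqa (mem_lv.2 ⟨hq, a, by simp, Or.inr h'⟩)
      simp only [Function.comp, KC]
      rw [inst_update h2, Function.update_of_ne h1]
  | node l r ihl ihr =>
    intro out v h
    have h' : q ∈ lv Q l.leaves ∨ q ∈ lv Q r.leaves → q ∉ lv Q out := by
      intro h0
      refine h ?_
      rw [BTree.leaves, lv_append, Finset.mem_union]
      exact h0
    by_cases hqI : q ∈ inNode Q l r out
    · rw [Sat, Sat, assigns_update_mem _ _ _ _ hqI]
    · rw [Sat, Sat, assigns_update _ _ _ _ hqI, List.map_map]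
      congr 1
      refine List.map_congr_left fun u _ => ?_
      simp only [inNode, Finset.mem_toList, Finset.mem_sdiff, Finset.mem_inter, not_and,
        not_not] at hqI
      simp only [Function.comp]
      rw [ihl, ihr]
      · intro hr hro
        rw [lv_append, Finset.mem_union] at hro
        rcases hro with hro | hro
        · exact h' (Or.inl hro) (hqI ⟨hro, hr⟩)
        · exact h' (Or.inr hr) hro
      · intro hl hlo
        rw [lv_append, Finset.mem_union] at hlo
        rcases hlo with hlo | hlo
        · exact h' (Or.inl hl) (hqI ⟨hl, hlo⟩)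
        · exact h' (Or.inl hl) hlo

end FregeEF
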