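import Pool.Agent.Work.MP_c07f0d_lc.Game

/-!
# Signed formulas, truth constants, decision lists
-/

namespace FregeEF

variable {α β γ : Type} {F : FregeSystem} {t S : ℕ}
variable {Q : Set (Fm α) → Prop} {Γ : Set (Fm α)}

/-- Truth constants. -/
def cst (b : Bool) : Fm α := if b then .neg .bot else .bot

/-- Signed formulas. -/
def sg (b : Bool) (φ : Fm α) : Fm α := if b then φ else .neg φ

@[simp] theorem sg_true (φ : Fm α) : sg true φ = φ := rfl
@[simp] theorem sg_false (φ : Fm α) : sg false φ = .neg φ := rfl
@[simp] theorem cst_true : (cst true : Fm α) = .neg .bot := rfl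
@[simp] theorem cst_false : (cst false : Fm α) = .bot := rfl

theorem size_cst_le (b : Bool) : (cst b : Fm α).size ≤ 2 := by
  cases b <;> simp [Fm.size]

theorem size_sg_le (b : Bool) (φ : Fm α) : (sg b φ).size ≤ φ.size + 1 := by
  cases b <;> simp [Fm.size]

theorem le_size_sg (b : Bool) (φ : Fm α) : φ.size ≤ (sg b φ).size := by
  cases b <;> simp [Fm.size]

theorem Can.sgQuery (φ : Fm α) (hφ : φ.size ≤ t) :
    Can F t S 1 Γ (fun Δ => ∃ b, sg b φ ∈ Δ) := by
  refine (Can.query φ hφ).mono le_rfl ?_
  rintro Δ _ (h | h)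
  · exact ⟨true, h⟩
  · exact ⟨false, h⟩

theorem Can.sgQuerySub (φ ψ : Fm α) (hψ : ψ ∈ Γ) (h : φ.size + 1 ≤ ψ.size) :
    Can F t S 1 Γ (fun Δ => ∃ b, sg b φ ∈ Δ) := by
  refine (Can.querySub φ ψ hψ h).mono le_rfl ?_
  rintro Δ _ (h | h)
  · exact ⟨true, h⟩
  · exact ⟨false, h⟩

theorem Can.sgClose (hS : F.K * (t + 1) ≤ S) {φ : Fm α} {b c : Bool} (hbc : b ≠ c)
    (h1 : sg b φ ∈ Γ) (h2 : sg c φ ∈ Γ) : Can F t S 0 Γ Q := by
  cases b <;> cases c
  · exact absurd rfl hbc
  · exact Can.close_neg hS φ h2 h1
  · exact Can.close_neg hS φ h1 h2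
  · exact absurd rfl hbc

theorem Can.cstClose (hS : F.K * (t + 1) ≤ S) {b c : Bool} (hbc : b ≠ c)
    (h1 : sg b (cst c : Fm α) ∈ Γ) : Can F t S 1 Γ Q := by
  cases b <;> cases c
  · exact absurd rfl hbc
  · refine Can.bind (c1 := 1) (c2 := 0) (Can.querySub (.bot : Fm α) _ h1 (by simp [Fm.size])) ?_
    rintro Δ hΔ (h | h)
    · exact Can.close_bot hS h
    · exact Can.close_neg hS (.neg .bot) h (hΔ h1)
  · exact (Can.close_bot hS h1).weaken (by omega)
  · exact absurd rfl hbc

/-- Decision list: the value of `g` at the last index whose body is true. -/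
def sel {ι : Type} (body g : ι → Fm α) : List ι → Fm α
  | [] => .bot
  | i :: rest => .or (.and (bigOr (rest.map body)) (sel body g rest))
      (.and (.neg (bigOr (rest.map body))) (g i))

theorem size_sel_drop_le {ι : Type} (body g : ι → Fm α) (l : List ι) (i : ℕ) :
    (sel body g (l.drop i)).size ≤ (sel body g l).size := by
  induction l generalizing i with
  | nil => simp
  | cons a l ih =>
    cases i with
    | zero => simp
    | succ i =>
      have := ih i
      simp only [List.drop_succ_cons, sel, Fm.size]
      omega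

theorem size_sel_drop_lt {ι : Type} (body g : ι → Fm α) (l : List ι) (i : ℕ) (hi : 0 < i)
    (hl : l ≠ []) : (sel body g (l.drop i)).size + 1 ≤ (sel body g l).size := by
  obtain ⟨k, rfl⟩ : ∃ k, i = k + 1 := ⟨i - 1, by omega⟩
  cases l with
  | nil => exact absurd rfl hl
  | cons a l =>
    have := size_sel_drop_le body g l k
    simp only [List.drop_succ_cons, sel, Fm.size]
    omega

theorem size_sel_le {ι : Type} (body g : ι → Fm α) (B G : ℕ) (l : List ι)
    (h : ∀ i ∈ l, (body i).size ≤ B) (hg : ∀ i ∈ l, (g i).size ≤ G) :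
    (sel body g l).size ≤ l.length * (2 * (l.length * (B + 1) + 1) + G + 4) + 1 := by
  induction l with
  | nil => simp [sel, Fm.size]
  | cons a l ih =>
    have h1 := size_bigOr_le B (l.map body) (by
      intro x hx
      obtain ⟨i, hi, rfl⟩ := List.mem_map.1 hx
      exact h i (by simp [hi]))
    have h2 := hg a (by simp)
    have h3 := ih (fun x hx => h x (by simp [hx])) (fun x hx => hg x (by simp [hx]))
    rw [List.length_map] at h1
    simp only [sel, Fm.size, List.length_cons]
    have h4 : l.length * (2 * (l.length * (B + 1) + 1) + G + 4) ≤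
        l.length * (2 * ((l.length + 1) * (B + 1) + 1) + G + 4) :=
      Nat.mul_le_mul_left _ (by nlinarith)
    have h5 : l.length * (B + 1) ≤ (l.length + 1) * (B + 1) := Nat.mul_le_mul_right _ (by omega)
    have h6 : (l.length + 1) * (2 * ((l.length + 1) * (B + 1) + 1) + G + 4) =
      l.length * (2 * ((l.length + 1) * (B + 1) + 1) + G + 4) +
        (2 * ((l.length + 1) * (B + 1) + 1) + G + 4) := by ring
    rw [h6]
    omega

theorem Can.close_sel_true (hS : F.K * (t + 1) ≤ S) (D X g : Fm α) (b c : Bool) (hbc : b ≠ c)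
    (h1 : sg b (.or (.and D X) (.and (.neg D) g)) ∈ Γ) (h2 : D ∈ Γ) (h3 : sg c X ∈ Γ) :
    Can F t S 0 Γ Q := by
  cases b <;> cases c
  · exact absurd rfl hbc
  · exact Can.close [.neg (.or (.and (.var 0) (.var 1)) (.and (.neg (.var 0)) (.var 2))), .var 0,
      .var 1] [D, X, g] hS (by decide) (by intro v h; exact h.1 (Or.inl ⟨h.2.1, h.2.2.1⟩))
      (by
        intro p hp
        simp only [List.mem_cons, List.not_mem_nil, or_false] at hp
        rcases hp with rfl | rfl | rfl
        · exact h1
        · exact h2
        · exact h3)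
      (by
        intro h x hx
        have := h _ (List.mem_cons_self ..)
        change Fm.size (.neg (.or (.and D X) (.and (.neg D) g))) ≤ _ at this
        simp only [Fm.size] at this
        simp only [List.mem_cons, List.not_mem_nil, or_false] at hx
        rcases hx with rfl | rfl | rfl <;> omega)
  · exact Can.close [(.or (.and (.var 0) (.var 1)) (.and (.neg (.var 0)) (.var 2))), .var 0,
      .neg (.var 1)] [D, X, g] hS (by decide)
      (by
        intro v h
        rcases h.1 with h' | h'
        · exact h.2.2.1 h'.2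
        · exact h'.1 h.2.1)
      (by
        intro p hp
        simp only [List.mem_cons, List.not_mem_nil, or_false] at hp
        rcases hp with rfl | rfl | rfl
        · exact h1
        · exact h2
        · exact h3)
      (by
        intro h x hx
        have := h _ (List.mem_cons_self ..)
        change Fm.size ((.or (.and D X) (.and (.neg D) g))) ≤ _ at this
        simp only [Fm.size] at this
        simp only [List.mem_cons, List.not_mem_nil, or_false] at hx
        rcases hx with rfl | rfl | rfl <;> omega)
  · exact absurd rfl hbc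

theorem Can.close_sel_false (hS : F.K * (t + 1) ≤ S) (D X g : Fm α) (b c : Bool) (hbc : b ≠ c)
    (h1 : sg b (.or (.and D X) (.and (.neg D) g)) ∈ Γ) (h2 : Fm.neg D ∈ Γ) (h3 : sg c g ∈ Γ) :
    Can F t S 0 Γ Q := by
  cases b <;> cases c
  · exact absurd rfl hbc
  · exact Can.close [.neg (.or (.and (.var 0) (.var 1)) (.and (.neg (.var 0)) (.var 2))),
      .neg (.var 0), .var 2] [D, X, g] hS (by decide)
      (by intro v h; exact h.1 (Or.inr ⟨h.2.1, h.2.2.1⟩))
      (by
        intro p hp
        simp only [List.mem_cons, List.not_mem_nil, or_false] at hp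
        rcases hp with rfl | rfl | rfl
        · exact h1
        · exact h2
        · exact h3)
      (by
        intro h x hx
        have := h _ (List.mem_cons_self ..)
        change Fm.size (.neg (.or (.and D X) (.and (.neg D) g))) ≤ _ at this
        simp only [Fm.size] at this
        simp only [List.mem_cons, List.not_mem_nil, or_false] at hx
        rcases hx with rfl | rfl | rfl <;> omega)
  · exact Can.close [(.or (.and (.var 0) (.var 1)) (.and (.neg (.var 0)) (.var 2))),
      .neg (.var 0), .neg (.var 2)] [D, X, g] hS (by decide)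
      (by
        intro v h
        rcases h.1 with h' | h'
        · exact h.2.1 h'.1
        · exact h.2.2.1 h'.2)
      (by
        intro p hp
        simp only [List.mem_cons, List.not_mem_nil, or_false] at hp
        rcases hp with rfl | rfl | rfl
        · exact h1
        · exact h2
        · exact h3)
      (by
        intro h x hx
        have := h _ (List.mem_cons_self ..)
        change Fm.size ((.or (.and D X) (.and (.neg D) g))) ≤ _ at this
        simp only [Fm.size] at this
        simp only [List.mem_cons, List.not_mem_nil, or_false] at hx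
        rcases hx with rfl | rfl | rfl <;> omega)
  · exact absurd rfl hbc

theorem sel_drop_eq {ι : Type} (body g : ι → Fm α) (l : List ι) (s : ℕ) (hs : s < l.length) :
    sel body g (l.drop s) = .or (.and (bigOr ((l.drop (s + 1)).map body))
      (sel body g (l.drop (s + 1)))) (.and (.neg (bigOr ((l.drop (s + 1)).map body))) (g l[s])) := by
  rw [List.drop_eq_getElem_cons hs]
  rfl

/-- Evaluation of a decision list. -/
theorem Can.sel_eval (hS : F.K * (t + 1) ≤ S) {ι : Type} (body g : ι → Fm α) (l : List ι) (m : ℕ)
    (hl : l.length ≤ 2 ^ m) (s : ℕ) (hs : s < l.length) (b : Bool)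
    (h1 : body l[s] ∈ Γ) (h2 : Fm.neg (bigOr ((l.drop (s + 1)).map body)) ∈ Γ)
    (h3 : sg b (sel body g l) ∈ Γ) :
    Can F t S (2 * m + 3) Γ (fun Δ => sg b (g l[s]) ∈ Δ) := by
  -- the final step at position `s`
  have final : ∀ Δ, Γ ⊆ Δ → sg b (sel body g (l.drop s)) ∈ Δ →
      Can F t S 1 Δ (fun Δ => sg b (g l[s]) ∈ Δ) := by
    intro Δ hΔ h4
    rw [sel_drop_eq body g l s hs] at h4
    refine Can.bind (c1 := 1) (c2 := 0) (Can.sgQuerySub (g l[s]) _ h4 ?_) ?_
    · have := le_size_sg b (.or (.and (bigOr ((l.drop (s + 1)).map body))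
        (sel body g (l.drop (s + 1)))) (.and (.neg (bigOr ((l.drop (s + 1)).map body))) (g l[s])))
      simp only [Fm.size] at this
      omega
    · rintro Δ' hΔ' ⟨c, h5⟩
      by_cases hbc : b = c
      · subst hbc; exact Can.ret h5
      · exact Can.close_sel_false hS _ _ _ b c hbc (hΔ' h4) (hΔ' (hΔ h2)) h5
  by_cases hs0 : s = 0
  · subst hs0
    exact (final Γ (fun _ h => h) (by simpa using h3)).weaken (by omega)
  have hl0 : l ≠ [] := by rintro rfl; simp at hs
  have hsz : (sel body g (l.drop s)).size + 1 ≤ (sg b (sel body g l)).size :=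
    (size_sel_drop_lt body g l s (by omega) hl0).trans (le_size_sg _ _)
  refine Can.weaken (c := 1 + (1 * m + (1 + (m + 1)))) ?_ (by omega)
  refine (Can.sgQuerySub (sel body g (l.drop s)) _ h3 hsz).bind ?_
  rintro Δ hΔ ⟨b', h4⟩
  by_cases hbb : b = b'
  · subst hbb
    exact (final Δ hΔ h4).weaken (by omega)
  · refine Can.bind (Can.bsearch (A := fun r Δ => sg b (sel body g (l.drop r)) ∈ Δ)
      (B := fun r Δ => sg b' (sel body g (l.drop r)) ∈ Δ) (fun _ _ _ h1 h2 => h1 h2)
      (fun _ _ _ h1 h2 => h1 h2) m Δ 0 s ?_ (by omega) (by omega) (by simpa using hΔ h3) h4) ?_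
    · intro r hr1 hr2 Δ' hΔ'
      refine (Can.sgQuerySub (sel body g (l.drop r)) _ (hΔ' (hΔ h3)) ?_).mono le_rfl ?_
      · exact (size_sel_drop_lt body g l r (by omega) hl0).trans (le_size_sg _ _)
      · rintro Δ'' _ ⟨c, h5⟩
        by_cases hbc : c = b
        · left; rw [← hbc]; exact h5
        · right
          have : c = b' := by cases b <;> cases b' <;> cases c <;> simp_all
          rw [← this]; exact h5
    · rintro Δ' hΔ' ⟨r, _, hr, h5, h6⟩
      have hr' : r < l.length := by omega
      have h5' : sg b (sel body g (l.drop r)) ∈ Δ' := h5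
      rw [sel_drop_eq body g l r hr'] at h5'
      refine (Can.querySub (bigOr ((l.drop (r + 1)).map body)) _ h5' ?_).bind ?_
      · have := le_size_sg b (.or (.and (bigOr ((l.drop (r + 1)).map body))
          (sel body g (l.drop (r + 1)))) (.and (.neg (bigOr ((l.drop (r + 1)).map body))) (g l[r])))
        simp only [Fm.size] at this
        omega
      · rintro Δ'' hΔ'' (h7 | h7)
        · exact (Can.close_sel_true hS _ _ _ b b' hbb (hΔ'' h5') h7 (hΔ'' h6)).weaken (by omega)
        · refine Can.refuteOr hS m ?_ h7 (body l[s]) ?_ (hΔ'' (hΔ' (hΔ h1)))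
          · rw [List.length_map, List.length_drop]; omega
          · refine List.mem_map_of_mem ?_
            rw [List.mem_iff_getElem]
            refine ⟨s - (r + 1), by rw [List.length_drop]; omega, ?_⟩
            rw [List.getElem_drop]
            congr 1
            omega

end FregeEF
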