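import Pool.Agent.Work.MP_c07f0d_lc.SubstEq

/-!
# Sizes of the formulas `Sat` and `val`, and widths
-/

namespace FregeEF

theorem size_inst_le (Q : Finset ℕ) (v : ℕ → Bool) (φ : Fm ℕ) : (inst Q v φ).size ≤ φ.size * 2 := by
  refine Fm.size_subst_le _ 2 (by omega) φ fun x _ => ?_
  by_cases hx : x ∈ Q
  · simp only [hx, if_true]; exact size_cst_le _
  · simp [hx, Fm.size]

theorem size_KC_le (Q : Finset ℕ) (A : List (ℕ × Fm ℕ)) (a : ℕ × Fm ℕ) (v : ℕ → Bool) {N : ℕ}
    (ha : a.2.size ≤ N) : (KC Q A a v).size ≤ 2 * N + 2 := by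
  unfold KC
  by_cases h : a ∈ A
  · simp only [h, if_true]
    have := size_sg_le (v a.1) (inst Q v a.2)
    have := size_inst_le Q v a.2
    omega
  · simp [h, Fm.size]

theorem BTree.leaves_length_pos (T : BTree) : 1 ≤ T.leaves.length := by
  induction T with
  | leaf a => simp [BTree.leaves]
  | node l r ihl ihr => simp only [BTree.leaves, List.length_append]; omega

theorem size_Sat_le {Q : Finset ℕ} {W N : ℕ} {A : List (ℕ × Fm ℕ)} :
    ∀ (T : BTree) (out : List (ℕ × Fm ℕ)) (v : ℕ → Bool), IntLE Q W T out →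
      (∀ a ∈ T.leaves, a.2.size ≤ N) →
      (Sat Q A T out v).size + 3 ≤ 2 ^ (W * (T.depth + 1)) * (T.leaves.length * (2 * N + 8)) := by
  intro T
  induction T with
  | leaf a =>
    intro out v hI hN
    have h1 := size_bigOr_le (2 * N + 2) ((assigns (inLeaf Q a out) v).map (KC Q A a)) (by
      intro x hx
      obtain ⟨y, _, rfl⟩ := List.mem_map.1 hx
      exact size_KC_le Q A a y (hN a (by simp [BTree.leaves])))
    rw [List.length_map, length_assigns] at h1
    have h2 : 2 ^ (inLeaf Q a out).length ≤ 2 ^ W := Nat.pow_le_pow_right (by omega) hI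
    rw [Sat]
    simp only [BTree.depth, BTree.leaves, List.length_cons, List.length_nil]
    have h3 : 2 ^ (inLeaf Q a out).length * (2 * N + 2 + 1) ≤ 2 ^ W * (2 * N + 2 + 1) :=
      Nat.mul_le_mul_right _ h2
    have h4 : 1 ≤ 2 ^ W := Nat.one_le_two_pow
    have e : W * (0 + 1) = W := by ring
    rw [e]
    nlinarith
  | node l r ihl ihr =>
    intro out v hI hN
    obtain ⟨hI1, hI2, hI3⟩ := hI
    have hNl : ∀ a ∈ l.leaves, a.2.size ≤ N := fun a ha => hN a (by simp [BTree.leaves, ha])
    have hNr : ∀ a ∈ r.leaves, a.2.size ≤ N := fun a ha => hN a (by simp [BTree.leaves, ha])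
    set h := max l.depth r.depth + 1 with hh
    have el : 2 ^ (W * (l.depth + 1)) ≤ 2 ^ (W * h) :=
      Nat.pow_le_pow_right (by omega) (Nat.mul_le_mul_left _ (by omega))
    have er : 2 ^ (W * (r.depth + 1)) ≤ 2 ^ (W * h) :=
      Nat.pow_le_pow_right (by omega) (Nat.mul_le_mul_left _ (by omega))
    have h1 := size_bigOr_le (2 ^ (W * h) * ((l.leaves.length + r.leaves.length) * (2 * N + 8)) - 5)
      ((assigns (inNode Q l r out) v).map
      fun v' => Fm.and (Sat Q A l (r.leaves ++ out) v') (Sat Q A r (l.leaves ++ out) v')) (by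
      intro x hx
      obtain ⟨y, _, rfl⟩ := List.mem_map.1 hx
      have h2 := ihl (r.leaves ++ out) y hI2 hNl
      have h3 := ihr (l.leaves ++ out) y hI3 hNr
      have h4 : 2 ^ (W * (l.depth + 1)) * (l.leaves.length * (2 * N + 8)) ≤
        2 ^ (W * h) * (l.leaves.length * (2 * N + 8)) := Nat.mul_le_mul_right _ el
      have h5 : 2 ^ (W * (r.depth + 1)) * (r.leaves.length * (2 * N + 8)) ≤
        2 ^ (W * h) * (r.leaves.length * (2 * N + 8)) := Nat.mul_le_mul_right _ er
      have e : 2 ^ (W * h) * ((l.leaves.length + r.leaves.length) * (2 * N + 8)) =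
        2 ^ (W * h) * (l.leaves.length * (2 * N + 8)) +
        2 ^ (W * h) * (r.leaves.length * (2 * N + 8)) := by ring
      simp only [Fm.size]
      omega)
    rw [List.length_map, length_assigns] at h1
    have h2 : 2 ^ (inNode Q l r out).length ≤ 2 ^ W := Nat.pow_le_pow_right (by omega) hI1
    have hl1 := l.leaves_length_pos
    have hpos : 1 ≤ 2 ^ (W * h) := Nat.one_le_two_pow
    have hbig : 16 ≤ 2 ^ (W * h) * ((l.leaves.length + r.leaves.length) * (2 * N + 8)) := by
      have hr1 := r.leaves_length_pos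
      calc 16 = 1 * (2 * 8) := by norm_num
        _ ≤ 2 ^ (W * h) * ((l.leaves.length + r.leaves.length) * (2 * N + 8)) :=
          Nat.mul_le_mul hpos (Nat.mul_le_mul (by omega) (by omega))
    rw [Sat]
    simp only [BTree.depth, BTree.leaves, List.length_append]
    rw [← hh]
    set X := 2 ^ (W * h) * ((l.leaves.length + r.leaves.length) * (2 * N + 8)) with hX
    have e2 : 2 ^ (W * (h + 1)) * ((l.leaves.length + r.leaves.length) * (2 * N + 8)) =
        2 ^ W * X := by
      rw [hX, show W * (h + 1) = W + W * h by ring, pow_add, mul_assoc]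
    rw [e2]
    have h3 : 2 ^ (inNode Q l r out).length * (X - 5 + 1) ≤ 2 ^ W * (X - 5 + 1) :=
      Nat.mul_le_mul_right _ h2
    have h4 : 1 ≤ 2 ^ W := Nat.one_le_two_pow
    have h5 : 2 ^ W * (X - 5 + 1) + 4 * 2 ^ W = 2 ^ W * X := by
      have : X - 5 + 1 + 4 = X := by omega
      calc 2 ^ W * (X - 5 + 1) + 4 * 2 ^ W = 2 ^ W * (X - 5 + 1 + 4) := by ring
        _ = 2 ^ W * X := by rw [this]
    omega

theorem size_val_le {Q : Finset ℕ} {W N : ℕ} {A : List (ℕ × Fm ℕ)} (j : ℕ) :
    ∀ (T : BTree) (out : List (ℕ × Fm ℕ)) (v : ℕ → Bool), IntLE Q W T out →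
      (∀ a ∈ T.leaves, a.2.size ≤ N) →
      (val Q A j T out v).size ≤
        4 ^ ((W + 1) * (T.depth + 1)) * (T.leaves.length * (2 * N + 16)) := by
  intro T
  induction T with
  | leaf a =>
    intro out v hI hN
    have h1 := size_sel_le (KC Q A a) (fun v' => cst (v' j)) (2 * N + 2) 2
      (assigns (inLeaf Q a out) v)
      (fun i _ => size_KC_le Q A a i (hN a (by simp [BTree.leaves]))) (fun i _ => size_cst_le _)
    rw [length_assigns] at h1
    have h2 : 2 ^ (inLeaf Q a out).length ≤ 2 ^ W := Nat.pow_le_pow_right (by omega) hI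
    rw [val]
    simp only [BTree.depth, BTree.leaves, List.length_cons, List.length_nil]
    set p := 2 ^ (inLeaf Q a out).length with hp
    set P := 2 ^ W with hP
    have h4 : 1 ≤ P := Nat.one_le_two_pow
    have e : 4 ^ ((W + 1) * (0 + 1)) = 4 * (P * P) := by
      have e1 : P * P = 4 ^ W := by rw [hP, ← mul_pow]; norm_num
      rw [e1, show (W + 1) * (0 + 1) = 1 + W by ring, pow_add, pow_one]
    rw [e]
    have h5 : p * (2 * (p * (2 * N + 2 + 1) + 1) + 2 + 4) + 1 ≤
        P * (2 * (P * (2 * N + 2 + 1) + 1) + 2 + 4) + 1 := by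
      have := Nat.mul_le_mul_right (2 * N + 2 + 1) h2
      exact Nat.add_le_add_right (Nat.mul_le_mul h2 (by omega)) 1
    have h6 : P ≤ P * P := Nat.le_mul_of_pos_left _ (by omega)
    have h7 : 1 ≤ P * P := by omega
    calc _ ≤ P * (2 * (P * (2 * N + 2 + 1) + 1) + 2 + 4) + 1 := h1.trans h5
      _ = P * P * (4 * N + 6) + 8 * P + 1 := by ring
      _ ≤ P * P * (4 * N + 6) + 8 * (P * P) + P * P := by omega
      _ ≤ _ := by nlinarith
  | node l r ihl ihr =>
    intro out v hI hN
    obtain ⟨hI1, hI2, hI3⟩ := hI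
    have hNl : ∀ a ∈ l.leaves, a.2.size ≤ N := fun a ha => hN a (by simp [BTree.leaves, ha])
    have hNr : ∀ a ∈ r.leaves, a.2.size ≤ N := fun a ha => hN a (by simp [BTree.leaves, ha])
    set h := max l.depth r.depth + 1 with hh
    have el : 2 ^ (W * (l.depth + 1)) ≤ 2 ^ (W * h) :=
      Nat.pow_le_pow_right (by omega) (Nat.mul_le_mul_left _ (by omega))
    have er : 2 ^ (W * (r.depth + 1)) ≤ 2 ^ (W * h) :=
      Nat.pow_le_pow_right (by omega) (Nat.mul_le_mul_left _ (by omega))
    have el4 : 4 ^ ((W + 1) * (l.depth + 1)) ≤ 4 ^ ((W + 1) * h) :=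
      Nat.pow_le_pow_right (by omega) (Nat.mul_le_mul_left _ (by omega))
    have er4 : 4 ^ ((W + 1) * (r.depth + 1)) ≤ 4 ^ ((W + 1) * h) :=
      Nat.pow_le_pow_right (by omega) (Nat.mul_le_mul_left _ (by omega))
    set n := l.leaves.length + r.leaves.length with hn
    have hl1 := l.leaves_length_pos
    have hr1 := r.leaves_length_pos
    set G := 4 ^ ((W + 1) * h) * (n * (2 * N + 16)) with hG
    have h1 := size_sel_le
      (fun v' => Fm.and (Sat Q A l (r.leaves ++ out) v') (Sat Q A r (l.leaves ++ out) v'))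
      (fun v' => if j ∈ inNode Q l r out then cst (v' j) else
        if j ∈ lv Q l.leaves then val Q A j l (r.leaves ++ out) v'
        else val Q A j r (l.leaves ++ out) v')
      (2 ^ (W * h) * (n * (2 * N + 8))) G
      (assigns (inNode Q l r out) v) (by
        intro y _
        have h2 := ihl (r.leaves ++ out) y hI2 hNl
        have h3 := ihr (l.leaves ++ out) y hI3 hNr
        have h2 := size_Sat_le (A := A) l (r.leaves ++ out) y hI2 hNl
        have h3 := size_Sat_le (A := A) r (l.leaves ++ out) y hI3 hNr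
        have h4 : 2 ^ (W * (l.depth + 1)) * (l.leaves.length * (2 * N + 8)) ≤
          2 ^ (W * h) * (l.leaves.length * (2 * N + 8)) := Nat.mul_le_mul_right _ el
        have h5 : 2 ^ (W * (r.depth + 1)) * (r.leaves.length * (2 * N + 8)) ≤
          2 ^ (W * h) * (r.leaves.length * (2 * N + 8)) := Nat.mul_le_mul_right _ er
        have e : 2 ^ (W * h) * (n * (2 * N + 8)) =
          2 ^ (W * h) * (l.leaves.length * (2 * N + 8)) +
          2 ^ (W * h) * (r.leaves.length * (2 * N + 8)) := by rw [hn]; ring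
        simp only [Fm.size]
        omega) (by
        intro y _
        have hG2 : 2 ≤ G := by
          rw [hG]
          calc 2 ≤ 1 * (2 * 16) := by norm_num
            _ ≤ _ := Nat.mul_le_mul (Nat.one_le_pow _ _ (by omega))
              (Nat.mul_le_mul (by omega) (by omega))
        split_ifs
        · exact (size_cst_le _).trans hG2
        · refine (ihl _ y hI2 hNl).trans (Nat.mul_le_mul el4 (Nat.mul_le_mul_right _ (by omega)))
        · refine (ihr _ y hI3 hNr).trans (Nat.mul_le_mul er4 (Nat.mul_le_mul_right _ (by omega))))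
    rw [length_assigns] at h1
    have h2 : 2 ^ (inNode Q l r out).length ≤ 2 ^ W := Nat.pow_le_pow_right (by omega) hI1
    rw [val]
    simp only [BTree.depth, BTree.leaves, List.length_append]
    rw [← hh, ← hn]
    set p := 2 ^ (inNode Q l r out).length with hp
    set P := 2 ^ W with hP
    set B := 2 ^ (W * h) * (n * (2 * N + 8)) with hB
    have h4 : 1 ≤ P := Nat.one_le_two_pow
    have e : 4 ^ ((W + 1) * (h + 1)) = 4 * (P * P) * 4 ^ ((W + 1) * h) := by
      have e1 : P * P = 4 ^ W := by rw [hP, ← mul_pow]; norm_num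
      rw [e1, show (W + 1) * (h + 1) = 1 + W + (W + 1) * h by ring,
        pow_add, pow_add, pow_one]
    have e' : 4 ^ ((W + 1) * (h + 1)) * (n * (2 * N + 16)) = 4 * (P * P) * G := by
      rw [e, hG]; ring
    rw [e']
    have h5 : p * (2 * (p * (B + 1) + 1) + G + 4) + 1 ≤
        P * (2 * (P * (B + 1) + 1) + G + 4) + 1 := by
      have := Nat.mul_le_mul_right (B + 1) h2
      exact Nat.add_le_add_right (Nat.mul_le_mul h2 (by omega)) 1
    have h6 : P ≤ P * P := Nat.le_mul_of_pos_left _ (by omega)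
    have h7 : 1 ≤ P * P := by omega
    have hBG : 2 * B + 9 ≤ 2 * G + 9 := by
      have : B ≤ G := by
        rw [hB, hG]
        refine Nat.mul_le_mul ?_ (Nat.mul_le_mul_left _ (by omega))
        calc 2 ^ (W * h) ≤ 2 ^ ((W + 1) * h) :=
              Nat.pow_le_pow_right (by omega) (Nat.mul_le_mul_right _ (by omega))
          _ ≤ 4 ^ ((W + 1) * h) := Nat.pow_le_pow_left (by omega) _
      omega
    have hG9 : 9 ≤ G := by
      rw [hG]
      calc 9 ≤ 1 * (1 * 16) := by norm_num
        _ ≤ _ := Nat.mul_le_mul (Nat.one_le_pow _ _ (by omega))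
          (Nat.mul_le_mul (by omega) (by omega))
    calc _ ≤ P * (2 * (P * (B + 1) + 1) + G + 4) + 1 := h1.trans h5
      _ = P * P * (2 * B + 2) + P * G + 6 * P + 1 := by ring
      _ ≤ P * P * (2 * B + 2) + (P * P) * G + 6 * (P * P) + (P * P) := by
        have := Nat.mul_le_mul_right G h6
        omega
      _ = P * P * (2 * B + 9) + (P * P) * G := by ring
      _ ≤ P * P * (2 * G + 9) + (P * P) * G := by
        have := Nat.mul_le_mul_left (P * P) hBG
        omega
      _ ≤ P * P * (2 * G + G) + (P * P) * G := by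
        have : P * P * (2 * G + 9) ≤ P * P * (2 * G + G) := Nat.mul_le_mul_left _ (by omega)
        omega
      _ = _ := by ring

end FregeEF
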