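import Pool.Agent.Work.MP_c07f0d_lc.Sat

/-!
# Strategies around `Sat`: existence of a solution, canonical solution
-/

namespace FregeEF

variable {F : FregeSystem} {t S : ℕ} {Γ : Set (Fm ℕ)}

/-- All lists of variables chosen in the tree have length at most `W`. -/
def IntLE (Q : Finset ℕ) (W : ℕ) : BTree → List (ℕ × Fm ℕ) → Prop
  | .leaf a, out => (inLeaf Q a out).length ≤ W
  | .node l r, out => (inNode Q l r out).length ≤ W ∧ IntLE Q W l (r.leaves ++ out) ∧
      IntLE Q W r (l.leaves ++ out)

/-- Depth of a tree. -/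
def BTree.depth : BTree → ℕ
  | .leaf _ => 0
  | .node l r => max l.depth r.depth + 1

/-- If nothing is required, there is a solution. -/
theorem Can.sat_nil (hS : F.K * (t + 1) ≤ S) {Q : Finset ℕ} {W : ℕ} :
    ∀ (T : BTree) (out : List (ℕ × Fm ℕ)) (v : ℕ → Bool) (Γ : Set (Fm ℕ)), IntLE Q W T out →
      Fm.neg (Sat Q [] T out v) ∈ Γ →
      Can F t S (2 * T.depth + W + 3) Γ (fun _ => False) := by
  intro T
  induction T with
  | leaf a =>
    intro out v Γ hI h
    have hb : (Fm.bot : Fm ℕ).size + 1 ≤ (Fm.neg (Sat Q [] (.leaf a) out v)).size := by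
      have := (Sat Q [] (.leaf a) out v).size_pos
      simp only [Fm.size]; omega
    refine Can.weaken (c := 1 + (W + 1)) ?_ (by simp only [BTree.depth]; omega)
    refine (Can.querySub .bot _ h hb).bind ?_
    rintro Δ hΔ (h1 | h1)
    · exact (Can.close_bot hS h1).weaken (by omega)
    · refine Can.refuteOr hS W ?_ (hΔ h) (.neg .bot) ?_ h1
      · rw [List.length_map, length_assigns]
        exact Nat.pow_le_pow_right (by omega) hI
      · refine List.mem_map.2 ⟨v, (mem_assigns _ _ _).2 (fun _ _ => rfl), ?_⟩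
        simp [KC]
  | node l r ihl ihr =>
    intro out v Γ hI h
    obtain ⟨hI1, hI2, hI3⟩ := hI
    have hmem : Fm.and (Sat Q [] l (r.leaves ++ out) v) (Sat Q [] r (l.leaves ++ out) v) ∈
        (assigns (inNode Q l r out) v).map
          fun v' => Fm.and (Sat Q [] l (r.leaves ++ out) v') (Sat Q [] r (l.leaves ++ out) v') :=
      List.mem_map.2 ⟨v, (mem_assigns _ _ _).2 (fun _ _ => rfl), rfl⟩
    have hsz := size_mem_bigOr hmem
    have hsz' : (Fm.and (Sat Q [] l (r.leaves ++ out) v) (Sat Q [] r (l.leaves ++ out) v)).size + 1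
        ≤ (Fm.neg (Sat Q [] (.node l r) out v)).size := by
      rw [Sat]; simp only [Fm.size] at *; omega
    refine Can.weaken (c := 1 + (1 + (1 + (2 * max l.depth r.depth + W + 3)) - 1)) ?_
      (by simp only [BTree.depth]; omega)
    refine (Can.querySub (Sat Q [] l (r.leaves ++ out) v) _ h
      (by simp only [Fm.size] at hsz' ⊢; omega)).bind ?_
    rintro Δ hΔ (h1 | h1)
    · refine Can.weaken (c := 1 + (2 * max l.depth r.depth + W + 3)) ?_ (by omega)
      refine (Can.querySub (Sat Q [] r (l.leaves ++ out) v) _ (hΔ h)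
        (by simp only [Fm.size] at hsz' ⊢; omega)).bind ?_
      rintro Δ' hΔ' (h2 | h2)
      · refine Can.weaken (c := 1 + (W + 1)) ?_ (by omega)
        refine (Can.querySub _ _ (hΔ' (hΔ h)) hsz').bind ?_
        rintro Δ'' hΔ'' (h3 | h3)
        · refine Can.refuteOr hS W ?_ (hΔ'' (hΔ' (hΔ h))) _ hmem h3
          rw [List.length_map, length_assigns]
          exact Nat.pow_le_pow_right (by omega) hI1
        · exact (Can.close_nand hS _ _ h3 (hΔ'' (hΔ' h1)) (hΔ'' h2)).weaken (by omega)
      · exact (ihr _ v Δ' hI3 h2).weaken (by omega)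
    · exact (ihl _ v Δ hI2 h1).weaken (by omega)

/-- The key step for the existence of solutions: activating the new axiom `(q, φ)`. -/
theorem Can.exist_down (hS : F.K * (t + 1) ≤ S) {Q : Finset ℕ} {W : ℕ} {A : List (ℕ × Fm ℕ)}
    {q : ℕ} {φ : Fm ℕ} (hq : q ∈ Q) (hA : ∀ a ∈ A, a.1 ≠ q ∧ ¬ a.2.Occurs q)
    (hqφ : ¬ φ.Occurs q) (hφt : ∀ v, (inst Q v φ).size ≤ t) :
    ∀ (T : BTree) (out : List (ℕ × Fm ℕ)) (v : ℕ → Bool) (Γ : Set (Fm ℕ)), IntLE Q W T out →
      T.leaves.Nodup → (q, φ) ∈ T.leaves →
      Sat Q A T out v ∈ Γ →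
      Can F t S ((T.depth + 1) * (W + 4)) Γ (fun Δ => ∃ b, ∀ Δ', Δ ⊆ Δ' →
        Fm.neg (Sat Q ((q, φ) :: A) T out (Function.update v q b)) ∈ Δ' →
        Can F t S (T.depth + W + 3) Δ' (fun _ => False)) := by
  intro T
  induction T with
  | leaf a =>
    intro out v Γ hI _ hT h
    simp only [BTree.leaves, List.mem_cons, List.not_mem_nil, or_false] at hT
    subst hT
    have hlen : ∀ v, ((assigns (inLeaf Q (q, φ) out) v).map (KC Q A (q, φ))).length ≤ 2 ^ W := by
      intro v
      rw [List.length_map, length_assigns]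
      exact Nat.pow_le_pow_right (by omega) hI
    refine Can.weaken (c := (W + 2) + 1) ?_ (by simp only [BTree.depth]; omega)
    refine (Can.find hS W (hlen v) h).bind ?_
    rintro Δ hΔ ⟨i, hi, h1, _⟩
    rw [List.length_map] at hi
    set v' := (assigns (inLeaf Q (q, φ) out) v)[i] with hv'
    have hv'm : v' ∈ assigns (inLeaf Q (q, φ) out) v := List.getElem_mem hi
    refine (Can.sgQuery (inst Q v' φ) (hφt v')).mono le_rfl ?_
    rintro Δ' hΔ' ⟨b, hb⟩
    refine ⟨b, fun Δ'' hΔ'' h2 => ?_⟩
    refine Can.weaken (c := W + 1) ?_ (by omega)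
    refine Can.refuteOr hS W (by
      rw [List.length_map, length_assigns]
      exact Nat.pow_le_pow_right (by omega) hI) h2 (sg b (inst Q v' φ)) ?_ (hΔ'' hb)
    refine List.mem_map.2 ⟨Function.update v' q b, ?_, ?_⟩
    · rw [mem_assigns] at hv'm ⊢
      intro x hx
      by_cases hxq : x = q
      · subst hxq; rw [Function.update_self, Function.update_self]
      · rw [Function.update_of_ne hxq, Function.update_of_ne hxq]; exact hv'm x hx
    · simp only [KC, List.mem_cons, true_or, if_true, Function.update_self]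
      rw [inst_update hqφ]
  | node l r ihl ihr =>
    intro out v Γ hI hnd hT h
    obtain ⟨hI1, hI2, hI3⟩ := hI
    have hlen : ∀ v, ((assigns (inNode Q l r out) v).map
        fun v' => Fm.and (Sat Q A l (r.leaves ++ out) v')
          (Sat Q A r (l.leaves ++ out) v')).length ≤ 2 ^ W := by
      intro v
      rw [List.length_map, length_assigns]
      exact Nat.pow_le_pow_right (by omega) hI1
    have hpos : (max l.depth r.depth + 1 + 1) * (W + 4) =
        (W + 2 + 2) + (max l.depth r.depth + 1) * (W + 4) := by ring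
    simp only [BTree.depth]
    rw [hpos]
    refine Can.bind (c1 := W + 2 + 2) (Q1 := fun Δ => ∃ v' ∈ assigns (inNode Q l r out) v,
      Sat Q A l (r.leaves ++ out) v' ∈ Δ ∧ Sat Q A r (l.leaves ++ out) v' ∈ Δ) ?_ ?_
    · refine (Can.find hS W (hlen v) h).bind ?_
      rintro Δ hΔ ⟨i, hi, h1, _⟩
      rw [List.length_map] at hi
      have h1' : Fm.and (Sat Q A l (r.leaves ++ out) (assigns (inNode Q l r out) v)[i])
          (Sat Q A r (l.leaves ++ out) (assigns (inNode Q l r out) v)[i]) ∈ Δ := by
        simpa using h1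
      refine (Can.and_elim hS _ _ h1').mono le_rfl ?_
      rintro Δ' _ ⟨h2, h3⟩
      exact ⟨_, List.getElem_mem hi, h2, h3⟩
    rintro Δ hΔ ⟨v', hv'm, h1, h2⟩
    have hupd : ∀ b, Function.update v' q b ∈
        assigns (inNode Q l r out) (Function.update v q b) := by
      intro b
      rw [mem_assigns] at hv'm ⊢
      intro x hx
      by_cases hxq : x = q
      · subst hxq; rw [Function.update_self, Function.update_self]
      · rw [Function.update_of_ne hxq, Function.update_of_ne hxq]; exact hv'm x hx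
    have hmem : ∀ b, Fm.and (Sat Q ((q, φ) :: A) l (r.leaves ++ out) (Function.update v' q b))
        (Sat Q ((q, φ) :: A) r (l.leaves ++ out) (Function.update v' q b)) ∈
        (assigns (inNode Q l r out) (Function.update v q b)).map
          fun v' => Fm.and (Sat Q ((q, φ) :: A) l (r.leaves ++ out) v')
            (Sat Q ((q, φ) :: A) r (l.leaves ++ out) v') :=
      fun b => List.mem_map.2 ⟨_, hupd b, rfl⟩
    have hlen' : ∀ b, ((assigns (inNode Q l r out) (Function.update v q b)).map
          fun v' => Fm.and (Sat Q ((q, φ) :: A) l (r.leaves ++ out) v')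
            (Sat Q ((q, φ) :: A) r (l.leaves ++ out) v')).length ≤ 2 ^ W := by
      intro b
      rw [List.length_map, length_assigns]
      exact Nat.pow_le_pow_right (by omega) hI1
    have hsz : ∀ b, (Fm.and (Sat Q ((q, φ) :: A) l (r.leaves ++ out) (Function.update v' q b))
        (Sat Q ((q, φ) :: A) r (l.leaves ++ out) (Function.update v' q b))).size + 1 ≤
        (Fm.neg (Sat Q ((q, φ) :: A) (.node l r) out (Function.update v q b))).size := by
      intro b
      have := size_mem_bigOr (hmem b)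
      rw [Sat]; simp only [Fm.size] at *; omega
    rw [BTree.leaves, List.nodup_append] at hnd
    obtain ⟨hnl, hnr, hdis⟩ := hnd
    rw [BTree.leaves, List.mem_append] at hT
    rcases hT with hT | hT
    · have hTr : (q, φ) ∉ r.leaves := fun h' => hdis _ hT _ h' rfl
      have hle : (l.depth + 1) * (W + 4) ≤ (max l.depth r.depth + 1) * (W + 4) :=
        Nat.mul_le_mul_right _ (by omega)
      refine (ihl (r.leaves ++ out) v' Δ hI2 hnl hT h1).mono hle ?_
      rintro Δ' hΔ' ⟨b, hb⟩
      refine ⟨b, fun Δ'' hΔ'' h3 => ?_⟩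
      have e : Sat Q ((q, φ) :: A) r (l.leaves ++ out) (Function.update v' q b) =
          Sat Q A r (l.leaves ++ out) v' :=
        Sat_update hq hA b r _ v' (by simp [hT]) hTr
      refine Can.weaken (c := 1 + (max l.depth r.depth + W + 3)) ?_ (by omega)
      refine (Can.querySub (Sat Q ((q, φ) :: A) l (r.leaves ++ out) (Function.update v' q b)) _ h3
        (by have := hsz b; simp only [Fm.size] at this ⊢; omega)).bind ?_
      rintro Δ3 hΔ3 (h4 | h4)
      · refine Can.weaken (c := 1 + (W + 1)) ?_ (by omega)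
        refine (Can.querySub _ _ (hΔ3 h3) (hsz b)).bind ?_
        rintro Δ4 hΔ4 (h5 | h5)
        · exact Can.refuteOr hS W (hlen' b) (hΔ4 (hΔ3 h3)) _ (hmem b) h5
        · exact (Can.close_nand hS _ _ h5 (hΔ4 h4)
            (by rw [e]; exact hΔ4 (hΔ3 (hΔ'' (hΔ' h2))))).weaken (by omega)
      · exact (hb Δ3 (hΔ''.trans hΔ3) h4).weaken (by omega)
    · have hTl : (q, φ) ∉ l.leaves := fun h' => hdis _ h' _ hT rfl
      have hle : (r.depth + 1) * (W + 4) ≤ (max l.depth r.depth + 1) * (W + 4) :=
        Nat.mul_le_mul_right _ (by omega)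
      refine (ihr (l.leaves ++ out) v' Δ hI3 hnr hT h2).mono hle ?_
      rintro Δ' hΔ' ⟨b, hb⟩
      refine ⟨b, fun Δ'' hΔ'' h3 => ?_⟩
      have e : Sat Q ((q, φ) :: A) l (r.leaves ++ out) (Function.update v' q b) =
          Sat Q A l (r.leaves ++ out) v' :=
        Sat_update hq hA b l _ v' (by simp [hT]) hTl
      refine Can.weaken (c := 1 + (max l.depth r.depth + W + 3)) ?_ (by omega)
      refine (Can.querySub (Sat Q ((q, φ) :: A) r (l.leaves ++ out) (Function.update v' q b)) _ h3
        (by have := hsz b; simp only [Fm.size] at this ⊢; omega)).bind ?_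
      rintro Δ3 hΔ3 (h4 | h4)
      · refine Can.weaken (c := 1 + (W + 1)) ?_ (by omega)
        refine (Can.querySub _ _ (hΔ3 h3) (hsz b)).bind ?_
        rintro Δ4 hΔ4 (h5 | h5)
        · exact Can.refuteOr hS W (hlen' b) (hΔ4 (hΔ3 h3)) _ (hmem b) h5
        · exact (Can.close_nand hS _ _ h5
            (by rw [e]; exact hΔ4 (hΔ3 (hΔ'' (hΔ' h1)))) (hΔ4 h4)).weaken (by omega)
      · exact (hb Δ3 (hΔ''.trans hΔ3) h4).weaken (by omega)

/-- The defining property of lists of extension axioms: the new variable does not occur in its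
definition nor in earlier axioms (the latest axiom comes first). -/
def Acyc (E : List (ℕ × Fm ℕ)) : Prop :=
  E.Pairwise (fun a b => b.1 ≠ a.1 ∧ ¬ b.2.Occurs a.1) ∧ ∀ a ∈ E, ¬ a.2.Occurs a.1

theorem Acyc.nodup {E : List (ℕ × Fm ℕ)} (h : Acyc E) : E.Nodup := by
  refine h.1.imp ?_
  rintro a b ⟨h1, _⟩ rfl
  exact h1 rfl

/-- Existence of a solution. -/
theorem Can.exist (hS : F.K * (t + 1) ≤ S) {W m : ℕ} {E : List (ℕ × Fm ℕ)} (hE : Acyc E)
    (hm : E.length ≤ 2 ^ m) {Q : Finset ℕ} (hQ : ∀ a ∈ E, a.1 ∈ Q)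
    {T : BTree} (hT : T.leaves.Perm E) (hI : IntLE Q W T []) (v : ℕ → Bool)
    (hsz : ∀ k, (Sat Q (E.drop k) T [] v).size ≤ t)
    (hφt : ∀ a ∈ E, ∀ v, (inst Q v a.2).size ≤ t)
    (h : Fm.neg (Sat Q E T [] v) ∈ Γ) :
    Can F t S (1 + (m + ((T.depth + 1) * (W + 4) + (2 * T.depth + W + 3)))) Γ
      (fun _ => False) := by
  have hE0 : E ≠ [] := by
    rintro rfl
    have := hT.length_eq
    cases T with
    | leaf a => simp [BTree.leaves] at this
    | node l r =>
      simp only [BTree.leaves, List.length_append, List.length_nil] at this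
      have h1 : ∀ T : BTree, T.leaves ≠ [] := by
        intro T
        induction T with
        | leaf a => simp [BTree.leaves]
        | node l r ihl ihr => simp [BTree.leaves, ihl]
      have h2 := h1 l
      have : l.leaves.length = 0 := by omega
      exact h2 (List.length_eq_zero_iff.1 this)
  have hpos : 0 < E.length := List.length_pos_of_ne_nil hE0
  refine (Can.query (Sat Q [] T [] v) (by simpa using hsz E.length)).bind ?_
  rintro Δ hΔ (h1 | h1)
  · have hms : m + ((T.depth + 1) * (W + 4) + (2 * T.depth + W + 3)) =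
      1 * m + ((T.depth + 1) * (W + 4) + (2 * T.depth + W + 3)) := by ring
    rw [hms]
    refine Can.bind (Can.bsearch (A := fun s Δ => Fm.neg (Sat Q (E.drop s) T [] v) ∈ Δ)
      (B := fun s Δ => Sat Q (E.drop s) T [] v ∈ Δ) (fun _ _ _ h1 h2 => h1 h2)
      (fun _ _ _ h1 h2 => h1 h2) m Δ 0 E.length ?_ hpos (by omega) (by simpa using hΔ h)
      (by simpa using h1)) ?_
    · intro s _ _ Δ' _
      refine (Can.query (Sat Q (E.drop s) T [] v) (hsz s)).mono le_rfl ?_
      rintro _ _ (h3 | h3)
      · exact Or.inr h3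
      · exact Or.inl h3
    · rintro Δ' hΔ' ⟨s, _, hs, h3, h4⟩
      have hmemE : E[s] ∈ E := List.getElem_mem hs
      have hq : E[s].1 ∈ Q := hQ _ hmemE
      have hdrop : E.drop s = E[s] :: E.drop (s + 1) := List.drop_eq_getElem_cons hs
      have hA : ∀ a ∈ E.drop (s + 1), a.1 ≠ E[s].1 ∧ ¬ a.2.Occurs E[s].1 := by
        have h5 : (E.drop s).Pairwise (fun a b => b.1 ≠ a.1 ∧ ¬ b.2.Occurs a.1) :=
          hE.1.sublist (List.drop_sublist _ _)
        rw [hdrop, List.pairwise_cons] at h5
        exact h5.1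
      refine (Can.exist_down hS (q := E[s].1) (φ := E[s].2) hq hA (hE.2 _ hmemE)
        (hφt _ hmemE) T [] v Δ' hI (hT.nodup_iff.2 hE.nodup) (hT.mem_iff.2 hmemE) h4).bind ?_
      rintro Δ'' hΔ'' ⟨b, hb⟩
      refine (hb Δ'' (fun _ h => h) ?_).weaken (by omega)
      rw [Sat_congr hq b T [] v (by intro _; simp [lv])]
      have : Fm.neg (Sat Q (E.drop s) T [] v) ∈ Δ'' := hΔ'' h3
      rw [hdrop] at this
      exact this
  · exact (Can.sat_nil hS T [] v Δ hI h1).weaken (by omega)

/-- The value of the variable `j` in the canonical solution. -/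
noncomputable def val (Q : Finset ℕ) (A : List (ℕ × Fm ℕ)) (j : ℕ) :
    BTree → List (ℕ × Fm ℕ) → (ℕ → Bool) → Fm ℕ
  | .leaf a, out, v => sel (KC Q A a) (fun v' => cst (v' j)) (assigns (inLeaf Q a out) v)
  | .node l r, out, v => sel
      (fun v' => .and (Sat Q A l (r.leaves ++ out) v') (Sat Q A r (l.leaves ++ out) v'))
      (fun v' => if j ∈ inNode Q l r out then cst (v' j) else
        if j ∈ lv Q l.leaves then val Q A j l (r.leaves ++ out) v'
        else val Q A j r (l.leaves ++ out) v')
      (assigns (inNode Q l r out) v)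

/-- Reading off the canonical solution at a leaf. -/
theorem Can.read (hS : F.K * (t + 1) ≤ S) {Q : Finset ℕ} {W : ℕ} {A : List (ℕ × Fm ℕ)}
    {a : ℕ × Fm ℕ} :
    ∀ (T : BTree) (out : List (ℕ × Fm ℕ)) (v : ℕ → Bool) (Γ : Set (Fm ℕ)), IntLE Q W T out →
      a ∈ T.leaves → Sat Q A T out v ∈ Γ →
      Can F t S ((T.depth + 1) * (W + 4)) Γ (fun Δ => ∃ v' : ℕ → Bool, KC Q A a v' ∈ Δ ∧
        (∀ x ∈ lv Q [a], x ∈ lv Q out → v' x = v x) ∧
        (∀ j ∈ lv Q [a], j ∉ lv Q out → ∀ b, b ≠ v' j → ∀ Δ', Δ ⊆ Δ' →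
          sg b (val Q A j T out v) ∈ Δ' →
          Can F t S ((T.depth + 1) * (2 * W + 4)) Δ' (fun _ => False))) := by
  intro T
  induction T with
  | leaf a' =>
    intro out v Γ hI hT h
    simp only [BTree.leaves, List.mem_cons, List.not_mem_nil, or_false] at hT
    subst hT
    have hlen : ((assigns (inLeaf Q a out) v).map (KC Q A a)).length ≤ 2 ^ W := by
      rw [List.length_map, length_assigns]
      exact Nat.pow_le_pow_right (by omega) hI
    refine Can.weaken (c := W + 2) ?_ (by simp only [BTree.depth]; omega)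
    refine (Can.find hS W hlen h).mono le_rfl ?_
    rintro Δ hΔ ⟨i, hi, h1, h2⟩
    rw [List.length_map] at hi
    rw [List.getElem_map] at h1
    rw [← List.map_drop] at h2
    refine ⟨_, h1, ?_, ?_⟩
    · intro x _ hx
      have := List.getElem_mem hi
      rw [mem_assigns] at this
      exact this x (by simp [inLeaf, hx])
    · intro j _ _ b hb Δ' hΔ' h3
      refine Can.weaken (c := (2 * W + 3) + 1) ?_ (by simp only [BTree.depth]; omega)
      refine (Can.sel_eval hS (KC Q A a) (fun v' => cst (v' j)) _ W (by simpa using hlen) i hi b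
        (hΔ' h1) (hΔ' h2) h3).bind ?_
      rintro Δ'' _ h4
      exact Can.cstClose hS hb h4
  | node l r ihl ihr =>
    intro out v Γ hI hT h
    obtain ⟨hI1, hI2, hI3⟩ := hI
    have hlen : ((assigns (inNode Q l r out) v).map
        fun v' => Fm.and (Sat Q A l (r.leaves ++ out) v')
          (Sat Q A r (l.leaves ++ out) v')).length ≤ 2 ^ W := by
      rw [List.length_map, length_assigns]
      exact Nat.pow_le_pow_right (by omega) hI1
    have hpos : (max l.depth r.depth + 1 + 1) * (W + 4) =
        (W + 2 + 2) + (max l.depth r.depth + 1) * (W + 4) := by ring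
    have hpos2 : (max l.depth r.depth + 1 + 1) * (2 * W + 4) =
        (2 * W + 3) + 1 + (max l.depth r.depth + 1) * (2 * W + 4) := by ring
    simp only [BTree.depth]
    rw [hpos, hpos2]
    refine Can.bind (c1 := W + 2 + 2) (Q1 := fun Δ => ∃ i, ∃ hi : i < (assigns (inNode Q l r out)
      v).length,
      Fm.and (Sat Q A l (r.leaves ++ out) (assigns (inNode Q l r out) v)[i])
        (Sat Q A r (l.leaves ++ out) (assigns (inNode Q l r out) v)[i]) ∈ Δ ∧
      Fm.neg (bigOr (((assigns (inNode Q l r out) v).drop (i + 1)).map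
        fun v' => Fm.and (Sat Q A l (r.leaves ++ out) v')
          (Sat Q A r (l.leaves ++ out) v'))) ∈ Δ ∧
      Sat Q A l (r.leaves ++ out) (assigns (inNode Q l r out) v)[i] ∈ Δ ∧
      Sat Q A r (l.leaves ++ out) (assigns (inNode Q l r out) v)[i] ∈ Δ) ?_ ?_
    · refine (Can.find hS W hlen h).bind ?_
      rintro Δ hΔ ⟨i, hi, h1, h2⟩
      rw [List.length_map] at hi
      rw [List.getElem_map] at h1
      rw [← List.map_drop] at h2
      refine (Can.and_elim hS _ _ h1).mono le_rfl ?_
      rintro Δ' hΔ' ⟨h3, h4⟩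
      exact ⟨i, hi, hΔ' h1, hΔ' h2, h3, h4⟩
    rintro Δ hΔ ⟨i, hi, h1, h2, h3, h4⟩
    set v1 := (assigns (inNode Q l r out) v)[i] with hv1
    have hv1m : v1 ∈ assigns (inNode Q l r out) v := List.getElem_mem hi
    rw [mem_assigns] at hv1m
    have hsel : ∀ (j : ℕ) (b : Bool) (Δ' : Set (Fm ℕ)), Δ ⊆ Δ' →
        sg b (val Q A j (.node l r) out v) ∈ Δ' →
        Can F t S (2 * W + 3) Δ' (fun Δ'' => sg b (if j ∈ inNode Q l r out then cst (v1 j) else
        if j ∈ lv Q l.leaves then val Q A j l (r.leaves ++ out) v1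
        else val Q A j r (l.leaves ++ out) v1) ∈ Δ'') := by
      intro j b Δ' hΔ' h5
      exact Can.sel_eval hS _ (fun v' => if j ∈ inNode Q l r out then cst (v' j) else
        if j ∈ lv Q l.leaves then val Q A j l (r.leaves ++ out) v'
        else val Q A j r (l.leaves ++ out) v') _ W (by simpa using hlen) i hi b
        (hΔ' h1) (hΔ' h2) h5
    by_cases hTl : a ∈ l.leaves
    · have hle : (l.depth + 1) * (W + 4) ≤ (max l.depth r.depth + 1) * (W + 4) :=
        Nat.mul_le_mul_right _ (by omega)
      have hle2 : (l.depth + 1) * (2 * W + 4) ≤ (max l.depth r.depth + 1) * (2 * W + 4) :=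
        Nat.mul_le_mul_right _ (by omega)
      refine (ihl (r.leaves ++ out) v1 Δ hI2 hTl h3).mono hle ?_
      rintro Δ' hΔ' ⟨v', h5, h6, h7⟩
      refine ⟨v', h5, ?_, ?_⟩
      · intro x hx hxo
        rw [h6 x hx (by rw [lv_append]; exact Finset.mem_union_right _ hxo)]
        exact hv1m x (by simp [inNode, hxo])
      · intro j hj hjo b hb Δ'' hΔ'' h8
        have hjl : j ∈ lv Q l.leaves := by
          obtain ⟨h9, a', ha', h10⟩ := mem_lv.1 hj
          simp only [List.mem_cons, List.not_mem_nil, or_false] at ha'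
          subst ha'
          exact mem_lv.2 ⟨h9, a', hTl, h10⟩
        refine (hsel j b Δ'' (hΔ'.trans hΔ'') h8).weaken (by omega) |>.bind ?_ |>.weaken
          (c := 2 * W + 3 + (1 + (max l.depth r.depth + 1) * (2 * W + 4))) (by omega)
        intro Δ3 hΔ3 h9
        by_cases hjr : j ∈ lv Q r.leaves
        · have hjn : j ∈ inNode Q l r out := by simp [inNode, hjl, hjr, hjo]
          rw [if_pos hjn] at h9
          have : b ≠ v1 j := by
            rw [← h6 j hj (by rw [lv_append]; exact Finset.mem_union_left _ hjr)]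
            exact hb
          exact (Can.cstClose hS this h9).weaken (by omega)
        · have hjn : j ∉ inNode Q l r out := by simp [inNode, hjr]
          rw [if_neg hjn, if_pos hjl] at h9
          refine (h7 j hj ?_ b hb Δ3 (hΔ''.trans hΔ3) h9).weaken (by omega)
          rw [lv_append]
          simp [hjr, hjo]
    · have hTr : a ∈ r.leaves := by
        rw [BTree.leaves, List.mem_append] at hT
        exact hT.resolve_left hTl
      have hle : (r.depth + 1) * (W + 4) ≤ (max l.depth r.depth + 1) * (W + 4) :=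
        Nat.mul_le_mul_right _ (by omega)
      have hle2 : (r.depth + 1) * (2 * W + 4) ≤ (max l.depth r.depth + 1) * (2 * W + 4) :=
        Nat.mul_le_mul_right _ (by omega)
      refine (ihr (l.leaves ++ out) v1 Δ hI3 hTr h4).mono hle ?_
      rintro Δ' hΔ' ⟨v', h5, h6, h7⟩
      refine ⟨v', h5, ?_, ?_⟩
      · intro x hx hxo
        rw [h6 x hx (by rw [lv_append]; exact Finset.mem_union_right _ hxo)]
        exact hv1m x (by simp [inNode, hxo])
      · intro j hj hjo b hb Δ'' hΔ'' h8
        have hjr : j ∈ lv Q r.leaves := by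
          obtain ⟨h9, a', ha', h10⟩ := mem_lv.1 hj
          simp only [List.mem_cons, List.not_mem_nil, or_false] at ha'
          subst ha'
          exact mem_lv.2 ⟨h9, a', hTr, h10⟩
        refine (hsel j b Δ'' (hΔ'.trans hΔ'') h8).weaken (by omega) |>.bind ?_ |>.weaken
          (c := 2 * W + 3 + (1 + (max l.depth r.depth + 1) * (2 * W + 4))) (by omega)
        intro Δ3 hΔ3 h9
        by_cases hjl : j ∈ lv Q l.leaves
        · have hjn : j ∈ inNode Q l r out := by simp [inNode, hjl, hjr, hjo]
          rw [if_pos hjn] at h9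
          have : b ≠ v1 j := by
            rw [← h6 j hj (by rw [lv_append]; exact Finset.mem_union_left _ hjl)]
            exact hb
          exact (Can.cstClose hS this h9).weaken (by omega)
        · have hjn : j ∉ inNode Q l r out := by simp [inNode, hjl]
          rw [if_neg hjn, if_neg hjl] at h9
          refine (h7 j hj ?_ b hb Δ3 (hΔ''.trans hΔ3) h9).weaken (by omega)
          rw [lv_append]
          simp [hjl, hjo]

end FregeEF
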