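import Pool.Agent.Work.MP_c07f0d_lc.PVFinal

/-!
# Frege systems simulate extended Frege systems with size `2 ^ O(N / log N)`

The definitions used in the statement are in `Pool.Agent.Work.MP_c07f0d_lc.Defs` (formulas, Frege
systems, extended Frege proofs, sizes) and `Pool.Agent.Work.MP_c07f0d_lc.WireDefs` (number of wires
of the system of extension axioms).
-/

namespace Pool.Agent.Results.MP_c07f0d_lc.SublinearExponent

open FregeEF

/-- For every Frege system there is a constant `C` such that every extended Frege proof of `τ` of
size `N` whose extension axioms have at most `M ≤ N` wires can be replaced by a Frege proof of `τ`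
of size at most `(N + 2) ^ (C * (M / (log₂ M + 1) ^ 2 + 1))`. As there are at most `N` wires, one
can always take `M = N`, and then this is `2 ^ O(N / log N)`. -/
theorem result (F : FregeSystem) : ∃ C : ℕ, ∀ (τ : Fm ℕ) (L : List (Fm ℕ))
    (E : List (ℕ × Fm ℕ)) (M : ℕ), F.IsEFProof τ L E → wires E ≤ M → M ≤ lsize L →
    ∃ L' : List (Fm ℕ), F.IsProof τ L' ∧
      lsize L' ≤ (lsize L + 2) ^ (C * (M / (Nat.log 2 M + 1) ^ 2 + 1)) :=
  frege_simulates F

end Pool.Agent.Results.MP_c07f0d_lc.SublinearExponent
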