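import Pool.Agent.Work.MP_c07f0d_lc.Chains

/-!
# A parity argument of Ky Fan type in the game
-/

namespace FregeEF

variable {α : Type} {F : FregeSystem} {t S : ℕ}

/-- Nonempty consistent sets of letters over `r` coordinates. -/
def GoodSet (r : ℕ) (A : Finset Ltr) : Prop :=
  A.Nonempty ∧ (∀ x ∈ A, x.1 < r) ∧ ∀ c, ¬ ((c, true) ∈ A ∧ (c, false) ∈ A)

/-- The antipode. -/
def negSet (A : Finset Ltr) : Finset Ltr := A.image Ltr.neg

/-- What is needed of the formulas `lab A x`, saying that the set `A` has label `x`. -/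
structure LabRules (F : FregeSystem) (t S : ℕ) (Base : Set (Fm α)) (lab : Finset Ltr → Lbl → Fm α)
    (q r c : ℕ) : Prop where
  ex : ∀ A, GoodSet r A → ∀ Δ, Base ⊆ Δ →
    Can F t S c Δ (fun Δ' => ∃ x : Lbl, x.2 < q ∧ lab A x ∈ Δ')
  uniq : ∀ A, GoodSet r A → ∀ Δ, Base ⊆ Δ → ∀ x y : Lbl, x.2 < q → y.2 < q → x ≠ y →
    lab A x ∈ Δ → lab A y ∈ Δ → Can F t S c Δ (fun _ => False)
  anti : ∀ A, GoodSet r A → ∀ Δ, Base ⊆ Δ → ∀ x y : Lbl, x.2 < q → y.2 < q → y ≠ x.opp →
    lab A x ∈ Δ → lab (negSet A) y ∈ Δ → Can F t S c Δ (fun _ => False)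
  comp : ∀ A B, GoodSet r A → GoodSet r B → A ⊂ B → ∀ Δ, Base ⊆ Δ → ∀ x : Lbl, x.2 < q →
    lab A x ∈ Δ → lab B x.opp ∈ Δ → Can F t S c Δ (fun _ => False)

theorem good_take {w : List Ltr} (hv : valid w) {r : ℕ} (hr : w.length ≤ r) {j : ℕ}
    (hj : j < w.length) : GoodSet r (w.take (j + 1)).toFinset := by
  refine ⟨?_, ?_, ?_⟩
  · refine ⟨w[0], ?_⟩
    rw [List.mem_toFinset]
    rw [List.mem_iff_getElem]
    exact ⟨0, by rw [List.length_take]; omega, by rw [List.getElem_take]⟩
  · intro x hx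
    rw [List.mem_toFinset] at hx
    have := hv.2 x (List.mem_of_mem_take hx)
    omega
  · rintro c ⟨h1, h2⟩
    rw [List.mem_toFinset] at h1 h2
    exact absurd (eq_of_coord hv.1 (List.mem_of_mem_take h1) (List.mem_of_mem_take h2)) (by simp)

theorem good_chain {w : List Ltr} (hv : valid w) {r : ℕ} (hr : w.length ≤ r) :
    ∀ A ∈ chain w, GoodSet r A := by
  intro A hA
  obtain ⟨j, hj, rfl⟩ := List.mem_map.1 hA
  exact good_take hv hr (List.mem_range.1 hj)

theorem chain_neg (w : List Ltr) : chain (w.map Ltr.neg) = (chain w).map negSet := by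
  unfold chain
  rw [List.map_map, List.length_map]
  refine List.map_congr_left fun j _ => ?_
  simp only [Function.comp, negSet]
  ext x
  simp only [List.mem_toFinset, Finset.mem_image]
  rw [← List.map_take]
  simp only [List.mem_map]

theorem getElem_chain (w : List Ltr) (j : ℕ) (hj : j < (chain w).length) :
    (chain w)[j] = (w.take (j + 1)).toFinset := by
  simp [chain]

theorem chain_ssubset {w : List Ltr} (hv : valid w) {i j : ℕ} (hij : i < j) (hj : j < w.length) :
    (w.take (i + 1)).toFinset ⊂ (w.take (j + 1)).toFinset := by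
  have hn : w.Nodup := List.Nodup.of_map _ hv.1
  have hc : ∀ k, k < w.length → (w.take (k + 1)).toFinset.card = k + 1 := by
    intro k hk
    rw [List.toFinset_card_of_nodup (hn.sublist (List.take_sublist _ _)), List.length_take]
    omega
  rw [Finset.ssubset_iff_subset_ne]
  refine ⟨?_, ?_⟩
  · intro x hx
    rw [List.mem_toFinset] at hx ⊢
    have e : w.take (i + 1) = (w.take (j + 1)).take (i + 1) := by
      rw [List.take_take]; congr 1; omega
    rw [e] at hx
    exact List.mem_of_mem_take hx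
  · intro h
    have h1 := hc i (by omega)
    have h2 := hc j hj
    rw [h] at h1
    omega

variable {Base : Set (Fm α)} {lab : Finset Ltr → Lbl → Fm α} {q r c : ℕ}

/-- The list `ls` consists of labels of the sets in `As`. -/
def Labs (lab : Finset Ltr → Lbl → Fm α) (q : ℕ) (Γ : Set (Fm α)) (As : List (Finset Ltr))
    (ls : List Lbl) : Prop := List.Forall₂ (fun A x => x.2 < q ∧ lab A x ∈ Γ) As ls

theorem Labs.mono {Γ Δ : Set (Fm α)} (h : Γ ⊆ Δ) {As : List (Finset Ltr)} {ls : List Lbl}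
    (h1 : Labs lab q Γ As ls) : Labs lab q Δ As ls :=
  List.Forall₂.imp (fun _ _ h2 => ⟨h2.1, h h2.2⟩) h1

theorem Labs.get {Γ : Set (Fm α)} {As : List (Finset Ltr)} {ls : List Lbl}
    (h1 : Labs lab q Γ As ls) (j : ℕ) (h2 : j < As.length) (h3 : j < ls.length) :
    (ls[j]).2 < q ∧ lab As[j] ls[j] ∈ Γ := by
  have := (List.forall₂_iff_get.1 h1).2 j h2 h3
  simpa using this

theorem Labs.eraseIdx {Γ : Set (Fm α)} {As : List (Finset Ltr)} {ls : List Lbl}
    (h1 : Labs lab q Γ As ls) : ∀ i, Labs lab q Γ (As.eraseIdx i) (ls.eraseIdx i) := by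
  induction h1 with
  | nil => intro i; exact List.Forall₂.nil
  | @cons A x As ls h h' ih =>
    intro i
    cases i with
    | zero => exact h'
    | succ i => exact List.Forall₂.cons h (ih i)

theorem Can.findLabs (R : LabRules F t S Base lab q r c) (As : List (Finset Ltr)) :
    ∀ Γ, Base ⊆ Γ → (∀ A ∈ As, GoodSet r A) →
      Can F t S (As.length * c) Γ (fun Δ => ∃ ls, Labs lab q Δ As ls) := by
  induction As with
  | nil => intro Γ _ _; exact (Can.ret ⟨[], List.Forall₂.nil⟩).weaken (by omega)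
  | cons A As ih =>
    intro Γ hΓ hg
    refine Can.weaken (c := As.length * c + c) ?_ (by rw [List.length_cons]; nlinarith)
    refine (ih Γ hΓ (fun A hA => hg A (by simp [hA]))).bind ?_
    rintro Δ hΔ ⟨ls, h1⟩
    refine (R.ex A (hg A (by simp)) Δ (hΓ.trans hΔ)).mono le_rfl ?_
    rintro Δ' hΔ' ⟨x, h2, h3⟩
    exact ⟨x :: ls, List.Forall₂.cons ⟨h2, h3⟩ (Labs.mono hΔ' h1)⟩

theorem Can.byLab_eval (hS : F.K * (t + 1) ≤ S) (R : LabRules F t S Base lab q r c) {m : ℕ}
    (hm : 2 * q ≤ 2 ^ m) (As : List (Finset Ltr)) :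
    ∀ (P : List Lbl → Bool) (ls : List Lbl) (Γ : Set (Fm α)) (c0 : Bool), Base ⊆ Γ →
      (∀ A ∈ As, GoodSet r A) → Labs lab q Γ As ls → sg c0 (byLab lab q P As) ∈ Γ → c0 ≠ P ls →
      Can F t S (As.length * (m + 4) + c + 1) Γ (fun _ => False) := by
  have hlen : (lblList q).length ≤ 2 ^ m := by rw [length_lblList]; exact hm
  induction As with
  | nil =>
    intro P ls Γ c0 _ _ hls h hne
    cases hls
    exact (Can.cstClose hS hne h).weaken (by omega)
  | cons A As ih =>
    intro P ls Γ c0 hΓ hg hls h hne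
    cases hls with
    | @cons _ x _ ls hx hls =>
    obtain ⟨hx1, hx2⟩ := hx
    have hg' : ∀ A ∈ As, GoodSet r A := fun A hA => hg A (by simp [hA])
    have e : (A :: As).length * (m + 4) + c + 1 = (m + 4) + (As.length * (m + 4) + c + 1) := by
      rw [List.length_cons]; ring
    rw [e]
    cases c0
    · -- false
      have hmem : Fm.and (lab A x) (byLab lab q (fun t => P (x :: t)) As) ∈
          (lblList q).map fun l => Fm.and (lab A l) (byLab lab q (fun t => P (l :: t)) As) :=
        List.mem_map.2 ⟨x, mem_lblList.2 hx1, rfl⟩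
      have hsz := size_mem_bigOr hmem
      have hsz' : (Fm.and (lab A x) (byLab lab q (fun t => P (x :: t)) As)).size + 1 ≤
          (sg false (byLab lab q P (A :: As))).size := by
        rw [byLab]; simp only [sg_false, Fm.size] at *; omega
      refine Can.weaken (c := 1 + (m + 3 + (As.length * (m + 4) + c + 1))) ?_ (by omega)
      refine (Can.sgQuerySub (byLab lab q (fun t => P (x :: t)) As) _ h
        (by simp only [Fm.size] at hsz' ⊢; omega)).bind ?_
      rintro Δ hΔ ⟨b, hb⟩
      cases b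
      · exact (ih _ ls Δ false (hΓ.trans hΔ) hg' (Labs.mono hΔ hls) hb hne).weaken (by omega)
      · refine Can.weaken (c := 1 + (m + 1)) ?_ (by omega)
        refine (Can.querySub _ _ (hΔ h) hsz').bind ?_
        rintro Δ' hΔ' (h1 | h1)
        · exact Can.refute' hS m hlen (l := lblList q)
            (f := fun l => Fm.and (lab A l) (byLab lab q (fun t => P (l :: t)) As))
            (hΔ' (hΔ h)) (a := x) (mem_lblList.2 hx1) h1
        · exact (Can.close_nand hS _ _ h1 (hΔ' (hΔ hx2)) (hΔ' hb)).weaken (by omega)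
    · -- true
      refine Can.bind (c1 := m + 4) (Q1 := fun Δ => ∃ y : Lbl, y.2 < q ∧ lab A y ∈ Δ ∧
        byLab lab q (fun t => P (y :: t)) As ∈ Δ) ?_ ?_
      · refine Can.weaken (c := (m + 2) + 2) ?_ (by omega)
        refine (Can.find' hS m hlen h).bind ?_
        rintro Δ hΔ ⟨y, hy, h1⟩
        refine (Can.and_elim hS _ _ h1).mono le_rfl ?_
        rintro Δ' _ ⟨h2, h3⟩
        exact ⟨y, mem_lblList.1 hy, h2, h3⟩
      · rintro Δ hΔ ⟨y, hy1, hy2, hy3⟩
        by_cases hxy : y = x
        · subst hxy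
          exact ih _ ls Δ true (hΓ.trans hΔ) hg' (Labs.mono hΔ hls) hy3 hne
        · exact (R.uniq A (hg A (by simp)) Δ (hΓ.trans hΔ) y x hy1 hx1 hxy hy2
            (hΔ hx2)).weaken (by omega)

theorem Can.xorl_expect {ι : Type} (hS : F.K * (t + 1) ≤ S) (l : List ι) (φ : ι → Fm α)
    (e : ι → Bool) {Γ : Set (Fm α)} (hsz : ∀ a ∈ l, (φ a).size ≤ t)
    (href : ∀ a ∈ l, ∀ Δ, Γ ⊆ Δ → ∀ b, b ≠ e a → sg b (φ a) ∈ Δ →
      Can F t S c Δ (fun _ => False)) {c0 : Bool} (h0 : sg c0 (xorl (l.map φ)) ∈ Γ)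
    (hne : c0 ≠ xorB (l.map e)) : Can F t S (l.length + (l.length + c)) Γ (fun _ => False) := by
  refine Can.bind ((Can.queryAll (l.map φ) ?_).weaken (le_of_eq (List.length_map ..))) ?_
  · intro ψ hψ
    obtain ⟨a, ha, rfl⟩ := List.mem_map.1 hψ
    exact hsz a ha
  rintro Δ hΔ ⟨val, hval⟩
  by_cases H : ∀ a ∈ l, val (φ a) = e a
  · refine (Can.xorl_eval hS val (l.map φ) Δ c0 hval (hΔ h0) ?_).weaken
      (by rw [List.length_map]; omega)
    rw [List.map_map]
    have : l.map (val ∘ φ) = l.map e := List.map_congr_left H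
    rw [this]
    exact hne
  · push Not at H
    obtain ⟨a, ha, hne'⟩ := H
    exact (href a ha Δ hΔ _ hne' (hval _ (List.mem_map_of_mem ha))).weaken (by omega)

/-- Bound for all formulas in the parity argument. -/
def tuckSize (q r s : ℕ) : ℕ := (8 * 2 ^ (2 * r)) ^ r * (((2 * q + 1) * (s + 3)) ^ r * 2)

theorem size_lvl_le' {s : ℕ} {f : List Ltr → Fm α} {N : ℕ} (hN : N ≤ r)
    (hf : ∀ w, w.length = N → (f w).size ≤ ((2 * q + 1) * (s + 3)) ^ r * 2) (u : List Ltr)
    (hu : u.length ≤ N) : (lvl (alph r) N f u).size ≤ tuckSize q r s := by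
  have h0 : 0 < ((2 * q + 1) * (s + 3)) ^ r := by positivity
  refine (size_lvl_le (alph r) _ (by omega) N f hf u hu).trans ?_
  unfold tuckSize
  rw [length_alph]
  exact Nat.mul_le_mul_right _ (Nat.pow_le_pow_right (by positivity) hN)

theorem size_byLab_le' {s : ℕ} (hs : ∀ A l, (lab A l).size ≤ s) (As : List (Finset Ltr))
    (hA : As.length ≤ r) (P : List Lbl → Bool) :
    (byLab lab q P As).size ≤ ((2 * q + 1) * (s + 3)) ^ r * 2 := by
  refine (size_byLab_le lab q s hs As P).trans ?_
  exact Nat.mul_le_mul_right _ (Nat.pow_le_pow_right (by positivity) hA)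

theorem size_fQ {s : ℕ} (hs : ∀ A l, (lab A l).size ≤ s) (w : List Ltr) (hw : w.length ≤ r) :
    (fQ lab q w).size ≤ ((2 * q + 1) * (s + 3)) ^ r * 2 := by
  have h0 : 0 < ((2 * q + 1) * (s + 3)) ^ r := by positivity
  unfold fQ
  split_ifs
  · exact size_byLab_le' hs _ (by rw [length_chain]; exact hw) _
  · simp only [Fm.size]; omega

theorem size_fP {s : ℕ} (hs : ∀ A l, (lab A l).size ≤ s) (b : Bool) (w : List Ltr)
    (hw : w.length ≤ r) : (fP lab q b w).size ≤ ((2 * q + 1) * (s + 3)) ^ r * 2 := by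
  have h0 : 0 < ((2 * q + 1) * (s + 3)) ^ r := by positivity
  unfold fP
  split_ifs
  · exact size_byLab_le' hs _ (by rw [length_chain]; exact hw) _
  · simp only [Fm.size]; omega

theorem size_fG {s : ℕ} (hs : ∀ A l, (lab A l).size ≤ s) (i : ℕ) (w : List Ltr)
    (hw : w.length ≤ r) : (fG lab q i w).size ≤ ((2 * q + 1) * (s + 3)) ^ r * 2 := by
  have h0 : 0 < ((2 * q + 1) * (s + 3)) ^ r := by positivity
  unfold fG
  split_ifs
  · refine size_byLab_le' hs _ ?_ _
    refine (List.length_eraseIdx_le _ _).trans ?_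
    rw [length_chain]; exact hw
  · simp only [Fm.size]; omega

/-- The base case of the parity argument. -/
theorem Can.tucker_base (hS : F.K * (t + 1) ≤ S) (R : LabRules F t S Base lab q r c) {m s : ℕ}
    (hm : 2 * q ≤ 2 ^ m) (hs : ∀ A l, (lab A l).size ≤ s) (hr : 1 ≤ r)
    (ht : tuckSize q r s ≤ t) {Γ : Set (Fm α)} (hΓ : Base ⊆ Γ) :
    Can F t S (1 + ((1 * c + 1 * c) + (2 * r + (2 * r + (1 * (m + 4) + c + 1))))) Γ
      (fun Δ => par (alph r) 1 (fQ lab q) ∈ Δ) := by
  have hsz : ∀ u : List Ltr, u.length ≤ 1 → (lvl (alph r) 1 (fQ lab q) u).size ≤ t := fun u hu =>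
    (size_lvl_le' hr (fun w hw => size_fQ hs w (by omega)) u hu).trans ht
  refine (Can.query (par (alph r) 1 (fQ lab q)) (by simpa [lvl] using hsz [] (by simp))).bind ?_
  rintro Δ hΔ (h | h)
  · exact (Can.ret h).weaken (by omega)
  set A0 : Finset Ltr := {((0 : ℕ), true)} with hA0
  set A1 : Finset Ltr := {((0 : ℕ), false)} with hA1
  have hneg : negSet A0 = A1 := by simp [negSet, A0, A1, Ltr.neg]
  have hg0 : GoodSet r A0 := by
    refine ⟨⟨_, Finset.mem_singleton_self _⟩, ?_, ?_⟩
    · intro x hx; rw [Finset.mem_singleton.1 hx]; omega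
    · rintro c ⟨_, h2⟩; simp [A0] at h2
  have hg1 : GoodSet r A1 := by
    refine ⟨⟨_, Finset.mem_singleton_self _⟩, ?_, ?_⟩
    · intro x hx; rw [Finset.mem_singleton.1 hx]; omega
    · rintro c ⟨h2, _⟩; simp [A1] at h2
  refine Can.bind (Q1 := fun Δ => ∃ x y : Lbl, Labs lab q Δ [A0] [x] ∧ Labs lab q Δ [A1] [y]) ?_ ?_
  · refine (Can.findLabs R [A0] Δ (hΓ.trans hΔ) (by simpa using hg0)).bind ?_
    rintro Δ' hΔ' ⟨ls, h1⟩
    refine (Can.findLabs R [A1] Δ' (hΓ.trans (hΔ.trans hΔ')) (by simpa using hg1)).mono le_rfl ?_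
    rintro Δ'' hΔ'' ⟨ls', h2⟩
    cases h1 with
    | @cons _ x _ l h3 h4 =>
    cases h4
    cases h2 with
    | @cons _ y _ l h5 h6 =>
    cases h6
    exact ⟨x, y, .cons ⟨h3.1, hΔ'' h3.2⟩ .nil, .cons h5 .nil⟩
  rintro Δ1 hΔ1 ⟨x, y, hx, hy⟩
  have hΓ1 : Base ⊆ Δ1 := hΓ.trans (hΔ.trans hΔ1)
  by_cases hxy : y = x.opp
  swap
  · cases hx with
    | cons hx _ =>
    cases hy with
    | cons hy _ =>
    exact (R.anti A0 hg0 Δ1 hΓ1 x y hx.1 hy.1 hxy hx.2 (by rw [hneg]; exact hy.2)).false_elim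
      |>.weaken (by omega)
  have hpar : par (alph r) 1 (fQ lab q) = xorl ((alph r).map fun a => fQ lab q [a]) := rfl
  rw [hpar] at h
  have hlen : (alph r).length = 2 * r := length_alph r
  have hc0 : fQ lab q [((0 : ℕ), true)] = byLab lab q (altB true) [A0] := by
    have : valid [((0 : ℕ), true)] := ⟨by simp, by simp⟩
    simp [fQ, this, chain, A0]
  have hc1 : fQ lab q [((0 : ℕ), false)] = byLab lab q (altB true) [A1] := by
    have : valid [((0 : ℕ), false)] := ⟨by simp, by simp⟩
    simp [fQ, this, chain, A1]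
  have key := Can.xorl_expect (c := 1 * (m + 4) + c + 1) hS (alph r) (fun a => fQ lab q [a])
    (fun a => if a.1 = 0 then (if a.2 then altB true [x] else altB true [y]) else false)
    (Γ := Δ1) (c0 := false) ?_ ?_ (hΔ1 h) ?_
  · rw [hlen] at key
    exact key.false_elim
  · intro a _
    have := hsz [a] (by simp)
    rwa [lvl_full (alph r) 1 (fQ lab q) [a] rfl] at this
  · rintro ⟨i, b'⟩ _ Δ2 hΔ2 b hb h2
    by_cases hi : i = 0
    · subst hi
      cases b'
      · simp only [if_true, Bool.false_eq_true, if_false] at hb h2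
        rw [hc1] at h2
        exact Can.byLab_eval hS R hm [A1] (altB true) [y] Δ2 b (hΓ1.trans hΔ2)
          (by simpa using hg1) (hy.mono hΔ2) h2 hb
      · simp only [if_true] at hb h2
        rw [hc0] at h2
        exact Can.byLab_eval hS R hm [A0] (altB true) [x] Δ2 b (hΓ1.trans hΔ2)
          (by simpa using hg0) (hx.mono hΔ2) h2 hb
    · simp only [hi, if_false] at hb h2
      have hbt : b = true := by simpa using hb
      subst hbt
      have : fQ lab q [(i, b')] = .bot := by
        unfold fQ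
        rw [if_neg]
        rintro ⟨_, h3⟩
        have := h3 (i, b') (by simp)
        simp at this
        exact hi this
      rw [this] at h2
      exact (Can.close_bot hS h2).weaken (by omega)
  · -- the expected parity is true
    have e1 : altB true [x] = x.1 := by
      rw [altB_cons_min (by simp), altB_nil]; cases x.1 <;> rfl
    have e2 : altB true [y] = !x.1 := by
      rw [hxy, altB_cons_min (by simp), altB_nil]; simp only [Lbl.opp]; cases x.1 <;> rfl
    have e3 : ∀ n, 1 ≤ n → xorB ((alph n).map fun a : Ltr =>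
        if a.1 = 0 then (if a.2 then altB true [x] else altB true [y]) else false) = true := by
      intro n
      induction n with
      | zero => intro h; omega
      | succ n ih =>
        intro _
        by_cases hn : n = 0
        · subst hn
          simp [alph, xorB, e1, e2]
        · have := ih (by omega)
          rw [alph] at this
          rw [alph, List.range_succ, List.flatMap_append, List.map_append, xorB_append, this]
          simp [hn]
    rw [e3 r hr]
    simp

end FregeEF
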