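import Pool.Agent.Work.MP_c07f0d_lc.Tucker

/-!
# The inductive step of the parity argument
-/

namespace FregeEF

variable {α : Type} {F : FregeSystem} {t S : ℕ}
variable {Base : Set (Fm α)} {lab : Finset Ltr → Lbl → Fm α} {q r c : ℕ}

theorem Can.tucker_leaf (hS : F.K * (t + 1) ≤ S) (R : LabRules F t S Base lab q r c) {m : ℕ}
    (hm : 2 * q ≤ 2 ^ m) {d : ℕ} (hd : d + 1 ≤ r) {Δ : Set (Fm α)} (hΔ : Base ⊆ Δ) (w : List Ltr)
    (hw : w.length = d + 1) (val : Fm α → Bool)
    (h1 : sg (val (fP lab q true w)) (fP lab q true w) ∈ Δ)
    (h2 : sg (val (fP lab q false (w.map Ltr.neg))) (fP lab q false (w.map Ltr.neg)) ∈ Δ)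
    (h3 : ∀ i < d + 1, sg (val (fG lab q i w)) (fG lab q i w) ∈ Δ)
    (hx : xor (val (fP lab q true w)) (xor (val (fP lab q false (w.map Ltr.neg)))
      (xorB ((List.range (d + 1)).map fun i => val (fG lab q i w)))) = true) :
    Can F t S (2 * (r * c) + (r * (m + 4) + c + 1)) Δ (fun _ => False) := by
  have hcond : (valid (w.map Ltr.neg) ∧ ((w.map Ltr.neg).length - 1, false) ∈ w.map Ltr.neg) ↔
      (valid w ∧ (w.length - 1, true) ∈ w) := by
    rw [valid_neg, List.length_map]
    refine and_congr_right fun _ => ?_
    rw [List.mem_map]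
    constructor
    · rintro ⟨a, ha, h⟩
      have : a = (w.length - 1, true) := by
        rw [← Ltr.neg_neg a, h]; rfl
      rw [← this]; exact ha
    · intro h
      exact ⟨_, h, rfl⟩
  by_cases hv : valid w ∧ (w.length - 1, true) ∈ w
  swap
  · have e1 : fP lab q true w = .bot := by unfold fP; rw [if_neg hv]
    have e2 : fP lab q false (w.map Ltr.neg) = .bot := by
      unfold fP; rw [if_neg (fun h => hv (hcond.1 h))]
    have e3 : ∀ i, fG lab q i w = .bot := by intro i; unfold fG; rw [if_neg hv]
    rw [e1] at h1
    cases hb : val .bot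
    · rw [e1, e2] at hx
      simp only [e3, hb] at hx
      rw [xorB_map_false _ _ (fun _ _ => rfl)] at hx
      simp at hx
    · rw [hb] at h1
      exact (Can.close_bot hS h1).weaken (by omega)
  have e1 : fP lab q true w = byLab lab q (altB true) (chain w) := by unfold fP; rw [if_pos hv]
  have e2 : fP lab q false (w.map Ltr.neg) =
      byLab lab q (altB true) (chain (w.map Ltr.neg)) := by
    unfold fP; rw [if_pos (hcond.2 hv)]
  have e3 : ∀ i, fG lab q i w = byLab lab q (altB true) ((chain w).eraseIdx i) := by
    intro i; unfold fG; rw [if_pos hv]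
  obtain ⟨hv, _⟩ := hv
  have hg := good_chain hv (r := r) (by omega)
  have hvn : valid (w.map Ltr.neg) := valid_neg.2 hv
  have hgn := good_chain hvn (r := r) (by rw [List.length_map]; omega)
  have hrc : (d + 1) * c ≤ r * c := Nat.mul_le_mul_right _ hd
  have hrm : (d + 1) * (m + 4) ≤ r * (m + 4) := Nat.mul_le_mul_right _ hd
  refine Can.bind (c1 := 2 * (r * c)) (Q1 := fun Δ' => ∃ ls ls', Labs lab q Δ' (chain w) ls ∧
    Labs lab q Δ' (chain (w.map Ltr.neg)) ls') ?_ ?_
  · refine Can.weaken (c := (chain w).length * c + (chain (w.map Ltr.neg)).length * c) ?_ (by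
      rw [length_chain, length_chain, List.length_map, hw]; omega)
    refine (Can.findLabs R (chain w) Δ hΔ hg).bind ?_
    rintro Δ' hΔ' ⟨ls, h4⟩
    refine (Can.findLabs R (chain (w.map Ltr.neg)) Δ' (hΔ.trans hΔ') hgn).mono le_rfl ?_
    rintro Δ'' hΔ'' ⟨ls', h5⟩
    exact ⟨ls, ls', Labs.mono hΔ'' h4, h5⟩
  rintro Δ' hΔ' ⟨ls, ls', h4, h5⟩
  have hB' : Base ⊆ Δ' := hΔ.trans hΔ'
  have hlen : ls.length = d + 1 := by
    have := List.Forall₂.length_eq h4
    rw [length_chain] at this
    omega
  have hlen' : ls'.length = d + 1 := by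
    have := List.Forall₂.length_eq h5
    rw [length_chain, List.length_map] at this
    omega
  by_cases hop : ls' = ls.map Lbl.opp
  swap
  · have : ∃ j, ∃ h1 : j < ls'.length, ∃ h2 : j < ls.length, ls'[j] ≠ (ls[j]).opp := by
      by_contra hcon
      push Not at hcon
      refine hop (List.ext_getElem (by rw [List.length_map, hlen, hlen']) ?_)
      intro j hj1 hj2
      rw [List.getElem_map]
      exact hcon j hj1 (by rw [List.length_map] at hj2; exact hj2)
    obtain ⟨j, hj1, hj2, hne⟩ := this
    have hj3 : j < (chain w).length := by rw [length_chain]; omega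
    have hj4 : j < (chain (w.map Ltr.neg)).length := by
      rw [length_chain, List.length_map]; omega
    have h6 := Labs.get h4 j hj3 hj2
    have h7 := Labs.get h5 j hj4 hj1
    have e4 : (chain (w.map Ltr.neg))[j] = negSet (chain w)[j] := by
      have := chain_neg w
      simp only [this, List.getElem_map]
    rw [e4] at h7
    exact (R.anti _ (hg _ (List.getElem_mem hj3)) Δ' hB' _ _ h6.1 h7.1 hne h6.2 h7.2).weaken
      (by omega)
  by_cases hcp : ∀ x ∈ ls, ∀ y ∈ ls, x.2 = y.2 → x.1 = y.1
  swap
  · push Not at hcp
    obtain ⟨x, hxl, y, hyl, hxy, hne⟩ := hcp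
    obtain ⟨i, hi, rfl⟩ := List.getElem_of_mem hxl
    obtain ⟨j, hj, rfl⟩ := List.getElem_of_mem hyl
    have hi3 : i < (chain w).length := by rw [length_chain]; omega
    have hj3 : j < (chain w).length := by rw [length_chain]; omega
    have h6 := Labs.get h4 i hi3 hi
    have h7 := Labs.get h4 j hj3 hj
    have hij : i ≠ j := by rintro rfl; exact hne rfl
    rcases lt_or_gt_of_ne hij with hlt | hlt
    · have hss := chain_ssubset hv hlt (by rw [length_chain] at hj3; exact hj3)
      rw [← getElem_chain w i hi3, ← getElem_chain w j hj3] at hss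
      have e4 : ls[j] = (ls[i]).opp := by
        refine Prod.ext ?_ hxy.symm
        simp only [Lbl.opp]
        cases h8 : (ls[i]).1 <;> cases h9 : (ls[j]).1 <;> simp_all
      rw [e4] at h7
      exact (R.comp _ _ (hg _ (List.getElem_mem hi3)) (hg _ (List.getElem_mem hj3)) hss Δ' hB' _
        h6.1 h6.2 h7.2).weaken (by omega)
    · have hss := chain_ssubset hv hlt (by rw [length_chain] at hi3; exact hi3)
      rw [← getElem_chain w i hi3, ← getElem_chain w j hj3] at hss
      have e4 : ls[i] = (ls[j]).opp := by
        refine Prod.ext ?_ hxy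
        simp only [Lbl.opp]
        cases h8 : (ls[i]).1 <;> cases h9 : (ls[j]).1 <;> simp_all
      rw [e4] at h6
      exact (R.comp _ _ (hg _ (List.getElem_mem hj3)) (hg _ (List.getElem_mem hi3)) hss Δ' hB' _
        h7.1 h7.2 h6.2).weaken (by omega)
  -- the expected values
  by_cases hv1 : val (fP lab q true w) = altB true ls
  swap
  · have h6 := hΔ' h1
    generalize val (fP lab q true w) = b at hv1 h6
    rw [e1] at h6
    refine (Can.byLab_eval hS R hm (chain w) (altB true) ls Δ' b hB' hg h4 h6 hv1).weaken ?_
    rw [length_chain, hw]; omega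
  by_cases hv2 : val (fP lab q false (w.map Ltr.neg)) = altB false ls
  swap
  · have h6 := hΔ' h2
    generalize val (fP lab q false (w.map Ltr.neg)) = b at hv2 h6
    rw [e2] at h6
    refine (Can.byLab_eval hS R hm (chain (w.map Ltr.neg)) (altB true) ls' Δ' b hB' hgn h5 h6
      ?_).weaken ?_
    · rw [hop, altB_opp]; exact hv2
    · rw [length_chain, List.length_map, hw]; omega
  by_cases hv3 : ∀ i < d + 1, val (fG lab q i w) = altB true (ls.eraseIdx i)
  swap
  · push Not at hv3
    obtain ⟨i, hi, hne⟩ := hv3
    have h6 := hΔ' (h3 i hi)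
    generalize val (fG lab q i w) = b at hne h6
    rw [e3] at h6
    refine (Can.byLab_eval hS R hm ((chain w).eraseIdx i) (altB true) (ls.eraseIdx i) Δ' b hB' ?_
      (Labs.eraseIdx h4 i) h6 hne).weaken ?_
    · intro A hA
      exact hg A (List.mem_of_mem_eraseIdx hA)
    · have h7 : ((chain w).eraseIdx i).length ≤ d + 1 := by
        refine (List.length_eraseIdx_le _ _).trans ?_
        rw [length_chain, hw]
      have h8 : ((chain w).eraseIdx i).length * (m + 4) ≤ (d + 1) * (m + 4) :=
        Nat.mul_le_mul_right _ h7
      omega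
  exfalso
  have h6 : (List.range (d + 1)).map (fun i => val (fG lab q i w)) =
      (List.range ls.length).map (fun i => altB true (ls.eraseIdx i)) := by
    rw [hlen]
    exact List.map_congr_left fun i hi => hv3 i (List.mem_range.1 hi)
  rw [h6, hv1, hv2, local_parity ls hcp] at hx
  revert hx
  cases altB true ls <;> cases altB false ls <;> simp

/-- Cost of a step. -/
def stepCost (r m c : ℕ) : ℕ :=
  (r + 4) + (r * (4 * (2 * r)) + (r * ((r + 3) * (2 * r)) + (2 * (r * c) + (r * (m + 4) + c + 1))) +
    (r * (2 * (2 * r)) + ((2 * r) * (2 * r) + 3 * (2 * r) + r * (2 * (2 * r)))) +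
    (r * (3 * (2 * r)) + (2 * r + (2 * r + 0))))

theorem Can.tucker_step (hS : F.K * (t + 1) ≤ S) (R : LabRules F t S Base lab q r c) {m s : ℕ}
    (hm : 2 * q ≤ 2 ^ m) (hs : ∀ A l, (lab A l).size ≤ s) (ht : tuckSize q r s ≤ t) {d : ℕ}
    (hd1 : 1 ≤ d) (hdr : d + 1 ≤ r) {Γ : Set (Fm α)} (hΓ : Base ⊆ Γ)
    (hprev : par (alph r) d (fQ lab q) ∈ Γ) :
    Can F t S (stepCost r m c) Γ (fun Δ => par (alph r) (d + 1) (fQ lab q) ∈ Δ) := by
  classical
  set al := alph r with hal
  have hlal : al.length = 2 * r := length_alph r
  -- sizes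
  have szQ : ∀ N ≤ r, ∀ u : List Ltr, u.length ≤ N → (lvl al N (fQ lab q) u).size ≤ t :=
    fun N hN u hu => (size_lvl_le' hN (fun w hw => size_fQ hs w (by omega)) u hu).trans ht
  have szP : ∀ b, ∀ N ≤ r, ∀ u : List Ltr, u.length ≤ N → (lvl al N (fP lab q b) u).size ≤ t :=
    fun b N hN u hu => (size_lvl_le' hN (fun w hw => size_fP hs b w (by omega)) u hu).trans ht
  have szG : ∀ i, ∀ N ≤ r, ∀ u : List Ltr, u.length ≤ N → (lvl al N (fG lab q i) u).size ≤ t :=
    fun i N hN u hu => (size_lvl_le' hN (fun w hw => size_fG hs i w (by omega)) u hu).trans ht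
  have szB : ∀ N ≤ r, ∀ u : List Ltr, u.length ≤ N →
      (lvl al N (fun _ => (.bot : Fm α)) u).size ≤ t := by
    intro N hN u hu
    refine (size_lvl_le' (q := q) (s := s) hN (fun w hw => ?_) u hu).trans ht
    have h0 : 0 < ((2 * q + 1) * (s + 3)) ^ r := by positivity
    simp only [Fm.size]; omega
  set N := d + 1 with hN
  -- the formulas
  set L : List (Fm α) := par al N (fQ lab q) :: par al N (fP lab q true) ::
    par al N (fP lab q false) :: (List.range N).map (fun i => par al N (fG lab q i)) with hL
  have hLlen : L.length = N + 3 := by simp [hL]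
  unfold stepCost
  refine Can.bind ((Can.queryAll L ?_).weaken (by omega)) ?_
  · intro φ hφ
    rw [hL] at hφ
    rcases List.mem_cons.1 hφ with rfl | hφ
    · exact szQ N hdr [] (by simp)
    rcases List.mem_cons.1 hφ with rfl | hφ
    · exact szP _ N hdr [] (by simp)
    rcases List.mem_cons.1 hφ with rfl | hφ
    · exact szP _ N hdr [] (by simp)
    obtain ⟨i, _, rfl⟩ := List.mem_map.1 hφ
    exact szG i N hdr [] (by simp)
  rintro Δ hΔ ⟨val, hval⟩
  have hB : Base ⊆ Δ := hΓ.trans hΔ
  have vQ : sg (val (par al N (fQ lab q))) (par al N (fQ lab q)) ∈ Δ := hval _ (by simp [hL])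
  have vP : ∀ b, sg (val (par al N (fP lab q b))) (par al N (fP lab q b)) ∈ Δ := by
    intro b; cases b <;> exact hval _ (by simp [hL])
  have vG : ∀ i < N, sg (val (par al N (fG lab q i))) (par al N (fG lab q i)) ∈ Δ := by
    intro i hi
    refine hval _ ?_
    rw [hL]
    refine List.mem_cons_of_mem _ (List.mem_cons_of_mem _ (List.mem_cons_of_mem _ ?_))
    exact List.mem_map.2 ⟨i, List.mem_range.2 hi, rfl⟩
  cases hq : val (par al N (fQ lab q))
  swap
  · rw [hq] at vQ
    exact (Can.ret vQ).weaken (by omega)
  -- (1) the decomposition of `fQ`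
  by_cases hx1 : xor (val (par al N (fQ lab q))) (xor (val (par al N (fP lab q true)))
      (xor (val (par al N (fP lab q false))) false)) = true
  · have := Can.descend (F := F) (t := t) (S := S) hS al
      [lvl al N (fQ lab q), lvl al N (fP lab q true), lvl al N (fP lab q false)] N
      (by
        intro h hh u hu _
        simp only [List.mem_cons, List.not_mem_nil, or_false] at hh
        rcases hh with rfl | rfl | rfl
        · exact ⟨_, List.Perm.refl _, lvl_step al N _ u hu⟩
        · exact ⟨_, List.Perm.refl _, lvl_step al N _ u hu⟩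
        · exact ⟨_, List.Perm.refl _, lvl_step al N _ u hu⟩)
      (by
        intro h hh u hu
        simp only [List.mem_cons, List.not_mem_nil, or_false] at hh
        rcases hh with rfl | rfl | rfl
        · exact szQ N hdr u hu
        · exact szP _ N hdr u hu
        · exact szP _ N hdr u hu)
      N [] Δ val le_rfl (by simp) (by simp)
      (by
        intro h hh
        simp only [List.mem_cons, List.not_mem_nil, or_false] at hh
        rcases hh with rfl | rfl | rfl
        · exact vQ
        · exact vP true
        · exact vP false)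
      (by simpa [lvl_nil] using hx1)
    refine Can.weaken (c := N * (3 * al.length + al.length) + 0) ?_ (by
      have : N * (4 * (2 * r)) ≤ r * (4 * (2 * r)) := Nat.mul_le_mul_right _ hdr
      rw [hlal, show 3 * (2 * r) + 2 * r = 4 * (2 * r) by ring]
      omega)
    refine this.bind ?_
    rintro Δ' hΔ' ⟨w, hw, _, val', h1, h2⟩
    have g1 := h1 (lvl al N (fQ lab q)) (by simp)
    have g2 := h1 (lvl al N (fP lab q true)) (by simp)
    have g3 := h1 (lvl al N (fP lab q false)) (by simp)
    simp only [List.map_cons, List.map_nil, xorB_cons, xorB_nil, Bool.xor_false] at h2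
    rw [lvl_full al N _ w hw] at g1 g2 g3 h2
    rw [lvl_full al N _ w hw, lvl_full al N _ w hw] at h2
    have hb : (Fm.bot : Fm α) ∈ Δ' := by
      rcases fP_cases lab q w (by omega) with ⟨c1, c2⟩ | ⟨c1, c2⟩
      · rw [c2] at g3
        rw [c1, c2] at h2
        have : val' .bot = true := by
          revert h2; cases val' (fQ lab q w) <;> cases val' .bot <;> simp
        rw [this] at g3
        exact g3
      · rw [c1] at g2
        rw [c1, c2] at h2
        have : val' .bot = true := by
          revert h2; cases val' (fQ lab q w) <;> cases val' .bot <;> simp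
        rw [this] at g2
        exact g2
    exact Can.close_bot hS hb
  -- (2) the local lemma
  by_cases hx2 : xor (val (par al N (fP lab q true))) (xor (val (par al N (fP lab q false)))
      (xorB ((List.range N).map fun i => val (par al N (fG lab q i))))) = true
  · have := Can.descend (F := F) (t := t) (S := S) hS al
      (lvl al N (fP lab q true) :: (fun u => lvl al N (fP lab q false) (u.map Ltr.neg)) ::
        (List.range N).map (fun i => lvl al N (fG lab q i))) N
      (by
        intro h hh u hu _
        rcases List.mem_cons.1 hh with rfl | hh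
        · exact ⟨_, List.Perm.refl _, lvl_step al N _ u hu⟩
        rcases List.mem_cons.1 hh with rfl | hh
        · refine ⟨_, ?_, lvl_step al N _ (u.map Ltr.neg) (by rw [List.length_map]; exact hu)⟩
          have hp := (alph_neg_perm r).symm.map
            (fun a => lvl al N (fP lab q false) (u.map Ltr.neg ++ [a]))
          rw [List.map_map] at hp
          refine hp.trans (List.Perm.of_eq ?_)
          refine List.map_congr_left fun a _ => ?_
          simp
        · obtain ⟨i, _, rfl⟩ := List.mem_map.1 hh
          exact ⟨_, List.Perm.refl _, lvl_step al N _ u hu⟩)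
      (by
        intro h hh u hu
        rcases List.mem_cons.1 hh with rfl | hh
        · exact szP _ N hdr u hu
        rcases List.mem_cons.1 hh with rfl | hh
        · exact szP _ N hdr _ (by rw [List.length_map]; exact hu)
        · obtain ⟨i, _, rfl⟩ := List.mem_map.1 hh
          exact szG i N hdr u hu)
      N [] Δ val le_rfl (by simp) (by simp)
      (by
        intro h hh
        rcases List.mem_cons.1 hh with rfl | hh
        · exact vP true
        rcases List.mem_cons.1 hh with rfl | hh
        · exact vP false
        · obtain ⟨i, hi, rfl⟩ := List.mem_map.1 hh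
          exact vG i (List.mem_range.1 hi))
      (by
        simp only [List.map_cons, xorB_cons, List.map_map]
        exact hx2)
    refine Can.weaken (c := N * ((N + 2) * al.length + al.length) +
      (2 * (r * c) + (r * (m + 4) + c + 1))) ?_ (by
      have h1 : N * ((r + 3) * (2 * r)) ≤ r * ((r + 3) * (2 * r)) := Nat.mul_le_mul_right _ hdr
      have h2 : N * ((N + 3) * (2 * r)) ≤ N * ((r + 3) * (2 * r)) :=
        Nat.mul_le_mul_left _ (Nat.mul_le_mul_right _ (by omega))
      rw [hlal, show (N + 2) * (2 * r) + 2 * r = (N + 3) * (2 * r) by ring]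
      omega)
    refine Can.bind (this.weaken (le_of_eq (by simp))) ?_
    rintro Δ' hΔ' ⟨w, hw, _, val', h1, h2⟩
    have g1 := h1 (lvl al N (fP lab q true)) (by simp)
    have g2 := h1 (fun u => lvl al N (fP lab q false) (u.map Ltr.neg)) (by simp)
    have g3 : ∀ i < N, sg (val' (lvl al N (fG lab q i) w)) (lvl al N (fG lab q i) w) ∈ Δ' := by
      intro i hi
      refine h1 (lvl al N (fG lab q i)) ?_
      refine List.mem_cons_of_mem _ (List.mem_cons_of_mem _ ?_)
      exact List.mem_map.2 ⟨i, List.mem_range.2 hi, rfl⟩
    simp only [List.map_cons, xorB_cons, List.map_map] at h2 g2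
    rw [lvl_full al N _ w hw] at g1
    rw [lvl_full al N _ (w.map Ltr.neg) (by rw [List.length_map]; exact hw)] at g2
    rw [lvl_full al N _ w hw, lvl_full al N _ (w.map Ltr.neg) (by rw [List.length_map]; exact hw)]
      at h2
    have h2' : (List.range N).map ((fun h => val' (h w)) ∘ fun i => lvl al N (fG lab q i)) =
        (List.range N).map fun i => val' (fG lab q i w) := by
      refine List.map_congr_left fun i _ => ?_
      simp only [Function.comp]
      rw [lvl_full al N _ w hw]
    rw [h2'] at h2
    refine (Can.tucker_leaf hS R hm hdr (hB.trans hΔ') w hw val' g1 g2 ?_ h2).false_elim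
    intro i hi
    have := g3 i hi
    rwa [lvl_full al N _ w hw] at this
  -- (3) the facets that cancel
  by_cases hx3 : ∀ i < d, val (par al N (fG lab q i)) = false
  swap
  · push Not at hx3
    obtain ⟨i, hi, hne⟩ := hx3
    have h1 := vG i (by omega)
    rw [show val (par al N (fG lab q i)) = true by simpa using hne] at h1
    refine (Can.par_swap hS al N i (by omega) (fG lab q i) ?_ ?_ (szG i N hdr)
      (fun n hn => szB n (by omega)) h1).weaken ?_
    · intro u a b v hu
      exact fG_swap lab q i u a b v hu
    · intro u a v _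
      exact fG_diag lab q i u a v
    · rw [hlal]
      have h2 : N * (2 * (2 * r)) ≤ r * (2 * (2 * r)) := Nat.mul_le_mul_right _ hdr
      omega
  -- (4) the last facet
  by_cases hx4 : val (par al N (fG lab q d)) = true
  swap
  · have h4 : val (par al N (fG lab q d)) = false := by simpa using hx4
    have hne : par al N (fG lab q d) ≠ par al d (fQ lab q) → True := fun _ => trivial
    -- a valuation for the two root formulas
    by_cases heq : par al d (fQ lab q) = par al N (fG lab q d)
    · have h5 := vG d (by omega)
      rw [h4] at h5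
      refine (Can.close_neg hS (par al N (fG lab q d)) ?_ h5).weaken (by omega)
      rw [← heq]; exact hΔ hprev
    have := Can.descend (F := F) (t := t) (S := S) hS al
      [lvl al N (fG lab q d), lvl al d (fQ lab q)] d
      (by
        intro h hh u hu _
        simp only [List.mem_cons, List.not_mem_nil, or_false] at hh
        rcases hh with rfl | rfl
        · exact ⟨_, List.Perm.refl _, lvl_step al N _ u (by omega)⟩
        · exact ⟨_, List.Perm.refl _, lvl_step al d _ u hu⟩)
      (by
        intro h hh u hu
        simp only [List.mem_cons, List.not_mem_nil, or_false] at hh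
        rcases hh with rfl | rfl
        · exact szG d N hdr u (by omega)
        · exact szQ d (by omega) u hu)
      d [] Δ (Function.update val (par al d (fQ lab q)) true) le_rfl (by simp) (by simp)
      (by
        intro h hh
        simp only [List.mem_cons, List.not_mem_nil, or_false] at hh
        rcases hh with rfl | rfl
        · rw [lvl_nil, Function.update_of_ne (fun h => heq h.symm)]
          exact vG d (by omega)
        · rw [lvl_nil, Function.update_self]
          exact hΔ hprev)
      (by
        simp only [List.map_cons, List.map_nil, xorB_cons, xorB_nil, lvl_nil]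
        rw [Function.update_of_ne (fun h => heq h.symm), Function.update_self, h4]
        rfl)
    refine Can.weaken (c := d * (2 * al.length + al.length) +
      (al.length + (al.length + 0))) ?_ (by
      have h1 : d * (3 * (2 * r)) ≤ r * (3 * (2 * r)) := Nat.mul_le_mul_right _ (by omega)
      rw [hlal, show 2 * (2 * r) + 2 * r = 3 * (2 * r) by ring]
      omega)
    refine this.bind ?_
    rintro Δ' hΔ' ⟨w, hw, _, val', h1, h2⟩
    have g1 := h1 (lvl al N (fG lab q d)) (by simp)
    have g2 := h1 (lvl al d (fQ lab q)) (by simp)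
    simp only [List.map_cons, List.map_nil, xorB_cons, xorB_nil, Bool.xor_false] at h2
    rw [lvl_full al d _ w hw] at g2 h2
    have e5 : lvl al N (fG lab q d) w = xorl (al.map fun a => fG lab q d (w ++ [a])) := by
      rw [lvl_step al N _ w (by omega)]
      congr 1
      refine List.map_congr_left fun a _ => ?_
      rw [lvl_full al N _ _ (by rw [List.length_append, List.length_singleton, hw])]
    generalize hbv : val' (lvl al N (fG lab q d) w) = b at g1 h2
    rw [e5] at g1
    -- query all last letters
    refine Can.bind ((Can.queryAll (al.map fun a => fG lab q d (w ++ [a])) ?_).weaken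
      (le_of_eq (by rw [List.length_map]))) ?_
    · intro φ hφ
      obtain ⟨a, _, rfl⟩ := List.mem_map.1 hφ
      have := szG d N hdr (w ++ [a]) (by rw [List.length_append, List.length_singleton, hw])
      rwa [lvl_full al N _ _ (by rw [List.length_append, List.length_singleton, hw])] at this
    rintro Δ2 hΔ2 ⟨v2, hv2⟩
    have hv2' : ∀ a ∈ al, sg (v2 (fG lab q d (w ++ [a]))) (fG lab q d (w ++ [a])) ∈ Δ2 :=
      fun a ha => hv2 _ (List.mem_map.2 ⟨a, ha, rfl⟩)
    by_cases hxx : b = xorB ((al.map fun a => fG lab q d (w ++ [a])).map v2)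
    swap
    · exact (Can.xorl_eval hS v2 _ Δ2 b hv2 (hΔ2 g1) hxx).weaken (by
        rw [List.length_map]; omega)
    have hmem : ∀ s, ((d, s) : Ltr) ∈ al := fun s => mem_alph.2 (by simp; omega)
    have k1 := hv2' (d, false) (hmem false)
    rw [fG_last_false lab q d w hw] at k1
    by_cases hbot : v2 .bot = true
    · rw [hbot] at k1
      exact (Can.close_bot hS k1).weaken (by omega)
    have k2 := hv2' (d, true) (hmem true)
    rw [fG_last_true lab q d w hw] at k2
    by_cases hvQ : v2 (fQ lab q w) = val' (fQ lab q w)
    swap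
    · exact (Can.sgClose hS hvQ k2 (hΔ2 g2)).weaken (by omega)
    exfalso
    have hsum : ∀ n, xorB ((alph n).map fun a => v2 (fG lab q d (w ++ [a]))) =
        if d < n then v2 (fQ lab q w) else false := by
      intro n
      induction n with
      | zero => simp [alph]
      | succ n ih =>
        have e6 : (alph (n + 1)).map (fun a => v2 (fG lab q d (w ++ [a]))) =
            (alph n).map (fun a => v2 (fG lab q d (w ++ [a]))) ++
            [v2 (fG lab q d (w ++ [(n, true)])), v2 (fG lab q d (w ++ [(n, false)]))] := by
          rw [alph, List.range_succ, List.flatMap_append, List.map_append]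
          rfl
        rw [e6, xorB_append, ih]
        by_cases hnd : n = d
        · subst hnd
          rw [fG_last_false lab q n w hw, fG_last_true lab q n w hw]
          simp [hbot]
        · rw [fG_flip lab q d w hw n hnd]
          by_cases hdn : d < n
          · have : d < n + 1 := by omega
            simp [hdn, this]
          · have : ¬ d < n + 1 := by omega
            simp [hdn, this]
    rw [List.map_map] at hxx
    have hs2 := hsum r
    rw [if_pos (by omega)] at hs2
    have e7 : b = v2 (fQ lab q w) := by
      rw [hxx, ← hs2]; rfl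
    rw [e7, hvQ] at h2
    simp at h2
  -- conclusion
  exfalso
  have hsum : xorB ((List.range N).map fun i => val (par al N (fG lab q i))) = true := by
    rw [hN, List.range_succ, List.map_append, xorB_append,
      xorB_map_false _ _ (fun i hi => hx3 i (List.mem_range.1 hi))]
    have : val (par al (d + 1) (fG lab q d)) = true := hx4
    simp [this]
  rw [hsum] at hx2
  rw [hq] at hx1
  revert hx1 hx2
  cases val (par al N (fP lab q true)) <;> cases val (par al N (fP lab q false)) <;> simp

theorem Can.tucker_up (hS : F.K * (t + 1) ≤ S) (R : LabRules F t S Base lab q r c) {m s : ℕ}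
    (hm : 2 * q ≤ 2 ^ m) (hs : ∀ A l, (lab A l).size ≤ s) (ht : tuckSize q r s ≤ t) (d : ℕ)
    (hdr : d + 1 ≤ r) {Γ : Set (Fm α)} (hΓ : Base ⊆ Γ) :
    Can F t S (1 + ((1 * c + 1 * c) + (2 * r + (2 * r + (1 * (m + 4) + c + 1)))) +
      d * stepCost r m c) Γ (fun Δ => par (alph r) (d + 1) (fQ lab q) ∈ Δ) := by
  induction d with
  | zero => exact (Can.tucker_base hS R hm hs (by omega) ht hΓ).weaken (by omega)
  | succ d ih =>
    rw [show (d + 1) * stepCost r m c = d * stepCost r m c + stepCost r m c by ring, ← add_assoc]
    refine (ih (by omega)).bind ?_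
    intro Δ hΔ h
    exact Can.tucker_step hS R hm hs ht (by omega) hdr (hΓ.trans hΔ) h

/-- The cost of the whole parity argument. -/
def tuckCost (r m c : ℕ) : ℕ :=
  1 + ((1 * c + 1 * c) + (2 * r + (2 * r + (1 * (m + 4) + c + 1)))) + r * stepCost r m c +
    (r * (2 * (2 * r)) + (r * c + (r * (m + 4) + c + 1)))

/-- There is no labelling with fewer values than coordinates. -/
theorem Can.tucker (hS : F.K * (t + 1) ≤ S) (R : LabRules F t S Base lab q r c) {m s : ℕ}
    (hm : 2 * q ≤ 2 ^ m) (hs : ∀ A l, (lab A l).size ≤ s) (ht : tuckSize q r s ≤ t)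
    (hqr : q < r) {Γ : Set (Fm α)} (hΓ : Base ⊆ Γ) :
    Can F t S (tuckCost r m c) Γ (fun _ => False) := by
  obtain ⟨d, rfl⟩ : ∃ d, r = d + 1 := ⟨r - 1, by omega⟩
  have h0 := Can.tucker_up hS R hm hs ht d le_rfl hΓ
  unfold tuckCost
  refine Can.bind (h0.weaken ?_) ?_
  · have : d * stepCost (d + 1) m c ≤ (d + 1) * stepCost (d + 1) m c :=
      Nat.mul_le_mul_right _ (by omega)
    omega
  intro Δ hΔ h
  set r := d + 1 with hr
  have hlal : (alph r).length = 2 * r := length_alph r
  have szQ : ∀ u : List Ltr, u.length ≤ r → (lvl (alph r) r (fQ lab q) u).size ≤ t :=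
    fun u hu => (size_lvl_le' le_rfl (fun w hw => size_fQ hs w (by omega)) u hu).trans ht
  have := Can.descend (F := F) (t := t) (S := S) hS (alph r) [lvl (alph r) r (fQ lab q)] r
    (by
      intro h hh u hu _
      simp only [List.mem_cons, List.not_mem_nil, or_false] at hh
      subst hh
      exact ⟨_, List.Perm.refl _, lvl_step _ r _ u hu⟩)
    (by
      intro h hh u hu
      simp only [List.mem_cons, List.not_mem_nil, or_false] at hh
      subst hh
      exact szQ u hu)
    r [] Δ (fun _ => true) le_rfl (by simp) (by simp)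
    (by
      intro h' hh
      simp only [List.mem_cons, List.not_mem_nil, or_false] at hh
      subst hh
      exact h) (by simp)
  refine Can.bind (this.weaken (c' := r * (2 * (2 * r))) ?_) ?_
  · simp only [List.length_cons, List.length_nil, hlal]
    exact le_of_eq (by ring)
  rintro Δ' hΔ' ⟨w, hw, _, val', h1, h2⟩
  have h3 := h1 (lvl (alph r) r (fQ lab q)) (by simp)
  simp only [List.map_cons, List.map_nil, xorB_cons, xorB_nil, Bool.xor_false] at h2
  rw [h2, lvl_full (alph r) r _ w hw] at h3
  by_cases hv : valid w
  · have e : fQ lab q w = byLab lab q (altB true) (chain w) := by unfold fQ; rw [if_pos hv]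
    rw [e] at h3
    have hg := good_chain hv (r := r) (by omega)
    refine Can.bind ((Can.findLabs R (chain w) Δ' (hΓ.trans (hΔ.trans hΔ')) hg).weaken
      (by rw [length_chain, hw])) ?_
    rintro Δ2 hΔ2 ⟨ls, h4⟩
    have hlen : ls.length = r := by
      have := List.Forall₂.length_eq h4
      rw [length_chain] at this
      omega
    refine (Can.byLab_eval hS R hm (chain w) (altB true) ls Δ2 true
      (hΓ.trans (hΔ.trans (hΔ'.trans hΔ2))) hg h4 (hΔ2 h3) ?_).weaken
      (by rw [length_chain, hw])
    rw [altB_short (q := q)]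
    · simp
    · intro x hx
      obtain ⟨j, hj, rfl⟩ := List.getElem_of_mem hx
      exact (Labs.get h4 j (by rw [length_chain]; omega) hj).1
    · omega
  · have e : fQ lab q w = .bot := by unfold fQ; rw [if_neg hv]
    rw [e] at h3
    exact (Can.close_bot hS h3).weaken (by omega)

end FregeEF
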